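import Pool.Agent.GNC.St

/-!
# GNC, module A: all `t ∈ T` have degree at most one
-/

set_option autoImplicit false

open Finset Filter

namespace Pool.Agent.GNC

/-- the contribution of the primes in `P` to `log B` -/
private theorem A_prod (P : Finset ℕ) (hP : ∀ p ∈ P, p.Prime) (B : ℤ) (hB : 0 < B) :
    ∑ p ∈ P, (padicValInt p B : ℝ) * Real.log p ≤ Real.log B := by
  obtain ⟨c, rfl⟩ := Int.eq_ofNat_of_zero_le hB.le
  have hc : 0 < c := by exact_mod_cast hB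
  have h1 : ∏ p ∈ P, p ^ padicValInt p (c : ℤ) ∣ c := by
    apply Finset.prod_dvd_of_isRelPrime
    · intro p hp q hq hpq
      exact Nat.coprime_iff_isRelPrime.1
        (Nat.Coprime.pow _ _ ((Nat.coprime_primes (hP p hp) (hP q hq)).2 hpq))
    · intro p hp
      rw [padicValInt.of_nat]
      exact pow_padicValNat_dvd
  have h2 := Nat.le_of_dvd hc h1
  have h3 : ((∏ p ∈ P, p ^ padicValInt p (c : ℤ) : ℕ) : ℝ) ≤ (c : ℝ) := by exact_mod_cast h2
  have h4 : (0 : ℝ) < ((∏ p ∈ P, p ^ padicValInt p (c : ℤ) : ℕ) : ℝ) := by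
    have : 0 < ∏ p ∈ P, p ^ padicValInt p (c : ℤ) :=
      Finset.prod_pos fun p hp => pow_pos (hP p hp).pos _
    exact_mod_cast this
  have h5 := Real.log_le_log h4 h3
  rw [Nat.cast_prod, Real.log_prod] at h5
  · refine le_trans (le_of_eq ?_) (h5.trans (le_of_eq ?_))
    · refine Finset.sum_congr rfl fun p _ => ?_
      rw [Nat.cast_pow, Real.log_pow]
    · norm_cast
  · intro p hp
    have : 0 < p ^ padicValInt p (c : ℤ) := pow_pos (hP p hp).pos _
    exact_mod_cast this.ne'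

/-- at most one large prime divides the numerator of `n + β` -/
private theorem A_bad (β : ℚ) : ∃ X1 : ℕ, ∀ X n : ℕ, X1 ≤ X → n ≤ 3 * X → ∀ p q : ℕ,
    p.Prime → q.Prime → X < p → X < q → padicValRat p ((n : ℚ) + β) ≠ 0 →
    padicValRat q ((n : ℚ) + β) ≠ 0 → p = q := by
  refine ⟨3 * β.den + β.num.natAbs + 1, fun X n hX hn p q hp hq hXp hXq h1 h2 => ?_⟩
  have hden : 0 < β.den := β.den_pos
  have hz : (n : ℚ) + β = (((n : ℤ) * β.den + β.num : ℤ) : ℚ) / ((β.den : ℕ) : ℚ) := by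
    have h0 : ((β.den : ℕ) : ℚ) ≠ 0 := by exact_mod_cast hden.ne'
    rw [eq_div_iff h0]
    push_cast
    rw [add_mul, Rat.mul_den_eq_num]
  have key : ∀ r : ℕ, r.Prime → X < r → padicValRat r ((n : ℚ) + β) ≠ 0 →
      ((r : ℤ) ∣ (n : ℤ) * β.den + β.num) ∧ (n : ℤ) * β.den + β.num ≠ 0 := by
    intro r hr hXr h
    have := Fact.mk hr
    have hz0 : (n : ℤ) * β.den + β.num ≠ 0 := by
      intro h0
      apply h
      rw [hz, h0]
      simp
    refine ⟨?_, hz0⟩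
    by_contra hd
    apply h
    rw [hz, padicValRat.div (by exact_mod_cast hz0) (by exact_mod_cast hden.ne'),
      padicValRat.of_int, padicValRat.of_nat, padicValInt.eq_zero_of_not_dvd hd,
      padicValNat.eq_zero_of_not_dvd (Nat.not_dvd_of_pos_of_lt hden (by omega))]
    simp
  obtain ⟨d1, hz0⟩ := key p hp hXp h1
  obtain ⟨d2, -⟩ := key q hq hXq h2
  by_contra hpq
  have hco : IsCoprime (p : ℤ) (q : ℤ) :=
    Nat.isCoprime_iff_coprime.2 ((Nat.coprime_primes hp hq).2 hpq)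
  have hd := hco.mul_dvd d1 d2
  have h3 : ((p : ℤ) * q).natAbs ≤ ((n : ℤ) * β.den + β.num).natAbs :=
    Nat.le_of_dvd (Int.natAbs_pos.2 hz0) (Int.natAbs_dvd_natAbs.2 hd)
  have h4 : ((p : ℤ) * q).natAbs = p * q := by
    rw [Int.natAbs_mul, Int.natAbs_natCast, Int.natAbs_natCast]
  have h5 : ((n : ℤ) * β.den + β.num).natAbs ≤ n * β.den + β.num.natAbs := by
    refine (Int.natAbs_add_le _ _).trans (le_of_eq ?_)
    rw [Int.natAbs_mul, Int.natAbs_natCast, Int.natAbs_natCast]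
  have h6 : n * β.den ≤ 3 * X * β.den := Nat.mul_le_mul_right _ hn
  have h7 : X * X ≤ p * q := Nat.mul_le_mul hXp.le hXq.le
  have h8 : X * (3 * β.den + β.num.natAbs + 1) ≤ X * X := Nat.mul_le_mul_left _ hX
  have h9 : β.num.natAbs ≤ X * β.num.natAbs := Nat.le_mul_of_pos_left _ (by omega)
  rw [h4] at h3
  nlinarith

theorem thm_A (h1 : St_A1) (hP : St_P) : St_A := by
  intro b d hVF hb hC
  by_contra hcon
  push Not at hcon
  obtain ⟨t0, ht0, hdeg⟩ := hcon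
  -- the maximal degree
  obtain ⟨t1, ht1, hmax⟩ := d.T.exists_max_image (fun t => t.2.1 + t.2.2) ⟨t0, ht0⟩
  set m := t1.2.1 + t1.2.2 with hm
  have hm2 : 2 ≤ m := by
    have := hmax t0 ht0
    omega
  obtain ⟨δ, ρ1, ρ2, p1, hδ, hρ1, hρ12, hρ2, hA⟩ := h1 d m (by omega) hmax ⟨t1, ht1, rfl⟩
  obtain ⟨M, N, p0, hM, hv⟩ := hVF
  obtain ⟨N1, hN1⟩ := eventually_atTop.1 hb
  obtain ⟨C, hC⟩ := hC
  obtain ⟨N2, hN2⟩ := eventually_atTop.1 hC
  choose X1 hX1 using A_bad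
  have hD : (1 : ℝ) ≤ d.D := by exact_mod_cast d.hD
  -- choice of `K` and `X0`
  set lam : ℝ := (1 + ρ2 / ρ1) / 2 with hlam
  have hr : 1 < ρ2 / ρ1 := by rwa [one_lt_div hρ1]
  have hlam1 : 1 < lam := by rw [hlam]; linarith
  have hlam2 : ρ1 * lam = (ρ1 + ρ2) / 2 := by
    rw [hlam]
    field_simp
  obtain ⟨K0, hK0⟩ := exists_nat_gt (2 * d.D * |C| / δ)
  obtain ⟨Y1, hY1⟩ := exists_nat_gt (2 / (ρ2 - ρ1))
  obtain ⟨Y2, hY2⟩ := exists_nat_gt ((N + N1 + N2 + 2 : ℝ) / ρ1)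
  obtain ⟨X, hX0, P, hK, hPp⟩ := hP M hM lam hlam1 (K0 + #d.U)
    (Y1 + Y2 + p0 + p1 + 4 + ∑ u ∈ d.U, X1 u.1)
  have hXpos : (4 : ℝ) ≤ X := by
    have : 4 ≤ X := by omega
    exact_mod_cast this
  set n : ℕ := ⌊ρ2 * X⌋₊ with hn
  have hρ2pos : 0 < ρ2 := hρ1.trans hρ12
  have hn1 : (n : ℝ) ≤ ρ2 * X := Nat.floor_le (by positivity)
  have hn2 : ρ2 * X < n + 1 := Nat.lt_floor_add_one _
  have hXY1 : (2 : ℝ) / (ρ2 - ρ1) ≤ X := by
    have : Y1 ≤ X := by omega
    have : (Y1 : ℝ) ≤ X := by exact_mod_cast this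
    linarith
  have hXY2 : (N + N1 + N2 + 2 : ℝ) ≤ ρ1 * X := by
    have : Y2 ≤ X := by omega
    have : (Y2 : ℝ) ≤ X := by exact_mod_cast this
    have h3 : (N + N1 + N2 + 2 : ℝ) / ρ1 ≤ X := by linarith
    rw [div_le_iff₀ hρ1] at h3
    linarith
  have hgap : 2 ≤ (ρ2 - ρ1) * X := by
    rw [div_le_iff₀ (by linarith)] at hXY1
    linarith
  have hn3 : (ρ1 + ρ2) / 2 * X ≤ n := by nlinarith
  have hn4 : ρ1 * X ≤ n := by nlinarith
  have hnN : N + N1 + N2 + 2 ≤ n := by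
    have : (N + N1 + N2 + 2 : ℝ) ≤ n := hXY2.trans hn4
    exact_mod_cast this
  have hn3X : n ≤ 3 * X := by
    have : (n : ℝ) ≤ 3 * X := by nlinarith
    exact_mod_cast this
  -- the good primes
  classical
  set P' := P.filter (fun p => ∀ u ∈ d.U, padicValRat p ((n : ℚ) + u.1) = 0) with hP'
  have hcard : K0 ≤ #P' := by
    have hsub : P \ P' ⊆ d.U.biUnion fun u => P.filter fun p => padicValRat p ((n : ℚ) + u.1) ≠ 0 := by
      intro p hp
      rw [Finset.mem_sdiff, hP', mem_filter, not_and] at hp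
      have := hp.2 hp.1
      push Not at this
      obtain ⟨u, hu, hne⟩ := this
      rw [mem_biUnion]
      exact ⟨u, hu, mem_filter.2 ⟨hp.1, hne⟩⟩
    have hle : #(P \ P') ≤ #d.U := by
      refine (card_le_card hsub).trans (card_biUnion_le.trans ?_)
      refine (sum_le_card_nsmul _ _ 1 fun u hu => ?_).trans (by simp)
      rw [card_le_one]
      intro p hp q hq
      rw [mem_filter] at hp hq
      have hXu : X1 u.1 ≤ X := by
        have : X1 u.1 ≤ ∑ u ∈ d.U, X1 u.1 :=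
          single_le_sum (f := fun u : ℚ × ℕ => X1 u.1) (fun _ _ => Nat.zero_le _) hu
        omega
      exact hX1 u.1 X n hXu hn3X p q (hPp p hp.1).1 (hPp q hq.1).1 (hPp p hp.1).2.2.1
        (hPp q hq.1).2.2.1 hp.2 hq.2
    have := card_sdiff_add_card_eq_card (filter_subset (fun p => ∀ u ∈ d.U,
      padicValRat p ((n : ℚ) + u.1) = 0) P)
    rw [← hP'] at this
    omega
  have hP'sub : ∀ p ∈ P', p ∈ P := fun p hp => (mem_filter.1 hp).1
  have hval : ∀ p ∈ P', δ * (n : ℝ) ^ m ≤ d.D * (padicValInt p (b n) : ℝ) := by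
    intro p hp
    obtain ⟨hp1, hp2, hp3, hp4⟩ := hPp p (hP'sub p hp)
    have hp3' : (X : ℝ) < p := by exact_mod_cast hp3
    have e1 := hv p hp1 (by omega) hp2 n (by omega) (by omega)
    have e2 := hA p n (by omega) (by nlinarith) (by nlinarith)
    have e3 : ∑ u ∈ d.U, (d.e u : ℝ) * ((n : ℝ) ^ u.2 * (padicValRat p ((n : ℚ) + u.1) : ℝ)) = 0 := by
      refine sum_eq_zero fun u hu => ?_
      rw [(mem_filter.1 hp).2 u hu]
      simp
    rw [NFD.vp, e3, add_zero] at e1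
    rw [← e1] at e2
    rwa [abs_of_nonneg (by positivity)] at e2
  have hlogX : 0 < Real.log X := Real.log_pos (by linarith)
  have hsum := A_prod P' (fun p hp => (hPp p (hP'sub p hp)).1) (b n) (hN1 n (by omega))
  have hlow : (#P' : ℝ) * (δ * (n : ℝ) ^ m * Real.log X) ≤
      d.D * ∑ p ∈ P', (padicValInt p (b n) : ℝ) * Real.log p := by
    rw [mul_sum, ← nsmul_eq_mul]
    refine card_nsmul_le_sum _ _ _ fun p hp => ?_
    have hp3 : (X : ℝ) < p := by exact_mod_cast (hPp p (hP'sub p hp)).2.2.1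
    have e1 := hval p hp
    have e2 : Real.log X ≤ Real.log p := Real.log_le_log (by linarith) hp3.le
    rw [← mul_assoc]
    exact mul_le_mul e1 e2 hlogX.le (by positivity)
  have hup := hN2 n (by omega)
  have hnpos : (1 : ℝ) ≤ n := by
    have : 1 ≤ n := by omega
    exact_mod_cast this
  have hlogn : Real.log n ≤ 2 * Real.log X := by
    have h3 : (n : ℝ) ≤ (X : ℝ) * X := by
      have : (n : ℝ) ≤ 3 * X := by exact_mod_cast hn3X
      nlinarith
    have h4 := Real.log_le_log (by linarith) h3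
    rw [Real.log_mul (by linarith) (by linarith)] at h4
    linarith
  have hlogn0 : 0 ≤ Real.log n := Real.log_nonneg hnpos
  have hpow : (n : ℝ) ^ 2 ≤ (n : ℝ) ^ m := pow_le_pow_right₀ hnpos hm2
  have hn2pos : (0 : ℝ) < (n : ℝ) ^ 2 := by positivity
  have hfin : (#P' : ℝ) * (δ * (n : ℝ) ^ 2 * Real.log X) ≤
      d.D * (|C| * ((n : ℝ) ^ 2 * (2 * Real.log X))) := by
    calc (#P' : ℝ) * (δ * (n : ℝ) ^ 2 * Real.log X)
        ≤ (#P' : ℝ) * (δ * (n : ℝ) ^ m * Real.log X) := by gcongr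
      _ ≤ d.D * Real.log (b n) := hlow.trans (by gcongr)
      _ ≤ d.D * (C * ((n : ℝ) ^ 2 * Real.log n)) := by gcongr
      _ ≤ d.D * (|C| * ((n : ℝ) ^ 2 * (2 * Real.log X))) := by
        gcongr
        exact le_abs_self C
  have h5 : (#P' : ℝ) * δ ≤ 2 * d.D * |C| := by
    have h6 : ((#P' : ℝ) * δ) * ((n : ℝ) ^ 2 * Real.log X) ≤
        (2 * d.D * |C|) * ((n : ℝ) ^ 2 * Real.log X) := by linarith
    exact le_of_mul_le_mul_right h6 (by positivity)
  have h6 : (K0 : ℝ) ≤ #P' := by exact_mod_cast hcard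
  rw [div_lt_iff₀ hδ] at hK0
  nlinarith

end Pool.Agent.GNC
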