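import Pool.Agent.GNC.St

/-!
# GNC, module A1: lower bound for the main part of the valuation formula in a window
-/

set_option autoImplicit false

open Finset Filter

namespace Pool.Agent.GNC

/-- A nonzero real polynomial is bounded away from zero on a subinterval of every interval. -/
theorem A1_int (R : Polynomial ℝ) (hR : R ≠ 0) (a b : ℝ) (hab : a < b) :
    ∃ y1 y2 ε : ℝ, a < y1 ∧ y1 < y2 ∧ y2 < b ∧ 0 < ε ∧
      ∀ y : ℝ, y1 ≤ y → y ≤ y2 → ε ≤ |R.eval y| := by
  obtain ⟨y0, hy0, hr0⟩ := (Set.Ioo_infinite hab).exists_notMem_finset R.roots.toFinset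
  have hev : R.eval y0 ≠ 0 := by
    intro h
    apply hr0
    rw [Multiset.mem_toFinset, Polynomial.mem_roots hR]
    exact h
  have hpos : 0 < |R.eval y0| := abs_pos.2 hev
  have hcont : Continuous fun y : ℝ => |R.eval y| := R.continuous.abs
  have hev2 : ∀ᶠ y in nhds y0, |R.eval y0| / 2 < |R.eval y| :=
    hcont.continuousAt.eventually_const_lt (by linarith)
  have hIoo : ∀ᶠ y in nhds y0, y ∈ Set.Ioo a b := Ioo_mem_nhds hy0.1 hy0.2
  obtain ⟨r, hr, hball⟩ := Metric.eventually_nhds_iff.1 (hev2.and hIoo)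
  have hin : ∀ y : ℝ, y0 - r / 2 ≤ y → y ≤ y0 + r / 2 → dist y y0 < r := by
    intro y h1 h2
    rw [Real.dist_eq, abs_lt]
    constructor <;> linarith
  refine ⟨y0 - r / 2, y0 + r / 2, |R.eval y0| / 2, ?_, by linarith, ?_, by linarith, ?_⟩
  · exact (hball (hin _ le_rfl (by linarith))).2.1
  · exact (hball (hin _ (by linarith) le_rfl)).2.2
  · intro y h1 h2
    exact (hball (hin y h1 h2)).1.le

/-- The polynomial of the main part is not zero. -/
theorem A1_ne (T : Finset (ℚ × ℕ × ℕ)) (c : ℚ × ℕ × ℕ → ℤ)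
    (hinj : ∀ s ∈ T, ∀ t ∈ T, s.2.2 = t.2.2 → s = t) (t : ℚ × ℕ × ℕ) (ht : t ∈ T)
    (hc : c t ≠ 0) :
    (∑ s ∈ T, Polynomial.C (c s : ℝ) * Polynomial.X ^ s.2.2 : Polynomial ℝ) ≠ 0 := by
  intro h
  have h1 : (∑ s ∈ T, Polynomial.C (c s : ℝ) * Polynomial.X ^ s.2.2 : Polynomial ℝ).coeff t.2.2
      = (c t : ℝ) := by
    rw [Polynomial.finsetSum_coeff, Finset.sum_eq_single t]
    · rw [Polynomial.coeff_C_mul_X_pow, if_pos rfl]
    · intro s hs hst
      rw [Polynomial.coeff_C_mul_X_pow, if_neg]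
      intro h2
      exact hst (hinj s hs t ht h2.symm)
    · intro h2; exact absurd ht h2
  rw [h, Polynomial.coeff_zero] at h1
  exact hc (by exact_mod_cast h1.symm)

/-- A gap to the right of a number. -/
theorem A1_gap (S : Finset ℝ) (a : ℝ) : ∃ r : ℝ, a < r ∧ r ≤ a + 1 ∧ ∀ x ∈ S, a < x → r ≤ x := by
  classical
  induction S using Finset.induction_on with
  | empty => exact ⟨a + 1, by linarith, le_rfl, by simp⟩
  | insert x S hx ih =>
    obtain ⟨r, h1, h2, h3⟩ := ih
    by_cases hax : a < x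
    · refine ⟨min r x, lt_min h1 hax, (min_le_left _ _).trans h2, ?_⟩
      intro y hy hay
      rcases Finset.mem_insert.1 hy with rfl | hy
      · exact min_le_right _ _
      · exact (min_le_left _ _).trans (h3 y hy hay)
    · refine ⟨r, h1, h2, ?_⟩
      intro y hy hay
      rcases Finset.mem_insert.1 hy with rfl | hy
      · exact absurd hay hax
      · exact h3 y hy hay

/-- A multiple of a positive number. -/
theorem A1_big (κ C : ℝ) (hκ : 0 < κ) : ∃ p1 : ℕ, ∀ p : ℕ, p1 ≤ p → C ≤ κ * p := by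
  obtain ⟨p1, hp1⟩ := exists_nat_ge (C / κ)
  refine ⟨p1, fun p hp => ?_⟩
  have h1 : C / κ ≤ p := hp1.trans (by exact_mod_cast hp)
  rw [div_le_iff₀ hκ] at h1
  linarith

theorem thm_A1 : St_A1 := by
  intro d m hm hdeg hex
  classical
  -- the smallest `α` of degree `m`
  set Tm : Finset (ℚ × ℕ × ℕ) := d.T.filter (fun t => t.2.1 + t.2.2 = m) with hTm
  have hTmne : Tm.Nonempty := by
    obtain ⟨t, ht, h⟩ := hex
    exact ⟨t, Finset.mem_filter.2 ⟨ht, h⟩⟩
  obtain ⟨t0, ht0, hmin⟩ := Finset.exists_min_image Tm (fun t => t.1) hTmne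
  have ht0T : t0 ∈ d.T := (Finset.mem_filter.1 ht0).1
  set al : ℝ := (t0.1 : ℝ) with hal
  have hal0 : 0 < al := by rw [hal]; exact_mod_cast (d.hT t0 ht0T).1
  have hal1 : al ≤ 1 := by rw [hal]; exact_mod_cast (d.hT t0 ht0T).2
  obtain ⟨rs, hrs1, hrs2, hrs3⟩ := A1_gap (d.T.image fun t => (t.1 : ℝ)) al
  set T0 : Finset (ℚ × ℕ × ℕ) := Tm.filter (fun t => t.1 = t0.1) with hT0
  have hT0mem : ∀ t, t ∈ T0 ↔ t ∈ d.T ∧ t.2.1 + t.2.2 = m ∧ t.1 = t0.1 := by
    intro t
    rw [hT0, hTm, Finset.mem_filter, Finset.mem_filter]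
    tauto
  set R : Polynomial ℝ := ∑ s ∈ T0, Polynomial.C (d.c s : ℝ) * Polynomial.X ^ s.2.2 with hRdef
  have hR : R ≠ 0 := by
    apply A1_ne T0 d.c _ t0 _ (d.hc t0 ht0T)
    · intro s hs t ht hst
      have h1 := (hT0mem s).1 hs
      have h2 := (hT0mem t).1 ht
      refine Prod.ext (h1.2.2.trans h2.2.2.symm) (Prod.ext ?_ hst)
      have := h1.2.1; have := h2.2.1
      omega
    · rw [hT0mem]; exact ⟨ht0T, (Finset.mem_filter.1 ht0).2, rfl⟩
  have hrs0 : 0 < rs := by linarith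
  have hab : al / rs < 1 := by rw [div_lt_one hrs0]; exact hrs1
  obtain ⟨y1, y2, ε, hy1, hy12, hy2, hε, hRy⟩ := A1_int R hR (al / rs) 1 hab
  have hy1pos : 0 < y1 := lt_trans (by positivity) hy1
  have hy2pos : 0 < y2 := hy1pos.trans hy12
  have hρ1 : al / y2 < al / y1 := div_lt_div_of_pos_left hal0 hy1pos hy12
  have hal_y2 : al < al / y2 := by
    rw [lt_div_iff₀ hy2pos]; exact mul_lt_of_lt_one_right hal0 hy2
  have hy1rs : al / y1 < rs := by
    rw [div_lt_iff₀ hrs0] at hy1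
    rw [div_lt_iff₀ hy1pos]; linarith
  set ρ1 : ℝ := al / y2 with hρ1def
  set ρ2 : ℝ := (ρ1 + al / y1) / 2 with hρ2def
  have h12 : ρ1 < ρ2 := by rw [hρ2def]; linarith
  have h2y : ρ2 < al / y1 := by rw [hρ2def]; linarith
  have h2rs : ρ2 < rs := h2y.trans hy1rs
  have hρ1pos : 0 < ρ1 := by positivity
  have hρ2pos : 0 < ρ2 := hρ1pos.trans h12
  set C : ℝ := ∑ t ∈ d.T, 3 * |(d.c t : ℝ)| with hC
  obtain ⟨pa, hpa⟩ := A1_big (al / y1 - ρ2) (al / y1) (by linarith)
  obtain ⟨pb, hpb⟩ := A1_big (rs - ρ2) 1 (by linarith)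
  obtain ⟨pc, hpc⟩ := A1_big (ε / 2 * ρ1) C (by positivity)
  refine ⟨ε / 2, ρ1, ρ2, max (max pa pb) (max pc 2), by positivity, hρ1pos, h12, by linarith, ?_⟩
  intro p n hp hn1 hn2
  have hA := hpa p ((le_max_left _ _).trans ((le_max_left _ _).trans hp))
  have hB := hpb p ((le_max_right _ _).trans ((le_max_left _ _).trans hp))
  have hCC := hpc p ((le_max_left _ _).trans ((le_max_right _ _).trans hp))
  have hp2 : 2 ≤ p := (le_max_right _ _).trans ((le_max_right _ _).trans hp)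
  have hp2r : (2 : ℝ) ≤ p := by exact_mod_cast hp2
  have hnpos : (0 : ℝ) < n := lt_of_lt_of_le (by positivity) hn1
  have hn1' : (1 : ℝ) ≤ n := by
    have : 0 < n := by exact_mod_cast hnpos
    exact_mod_cast this
  set y : ℝ := al * (p - 1) / n with hy
  have hyge : y1 ≤ y := by
    rw [hy, le_div_iff₀ hnpos]
    have h1 : (n : ℝ) ≤ al / y1 * (p - 1) := by linarith
    have h2 : al / y1 * (p - 1) * y1 = al * (p - 1) := by field_simp
    have h3 := mul_le_mul_of_nonneg_right h1 hy1pos.le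
    rw [h2] at h3
    linarith
  have hyle : y ≤ y2 := by
    rw [hy, div_le_iff₀ hnpos]
    have h1 : al / y2 * (p - 1) ≤ n := by
      have h3 : ρ1 * (p - 1) ≤ ρ1 * p := mul_le_mul_of_nonneg_left (by linarith) hρ1pos.le
      exact h3.trans hn1
    have h2 : al / y2 * (p - 1) * y2 = al * (p - 1) := by field_simp
    have h3 := mul_le_mul_of_nonneg_right h1 hy2pos.le
    rw [h2] at h3
    linarith
  have hmain := hRy y hyge hyle
  -- split every term
  set g : ℚ × ℕ × ℕ → ℝ := fun t =>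
    if t ∈ T0 then (d.c t : ℝ) * ((n : ℝ) ^ t.2.1 * (al * (p - 1)) ^ t.2.2) else 0 with hg
  set f : ℚ × ℕ × ℕ → ℝ := fun t => (d.c t : ℝ) * ((n : ℝ) ^ t.2.1 * ∑ i ∈ range 3,
        (if (t.1 : ℝ) * (p - 1) + i * p < n then ((t.1 : ℝ) * (p - 1) + i * p) ^ t.2.2 else 0))
    with hf
  have hfg : ∀ t ∈ d.T, |f t - g t| ≤ 3 * |(d.c t : ℝ)| * (n : ℝ) ^ (m - 1) := by
    intro t ht
    have ht0' : (0 : ℝ) < (t.1 : ℝ) := by exact_mod_cast (d.hT t ht).1
    have ht1' : (t.1 : ℝ) ≤ 1 := by exact_mod_cast (d.hT t ht).2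
    by_cases hdm : t.2.1 + t.2.2 = m
    · -- degree `m`
      have hle : t0.1 ≤ t.1 := hmin t (Finset.mem_filter.2 ⟨ht, hdm⟩)
      have hzero : f t - g t = 0 := by
        by_cases he : t.1 = t0.1
        · have hmem : t ∈ T0 := (hT0mem t).2 ⟨ht, hdm, he⟩
          have hea : (t.1 : ℝ) = al := by rw [he]
          rw [hf, hg]
          simp only [if_pos hmem]
          rw [Finset.sum_range_succ, Finset.sum_range_succ, Finset.sum_range_succ,
            Finset.sum_range_zero, hea]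
          have h0 : al * ((p : ℝ) - 1) + ((0 : ℕ) : ℝ) * p < n := by
            push_cast
            have h3 : al * (p : ℝ) ≤ ρ1 * p :=
              mul_le_mul_of_nonneg_right hal_y2.le (by linarith)
            linarith
          have h4 : rs * (p : ℝ) ≤ (al + 1) * p := mul_le_mul_of_nonneg_right hrs2 (by linarith)
          have h1 : ¬ (al * ((p : ℝ) - 1) + ((1 : ℕ) : ℝ) * p < n) := by
            push_cast; linarith
          have h2 : ¬ (al * ((p : ℝ) - 1) + ((2 : ℕ) : ℝ) * p < n) := by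
            push_cast; linarith
          rw [if_pos h0, if_neg h1, if_neg h2]
          push_cast
          ring
        · have hlt : t0.1 < t.1 := lt_of_le_of_ne hle (Ne.symm he)
          have hltr : al < (t.1 : ℝ) := by rw [hal]; exact_mod_cast hlt
          have hge := hrs3 (t.1 : ℝ) (Finset.mem_image_of_mem _ ht) hltr
          have hnm : t ∉ T0 := fun h => he ((hT0mem t).1 h).2.2
          rw [hf, hg]
          simp only [if_neg hnm]
          rw [Finset.sum_eq_zero, mul_zero, mul_zero, sub_zero]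
          intro i _
          rw [if_neg]
          have hi : (0 : ℝ) ≤ (i : ℝ) * p := by positivity
          have h4 : rs * (p : ℝ) ≤ (t.1 : ℝ) * p := mul_le_mul_of_nonneg_right hge (by linarith)
          push Not
          linarith
      rw [hzero, abs_zero]
      positivity
    · have hlt : t.2.1 + t.2.2 ≤ m - 1 := by have := hdeg t ht; omega
      have hnm : t ∉ T0 := fun h => hdm ((hT0mem t).1 h).2.1
      rw [hf, hg]
      simp only [if_neg hnm, sub_zero]
      rw [abs_mul, mul_comm 3, mul_assoc]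
      apply mul_le_mul_of_nonneg_left _ (abs_nonneg _)
      have hS : ∀ i ∈ range 3,
          (if (t.1 : ℝ) * (p - 1) + i * p < n then ((t.1 : ℝ) * (p - 1) + i * p) ^ t.2.2 else 0)
            ≤ (n : ℝ) ^ t.2.2 := by
        intro i _
        split_ifs with h
        · apply pow_le_pow_left₀ _ h.le
          exact add_nonneg (mul_nonneg ht0'.le (by linarith)) (by positivity)
        · positivity
      have hS0 : ∀ i ∈ range 3, 0 ≤
          (if (t.1 : ℝ) * (p - 1) + i * p < n then ((t.1 : ℝ) * (p - 1) + i * p) ^ t.2.2 else 0)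
            := by
        intro i _
        split_ifs with h
        · apply pow_nonneg
          exact add_nonneg (mul_nonneg ht0'.le (by linarith)) (by positivity)
        · exact le_rfl
      have hsum := Finset.sum_le_sum hS
      rw [Finset.sum_const, Finset.card_range, nsmul_eq_mul] at hsum
      push_cast at hsum
      have hsum0 := Finset.sum_nonneg hS0
      rw [abs_of_nonneg (by positivity)]
      calc (n : ℝ) ^ t.2.1 * _ ≤ (n : ℝ) ^ t.2.1 * (3 * (n : ℝ) ^ t.2.2) :=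
            mul_le_mul_of_nonneg_left hsum (by positivity)
        _ = 3 * (n : ℝ) ^ (t.2.1 + t.2.2) := by rw [pow_add]; ring
        _ ≤ 3 * (n : ℝ) ^ (m - 1) := by
            have := pow_le_pow_right₀ hn1' hlt
            linarith
  have hsumg : ∑ t ∈ d.T, g t = (n : ℝ) ^ m * R.eval y := by
    rw [hg, ← Finset.sum_filter]
    have hfil : d.T.filter (fun t => t ∈ T0) = T0 := by
      ext t
      rw [Finset.mem_filter]
      exact ⟨fun h => h.2, fun h => ⟨((hT0mem t).1 h).1, h⟩⟩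
    rw [hfil, hRdef, Polynomial.eval_finsetSum, Finset.mul_sum]
    apply Finset.sum_congr rfl
    intro t ht
    have hdm := ((hT0mem t).1 ht).2.1
    rw [Polynomial.eval_mul, Polynomial.eval_C, Polynomial.eval_pow, Polynomial.eval_X, hy,
      div_pow, ← hdm, pow_add]
    have : ((n : ℝ)) ^ t.2.2 ≠ 0 := by positivity
    field_simp
  have hdiff : |∑ t ∈ d.T, f t - ∑ t ∈ d.T, g t| ≤ C * (n : ℝ) ^ (m - 1) := by
    rw [← Finset.sum_sub_distrib, hC, Finset.sum_mul]
    exact (Finset.abs_sum_le_sum_abs _ _).trans (Finset.sum_le_sum hfg)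
  have hCn : C * (n : ℝ) ^ (m - 1) ≤ ε / 2 * (n : ℝ) ^ m := by
    have h1 : C ≤ ε / 2 * n := by
      have h3 : ε / 2 * (ρ1 * p) ≤ ε / 2 * n := mul_le_mul_of_nonneg_left hn1 (by positivity)
      linarith
    have h2 : (n : ℝ) ^ m = n * (n : ℝ) ^ (m - 1) := by
      rw [← pow_succ']
      congr 1
      omega
    rw [h2, ← mul_assoc]
    exact mul_le_mul_of_nonneg_right h1 (by positivity)
  have hgabs : ε * (n : ℝ) ^ m ≤ |∑ t ∈ d.T, g t| := by
    rw [hsumg, abs_mul, abs_of_nonneg (by positivity : (0 : ℝ) ≤ (n : ℝ) ^ m), mul_comm]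
    exact mul_le_mul_of_nonneg_left hmain (by positivity)
  have htri : |∑ t ∈ d.T, g t| ≤ |∑ t ∈ d.T, f t| + |∑ t ∈ d.T, f t - ∑ t ∈ d.T, g t| := by
    have h1 : ∑ t ∈ d.T, g t = ∑ t ∈ d.T, f t - (∑ t ∈ d.T, f t - ∑ t ∈ d.T, g t) := by ring
    calc |∑ t ∈ d.T, g t| = |∑ t ∈ d.T, f t - (∑ t ∈ d.T, f t - ∑ t ∈ d.T, g t)| := by rw [← h1]
      _ ≤ _ := abs_sub _ _
  show ε / 2 * (n : ℝ) ^ m ≤ |∑ t ∈ d.T, f t|
  linarith

end Pool.Agent.GNC
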