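import Pool.Agent.GNC.St

/-!
# GNC, A': the degrees of the logarithms
-/

set_option autoImplicit false

open Finset Filter

namespace Pool.Agent.GNC

private theorem Ap_val (q : ℚ) : ∀ᶠ p : ℕ in atTop, p.Prime → padicValRat p q = 0 := by
  filter_upwards [eventually_gt_atTop (q.num.natAbs + q.den)] with p hp hpr
  have hf : Fact p.Prime := ⟨hpr⟩
  unfold padicValRat
  have h1 : padicValNat p q.den = 0 := by
    refine padicValNat.eq_zero_of_not_dvd fun h => ?_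
    have := Nat.le_of_dvd q.den_pos h
    omega
  have h2 : padicValInt p q.num = 0 := by
    by_cases h0 : q.num = 0
    · rw [h0, padicValInt.zero]
    · refine padicValInt.eq_zero_of_not_dvd fun h => ?_
      have h3 := Int.natAbs_dvd_natAbs.2 h
      rw [Int.natAbs_natCast] at h3
      have := Nat.le_of_dvd (Int.natAbs_pos.2 h0) h3
      omega
  rw [h1, h2]
  simp

/-- the polynomial of the coefficients with the first component `β` -/
private noncomputable def Ap_P (d : NFD) (β : ℚ) : Polynomial ℝ :=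
  ∑ u ∈ d.U.filter (fun u => u.1 = β), Polynomial.C (d.e u : ℝ) * Polynomial.X ^ u.2

private theorem Ap_coeff (d : NFD) (u : ℚ × ℕ) (hu : u ∈ d.U) :
    (Ap_P d u.1).coeff u.2 = (d.e u : ℝ) := by
  unfold Ap_P
  rw [Polynomial.finsetSum_coeff, Finset.sum_eq_single u]
  · rw [Polynomial.coeff_C_mul, Polynomial.coeff_X_pow, if_pos rfl, mul_one]
  · intro w hw hwu
    rw [Polynomial.coeff_C_mul, Polynomial.coeff_X_pow, if_neg, mul_zero]
    intro h
    exact hwu (Prod.ext (Finset.mem_filter.1 hw).2 h.symm)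
  · intro h
    exact (h (Finset.mem_filter.2 ⟨hu, rfl⟩)).elim

private theorem Ap_big (d : NFD) (u : ℚ × ℕ) (hu : u ∈ d.U) (h3 : 3 ≤ u.2) (K : ℝ) :
    ∃ x0 : ℝ, ∀ x : ℝ, x0 ≤ x → K < |(Ap_P d u.1).eval x / x ^ 2| := by
  have hc : (Ap_P d u.1).coeff u.2 ≠ 0 := by
    rw [Ap_coeff d u hu]
    exact_mod_cast d.he u hu
  have hdeg : (Polynomial.X ^ 2 : Polynomial ℝ).degree < (Ap_P d u.1).degree := by
    rw [Polynomial.degree_X_pow]
    refine lt_of_lt_of_le ?_ (Polynomial.le_degree_of_ne_zero hc)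
    exact_mod_cast (by omega : 2 < u.2)
  have h := Polynomial.abs_div_tendsto_atTop_atTop_of_degree_gt (Ap_P d u.1)
    (Polynomial.X ^ 2 : Polynomial ℝ) hdeg (pow_ne_zero 2 Polynomial.X_ne_zero)
  obtain ⟨x0, hx0⟩ := eventually_atTop.1 (h.eventually_gt_atTop K)
  refine ⟨x0, fun x hx => ?_⟩
  have := hx0 x hx
  simpa using this

private theorem Ap_T (d : NFD) (hT : ∀ t ∈ d.T, t.2.1 + t.2.2 ≤ 1) (p n : ℕ) (hp : 1 ≤ p)
    (hn : 1 ≤ n) : |∑ t ∈ d.T, (d.c t : ℝ) * ((n : ℝ) ^ t.2.1 * ∑ i ∈ range 3,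
      (if (t.1 : ℝ) * (p - 1) + i * p < n then ((t.1 : ℝ) * (p - 1) + i * p) ^ t.2.2 else 0))| ≤
      3 * (∑ t ∈ d.T, |(d.c t : ℝ)|) * n := by
  refine (Finset.abs_sum_le_sum_abs _ _).trans ?_
  rw [Finset.mul_sum, Finset.sum_mul]
  refine Finset.sum_le_sum fun t ht => ?_
  have hp1 : (0 : ℝ) ≤ (p : ℝ) - 1 := by
    have : (1 : ℝ) ≤ p := by exact_mod_cast hp
    linarith
  have hn1 : (1 : ℝ) ≤ n := by exact_mod_cast hn
  have ht0 : (0 : ℝ) ≤ (t.1 : ℝ) := by exact_mod_cast (d.hT t ht).1.le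
  have h1 : ∀ i ∈ range 3, |(if (t.1 : ℝ) * (p - 1) + i * p < n then
      ((t.1 : ℝ) * (p - 1) + i * p) ^ t.2.2 else 0)| ≤ (n : ℝ) ^ t.2.2 := by
    intro i _
    split_ifs with h
    · rw [abs_of_nonneg (by positivity)]
      exact pow_le_pow_left₀ (by positivity) h.le _
    · rw [abs_zero]
      positivity
  rw [abs_mul, abs_mul, abs_of_nonneg (by positivity : (0 : ℝ) ≤ (n : ℝ) ^ t.2.1)]
  have h2 : |∑ i ∈ range 3, (if (t.1 : ℝ) * (p - 1) + i * p < n then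
      ((t.1 : ℝ) * (p - 1) + i * p) ^ t.2.2 else 0)| ≤ 3 * (n : ℝ) ^ t.2.2 := by
    refine (Finset.abs_sum_le_sum_abs _ _).trans ((Finset.sum_le_sum h1).trans ?_)
    simp
  have h3 : (n : ℝ) ^ t.2.1 * (n : ℝ) ^ t.2.2 ≤ n := by
    rw [← pow_add]
    calc (n : ℝ) ^ (t.2.1 + t.2.2) ≤ (n : ℝ) ^ 1 := pow_le_pow_right₀ hn1 (hT t ht)
      _ = n := pow_one _
  calc |(d.c t : ℝ)| * ((n : ℝ) ^ t.2.1 * |∑ i ∈ range 3, (if (t.1 : ℝ) * (p - 1) + i * p < n then
      ((t.1 : ℝ) * (p - 1) + i * p) ^ t.2.2 else 0)|)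
      ≤ |(d.c t : ℝ)| * ((n : ℝ) ^ t.2.1 * (3 * (n : ℝ) ^ t.2.2)) := by gcongr
    _ = 3 * |(d.c t : ℝ)| * ((n : ℝ) ^ t.2.1 * (n : ℝ) ^ t.2.2) := by ring
    _ ≤ 3 * |(d.c t : ℝ)| * n := by gcongr

theorem thm_A' : St_A' := by
  intro b d hVF hpos hC hT u hu
  by_contra hu2
  have h3 : 3 ≤ u.2 := by omega
  obtain ⟨M, N, p0, hM, hV⟩ := hVF
  obtain ⟨C, hC⟩ := hC
  set β : ℚ := u.1 with hβ
  set i0 : ℤ := ⌊1 - β⌋ with hi0
  set α : ℚ := β + i0 with hα
  have hα0 : 0 < α := by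
    have := Int.sub_one_lt_floor (1 - β)
    rw [hα]
    linarith
  have hα1 : α ≤ 1 := by
    have := Int.floor_le (1 - β)
    rw [hα]
    linarith
  set K : ℝ := 3 * (∑ t ∈ d.T, |(d.c t : ℝ)|) + 2 * d.D * |C| with hK
  obtain ⟨x0, hx0⟩ := Ap_big d u hu h3 K
  obtain ⟨N1, hN1⟩ := eventually_atTop.1 (hpos.and hC)
  obtain ⟨N2, hN2⟩ := exists_nat_ge x0
  -- conditions on `p`
  have hev : ∀ᶠ p : ℕ in atTop, p0 < p ∧ 3 ≤ p ∧ (p.Prime → padicValRat p α = 0) ∧
      (∀ w ∈ d.U, p.Prime → padicValRat p (w.1 - β) = 0) ∧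
      (((N + N1 + N2 + 1 : ℕ) : ℚ) + |β|) / α ≤ (p : ℚ) ∧ |β| ≤ (p : ℚ) := by
    refine (eventually_gt_atTop p0).and ((eventually_ge_atTop 3).and ((Ap_val α).and
      (((Finset.eventually_all d.U).2 fun w _ => Ap_val (w.1 - β)).and ?_)))
    exact (tendsto_natCast_atTop_atTop.eventually_ge_atTop _).and
      (tendsto_natCast_atTop_atTop.eventually_ge_atTop _)
  obtain ⟨L, hL⟩ := eventually_atTop.1 hev
  obtain ⟨p, hp, hLp, hmod⟩ := Nat.exists_prime_gt_modEq_one (k := M * β.den) L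
    (Nat.mul_ne_zero (by omega) β.den_nz)
  obtain ⟨hpp0, hp3, hvα, hvU, hbig, hβp⟩ := hL p hLp.le
  have hfact : Fact p.Prime := ⟨hp⟩
  have hpM : p % M = 1 % M := hmod.of_mul_right β.den
  have hdvd : β.den ∣ p - 1 := (Nat.modEq_iff_dvd' hp.one_lt.le).1 (hmod.of_mul_left M).symm
  obtain ⟨w, hw⟩ := hdvd
  have hwq : (β.den : ℚ) * w = p - 1 := by
    have h1 : ((p - 1 : ℕ) : ℚ) = (p : ℚ) - 1 := by
      rw [Nat.cast_sub hp.one_lt.le, Nat.cast_one]
    rw [← h1, hw]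
    push_cast
    ring
  have hz : ((β.num * w + i0 * p : ℤ) : ℚ) = α * p - β := by
    push_cast
    have h1 : (β.num : ℚ) = β * β.den := (Rat.mul_den_eq_num β).symm
    rw [h1, mul_assoc, hwq, hα]
    ring
  have hp0 : (0 : ℚ) < p := by exact_mod_cast hp.pos
  have hzbig : (((N + N1 + N2 + 1 : ℕ) : ℤ)) ≤ β.num * w + i0 * p := by
    have h1 : ((N + N1 + N2 + 1 : ℕ) : ℚ) ≤ α * p - β := by
      rw [div_le_iff₀ hα0] at hbig
      have := le_abs_self β
      linarith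
    rw [← hz] at h1
    exact_mod_cast h1
  obtain ⟨n, hn⟩ := Int.eq_ofNat_of_zero_le (le_trans (Int.natCast_nonneg _) hzbig)
  have hnq : (n : ℚ) = α * p - β := by
    rw [← hz, hn]
    push_cast
    ring
  have hnbig : N + N1 + N2 + 1 ≤ n := by
    rw [hn] at hzbig
    exact_mod_cast hzbig
  have hn3 : n ≤ 3 * p := by
    have h1 : (n : ℚ) ≤ 3 * p := by
      rw [hnq]
      have h2 := neg_abs_le β
      have h3 : α * p ≤ 1 * p := by gcongr
      linarith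
    exact_mod_cast h1
  have hv := hV p hp hpp0 hpM n (by omega) hn3
  -- the logarithmic part
  have hval : ∀ w ∈ d.U, padicValRat p ((n : ℚ) + w.1) = if w.1 = β then 1 else 0 := by
    intro w hw
    have h1 : padicValRat p (α * p) = 1 := by
      rw [padicValRat.mul hα0.ne' hp0.ne', hvα hp, padicValRat.self hp.one_lt, zero_add]
    have h2 : (n : ℚ) + w.1 = (w.1 - β) + α * p := by
      rw [hnq]
      ring
    split_ifs with h
    · rw [h2, h, sub_self, zero_add, h1]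
    · have h3 : w.1 - β ≠ 0 := sub_ne_zero.2 h
      have h4 : padicValRat p (w.1 - β) = 0 := hvU w hw hp
      rw [h2, padicValRat.add_eq_of_lt _ h3 (mul_pos hα0 hp0).ne' (by rw [h4, h1]; exact one_pos), h4]
      intro h5
      have h6 : α * p = -(w.1 - β) := by linarith
      rw [h6, padicValRat.neg, h4] at h1
      exact zero_ne_one h1
  have hU : ∑ w ∈ d.U, (d.e w : ℝ) * ((n : ℝ) ^ w.2 * (padicValRat p ((n : ℚ) + w.1) : ℝ)) =
      (Ap_P d u.1).eval (n : ℝ) := by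
    unfold Ap_P
    rw [Polynomial.eval_finsetSum, Finset.sum_filter]
    refine Finset.sum_congr rfl fun w hw => ?_
    rw [hval w hw]
    split_ifs with h
    · rw [Polynomial.eval_mul, Polynomial.eval_C, Polynomial.eval_pow, Polynomial.eval_X]
      simp
    · simp
  have hn1 : (1 : ℝ) ≤ n := by exact_mod_cast (by omega : 1 ≤ n)
  have hp3' : (3 : ℝ) ≤ p := by exact_mod_cast hp3
  have hlp : 0 < Real.log p := Real.log_pos (by linarith)
  have hbn := hN1 n (by omega)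
  have hk : (padicValInt p (b n) : ℝ) ≤ 2 * |C| * (n : ℝ) ^ 2 := by
    have h1 : (p : ℤ) ^ padicValInt p (b n) ≤ b n :=
      Int.le_of_dvd hbn.1 (padicValInt_dvd (b n))
    have h2 : ((p : ℝ)) ^ padicValInt p (b n) ≤ (b n : ℝ) := by exact_mod_cast h1
    have h3 : (padicValInt p (b n) : ℝ) * Real.log p ≤ Real.log (b n) := by
      rw [← Real.log_pow]
      exact Real.log_le_log (by positivity) h2
    have h4 : Real.log n ≤ 2 * Real.log p := by
      have h5 : Real.log n ≤ Real.log ((p : ℝ) ^ 2) := by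
        refine Real.log_le_log (by linarith) ?_
        have h6 : (n : ℝ) ≤ 3 * p := by exact_mod_cast hn3
        nlinarith
      rw [Real.log_pow] at h5
      exact_mod_cast h5
    have h5 : Real.log (b n) ≤ |C| * ((n : ℝ) ^ 2 * (2 * Real.log p)) := by
      refine hbn.2.trans ?_
      have h6 : 0 ≤ Real.log n := Real.log_nonneg hn1
      calc C * ((n : ℝ) ^ 2 * Real.log n) ≤ |C| * ((n : ℝ) ^ 2 * Real.log n) := by
            gcongr
            exact le_abs_self C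
        _ ≤ _ := by gcongr
    have h6 : (padicValInt p (b n) : ℝ) * Real.log p ≤ (2 * |C| * (n : ℝ) ^ 2) * Real.log p := by
      refine (h3.trans h5).trans (le_of_eq ?_)
      ring
    exact le_of_mul_le_mul_right h6 hlp
  have hTn := Ap_T d hT p n hp.one_lt.le (by omega)
  have hPn := hx0 n (by
    refine hN2.trans ?_
    exact_mod_cast (by omega : N2 ≤ n))
  rw [abs_div, abs_of_nonneg (by positivity : (0 : ℝ) ≤ (n : ℝ) ^ 2), lt_div_iff₀ (by positivity)]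
    at hPn
  have hfin : |(Ap_P d u.1).eval (n : ℝ)| ≤ K * (n : ℝ) ^ 2 := by
    have h1 : (Ap_P d u.1).eval (n : ℝ) = (d.D : ℝ) * (padicValInt p (b n) : ℝ) -
        ∑ t ∈ d.T, (d.c t : ℝ) * ((n : ℝ) ^ t.2.1 * ∑ i ∈ range 3,
      (if (t.1 : ℝ) * (p - 1) + i * p < n then ((t.1 : ℝ) * (p - 1) + i * p) ^ t.2.2 else 0)) := by
      rw [hv, NFD.vp, hU]
      ring
    rw [h1]
    refine (abs_sub _ _).trans ?_
    rw [abs_of_nonneg (by positivity : (0 : ℝ) ≤ (d.D : ℝ) * (padicValInt p (b n) : ℝ))]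
    have h2 : (n : ℝ) ≤ (n : ℝ) ^ 2 := by nlinarith
    have h3 : 3 * (∑ t ∈ d.T, |(d.c t : ℝ)|) * n ≤ 3 * (∑ t ∈ d.T, |(d.c t : ℝ)|) * (n : ℝ) ^ 2 := by
      gcongr
    have h4 : (d.D : ℝ) * (padicValInt p (b n) : ℝ) ≤ d.D * (2 * |C| * (n : ℝ) ^ 2) := by
      gcongr
    rw [hK]
    linarith [hTn.trans h3]
  exact absurd hPn (not_lt.2 hfin)

end Pool.Agent.GNC
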