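import Pool.Agent.GNC.St

/-!
# GNC B: the coefficients of degree one
-/

set_option autoImplicit false

open Finset Filter

namespace Pool.Agent.GNC

private theorem B_val (r : ℚ) (hr : 0 < r) : ∃ p0 : ℕ, ∀ p : ℕ, p.Prime → p0 < p → ∀ m : ℕ,
    padicValRat p (((m * p : ℕ) : ℚ) + r) = 0 := by
  refine ⟨r.num.toNat + r.den, fun p hp hlt m => ?_⟩
  have hf : Fact p.Prime := ⟨hp⟩
  have hnum : 0 < r.num := Rat.num_pos.2 hr
  have hden : (r.den : ℤ) ≠ 0 := by exact_mod_cast r.den_nz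
  have h1 : ((m * p : ℕ) : ℚ) + r =
      (((m * p * r.den : ℕ) : ℤ) + r.num : ℤ) / ((r.den : ℤ) : ℚ) := by
    have h2 : (r.den : ℚ) ≠ 0 := by exact_mod_cast r.den_nz
    have h3 : r = r.num / r.den := (Rat.num_div_den r).symm
    rw [eq_div_iff (by exact_mod_cast hden)]
    push_cast
    rw [add_mul]
    congr 1
    rw [Rat.mul_den_eq_num]
  have hpos : (0 : ℤ) < ((m * p * r.den : ℕ) : ℤ) + r.num := by positivity
  rw [h1, padicValRat.div (by exact_mod_cast hpos.ne') (by exact_mod_cast hden),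
    padicValRat.of_int, padicValRat.of_int, padicValInt.eq_zero_of_not_dvd,
    padicValInt.eq_zero_of_not_dvd]
  · simp
  · intro hd
    have h4 : p ∣ r.den := by exact_mod_cast hd
    have := Nat.le_of_dvd r.den_pos h4
    omega
  · intro hd
    have h5 : (p : ℤ) ∣ ((m * p * r.den : ℕ) : ℤ) := by
      refine Int.natCast_dvd_natCast.2 ?_
      exact Dvd.dvd.mul_right (dvd_mul_left _ _) _
    have h6 : (p : ℤ) ∣ r.num := (dvd_add_right h5).1 hd
    have := Int.le_of_dvd hnum h6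
    omega

/-- the valuations for `n = p + J` and `n = 2 p + J` -/
private theorem B_vp (d : NFD) (hT : ∀ t ∈ d.T, t.2.1 + t.2.2 ≤ 1) (J : ℕ)
    (hJ : ∀ u ∈ d.U, 0 < (J : ℚ) + u.1) :
    ∀ᶠ p : ℕ in atTop, p.Prime →
      d.vp p (p + J) = (d.sA : ℝ) * (p + J) +
        (∑ t ∈ d.T.filter (fun t => t.2 = (0, 1)), (d.c t : ℝ) * t.1) * (p - 1) +
        ∑ t ∈ d.T.filter (fun t => t.2 = (0, 0)), (d.c t : ℝ) ∧
      d.vp p (2 * p + J) = 2 * (d.sA : ℝ) * (2 * p + J) +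
        2 * (∑ t ∈ d.T.filter (fun t => t.2 = (0, 1)), (d.c t : ℝ) * t.1) * (p - 1) +
        (d.sB : ℝ) * p +
        2 * ∑ t ∈ d.T.filter (fun t => t.2 = (0, 0)), (d.c t : ℝ) := by
  have h1 : ∀ᶠ p : ℕ in atTop, ∀ u ∈ d.U, p.Prime → ∀ m : ℕ,
      padicValRat p (((m * p : ℕ) : ℚ) + ((J : ℚ) + u.1)) = 0 := by
    refine (eventually_all_finset d.U).2 fun u hu => ?_
    obtain ⟨p0, h⟩ := B_val _ (hJ u hu)
    filter_upwards [eventually_gt_atTop p0] with p hp hpr m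
    exact h p hpr hp m
  have h2 : ∀ᶠ p : ℕ in atTop, ∀ t ∈ d.T, (J : ℝ) ≤ (t.1 : ℝ) * ((p : ℝ) - 1) := by
    refine (eventually_all_finset d.T).2 fun t ht => ?_
    have ha : (0 : ℝ) < (t.1 : ℝ) := by exact_mod_cast (d.hT t ht).1
    filter_upwards [tendsto_natCast_atTop_atTop.eventually_ge_atTop ((J : ℝ) / t.1 + 1)] with p hp
    rw [← div_le_iff₀' ha]
    linarith
  filter_upwards [h1, h2, eventually_ge_atTop (J + 1)] with p hp1 hp2 hp3 hpr
  have hp3' : (J : ℝ) + 1 ≤ p := by exact_mod_cast hp3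
  have hp0 : (0 : ℝ) ≤ (p : ℝ) - 1 := by
    have := hpr.one_lt
    have : (1 : ℝ) < p := by exact_mod_cast this
    linarith
  have hU1 : ∑ u ∈ d.U, (d.e u : ℝ) * (((p + J : ℕ) : ℝ) ^ u.2 *
      (padicValRat p (((p + J : ℕ) : ℚ) + u.1) : ℝ)) = 0 := by
    refine Finset.sum_eq_zero fun u hu => ?_
    have h := hp1 u hu hpr 1
    rw [one_mul, ← add_assoc] at h
    rw [show ((p + J : ℕ) : ℚ) + u.1 = (p : ℚ) + J + u.1 by push_cast; ring, h]
    simp
  have hU2 : ∑ u ∈ d.U, (d.e u : ℝ) * (((2 * p + J : ℕ) : ℝ) ^ u.2 *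
      (padicValRat p (((2 * p + J : ℕ) : ℚ) + u.1) : ℝ)) = 0 := by
    refine Finset.sum_eq_zero fun u hu => ?_
    have h := hp1 u hu hpr 2
    rw [← add_assoc] at h
    rw [show ((2 * p + J : ℕ) : ℚ) + u.1 = ((2 * p : ℕ) : ℚ) + J + u.1 by push_cast; ring, h]
    simp
  have hin : ∀ t ∈ d.T, (∑ i ∈ range 3, (if (t.1 : ℝ) * (p - 1) + i * p < ((p + J : ℕ) : ℝ) then
        ((t.1 : ℝ) * (p - 1) + i * p) ^ t.2.2 else 0)) = ((t.1 : ℝ) * (p - 1)) ^ t.2.2 ∧
      (∑ i ∈ range 3, (if (t.1 : ℝ) * (p - 1) + i * p < ((2 * p + J : ℕ) : ℝ) then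
        ((t.1 : ℝ) * (p - 1) + i * p) ^ t.2.2 else 0)) = ((t.1 : ℝ) * (p - 1)) ^ t.2.2 +
          ((t.1 : ℝ) * (p - 1) + p) ^ t.2.2 := by
    intro t ht
    have ha1 : (t.1 : ℝ) ≤ 1 := by exact_mod_cast (d.hT t ht).2
    have h3 := hp2 t ht
    have h4 : (t.1 : ℝ) * (p - 1) ≤ p - 1 := by
      calc (t.1 : ℝ) * (p - 1) ≤ 1 * (p - 1) := mul_le_mul_of_nonneg_right ha1 hp0
        _ = p - 1 := one_mul _
    have hJ0 : (0 : ℝ) ≤ J := Nat.cast_nonneg J
    constructor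
    · rw [Finset.sum_range_succ, Finset.sum_range_succ, Finset.sum_range_one, if_pos, if_neg,
        if_neg]
      · push_cast
        ring
      · push_cast
        linarith
      · push_cast
        linarith
      · push_cast
        linarith
    · rw [Finset.sum_range_succ, Finset.sum_range_succ, Finset.sum_range_one, if_pos, if_pos,
        if_neg]
      · push_cast
        ring
      · push_cast
        linarith
      · push_cast
        linarith
      · push_cast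
        linarith
  have hcase : ∀ t ∈ d.T, t.2 = (1, 0) ∨ t.2 = (0, 1) ∨ t.2 = (0, 0) := by
    intro t ht
    have := hT t ht
    rcases t with ⟨α, i, j⟩
    simp only [Prod.mk.injEq] at this ⊢
    omega
  constructor
  · rw [NFD.vp, hU1, add_zero]
    have h5 : ∀ t ∈ d.T, (d.c t : ℝ) * (((p + J : ℕ) : ℝ) ^ t.2.1 * ∑ i ∈ range 3,
        (if (t.1 : ℝ) * (p - 1) + i * p < ((p + J : ℕ) : ℝ) then
          ((t.1 : ℝ) * (p - 1) + i * p) ^ t.2.2 else 0)) =
        (if t.2 = (1, 0) then (d.c t : ℝ) * (p + J) else 0) +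
          (if t.2 = (0, 1) then (d.c t : ℝ) * t.1 * (p - 1) else 0) +
          (if t.2 = (0, 0) then (d.c t : ℝ) else 0) := by
      intro t ht
      rw [(hin t ht).1]
      rcases hcase t ht with h | h | h <;> rw [h] <;> simp
      ring
    rw [Finset.sum_congr rfl h5, Finset.sum_add_distrib, Finset.sum_add_distrib,
      ← Finset.sum_filter, ← Finset.sum_filter, ← Finset.sum_filter, ← Finset.sum_mul,
      ← Finset.sum_mul, NFD.sA]
    push_cast
    ring
  · rw [NFD.vp, hU2, add_zero]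
    have h5 : ∀ t ∈ d.T, (d.c t : ℝ) * (((2 * p + J : ℕ) : ℝ) ^ t.2.1 * ∑ i ∈ range 3,
        (if (t.1 : ℝ) * (p - 1) + i * p < ((2 * p + J : ℕ) : ℝ) then
          ((t.1 : ℝ) * (p - 1) + i * p) ^ t.2.2 else 0)) =
        (if t.2 = (1, 0) then (d.c t : ℝ) * (2 * (2 * p + J)) else 0) +
          ((if t.2 = (0, 1) then (d.c t : ℝ) * t.1 * (2 * (p - 1)) else 0) +
            (if t.2 = (0, 1) then (d.c t : ℝ) * p else 0)) +
          (if t.2 = (0, 0) then (d.c t : ℝ) * 2 else 0) := by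
      intro t ht
      rw [(hin t ht).2]
      rcases hcase t ht with h | h | h <;> rw [h] <;> simp
      all_goals first
        | ring1
        | (left; ring1)
    rw [Finset.sum_congr rfl h5, Finset.sum_add_distrib, Finset.sum_add_distrib,
      Finset.sum_add_distrib,
      ← Finset.sum_filter, ← Finset.sum_filter, ← Finset.sum_filter, ← Finset.sum_filter,
      ← Finset.sum_mul, ← Finset.sum_mul, ← Finset.sum_mul, ← Finset.sum_mul, NFD.sA, NFD.sB]
    push_cast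
    ring

theorem thm_B : St_B := by
  intro b d ⟨M, N, p0, hM, hVF⟩ hT hb
  obtain ⟨J, hJ⟩ : ∃ J : ℕ, ∀ u ∈ d.U, 0 < (J : ℚ) + u.1 := by
    have h : ∀ᶠ J : ℕ in atTop, ∀ u ∈ d.U, 0 < (J : ℚ) + u.1 := by
      refine (eventually_all_finset d.U).2 fun u _ => ?_
      filter_upwards [tendsto_natCast_atTop_atTop.eventually_gt_atTop (-u.1)] with J hJ
      linarith
    exact h.exists
  have hJ' : ∀ u ∈ d.U, 0 < ((J + 1 : ℕ) : ℚ) + u.1 := by
    intro u hu
    have := hJ u hu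
    push_cast
    linarith
  set bp : ℝ := ∑ t ∈ d.T.filter (fun t => t.2 = (0, 1)), (d.c t : ℝ) * t.1 with hbp
  set c0 : ℝ := ∑ t ∈ d.T.filter (fun t => t.2 = (0, 0)), (d.c t : ℝ) with hc0
  have hfreq : ∃ᶠ p : ℕ in atTop, p.Prime ∧ p % M = 1 % M := by
    rw [Filter.frequently_atTop]
    intro n
    obtain ⟨p, hp, hn, hpm⟩ := Nat.exists_prime_gt_modEq_one n (show M ≠ 0 by omega)
    exact ⟨p, hn.le, hp, hpm⟩
  have hev : ∀ᶠ p : ℕ in atTop, (p.Prime ∧ p % M = 1 % M) →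
      (d.D : ℝ) = (d.sA : ℝ) * (p + J) + bp * (p - 1) + c0 ∧
      (d.D : ℝ) = (d.sA : ℝ) * (p + (J + 1)) + bp * (p - 1) + c0 ∧
      0 ≤ 2 * (d.sA : ℝ) * (2 * p + J) + 2 * bp * (p - 1) + (d.sB : ℝ) * p + 2 * c0 := by
    filter_upwards [B_vp d hT J hJ, B_vp d hT (J + 1) hJ', hb J, hb (J + 1),
      eventually_gt_atTop p0, eventually_ge_atTop N, eventually_ge_atTop (J + 1)] with
      p h1 h2 h3 h4 h5 h6 h7 ⟨hp, hpm⟩
    have h8 := hVF p hp h5 hpm (p + J) (by omega) (by omega)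
    have h9 := hVF p hp h5 hpm (p + (J + 1)) (by omega) (by omega)
    have h10 := hVF p hp h5 hpm (2 * p + J) (by omega) (by omega)
    rw [h3 hp, (h1 hp).1, Nat.cast_one, mul_one] at h8
    rw [h4 hp, (h2 hp).1, Nat.cast_one, mul_one] at h9
    rw [(h1 hp).2] at h10
    refine ⟨h8, ?_, ?_⟩
    · rw [h9]
      push_cast
      ring
    · rw [← h10]
      positivity
  obtain ⟨p, hp, hpe⟩ := (hfreq.and_eventually hev).exists
  obtain ⟨e1, e2, -⟩ := hpe hp
  have hA : (d.sA : ℝ) = 0 := by linarith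
  have hA' : d.sA = 0 := by exact_mod_cast hA
  refine ⟨hA', ?_⟩
  obtain ⟨p', hp', hpe', hlt⟩ :=
    (hfreq.and_eventually (hev.and (eventually_gt_atTop (max p (2 * d.D))))).exists
  obtain ⟨f1, -, f3⟩ := hpe' hp'
  have hlt1 : (p : ℝ) < p' := by exact_mod_cast (le_max_left _ _).trans_lt hlt
  have hlt2 : 2 * (d.D : ℝ) < p' := by exact_mod_cast (le_max_right _ _).trans_lt hlt
  rw [hA] at e1 f1 f3
  have hbp0 : bp = 0 := by
    have h1 : bp * ((p' : ℝ) - p) = 0 := by linarith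
    rcases mul_eq_zero.1 h1 with h2 | h2
    · exact h2
    · linarith
  rw [hbp0] at f1 f3
  have hc : c0 = d.D := by linarith
  rw [hc] at f3
  by_contra hneg
  have h1 : d.sB ≤ -1 := by omega
  have h2 : (d.sB : ℝ) ≤ -1 := by exact_mod_cast h1
  have h3 : (d.sB : ℝ) * p' ≤ -1 * p' :=
    mul_le_mul_of_nonneg_right h2 (Nat.cast_nonneg _)
  linarith

end Pool.Agent.GNC
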