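import Pool.Agent.GNC.St

/-!
# GNC, module E: asymptotics of the transcendental part
-/

set_option autoImplicit false

open Finset Filter Asymptotics

namespace Pool.Agent.GNC

private theorem E_d {k : ℝ} (hk : 0 < k) :
    1 / (k + 1) ≤ Real.log (k + 1) - Real.log k ∧ Real.log (k + 1) - Real.log k ≤ 1 / k := by
  have h1 : Real.log (k + 1) - Real.log k = Real.log ((k + 1) / k) := by
    rw [Real.log_div (by positivity) (by positivity)]
  have h2 : 0 < (k + 1) / k := by positivity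
  constructor
  · rw [h1]
    have h3 := Real.one_sub_inv_le_log_of_pos h2
    have h4 : 1 - ((k + 1) / k)⁻¹ = 1 / (k + 1) := by
      field_simp
      ring
    rw [h4] at h3
    exact h3
  · rw [h1]
    have h3 := Real.log_le_sub_one_of_pos h2
    have h4 : (k + 1) / k - 1 = 1 / k := by
      field_simp
      ring
    rw [h4] at h3
    exact h3

private theorem E_F0 (m : ℕ) :
    ((m : ℝ) + 1) * Real.log ((m : ℝ) + 1) - ((m : ℝ) + 1) + 1 ≤
      ∑ k ∈ range (m + 1), Real.log ((k : ℝ) + 1) ∧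
    ∑ k ∈ range (m + 1), Real.log ((k : ℝ) + 1) ≤
      ((m : ℝ) + 1) * Real.log ((m : ℝ) + 1) - ((m : ℝ) + 1) + 1 + Real.log ((m : ℝ) + 1) := by
  induction m with
  | zero => simp
  | succ m ih =>
    rw [sum_range_succ]
    push_cast
    obtain ⟨h1, h2⟩ := ih
    obtain ⟨h3, h4⟩ := E_d (k := (m : ℝ) + 1) (by positivity)
    set L := Real.log ((m : ℝ) + 1)
    set L' := Real.log ((m : ℝ) + 1 + 1)
    have h5 : 1 ≤ ((m : ℝ) + 1 + 1) * (L' - L) := by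
      have h6 : 0 < (m : ℝ) + 1 + 1 := by positivity
      have h7 := mul_le_mul_of_nonneg_left h3 h6.le
      rw [mul_one_div_cancel h6.ne'] at h7
      exact h7
    have h6 : ((m : ℝ) + 1) * (L' - L) ≤ 1 := by
      have h7 : 0 < (m : ℝ) + 1 := by positivity
      have h8 := mul_le_mul_of_nonneg_left h4 h7.le
      rw [mul_one_div_cancel h7.ne'] at h8
      exact h8
    constructor <;> nlinarith

private theorem E_F1 (m : ℕ) :
    ((m : ℝ) + 1) ^ 2 * Real.log ((m : ℝ) + 1) / 2 - ((m : ℝ) + 1) ^ 2 / 4 + 1 / 4 ≤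
      ∑ k ∈ range (m + 1), ((k : ℝ) + 1) * Real.log ((k : ℝ) + 1) ∧
    ∑ k ∈ range (m + 1), ((k : ℝ) + 1) * Real.log ((k : ℝ) + 1) ≤
      ((m : ℝ) + 1) ^ 2 * Real.log ((m : ℝ) + 1) / 2 - ((m : ℝ) + 1) ^ 2 / 4 + 1 / 4 +
        ((m : ℝ) + 1) * Real.log ((m : ℝ) + 1) := by
  induction m with
  | zero => simp
  | succ m ih =>
    rw [sum_range_succ]
    push_cast
    obtain ⟨h1, h2⟩ := ih
    obtain ⟨h3, h4⟩ := E_d (k := (m : ℝ) + 1) (by positivity)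
    have hL : 0 ≤ Real.log ((m : ℝ) + 1) := Real.log_nonneg (by linarith [Nat.cast_nonneg (α := ℝ) m])
    have hL' : 0 ≤ Real.log ((m : ℝ) + 1 + 1) :=
      Real.log_nonneg (by linarith [Nat.cast_nonneg (α := ℝ) m])
    set L := Real.log ((m : ℝ) + 1)
    set L' := Real.log ((m : ℝ) + 1 + 1)
    have h6 : 0 < (m : ℝ) + 1 + 1 := by positivity
    have h7 : 0 < (m : ℝ) + 1 := by positivity
    have h5 : ((m : ℝ) + 1 + 1) ≤ ((m : ℝ) + 1 + 1) ^ 2 * (L' - L) := by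
      have h8 := mul_le_mul_of_nonneg_left h3 (sq_nonneg ((m : ℝ) + 1 + 1))
      have h9 : ((m : ℝ) + 1 + 1) ^ 2 * (1 / ((m : ℝ) + 1 + 1)) = (m : ℝ) + 1 + 1 := by
        field_simp
      rw [h9] at h8
      exact h8
    have h10 : ((m : ℝ) + 1) ^ 2 * (L' - L) ≤ (m : ℝ) + 1 := by
      have h8 := mul_le_mul_of_nonneg_left h4 (sq_nonneg ((m : ℝ) + 1))
      have h9 : ((m : ℝ) + 1) ^ 2 * (1 / ((m : ℝ) + 1)) = (m : ℝ) + 1 := by
        field_simp
      rw [h9] at h8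
      exact h8
    constructor <;> nlinarith

private theorem E_S0 (α : ℝ) (h0 : 0 < α) (h1 : α ≤ 1) (m : ℕ) :
    |∑ k ∈ range (m + 1), Real.log ((k : ℝ) + α) -
      (((m : ℝ) + 1) * Real.log ((m : ℝ) + 1) - ((m : ℝ) + 1))| ≤
      Real.log ((m : ℝ) + 1) + 1 + |Real.log α| := by
  obtain ⟨h2, h3⟩ := E_F0 m
  have h4 : ∑ k ∈ range (m + 1), Real.log ((k : ℝ) + α) ≤
      ∑ k ∈ range (m + 1), Real.log ((k : ℝ) + 1) := by
    apply sum_le_sum
    intro k _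
    exact Real.log_le_log (by positivity) (by linarith)
  have h5 : Real.log α + ∑ k ∈ range m, Real.log ((k : ℝ) + 1) ≤
      ∑ k ∈ range (m + 1), Real.log ((k : ℝ) + α) := by
    rw [sum_range_succ']
    have h6 : ∑ k ∈ range m, Real.log ((k : ℝ) + 1) ≤
        ∑ k ∈ range m, Real.log (((k + 1 : ℕ) : ℝ) + α) := by
      apply sum_le_sum
      intro k _
      push_cast
      exact Real.log_le_log (by positivity) (by linarith)
    simp only [Nat.cast_zero, zero_add]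
    linarith
  rw [sum_range_succ] at h2 h3
  have h7 : 0 ≤ Real.log ((m : ℝ) + 1) := Real.log_nonneg (by linarith [Nat.cast_nonneg (α := ℝ) m])
  have h8 := neg_abs_le (Real.log α)
  have h9 := abs_nonneg (Real.log α)
  rw [sum_range_succ (fun k : ℕ => Real.log ((k : ℝ) + 1))] at h4
  rw [abs_le]
  constructor <;> linarith

private theorem E_S1 (α : ℝ) (h0 : 0 < α) (h1 : α ≤ 1) (m : ℕ) :
    |∑ k ∈ range (m + 1), (k : ℝ) * Real.log ((k : ℝ) + α) -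
      (((m : ℝ) + 1) ^ 2 * Real.log ((m : ℝ) + 1) / 2 - ((m : ℝ) + 1) ^ 2 / 4)| ≤
      ((m : ℝ) + 1) * Real.log ((m : ℝ) + 1) + 1 := by
  obtain ⟨h2, h3⟩ := E_F1 m
  have h4 : ∑ k ∈ range (m + 1), (k : ℝ) * Real.log ((k : ℝ) + α) ≤
      ∑ k ∈ range (m + 1), ((k : ℝ) + 1) * Real.log ((k : ℝ) + 1) := by
    apply sum_le_sum
    intro k _
    have h5 : Real.log ((k : ℝ) + α) ≤ Real.log ((k : ℝ) + 1) :=
      Real.log_le_log (by positivity) (by linarith)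
    have h6 : 0 ≤ Real.log ((k : ℝ) + 1) :=
      Real.log_nonneg (by linarith [Nat.cast_nonneg (α := ℝ) k])
    have h7 : (0 : ℝ) ≤ k := Nat.cast_nonneg k
    nlinarith
  have h5 : ∑ k ∈ range m, ((k : ℝ) + 1) * Real.log ((k : ℝ) + 1) ≤
      ∑ k ∈ range (m + 1), (k : ℝ) * Real.log ((k : ℝ) + α) := by
    rw [sum_range_succ']
    simp only [Nat.cast_zero, zero_mul, add_zero]
    apply sum_le_sum
    intro k _
    push_cast
    apply mul_le_mul_of_nonneg_left _ (by positivity)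
    exact Real.log_le_log (by positivity) (by linarith)
  rw [sum_range_succ] at h2 h3
  have h7 : 0 ≤ Real.log ((m : ℝ) + 1) := Real.log_nonneg (by linarith [Nat.cast_nonneg (α := ℝ) m])
  rw [sum_range_succ (fun k : ℕ => ((k : ℝ) + 1) * Real.log ((k : ℝ) + 1))] at h4
  rw [abs_le]
  constructor <;> linarith

private theorem E_bigO {f : ℕ → ℝ} (C : ℝ)
    (h : ∀ᶠ n : ℕ in atTop, 1 ≤ Real.log (n : ℝ) → 1 ≤ (n : ℝ) →
      |f n| ≤ C * ((n : ℝ) * Real.log n)) :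
    f =O[atTop] fun n : ℕ => (n : ℝ) * Real.log n := by
  apply IsBigO.of_bound C
  filter_upwards [h, eventually_ge_atTop 3] with n hn h3
  have h4 : (3 : ℝ) ≤ n := by exact_mod_cast h3
  have h5 : 1 ≤ Real.log (n : ℝ) := by
    rw [Real.le_log_iff_exp_le (by linarith)]
    have := Real.exp_one_lt_d9
    linarith
  have h6 := hn h5 (by linarith)
  rw [Real.norm_eq_abs, Real.norm_eq_abs, abs_of_nonneg (a := (n : ℝ) * Real.log n) (by positivity)]
  exact h6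

private theorem E_a (α : ℚ) (h0 : 0 < α) (h1 : α ≤ 1) :
    (fun n : ℕ => gS α 1 0 n - ((n : ℝ) ^ 2 * Real.log n - (n : ℝ) ^ 2)) =O[atTop]
      fun n : ℕ => (n : ℝ) * Real.log n := by
  apply E_bigO (2 + |Real.log α|)
  filter_upwards [eventually_ge_atTop 1] with n hn hl hn1
  obtain ⟨m, rfl⟩ : ∃ m, n = m + 1 := ⟨n - 1, by omega⟩
  have h2 := E_S0 (α : ℝ) (by exact_mod_cast h0) (by exact_mod_cast h1) m
  have h3 : gS α 1 0 (m + 1) - (((m + 1 : ℕ) : ℝ) ^ 2 * Real.log ((m + 1 : ℕ) : ℝ) -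
      ((m + 1 : ℕ) : ℝ) ^ 2) = ((m + 1 : ℕ) : ℝ) * (∑ k ∈ range (m + 1), Real.log ((k : ℝ) + α) -
      (((m : ℝ) + 1) * Real.log ((m : ℝ) + 1) - ((m : ℝ) + 1))) := by
    unfold gS
    push_cast
    simp only [pow_zero, one_mul, pow_one]
    ring
  rw [h3, abs_mul, abs_of_nonneg (a := (((m + 1 : ℕ) : ℝ))) (by positivity)]
  have h4 : |∑ k ∈ range (m + 1), Real.log ((k : ℝ) + α) -
      (((m : ℝ) + 1) * Real.log ((m : ℝ) + 1) - ((m : ℝ) + 1))| ≤
      (2 + |Real.log α|) * Real.log ((m + 1 : ℕ) : ℝ) := by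
    refine h2.trans ?_
    push_cast at hl ⊢
    nlinarith [abs_nonneg (Real.log (α : ℝ))]
  have h5 := mul_le_mul_of_nonneg_left h4 (by positivity : (0 : ℝ) ≤ ((m + 1 : ℕ) : ℝ))
  refine h5.trans (le_of_eq ?_)
  ring

private theorem E_b (α : ℚ) (h0 : 0 < α) (h1 : α ≤ 1) :
    (fun n : ℕ => gS α 0 1 n - ((n : ℝ) ^ 2 * Real.log n / 2 - (n : ℝ) ^ 2 / 4)) =O[atTop]
      fun n : ℕ => (n : ℝ) * Real.log n := by
  apply E_bigO 2
  filter_upwards [eventually_ge_atTop 1] with n hn hl hn1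
  obtain ⟨m, rfl⟩ : ∃ m, n = m + 1 := ⟨n - 1, by omega⟩
  have h2 := E_S1 (α : ℝ) (by exact_mod_cast h0) (by exact_mod_cast h1) m
  have h3 : gS α 0 1 (m + 1) - (((m + 1 : ℕ) : ℝ) ^ 2 * Real.log ((m + 1 : ℕ) : ℝ) / 2 -
      ((m + 1 : ℕ) : ℝ) ^ 2 / 4) = ∑ k ∈ range (m + 1), (k : ℝ) * Real.log ((k : ℝ) + α) -
      (((m : ℝ) + 1) ^ 2 * Real.log ((m : ℝ) + 1) / 2 - ((m : ℝ) + 1) ^ 2 / 4) := by
    unfold gS
    push_cast
    simp only [pow_zero, one_mul, pow_one]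
  rw [h3]
  refine h2.trans ?_
  push_cast at hl hn1 ⊢
  nlinarith

private theorem E_c (α : ℚ) (h0 : 0 < α) (h1 : α ≤ 1) :
    (fun n : ℕ => gS α 0 0 n) =O[atTop] fun n : ℕ => (n : ℝ) * Real.log n := by
  apply E_bigO (3 + |Real.log α|)
  filter_upwards [eventually_ge_atTop 1] with n hn hl hn1
  obtain ⟨m, rfl⟩ : ∃ m, n = m + 1 := ⟨n - 1, by omega⟩
  have h2 := E_S0 (α : ℝ) (by exact_mod_cast h0) (by exact_mod_cast h1) m
  have h3 : gS α 0 0 (m + 1) = ∑ k ∈ range (m + 1), Real.log ((k : ℝ) + α) := by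
    unfold gS
    simp only [pow_zero, one_mul]
  rw [h3]
  push_cast at hl hn1 ⊢
  have h4 := abs_sub_abs_le_abs_sub (∑ k ∈ range (m + 1), Real.log ((k : ℝ) + α))
    (((m : ℝ) + 1) * Real.log ((m : ℝ) + 1) - ((m : ℝ) + 1))
  have h5 : |((m : ℝ) + 1) * Real.log ((m : ℝ) + 1) - ((m : ℝ) + 1)| ≤
      ((m : ℝ) + 1) * Real.log ((m : ℝ) + 1) := by
    rw [abs_of_nonneg (by nlinarith)]
    linarith
  have h6 : Real.log ((m : ℝ) + 1) + 1 + |Real.log α| ≤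
      (2 + |Real.log α|) * (((m : ℝ) + 1) * Real.log ((m : ℝ) + 1)) := by
    have h7 : 1 ≤ ((m : ℝ) + 1) * Real.log ((m : ℝ) + 1) := by nlinarith
    have h8 : Real.log ((m : ℝ) + 1) ≤ ((m : ℝ) + 1) * Real.log ((m : ℝ) + 1) := by nlinarith
    nlinarith [abs_nonneg (Real.log (α : ℝ))]
  nlinarith

private theorem E_l (β : ℝ) : ∀ᶠ n : ℕ in atTop, 1 ≤ (n : ℝ) →
    |Real.log ((n : ℝ) + β) - Real.log n| ≤ 2 * |β| / n := by
  filter_upwards [eventually_ge_atTop (⌈2 * |β|⌉₊ + 1)] with n hn hn1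
  have h1 : 2 * |β| + 1 ≤ n := by
    have h2 : 2 * |β| ≤ (⌈2 * |β|⌉₊ : ℝ) := Nat.le_ceil _
    have h3 : ((⌈2 * |β|⌉₊ + 1 : ℕ) : ℝ) ≤ n := by exact_mod_cast hn
    push_cast at h3
    linarith
  have hβ := abs_le.1 (le_refl |β|)
  have h0 := abs_nonneg β
  have h2 : 0 < (n : ℝ) := by linarith
  have h3 : 0 < (n : ℝ) + β := by linarith [hβ.1]
  have h4 : Real.log ((n : ℝ) + β) - Real.log n = Real.log (((n : ℝ) + β) / n) := by
    rw [Real.log_div h3.ne' h2.ne']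
  rw [h4, abs_le]
  have h5 : 0 < ((n : ℝ) + β) / n := by positivity
  constructor
  · have h6 := Real.one_sub_inv_le_log_of_pos h5
    have h7 : 1 - (((n : ℝ) + β) / n)⁻¹ = β / (n + β) := by
      field_simp
      ring
    rw [h7] at h6
    refine le_trans ?_ h6
    rw [← neg_div, div_le_div_iff₀ h2 h3]
    nlinarith [hβ.1, hβ.2]
  · have h6 := Real.log_le_sub_one_of_pos h5
    have h7 : ((n : ℝ) + β) / n - 1 = β / n := by
      field_simp
      ring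
    rw [h7] at h6
    refine h6.trans ?_
    rw [div_le_div_iff_of_pos_right h2]
    linarith [hβ.2]

private theorem E_u2 (β : ℚ) : (fun n : ℕ => gL β 2 n - (n : ℝ) ^ 2 * Real.log n) =O[atTop]
    fun n : ℕ => (n : ℝ) * Real.log n := by
  apply E_bigO (2 * |(β : ℝ)|)
  filter_upwards [E_l (β : ℝ)] with n hn hl hn1
  have h1 := hn hn1
  have h2 : gL β 2 n - (n : ℝ) ^ 2 * Real.log n =
      (n : ℝ) ^ 2 * (Real.log ((n : ℝ) + β) - Real.log n) := by
    unfold gL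
    ring
  rw [h2, abs_mul, abs_of_nonneg (sq_nonneg (n : ℝ))]
  have h3 := mul_le_mul_of_nonneg_left h1 (sq_nonneg (n : ℝ))
  have h4 : (n : ℝ) ^ 2 * (2 * |(β : ℝ)| / n) = 2 * |(β : ℝ)| * n := by
    field_simp
  rw [h4] at h3
  refine h3.trans ?_
  have h5 := abs_nonneg (β : ℝ)
  have h6 : (n : ℝ) ≤ n * Real.log n := by nlinarith
  have h7 := mul_le_mul_of_nonneg_left h6 (by positivity : 0 ≤ 2 * |(β : ℝ)|)
  linarith

private theorem E_u1 (β : ℚ) (i : ℕ) (hi : i ≤ 1) : (fun n : ℕ => gL β i n) =O[atTop]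
    fun n : ℕ => (n : ℝ) * Real.log n := by
  apply E_bigO (1 + 2 * |(β : ℝ)|)
  filter_upwards [E_l (β : ℝ)] with n hn hl hn1
  have h1 := hn hn1
  have h5 := abs_nonneg (β : ℝ)
  have h2 : |Real.log ((n : ℝ) + β)| ≤ (1 + 2 * |(β : ℝ)|) * Real.log n := by
    have h3 := abs_sub_abs_le_abs_sub (Real.log ((n : ℝ) + β)) (Real.log n)
    rw [abs_of_nonneg (by linarith : 0 ≤ Real.log (n : ℝ))] at h3
    have h4 : 2 * |(β : ℝ)| / n ≤ 2 * |(β : ℝ)| := div_le_self (by positivity) hn1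
    nlinarith
  unfold gL
  rw [abs_mul]
  have h3 : |(n : ℝ) ^ i| ≤ n := by
    rw [abs_of_nonneg (by positivity)]
    calc (n : ℝ) ^ i ≤ (n : ℝ) ^ 1 := pow_le_pow_right₀ hn1 hi
      _ = n := pow_one _
  calc |(n : ℝ) ^ i| * |Real.log ((n : ℝ) + β)| ≤ n * ((1 + 2 * |(β : ℝ)|) * Real.log n) :=
        mul_le_mul h3 h2 (abs_nonneg _) (by linarith)
    _ = (1 + 2 * |(β : ℝ)|) * ((n : ℝ) * Real.log n) := by ring

theorem thm_E : St_E := by
  classical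
  intro d hT hU
  let mt : ℚ × ℕ × ℕ → ℕ → ℝ := fun t n =>
    if t.2 = (1, 0) then (n : ℝ) ^ 2 * Real.log n - (n : ℝ) ^ 2 else
      if t.2 = (0, 1) then (n : ℝ) ^ 2 * Real.log n / 2 - (n : ℝ) ^ 2 / 4 else 0
  let mu' : ℚ × ℕ → ℕ → ℝ := fun u n => if u.2 = 2 then (n : ℝ) ^ 2 * Real.log n else 0
  have h1 : ∀ t ∈ d.T, (fun n : ℕ => gS t.1 t.2.1 t.2.2 n - mt t n) =O[atTop]
      fun n : ℕ => (n : ℝ) * Real.log n := by
    rintro ⟨α, i, j⟩ ht
    obtain ⟨ha0, ha1⟩ := d.hT _ ht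
    have hij : i + j ≤ 1 := hT _ ht
    simp only at ha0 ha1
    have hcases : (i = 1 ∧ j = 0) ∨ (i = 0 ∧ j = 1) ∨ (i = 0 ∧ j = 0) := by omega
    rcases hcases with ⟨rfl, rfl⟩ | ⟨rfl, rfl⟩ | ⟨rfl, rfl⟩
    · simpa [mt] using E_a α ha0 ha1
    · simpa [mt] using E_b α ha0 ha1
    · simpa [mt] using E_c α ha0 ha1
  have h2 : ∀ u ∈ d.U, (fun n : ℕ => gL u.1 u.2 n - mu' u n) =O[atTop]
      fun n : ℕ => (n : ℝ) * Real.log n := by
    rintro ⟨β, i⟩ hu
    have hi : i ≤ 2 := hU _ hu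
    by_cases h : i = 2
    · subst h
      simpa [mu'] using E_u2 β
    · have := E_u1 β i (by omega)
      simpa [mu', h] using this
  have h3 : (fun n : ℕ => ∑ t ∈ d.T, (d.c t : ℝ) * (gS t.1 t.2.1 t.2.2 n - mt t n) +
      ∑ u ∈ d.U, (d.e u : ℝ) * (gL u.1 u.2 n - mu' u n)) =O[atTop]
      fun n : ℕ => (n : ℝ) * Real.log n := by
    apply IsBigO.add
    · exact IsBigO.fun_sum fun t ht => (h1 t ht).const_mul_left _
    · exact IsBigO.fun_sum fun u hu => (h2 u hu).const_mul_left _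
  refine ⟨(d.sA : ℝ) + d.sB / 2 + ((∑ u ∈ d.U.filter (fun u => u.2 = 2), d.e u : ℤ) : ℝ), ?_⟩
  refine h3.congr_left fun n => ?_
  have h4 : ∑ t ∈ d.T, (d.c t : ℝ) * mt t n =
      (d.sA : ℝ) * ((n : ℝ) ^ 2 * Real.log n - (n : ℝ) ^ 2) +
        (d.sB : ℝ) * ((n : ℝ) ^ 2 * Real.log n / 2 - (n : ℝ) ^ 2 / 4) := by
    unfold NFD.sA NFD.sB
    push_cast
    rw [sum_mul, sum_mul, sum_filter, sum_filter, ← sum_add_distrib]
    apply sum_congr rfl
    intro t _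
    simp only [mt]
    by_cases ht1 : t.2 = (1, 0)
    · have ht2 : t.2 ≠ (0, 1) := by rw [ht1]; decide
      simp [ht1]
    · by_cases ht2 : t.2 = (0, 1)
      · simp [ht2]
      · simp [ht1, ht2]
  have h5 : ∑ u ∈ d.U, (d.e u : ℝ) * mu' u n =
      ((∑ u ∈ d.U.filter (fun u => u.2 = 2), d.e u : ℤ) : ℝ) * ((n : ℝ) ^ 2 * Real.log n) := by
    push_cast
    rw [sum_mul, sum_filter]
    apply sum_congr rfl
    intro u _
    simp only [mu']
    split_ifs <;> simp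
  unfold NFD.tr
  simp only [mul_sub, sum_sub_distrib]
  rw [h4, h5]
  ring

end Pool.Agent.GNC
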