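import Pool.Agent.GNC.St
import Pool.Agent.MSF.Irr

/-!
# GNC, module F: comparison of the asymptotics
-/

set_option autoImplicit false

open Finset Filter Asymptotics Topology

namespace Pool.Agent.GNC

private theorem F_log : (fun n : ℕ => Real.log (n : ℝ)) =o[atTop] fun n : ℕ => (n : ℝ) :=
  Real.isLittleO_log_id_atTop.comp_tendsto tendsto_natCast_atTop_atTop

/-- `n log n = o(n ^ 2)` -/
private theorem F_nlog : (fun n : ℕ => (n : ℝ) * Real.log (n : ℝ)) =o[atTop]
    fun n : ℕ => (n : ℝ) ^ 2 := by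
  have h := (isBigO_refl (fun n : ℕ => (n : ℝ)) atTop).mul_isLittleO F_log
  refine h.congr_right fun n => ?_
  ring

/-- `n = O(n log n)` -/
private theorem F_n : (fun n : ℕ => (n : ℝ)) =O[atTop] fun n : ℕ => (n : ℝ) * Real.log (n : ℝ) := by
  have h1 : ∀ᶠ n : ℕ in atTop, 1 ≤ Real.log (n : ℝ) :=
    (Real.tendsto_log_atTop.comp tendsto_natCast_atTop_atTop).eventually_ge_atTop 1
  refine IsBigO.of_bound 1 ?_
  filter_upwards [h1] with n hn
  rw [one_mul, Real.norm_of_nonneg (Nat.cast_nonneg n),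
    Real.norm_of_nonneg (mul_nonneg (Nat.cast_nonneg n) (by linarith))]
  nlinarith [(Nat.cast_nonneg n : (0 : ℝ) ≤ n)]

/-- a polynomial which is `o(n ^ 3)` has degree at most two -/
private theorem F_deg (Q : Polynomial ℝ)
    (h : (fun n : ℕ => Q.eval (n : ℝ)) =o[atTop] fun n : ℕ => (n : ℝ) ^ 3) : Q.natDegree ≤ 2 := by
  by_contra hd
  have hd3 : 3 ≤ Q.natDegree := by omega
  have hQ : Q.leadingCoeff ≠ 0 := by
    intro h0
    rw [Polynomial.leadingCoeff_eq_zero] at h0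
    rw [h0, Polynomial.natDegree_zero] at hd3
    omega
  have h1 : (fun n : ℕ => Q.eval (n : ℝ)) ~[atTop]
      fun n : ℕ => Q.leadingCoeff * (n : ℝ) ^ Q.natDegree :=
    (Polynomial.isEquivalent_atTop_lead Q).comp_tendsto tendsto_natCast_atTop_atTop
  have h2 : (fun n : ℕ => (n : ℝ) ^ 3) =O[atTop] fun n : ℕ => (n : ℝ) ^ Q.natDegree := by
    refine IsBigO.of_bound 1 ?_
    filter_upwards [eventually_ge_atTop 1] with n hn
    have hn1 : (1 : ℝ) ≤ n := by exact_mod_cast hn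
    rw [one_mul, Real.norm_of_nonneg (by positivity), Real.norm_of_nonneg (by positivity)]
    exact pow_le_pow_right₀ hn1 hd3
  have h3 : (fun n : ℕ => Q.leadingCoeff * (n : ℝ) ^ Q.natDegree) =o[atTop]
      fun n : ℕ => Q.leadingCoeff * (n : ℝ) ^ Q.natDegree := by
    refine (h1.symm.isBigO.trans_isLittleO h).trans_isBigO (h2.trans ?_)
    exact (isBigO_const_mul_self Q.leadingCoeff⁻¹
      (fun n : ℕ => Q.leadingCoeff * (n : ℝ) ^ Q.natDegree) atTop).congr_left fun n => by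
        field_simp
  refine isLittleO_irrefl ?_ h3
  refine Eventually.frequently ?_
  filter_upwards [eventually_ge_atTop 1] with n hn
  have : (n : ℝ) ≠ 0 := by
    have : (1 : ℝ) ≤ n := by exact_mod_cast hn
    positivity
  positivity

theorem thm_F (hE : St_E) : St_F := by
  intro b d Q hb hQ hr has hT hU
  obtain ⟨G, hG⟩ := hE d hT hU
  obtain ⟨κ, hκ⟩ : ∃ κ : ℝ, κ = Real.log 3 / 2 - 1 / 4 := ⟨_, rfl⟩
  rw [← hκ] at has
  obtain ⟨c1, hc1⟩ : ∃ c1 : ℝ, c1 = d.D / 2 - G := ⟨_, rfl⟩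
  obtain ⟨c2, hc2⟩ : ∃ c2 : ℝ, c2 = -κ * d.D + d.sA + d.sB / 4 := ⟨_, rfl⟩
  -- the asymptotics of `Q`
  have h1 : (fun n : ℕ => Q.eval (n : ℝ) - (c1 * ((n : ℝ) ^ 2 * Real.log n) + c2 * (n : ℝ) ^ 2))
      =O[atTop] fun n : ℕ => (n : ℝ) * Real.log n := by
    have h2 := (has.const_mul_left (d.D : ℝ)).sub hG
    refine h2.congr' ?_ EventuallyEq.rfl
    filter_upwards [hQ] with n hn
    rw [hc1, hc2]
    linear_combination hn
  have h2 : (fun n : ℕ => Q.eval (n : ℝ)) =o[atTop] fun n : ℕ => (n : ℝ) ^ 3 := by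
    have e1 : (fun n : ℕ => (n : ℝ) ^ 2 * Real.log n) =o[atTop] fun n : ℕ => (n : ℝ) ^ 3 := by
      have h := (isBigO_refl (fun n : ℕ => (n : ℝ) ^ 2) atTop).mul_isLittleO F_log
      exact h.congr_right fun n => by ring
    have e2 : (fun n : ℕ => (n : ℝ) ^ 2) =o[atTop] fun n : ℕ => (n : ℝ) ^ 3 := by
      have h := (isBigO_refl (fun n : ℕ => (n : ℝ)) atTop).mul_isLittleO
        (F_n.trans_isLittleO F_nlog)
      refine (h.congr_left fun n => ?_).congr_right fun n => ?_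
      · ring
      · ring
    have e3 := (e1.const_mul_left c1).add (e2.const_mul_left c2)
    have e4 := (h1.trans_isLittleO (F_nlog.trans e2)).add e3
    exact e4.congr_left fun n => by ring
  have hdeg := F_deg Q h2
  obtain ⟨a, ha⟩ : ∃ a, a = Q.coeff 2 := ⟨_, rfl⟩
  have hev : ∀ x : ℝ, Q.eval x = a * x ^ 2 + Q.coeff 1 * x + Q.coeff 0 := by
    intro x
    rw [Polynomial.eval_eq_sum_range' (Nat.lt_succ_of_le hdeg), sum_range_succ, sum_range_succ,
      sum_range_succ, sum_range_zero, ha]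
    ring
  -- the coefficients
  have h3 : (fun n : ℕ => (a - c2) * (n : ℝ) ^ 2 - c1 * ((n : ℝ) ^ 2 * Real.log n)) =o[atTop]
      fun n : ℕ => (n : ℝ) ^ 2 := by
    have e1 : (fun n : ℕ => Q.coeff 1 * (n : ℝ)) =o[atTop] fun n : ℕ => (n : ℝ) ^ 2 :=
      (F_n.trans_isLittleO F_nlog).const_mul_left _
    have e2 : (fun _ : ℕ => Q.coeff 0) =o[atTop] fun n : ℕ => (n : ℝ) ^ 2 := by
      refine (isLittleO_const_left.2 (Or.inr ?_))
      have : Tendsto (fun n : ℕ => (n : ℝ) ^ 2) atTop atTop :=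
        (tendsto_pow_atTop two_ne_zero).comp tendsto_natCast_atTop_atTop
      exact tendsto_norm_atTop_atTop.comp this
    have e3 := ((h1.trans_isLittleO F_nlog).sub e1).sub e2
    refine e3.congr_left fun n => ?_
    rw [hev]
    ring
  have h4 : Tendsto (fun n : ℕ => (a - c2) - c1 * Real.log n) atTop (𝓝 0) := by
    have e1 := h3.tendsto_div_nhds_zero
    refine e1.congr' ?_
    filter_upwards [eventually_ge_atTop 1] with n hn
    have : (n : ℝ) ≠ 0 := by
      have : (1 : ℝ) ≤ n := by exact_mod_cast hn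
      positivity
    field_simp
  have hlogt : Tendsto (fun n : ℕ => Real.log (n : ℝ)) atTop atTop :=
    Real.tendsto_log_atTop.comp tendsto_natCast_atTop_atTop
  have hc10 : c1 = 0 := by
    by_contra hne
    have e1 : Tendsto (fun n : ℕ => c1 * Real.log n) atTop (𝓝 (a - c2)) := by
      have := (tendsto_const_nhds (x := a - c2)).sub h4
      rw [sub_zero] at this
      exact this.congr fun n => by ring
    have e2 : Tendsto (fun n : ℕ => Real.log (n : ℝ)) atTop (𝓝 (c1⁻¹ * (a - c2))) := by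
      refine (e1.const_mul c1⁻¹).congr fun n => ?_
      field_simp
    exact not_tendsto_nhds_of_tendsto_atTop hlogt _ e2
  have ha2 : a = c2 := by
    rw [hc10] at h4
    simp only [zero_mul, sub_zero] at h4
    have := tendsto_nhds_unique h4 tendsto_const_nhds
    linarith
  -- the second difference
  have hrat : ∃ r : ℚ, Real.exp (2 * a) = r := by
    have hr1 : ∀ᶠ n : ℕ in atTop, ∃ r : ℚ, Real.exp (Q.eval ((n + 1 : ℕ) : ℝ)) = r :=
      (tendsto_add_atTop_nat 1).eventually hr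
    have hr2 : ∀ᶠ n : ℕ in atTop, ∃ r : ℚ, Real.exp (Q.eval ((n + 2 : ℕ) : ℝ)) = r :=
      (tendsto_add_atTop_nat 2).eventually hr
    obtain ⟨n, ⟨r0, e0⟩, ⟨r1, e1⟩, ⟨r2, e2⟩⟩ := (hr.and (hr1.and hr2)).exists
    refine ⟨r2 * r0 / r1 ^ 2, ?_⟩
    push_cast
    rw [← e0, ← e1, ← e2, ← Real.exp_add, ← Real.exp_nat_mul, ← Real.exp_sub]
    congr 1
    rw [hev, hev, hev]
    push_cast
    ring
  obtain ⟨r, hr'⟩ := hrat
  by_contra hne
  refine Pool.Agent.MSF.irr_exp _ hne ⟨r ^ 2 * 9 ^ d.D, ?_⟩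
  have h9 : (9 : ℝ) ^ d.D = Real.exp (2 * d.D * Real.log 3) := by
    have : Real.exp (2 * d.D * Real.log 3) = Real.exp (((2 * d.D : ℕ) : ℝ) * Real.log 3) := by
      push_cast
      rfl
    rw [this, Real.exp_nat_mul, Real.exp_log (by norm_num), pow_mul]
    norm_num
  push_cast
  rw [← hr', h9, ← Real.exp_nat_mul, ← Real.exp_add]
  congr 1
  rw [ha2, hc2, hκ]
  push_cast
  ring

end Pool.Agent.GNC
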