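import Pool.Agent.GNC.St

/-!
# GNC, module Big: more vectors than the dimension
-/

set_option autoImplicit false

open Finset

namespace Pool.Agent.GNC

theorem thm_Big (hD : St_Dep) : St_Big := by
  intro V Ω _ _ _ _ l hl A hA
  obtain ⟨v0⟩ := (inferInstance : Nonempty V)
  have h1 : ¬ LinearIndependent ℤ (fun (e : A) (w : {v : V // v ≠ v0}) => l e w) := by
    intro h
    have h2 := h.fintype_card_le_finrank
    rw [Module.finrank_fintype_fun_eq_card, Fintype.card_coe] at h2
    have h3 : Fintype.card {v : V // v ≠ v0} < Fintype.card V :=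
      Fintype.card_subtype_lt (x := v0) (by simp)
    omega
  rw [Fintype.not_linearIndependent_iff] at h1
  obtain ⟨c, hc, i, hi⟩ := h1
  have h4 : ∀ v, v ≠ v0 → ∑ e : A, c e * l e v = 0 := by
    intro v hv
    have h5 := congrFun hc ⟨v, hv⟩
    rw [Finset.sum_apply] at h5
    exact h5
  refine hD V A (fun e : A => l e) c (fun h => hi (congrFun h i)) fun v => ?_
  by_cases hv : v = v0
  · rw [hv]
    have h6 : ∀ e : A, l e v0 = - ∑ v ∈ univ.erase v0, l e v := by
      intro e
      have h7 := hl e
      rw [← add_sum_erase univ _ (mem_univ v0)] at h7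
      linarith
    calc ∑ e : A, c e * l e v0 = - ∑ v ∈ univ.erase v0, ∑ e : A, c e * l e v := by
          rw [sum_comm, ← sum_neg_distrib]
          refine sum_congr rfl fun e _ => ?_
          rw [h6, mul_neg, mul_sum]
      _ = 0 := by
          rw [sum_eq_zero fun v hv => h4 v (ne_of_mem_erase hv), neg_zero]
  · exact h4 v hv

end Pool.Agent.GNC
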