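import Pool.Agent.GNC.St

/-!
# GNC, module Gau: the Gaussian functional (monomials, products, Stein's formula)
-/

set_option autoImplicit false

open Finset MvPolynomial

namespace Pool.Agent.GNC

variable {V S : Type} [Fintype V] [CommRing S]

theorem gau_monomial (a : V →₀ ℕ) (c : S) :
    gau V S (monomial a c) = c * ((∏ v, mu (a v) : ℕ) : S) := by
  have h1 : monomial a c = c • monomial a (1 : S) := by
    rw [smul_monomial, smul_eq_mul, mul_one]
  have h2 : (basisMonomials V S) a = monomial a (1 : S) := by
    rw [coe_basisMonomials]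
  unfold gau
  rw [h1, map_smul, ← h2, Module.Basis.constr_basis, smul_eq_mul]

theorem gau_one : gau V S 1 = 1 := by
  have h : (1 : MvPolynomial V S) = monomial 0 1 := rfl
  rw [h, gau_monomial]
  simp [mu]

theorem gau_C_mul (c : S) (P : MvPolynomial V S) : gau V S (C c * P) = c * gau V S P := by
  rw [← smul_eq_C_mul, map_smul, smul_eq_mul]

theorem mu_rec (m : ℕ) : mu (m + 1) = m * mu (m - 1) := by
  cases m with
  | zero => rw [zero_mul]; rfl
  | succ m => rfl

theorem gau_stein (v : V) (P : MvPolynomial V S) :
    gau V S (X v * P) = gau V S (pderiv v P) := by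
  classical
  induction P using MvPolynomial.induction_on' with
  | monomial a c =>
    have h1 : X v * monomial a c = monomial (Finsupp.single v 1 + a) c := by
      rw [X, monomial_mul, one_mul]
    rw [h1, pderiv_monomial, gau_monomial, gau_monomial]
    have h2 : ∏ w, mu ((Finsupp.single v 1 + a : V →₀ ℕ) w) =
        mu (a v + 1) * ∏ w ∈ univ.erase v, mu (a w) := by
      rw [← mul_prod_erase univ _ (mem_univ v)]
      congr 1
      · rw [Finsupp.add_apply, Finsupp.single_eq_same, add_comm]
      · refine prod_congr rfl fun w hw => ?_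
        rw [Finsupp.add_apply, Finsupp.single_eq_of_ne (ne_of_mem_erase hw), zero_add]
    have h3 : ∏ w, mu ((a - Finsupp.single v 1 : V →₀ ℕ) w) =
        mu (a v - 1) * ∏ w ∈ univ.erase v, mu (a w) := by
      rw [← mul_prod_erase univ _ (mem_univ v)]
      congr 1
      · rw [Finsupp.tsub_apply, Finsupp.single_eq_same]
      · refine prod_congr rfl fun w hw => ?_
        rw [Finsupp.tsub_apply, Finsupp.single_eq_of_ne (ne_of_mem_erase hw), Nat.sub_zero]
    rw [h2, h3, mu_rec]
    push_cast
    ring
  | add P Q hP hQ =>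
    rw [mul_add, map_add, map_add, hP, hQ, map_add]

/-- integer polynomials -/
theorem gau_map (P : MvPolynomial V ℤ) :
    gau V S (map (Int.castRingHom S) P) = ((gau V ℤ P : ℤ) : S) := by
  induction P using MvPolynomial.induction_on' with
  | monomial a c =>
    rw [map_monomial, gau_monomial, gau_monomial]
    push_cast
    rfl
  | add P Q hP hQ => rw [map_add, map_add, map_add, hP, hQ, Int.cast_add]

theorem lf_map (b : V → ℤ) : map (Int.castRingHom S) (lf ℤ b) = lf S b := by
  unfold lf
  rw [map_sum]
  refine sum_congr rfl fun v _ => ?_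
  rw [map_mul, map_X, map_C]
  simp

theorem pderiv_lf (b : V → ℤ) (v : V) : pderiv v (lf S b) = C ((b v : ℤ) : S) := by
  classical
  unfold lf
  rw [map_sum]
  rw [sum_eq_single v]
  · rw [pderiv_C_mul, pderiv_X_self, mul_one]
  · intro w _ hw
    rw [pderiv_C_mul, pderiv_X_of_ne hw, mul_zero]
  · intro h
    exact absurd (mem_univ v) h

theorem gau_lf_mul (b : V → ℤ) (P : MvPolynomial V S) :
    gau V S (lf S b * P) = ∑ v, ((b v : ℤ) : S) * gau V S (X v * P) := by
  unfold lf
  rw [sum_mul, map_sum]
  refine sum_congr rfl fun v _ => ?_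
  rw [mul_assoc, gau_C_mul]

end Pool.Agent.GNC
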