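import Pool.Agent.GNC.St
import Pool.Agent.GNC.Gau

/-!
# GNC, module Bij: the edge system `gl` is the complete graph
-/

set_option autoImplicit false

open Finset MvPolynomial

namespace Pool.Agent.GNC

/-- systems of edges which contain every edge of the complete graph exactly once -/
structure Bij_C {V Ω : Type} (en : Ω → V × V) : Prop where
  ne : ∀ e, (en e).1 ≠ (en e).2
  ex : ∀ a b, a ≠ b → ∃ e, en e = (a, b) ∨ en e = (b, a)
  inj : ∀ e e', en e = en e' ∨ en e = (en e').swap → e = e'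

theorem Bij_equiv {V V' Ω Ω' : Type} {en : Ω → V × V} {en' : Ω' → V' × V'} (h : Bij_C en)
    (h' : Bij_C en') (φ : V ≃ V') : ∃ ε : Ω ≃ Ω', ∀ e, en' (ε e) = (φ (en e).1, φ (en e).2) ∨
      en' (ε e) = (φ (en e).2, φ (en e).1) := by
  have h1 : ∀ e, ∃ e', en' e' = (φ (en e).1, φ (en e).2) ∨ en' e' = (φ (en e).2, φ (en e).1) :=
    fun e => h'.ex _ _ (φ.injective.ne (h.ne e))
  choose f hf using h1
  refine ⟨Equiv.ofBijective f ⟨fun e e' he => ?_, fun e' => ?_⟩, hf⟩
  · have a1 := hf e
    have a2 := hf e'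
    rw [he] at a1
    refine h.inj e e' ?_
    rcases a1 with a1 | a1 <;> rcases a2 with a2 | a2 <;>
      rw [a1, Prod.mk.injEq, φ.injective.eq_iff, φ.injective.eq_iff] at a2
    · exact Or.inl (Prod.ext a2.1 a2.2)
    · exact Or.inr (Prod.ext a2.1 a2.2)
    · exact Or.inr (Prod.ext a2.2 a2.1)
    · exact Or.inl (Prod.ext a2.2 a2.1)
  · obtain ⟨e, he⟩ := h.ex (φ.symm (en' e').1) (φ.symm (en' e').2)
      (φ.symm.injective.ne (h'.ne e'))
    refine ⟨e, h'.inj _ _ ?_⟩
    have a1 := hf e
    rcases he with he | he <;> rw [he] at a1 <;>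
      simp only [Equiv.apply_symm_apply] at a1 <;> rcases a1 with a1 | a1
    · exact Or.inl a1
    · exact Or.inr a1
    · exact Or.inr a1
    · exact Or.inl a1

theorem gau_rename {V V' : Type} [Fintype V] [Fintype V'] (φ : V ≃ V') (P : MvPolynomial V ℤ) :
    gau V' ℤ (rename φ P) = gau V ℤ P := by
  induction P using MvPolynomial.induction_on' with
  | monomial a c =>
    rw [rename_monomial, gau_monomial, gau_monomial, ← Equiv.prod_comp φ]
    simp only [Finsupp.mapDomain_apply φ.injective]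
  | add P Q hP hQ => rw [map_add, map_add, map_add, hP, hQ]

/-- the vector of an edge -/
def Bij_v {V : Type} [DecidableEq V] (x : V × V) : V → ℤ := Pi.single x.1 1 - Pi.single x.2 1

theorem Bij_lf {V : Type} [Fintype V] [DecidableEq V] (x : V × V) :
    lf ℤ (Bij_v x) = X x.1 - X x.2 := by
  have h1 : ∀ v, C ((Bij_v x v : ℤ) : ℤ) * (X v : MvPolynomial _ ℤ) =
      (if v = x.1 then X v else 0) - (if v = x.2 then X v else 0) := by
    intro v
    simp only [Bij_v, Pi.sub_apply, Pi.single_apply, map_sub, sub_mul]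
    congr 1
    · split_ifs <;> simp
    · split_ifs <;> simp
  have h2 : lf ℤ (Bij_v x) = ∑ v, C ((Bij_v x v : ℤ) : ℤ) * (X v : MvPolynomial _ ℤ) := rfl
  rw [h2, sum_congr rfl fun v _ => h1 v, sum_sub_distrib, sum_ite_eq', sum_ite_eq',
    if_pos (mem_univ _), if_pos (mem_univ _)]

theorem Bij_cs {V V' Ω Ω' K : Type} [Fintype V] [DecidableEq V] [Fintype V'] [DecidableEq V']
    [Fintype Ω] [DecidableEq Ω] [Fintype Ω'] [DecidableEq Ω'] [Fintype K] [DecidableEq K]
    {en : Ω → V × V} {en' : Ω' → V' × V'} (h : Bij_C en) (h' : Bij_C en') (φ : V ≃ V') :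
    cs K (mom fun e => Bij_v (en e)) = cs K (mom fun e => Bij_v (en' e)) := by
  obtain ⟨ε, hε⟩ := Bij_equiv h h' φ
  have h1 : ∀ A : Finset Ω, mom (fun e => Bij_v (en' e)) (A.map ε.toEmbedding) =
      mom (fun e => Bij_v (en e)) A := by
    intro A
    have h2 : (∏ e ∈ A.map ε.toEmbedding, lf ℤ (Bij_v (en' e)) ^ 2 : MvPolynomial V' ℤ) =
        rename φ (∏ e ∈ A, lf ℤ (Bij_v (en e)) ^ 2) := by
      rw [prod_map, map_prod]
      refine prod_congr rfl fun e _ => ?_
      rw [Equiv.coe_toEmbedding, Bij_lf, Bij_lf, map_pow, map_sub, rename_X, rename_X]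
      rcases hε e with h2 | h2
      · rw [h2]
      · rw [h2]
        ring
    unfold mom
    rw [h2, gau_rename]
  unfold cs
  refine Fintype.sum_equiv (Equiv.arrowCongr ε (Equiv.refl K)) _ _ fun c => ?_
  refine prod_congr rfl fun k _ => ?_
  rw [← h1]
  congr 1
  ext e
  simp only [mem_map_equiv, mem_filter, mem_univ, true_and, Equiv.arrowCongr_apply,
    Equiv.coe_refl, Function.comp_apply, id_eq]

theorem Bij_lfin (n : ℕ) : Bij_C fun e : {x : Fin n × Fin n // x.1 < x.2} => e.1 where
  ne e := e.2.ne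
  ex a b hab := by
    rcases lt_or_gt_of_ne hab with h | h
    · exact ⟨⟨(a, b), h⟩, Or.inl rfl⟩
    · exact ⟨⟨(b, a), h⟩, Or.inr rfl⟩
  inj e e' h := by
    rcases h with h | h
    · exact Subtype.ext h
    · exfalso
      have h1 := e.2
      rw [h] at h1
      exact lt_asymm h1 e'.2

/-- the ends of the edges of `gl` -/
def Bij_en (p q j : ℕ) :
    ((Fin (q + 1) ⊕ Fin j) × ZMod p) ⊕ {x : Fin j × Fin j // x.1 < x.2} →
      (ZMod p ⊕ Fin j) × (ZMod p ⊕ Fin j)
  | .inl (.inl d, a) => (.inl a, .inl (a + ((d.val + 1 : ℕ) : ZMod p)))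
  | .inl (.inr v, a) => (.inl a, .inr v)
  | .inr o => (.inr o.1.1, .inr o.1.2)

theorem Bij_gl (p q j : ℕ) (e) : gl p q (lfin j) e = Bij_v (Bij_en p q j e) := by
  rcases e with ⟨d | v, a⟩ | o
  · rfl
  · rfl
  · simp only [gl, lfin, Bij_v, Bij_en]
    ext x
    rcases x with x | x
    · simp
    · simp [Pi.single_apply]

theorem Bij_en_C (p q j : ℕ) [Fact p.Prime] (hp : p = 2 * q + 3) : Bij_C (Bij_en p q j) := by
  have hcast : ∀ m : ℕ, 0 < m → m < p → ((m : ℕ) : ZMod p) ≠ 0 := by
    intro m h0 h1 h2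
    rw [ZMod.natCast_eq_zero_iff] at h2
    exact absurd (Nat.le_of_dvd h0 h2) (by omega)
  constructor
  · rintro (⟨d | v, a⟩ | o)
    · simp only [Bij_en, ne_eq, Sum.inl.injEq]
      intro h
      have h1 : ((d.val + 1 : ℕ) : ZMod p) = 0 := by
        have h2 : a + 0 = a + ((d.val + 1 : ℕ) : ZMod p) := by rw [add_zero]; exact h
        exact (add_left_cancel h2).symm
      exact hcast _ (by omega) (by have := d.2; omega) h1
    · simp [Bij_en]
    · simp only [Bij_en, ne_eq, Sum.inr.injEq]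
      exact o.2.ne
  · rintro (a | v) (b | w) hab
    · have hne : b - a ≠ 0 := fun h => hab (by rw [sub_eq_zero.1 h])
      have hv0 : (b - a).val ≠ 0 := fun h => hne ((ZMod.val_eq_zero _).1 h)
      have hvp := (b - a).val_lt
      by_cases h : (b - a).val ≤ q + 1
      · refine ⟨.inl (.inl ⟨(b - a).val - 1, by omega⟩, a), Or.inl ?_⟩
        simp only [Bij_en]
        have h1 : (b - a).val - 1 + 1 = (b - a).val := by omega
        rw [h1, ZMod.natCast_zmod_val]
        congr 2
        ring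
      · refine ⟨.inl (.inl ⟨p - (b - a).val - 1, by omega⟩, b), Or.inr ?_⟩
        simp only [Bij_en]
        have h1 : p - (b - a).val - 1 + 1 = p - (b - a).val := by omega
        rw [h1, Nat.cast_sub hvp.le, ZMod.natCast_self, ZMod.natCast_zmod_val]
        congr 2
        ring
    · exact ⟨.inl (.inr w, a), Or.inl rfl⟩
    · exact ⟨.inl (.inr v, b), Or.inr rfl⟩
    · obtain ⟨e, he⟩ := (Bij_lfin j).ex v w (fun h => hab (by rw [h]))
      rcases he with he | he
      · refine ⟨.inr e, Or.inl ?_⟩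
        simp only [Bij_en]
        rw [he]
      · refine ⟨.inr e, Or.inr ?_⟩
        simp only [Bij_en]
        rw [he]
  · rintro (⟨d | v, a⟩ | o) (⟨d' | v', a'⟩ | o') h
    · have hd := d.2
      have hd' := d'.2
      simp only [Bij_en, Prod.mk.injEq, Sum.inl.injEq, Prod.swap_prod_mk] at h
      rcases h with ⟨h1, h2⟩ | ⟨h1, h2⟩
      · subst h1
        have h3 := add_left_cancel h2
        rw [ZMod.natCast_eq_natCast_iff'] at h3
        rw [Nat.mod_eq_of_lt (by omega), Nat.mod_eq_of_lt (by omega)] at h3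
        have h4 : d = d' := Fin.ext (by omega)
        rw [h4]
      · exfalso
        rw [h1] at h2
        have h3 : (((d'.val + 1) + (d.val + 1) : ℕ) : ZMod p) = 0 := by
          have h4 : a' + (((d'.val + 1) + (d.val + 1) : ℕ) : ZMod p) = a' + 0 := by
            rw [Nat.cast_add, ← add_assoc, h2, add_zero]
          exact add_left_cancel h4
        exact hcast _ (by omega) (by omega) h3
    · simp [Bij_en] at h
    · simp [Bij_en] at h
    · simp [Bij_en] at h
    · simp only [Bij_en, Prod.mk.injEq, Sum.inl.injEq, Sum.inr.injEq, Prod.swap_prod_mk,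
        reduceCtorEq, false_and, or_false] at h
      rw [h.1, h.2]
    · simp [Bij_en] at h
    · simp [Bij_en] at h
    · simp [Bij_en] at h
    · simp only [Bij_en, Prod.mk.injEq, Sum.inr.injEq, Prod.swap_prod_mk] at h
      have h1 : o = o' := (Bij_lfin j).inj o o' (by
        rcases h with h | h
        · exact Or.inl (Prod.ext h.1 h.2)
        · exact Or.inr (Prod.ext h.1 h.2))
      rw [h1]

theorem thm_Bij : St_Bij := by
  intro p q j _ hp D
  have h1 : (gl p q (lfin j)) = fun e => Bij_v (Bij_en p q j e) := funext (Bij_gl p q j)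
  have h2 : lfin (p + j) = fun e => Bij_v (e.1 : Fin (p + j) × Fin (p + j)) := rfl
  rw [h1, h2]
  refine Bij_cs (Bij_en_C p q j hp) (Bij_lfin (p + j)) (Fintype.equivOfCardEq ?_)
  rw [Fintype.card_sum, ZMod.card, Fintype.card_fin, Fintype.card_fin]

end Pool.Agent.GNC
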