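import Pool.Agent.GNC.St

/-!
# GNC, module Dep: dependent families have Gram determinant zero
-/

set_option autoImplicit false

open Finset

namespace Pool.Agent.GNC

theorem thm_Dep : St_Dep := by
  intro V ι _ _ _ b c hc h
  unfold gd
  refine Matrix.exists_vecMul_eq_zero_iff.1 ⟨c, hc, ?_⟩
  ext k
  rw [Matrix.vecMul, dotProduct, Pi.zero_apply]
  calc ∑ i, c i * (Matrix.of fun i k : ι => 2 * ∑ v, b i v * b k v) i k
      = ∑ i, ∑ v, 2 * b k v * (c i * b i v) := by
        refine sum_congr rfl fun i _ => ?_
        rw [Matrix.of_apply, mul_sum, mul_sum]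
        refine sum_congr rfl fun v _ => ?_
        ring
    _ = ∑ v, 2 * b k v * ∑ i, c i * b i v := by
        rw [sum_comm]
        refine sum_congr rfl fun v _ => ?_
        rw [mul_sum]
    _ = 0 := by
        refine sum_eq_zero fun v _ => ?_
        rw [h v, mul_zero]

end Pool.Agent.GNC
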