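import Pool.Agent.GNC.St

/-!
# GNC, module L1: adding unit vectors
-/

set_option autoImplicit false

open Finset

namespace Pool.Agent.GNC

/-- rank one update of the determinant -/
theorem L1_rank1 {n R : Type} [Fintype n] [DecidableEq n] [CommRing R] (A : Matrix n n R)
    (u v : n → R) : (Matrix.of fun i j => A i j + u i * v j).det =
      A.det + ∑ i, ∑ j, u i * (A.adjugate j i * v j) := by
  have key : ∀ T : Finset n, (Matrix.of fun i j => A i j + (if i ∈ T then u i else 0) * v j).det =
      A.det + ∑ i ∈ T, u i * (A.updateRow i v).det := by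
    intro T
    induction T using Finset.induction_on with
    | empty =>
      rw [sum_empty, add_zero]
      congr 1
      ext i j
      simp
    | insert i0 T hi ih =>
      have h1 : (Matrix.of fun i j => A i j + (if i ∈ insert i0 T then u i else 0) * v j) =
          (Matrix.of fun i j => A i j + (if i ∈ T then u i else 0) * v j).updateRow i0
            (A i0 + u i0 • v) := by
        ext i j
        by_cases h : i = i0
        · subst h
          simp
        · rw [Matrix.updateRow_ne h]
          simp only [Matrix.of_apply, mem_insert, h, false_or]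
      rw [h1, Matrix.det_updateRow_add, Matrix.det_updateRow_smul, sum_insert hi]
      have h2 : (Matrix.of fun i j => A i j + (if i ∈ T then u i else 0) * v j).updateRow i0
          (A i0) = Matrix.of fun i j => A i j + (if i ∈ T then u i else 0) * v j := by
        ext i j
        by_cases h : i = i0
        · subst h
          simp [hi]
        · rw [Matrix.updateRow_ne h]
      have h3 : ((Matrix.of fun i j => A i j + (if i ∈ T then u i else 0) * v j).updateRow i0
          v).det = (A.updateRow i0 v).det := by
        refine Matrix.det_eq_of_forall_row_eq_smul_add_const (fun i => if i ∈ T then u i else 0)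
          i0 (if_neg hi) fun i j => ?_
        by_cases h : i = i0
        · subst h
          simp [hi]
        · rw [Matrix.updateRow_ne h, Matrix.updateRow_ne h, Matrix.updateRow_self, Matrix.of_apply]
      rw [h2, h3, ih]
      ring
  have h1 := key univ
  simp only [mem_univ, if_true] at h1
  rw [h1]
  congr 1
  refine sum_congr rfl fun i _ => ?_
  rw [← mul_sum]
  congr 1
  rw [← Matrix.cramer_transpose_apply, Matrix.cramer_eq_adjugate_mulVec, ← Matrix.adjugate_transpose]
  rfl

theorem gd_equiv {V ι κ : Type} [Fintype V] [Fintype ι] [DecidableEq ι] [Fintype κ]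
    [DecidableEq κ] (e : κ ≃ ι) (b : ι → V → ℤ) : gd (fun k => b (e k)) = gd b := by
  unfold gd
  rw [← Matrix.det_submatrix_equiv_self e]
  rfl

/-- the Gram matrix -/
def gm {V ι : Type} [Fintype V] (b : ι → V → ℤ) : Matrix ι ι ℤ :=
  Matrix.of fun i k => 2 * ∑ v, b i v * b k v

theorem gd_eq {V ι : Type} [Fintype V] [Fintype ι] [DecidableEq ι] (b : ι → V → ℤ) :
    gd b = (gm b).det := rfl

/-- one unit vector -/
private theorem L1_one {N ι : Type} [Fintype N] [DecidableEq N] [Fintype ι] [DecidableEq ι]
    (b : ι → N → ℤ) (a : N) : gd (Sum.elim b fun _ : Unit => Pi.single a 1) =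
      2 * (gd b + ∑ i, ∑ j, - b i a * ((gm b).adjugate j i * (2 * b j a))) := by
  have h1 : (gm (Sum.elim b fun _ : Unit => Pi.single a 1)) = Matrix.of fun i j =>
      (Sum.elim (fun _ : ι => (1 : ℤ)) (fun _ : Unit => 2) j) *
        (Matrix.fromBlocks (gm b) (Matrix.of fun i (_ : Unit) => b i a)
          (Matrix.of fun (_ : Unit) j => 2 * b j a) 1) i j := by
    ext i j
    rcases i with i | i <;> rcases j with j | j
    · simp only [gm, Matrix.of_apply, Sum.elim_inl, Matrix.fromBlocks_apply₁₁, one_mul]
    · simp only [gm, Matrix.of_apply, Sum.elim_inl, Sum.elim_inr, Matrix.fromBlocks_apply₁₂]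
      congr 1
      rw [sum_eq_single a]
      · rw [Pi.single_eq_same, mul_one]
      · intro v _ hv
        rw [Pi.single_eq_of_ne hv, mul_zero]
      · intro h
        exact absurd (mem_univ a) h
    · simp only [gm, Matrix.of_apply, Sum.elim_inl, Sum.elim_inr, Matrix.fromBlocks_apply₂₁,
        one_mul]
      congr 1
      rw [sum_eq_single a]
      · rw [Pi.single_eq_same, one_mul]
      · intro v _ hv
        rw [Pi.single_eq_of_ne hv, zero_mul]
      · intro h
        exact absurd (mem_univ a) h
    · simp only [gm, Matrix.of_apply, Sum.elim_inr, Matrix.fromBlocks_apply₂₂]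
      rw [sum_eq_single a]
      · rw [Pi.single_eq_same, mul_one, Matrix.one_apply, if_pos (Subsingleton.elim i j)]
      · intro v _ hv
        rw [Pi.single_eq_of_ne hv, mul_zero]
      · intro h
        exact absurd (mem_univ a) h
  rw [gd_eq, h1, Matrix.det_mul_row, Matrix.det_fromBlocks_one₂₂]
  have h2 : ∏ j : ι ⊕ Unit, Sum.elim (fun _ : ι => (1 : ℤ)) (fun _ : Unit => 2) j = 2 := by
    rw [Fintype.prod_sum_type]
    simp
  have h3 : gm b - (Matrix.of fun i (_ : Unit) => b i a) *
      (Matrix.of fun (_ : Unit) j => 2 * b j a) =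
      Matrix.of fun i j => gm b i j + (- b i a) * (2 * b j a) := by
    ext i j
    rw [Matrix.sub_apply, Matrix.mul_apply, Matrix.of_apply, univ_unique, sum_singleton,
      Matrix.of_apply, Matrix.of_apply]
    ring
  rw [h2, h3, L1_rank1, ← gd_eq]

private theorem L1_step {N ι : Type} [Fintype N] [DecidableEq N] [Fintype ι] [DecidableEq ι]
    (b : ι → N → ℤ) : ∑ a : N, gd (Sum.elim b fun _ : Unit => Pi.single a 1) =
      2 * ((Fintype.card N : ℤ) - Fintype.card ι) * gd b := by
  have h1 : ∑ a : N, ∑ i, ∑ j, - b i a * ((gm b).adjugate j i * (2 * b j a)) =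
      - ∑ i, ∑ j, gm b i j * (gm b).adjugate j i := by
    rw [sum_comm, ← sum_neg_distrib]
    refine sum_congr rfl fun i _ => ?_
    rw [sum_comm, ← sum_neg_distrib]
    refine sum_congr rfl fun j _ => ?_
    have h2 : gm b i j = 2 * ∑ v, b i v * b j v := rfl
    rw [h2, mul_sum, sum_mul, ← sum_neg_distrib]
    refine sum_congr rfl fun a _ => ?_
    ring
  have h3 : ∑ i, ∑ j, gm b i j * (gm b).adjugate j i = Fintype.card ι * gd b := by
    have h4 : ∀ i, ∑ j, gm b i j * (gm b).adjugate j i = gd b := by
      intro i
      rw [← Matrix.mul_apply, Matrix.mul_adjugate, Matrix.smul_apply, Matrix.one_apply_eq,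
        smul_eq_mul, mul_one, gd_eq]
    rw [sum_congr rfl fun i _ => h4 i, sum_const, card_univ, nsmul_eq_mul]
  rw [sum_congr rfl fun a _ => L1_one b a, ← mul_sum, sum_add_distrib, h1, h3, sum_const,
    card_univ, nsmul_eq_mul]
  ring

private def L1_P (J : Type) [Fintype J] : Prop := ∀ [DecidableEq J] (N ι : Type) [Fintype N]
    [DecidableEq N] [Fintype ι] [DecidableEq ι] (b : ι → N → ℤ),
    ∑ y : J → N, gd (Sum.elim b fun v => Pi.single (y v) 1) =
    2 ^ Fintype.card J * (∏ i ∈ range (Fintype.card J),
      ((Fintype.card N : ℤ) - Fintype.card ι - i)) * gd b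

private theorem L1_main (J : Type) [Fintype J] : L1_P J := by
  refine Fintype.induction_empty_option (P := fun J _ => L1_P J) ?_ ?_ ?_ J
  · intro J J' _ e ih
    intro _ N ι _ _ _ _ b
    letI : Fintype J := Fintype.ofEquiv _ e.symm
    letI : DecidableEq J := e.decidableEq
    have h1 := ih N ι b
    rw [Fintype.card_congr e] at h1
    rw [← h1]
    refine Fintype.sum_equiv (Equiv.arrowCongr e.symm (Equiv.refl N)) _ _ fun y => ?_
    rw [← gd_equiv (Equiv.sumCongr (Equiv.refl ι) e)]
    congr 1
    funext i
    rcases i with i | v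
    · rfl
    · rfl
  · intro _ N ι _ _ _ _ b
    have h1 : ∀ y : PEmpty → N, gd (Sum.elim b fun v => Pi.single (y v) 1) = gd b := by
      intro y
      rw [← gd_equiv (Equiv.sumEmpty ι PEmpty)]
      congr 1
      funext i
      rcases i with i | v
      · rfl
      · exact v.elim
    rw [sum_congr rfl fun y _ => h1 y]
    simp
  · intro J _ ih
    intro _ N ι _ _ _ _ b
    letI : DecidableEq J := fun a b => decidable_of_iff (some a = some b) Option.some_inj
    have h1 : ∑ y : Option J → N, gd (Sum.elim b fun v => Pi.single (y v) 1) =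
        ∑ a : N, ∑ y : J → N, gd (Sum.elim (Sum.elim b fun _ : Unit => Pi.single a 1)
          fun v => Pi.single (y v) 1) := by
      rw [← Fintype.sum_prod_type']
      refine Fintype.sum_equiv (Equiv.piOptionEquivProd (β := fun _ => N)) _ _ fun y => ?_
      obtain ⟨e, he1, he2, he3⟩ : ∃ e : (ι ⊕ Unit) ⊕ J ≃ ι ⊕ Option J,
          (∀ i, e (.inl (.inl i)) = .inl i) ∧ (∀ u, e (.inl (.inr u)) = .inr none) ∧
            ∀ v, e (.inr v) = .inr (some v) :=
        ⟨{ toFun := fun x => match x with
            | .inl (.inl i) => .inl i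
            | .inl (.inr _) => .inr none
            | .inr v => .inr (some v)
           invFun := fun x => match x with
            | .inl i => .inl (.inl i)
            | .inr none => .inl (.inr ())
            | .inr (some v) => .inr v
           left_inv := by rintro ((i | u) | v) <;> rfl
           right_inv := by rintro (i | (_ | v)) <;> rfl }, fun _ => rfl, fun _ => rfl, fun _ => rfl⟩
      rw [← gd_equiv e]
      congr 1
      funext x
      rcases x with (i | u) | v
      · rw [he1]; rfl
      · rw [he2]; rfl
      · rw [he3]; rfl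
    have h2 : ∀ a : N, ∑ y : J → N, gd (Sum.elim (Sum.elim b fun _ : Unit => Pi.single a 1)
          fun v => Pi.single (y v) 1) = 2 ^ Fintype.card J * (∏ i ∈ range (Fintype.card J),
            ((Fintype.card N : ℤ) - (Fintype.card ι + 1) - i)) *
              gd (Sum.elim b fun _ : Unit => Pi.single a 1) := by
      intro a
      rw [ih N (ι ⊕ Unit) (Sum.elim b fun _ : Unit => Pi.single a 1)]
      simp only [Fintype.card_sum, Fintype.card_unit]
      push_cast
      rfl
    rw [h1, sum_congr rfl fun a _ => h2 a, ← mul_sum, L1_step, Fintype.card_option,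
      prod_range_succ']
    have h3 : ∏ i ∈ range (Fintype.card J), ((Fintype.card N : ℤ) - (Fintype.card ι + 1) - i) =
        ∏ i ∈ range (Fintype.card J), ((Fintype.card N : ℤ) - Fintype.card ι - ((i + 1 : ℕ) : ℤ)) := by
      refine prod_congr rfl fun i _ => ?_
      push_cast
      ring
    rw [h3]
    push_cast
    ring

theorem thm_L1 : St_L1 := by
  intro N ι J _ _ _ _ _ _ b
  exact L1_main J N ι b

end Pool.Agent.GNC
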