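import Pool.Agent.GNC.St
import Pool.Agent.GNC.L1

/-!
# GNC, module L2: leaves may be replaced by unit vectors
-/

set_option autoImplicit false

open Finset

namespace Pool.Agent.GNC

theorem L2_ss {X : Type} [Fintype X] [DecidableEq X] (f : X → ℤ) (c : X) :
    ∑ x, f x * (Pi.single c 1 : X → ℤ) x = f c := by
  rw [sum_eq_single c]
  · rw [Pi.single_eq_same, mul_one]
  · intro v _ hv
    rw [Pi.single_eq_of_ne hv, mul_zero]
  · intro h
    exact absurd (mem_univ c) h

theorem L2_ss' {X : Type} [Fintype X] [DecidableEq X] (f : X → ℤ) (c : X) :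
    ∑ x, (Pi.single c 1 : X → ℤ) x * f x = f c := by
  rw [← L2_ss f c]
  exact sum_congr rfl fun x _ => mul_comm _ _

section

variable {p s : ℕ} [Fact p.Prime] {ι J : Type} [Fintype ι] [DecidableEq ι] [Fintype J]
  [DecidableEq J]

/-- the extra diagonal entries -/
def L2_d (R : Finset J) (y : J → Fin s ⊕ ZMod p) : ι ⊕ J → ℤ :=
  Sum.elim 0 fun v => if (y v).isRight ∧ v ∈ R then 2 else 0

/-- the matrices of the induction -/
def L2_M (R : Finset J) (b : ι → (Fin s ⊕ ZMod p) → ℤ) (y : J → Fin s ⊕ ZMod p) :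
    Matrix (ι ⊕ J) (ι ⊕ J) ℤ :=
  gm (Sum.elim b fun v => Pi.single (y v) 1) + Matrix.diagonal (L2_d R y)

theorem L2_gm (b : ι → (Fin s ⊕ ZMod p) → ℤ) (y : J → Fin s ⊕ ZMod p) :
    gm (leafFam b y) = L2_M univ b y := by
  have hc : ∀ v (f : (Fin s ⊕ ZMod p) ⊕ J → ℤ), ∑ x, f x * leafFam b y (.inr v) x =
      f (.inl (y v)) - (if (y v).isRight then f (.inr v) else 0) := by
    intro v f
    have h1 : ∀ x, f x * leafFam b y (.inr v) x = f x * (Pi.single (.inl (y v)) 1 :
        (Fin s ⊕ ZMod p) ⊕ J → ℤ) x - f x * (if (y v).isRight then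
          (Pi.single (.inr v) 1 : (Fin s ⊕ ZMod p) ⊕ J → ℤ) else 0) x := by
      intro x
      rw [← mul_sub]
      rfl
    rw [sum_congr rfl fun x _ => h1 x, sum_sub_distrib, L2_ss]
    congr 1
    split_ifs with h
    · rw [L2_ss]
    · simp
  ext i j
  rcases i with i | v <;> rcases j with j | w
  · have e : ∑ x, leafFam b y (.inl i) x * leafFam b y (.inl j) x = ∑ x, b i x * b j x := by
      rw [Fintype.sum_sum_type]
      simp [leafFam]
    simp only [gm, L2_M, Matrix.of_apply, Matrix.add_apply, Sum.elim_inl, e, Matrix.diagonal_apply,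
      L2_d]
    simp
  · have e : ∑ x, leafFam b y (.inl i) x * leafFam b y (.inr w) x = b i (y w) := by
      rw [hc]
      simp [leafFam]
    simp only [gm, L2_M, Matrix.of_apply, Matrix.add_apply, Sum.elim_inl, Sum.elim_inr, e,
      Matrix.diagonal_apply, L2_ss]
    simp
  · have e : ∑ x, leafFam b y (.inr v) x * leafFam b y (.inl j) x = b j (y v) := by
      rw [sum_congr rfl fun x _ => mul_comm _ _, hc]
      simp [leafFam]
    simp only [gm, L2_M, Matrix.of_apply, Matrix.add_apply, Sum.elim_inl, Sum.elim_inr, e,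
      Matrix.diagonal_apply, L2_ss']
    simp
  · have e : ∑ x, leafFam b y (.inr v) x * leafFam b y (.inr w) x =
        (Pi.single (y v) 1 : Fin s ⊕ ZMod p → ℤ) (y w) +
          (if v = w ∧ (y v).isRight then 1 else 0) := by
      rw [hc]
      have h1 : leafFam b y (.inr v) (.inl (y w)) =
          (Pi.single (y v) 1 : Fin s ⊕ ZMod p → ℤ) (y w) := by
        simp only [leafFam, Pi.sub_apply]
        have h2 : (if (y v).isRight then (Pi.single (.inr v) 1 : (Fin s ⊕ ZMod p) ⊕ J → ℤ)
            else 0) (.inl (y w)) = 0 := by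
          split_ifs <;> simp
        rw [h2, sub_zero, Pi.single_apply, Pi.single_apply]
        simp only [Sum.inl.injEq]
      have h2 : leafFam b y (.inr v) (.inr w) = - (if v = w ∧ (y v).isRight then 1 else 0) := by
        simp only [leafFam, Pi.sub_apply]
        by_cases h3 : (y v).isRight
        · by_cases h4 : v = w
          · subst h4
            simp [h3]
          · rw [if_pos h3, if_neg (fun h => h4 h.1), Pi.single_eq_of_ne (by simp),
              Pi.single_eq_of_ne (by simpa using fun h => h4 h.symm)]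
            simp
        · rw [if_neg h3, if_neg (fun h => h3 h.2), Pi.single_eq_of_ne (by simp)]
          simp
      rw [h1, h2]
      by_cases h4 : v = w
      · subst h4
        by_cases h3 : (y v).isRight
        · simp [h3]
        · simp [h3]
      · simp [h4]
    simp only [gm, L2_M, Matrix.of_apply, Matrix.add_apply, Sum.elim_inr, e,
      Matrix.diagonal_apply, L2_ss, L2_d, mem_univ, and_true, Sum.inr.injEq]
    by_cases h4 : v = w
    · subst h4
      by_cases h3 : (y v).isRight
      · simp [h3]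
      · simp [h3]
    · simp [h4]

theorem L2_empty (b : ι → (Fin s ⊕ ZMod p) → ℤ) (y : J → Fin s ⊕ ZMod p) :
    L2_M ∅ b y = gm (Sum.elim b fun v => Pi.single (y v) 1) := by
  have : (L2_d (∅ : Finset J) y : ι ⊕ J → ℤ) = 0 := by
    funext i
    rcases i with i | v
    · rfl
    · simp [L2_d]
  have h0 : (Matrix.diagonal (0 : ι ⊕ J → ℤ)) = 0 := Matrix.diagonal_zero
  rw [L2_M, this, h0, add_zero]

/-- the minor -/
def L2_D (R : Finset J) (b : ι → (Fin s ⊕ ZMod p) → ℤ) (v : J) (y : J → Fin s ⊕ ZMod p) : ℤ :=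
  ((L2_M R b y).updateRow (.inr v) (Pi.single (.inr v) 1)).det

theorem L2_step (R : Finset J) (b : ι → (Fin s ⊕ ZMod p) → ℤ) (v : J) (hv : v ∉ R)
    (y : J → Fin s ⊕ ZMod p) : (L2_M (insert v R) b y).det =
      (L2_M R b y).det + (if (y v).isRight then 2 else 0) * L2_D R b v y := by
  have h1 : L2_M (insert v R) b y = (L2_M R b y).updateRow (.inr v)
      (L2_M R b y (.inr v) + (if (y v).isRight then 2 else 0 : ℤ) • Pi.single (.inr v) 1) := by
    ext i j
    by_cases h : i = .inr v
    · subst h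
      rw [Matrix.updateRow_self]
      simp only [L2_M, Matrix.add_apply, Pi.add_apply, Pi.smul_apply, Matrix.diagonal_apply, L2_d,
        Sum.elim_inr, mem_insert_self, and_true, smul_eq_mul, hv, and_false, if_false]
      by_cases h2 : (.inr v : ι ⊕ J) = j
      · subst h2
        simp
      · rw [Pi.single_eq_of_ne (fun h => h2 h.symm)]
        simp [h2]
    · rw [Matrix.updateRow_ne h]
      simp only [L2_M, Matrix.add_apply, Matrix.diagonal_apply]
      congr 1
      split_ifs with h2
      · rcases i with i | w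
        · rfl
        · have h3 : w ≠ v := fun h3 => h (by rw [h3])
          simp only [L2_d, Sum.elim_inr, mem_insert, h3, false_or]
      · rfl
  rw [h1, Matrix.det_updateRow_add, Matrix.det_updateRow_smul, Matrix.updateRow_eq_self]
  rfl

theorem L2_indep (R : Finset J) (b : ι → (Fin s ⊕ ZMod p) → ℤ) (v : J)
    (y y' : J → Fin s ⊕ ZMod p) (hy : ∀ w, w ≠ v → y w = y' w) :
    L2_D R b v y = L2_D R b v y' := by
  refine Matrix.det_eq_of_forall_row_eq_smul_add_const
    (fun i => if i = .inr v then 0 else L2_M R b y i (.inr v) - L2_M R b y' i (.inr v))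
    (.inr v) (if_pos rfl) fun i j => ?_
  by_cases h : i = .inr v
  · subst h
    simp
  · rw [Matrix.updateRow_ne h, Matrix.updateRow_ne h, Matrix.updateRow_self, if_neg h]
    by_cases h2 : j = .inr v
    · subst h2
      rw [Pi.single_eq_same]
      ring
    · rw [Pi.single_eq_of_ne h2, mul_zero, add_zero]
      have h3 : ∀ i : ι ⊕ J, i ≠ .inr v → (Sum.elim b fun v => Pi.single (y v) 1 :
          ι ⊕ J → Fin s ⊕ ZMod p → ℤ) i = (Sum.elim b fun v => Pi.single (y' v) 1 :
          ι ⊕ J → Fin s ⊕ ZMod p → ℤ) i ∧ (L2_d R y : ι ⊕ J → ℤ) i = L2_d R y' i := by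
        intro i hi
        rcases i with i | w
        · exact ⟨rfl, rfl⟩
        · have h3 : w ≠ v := fun h3 => hi (by rw [h3])
          simp only [Sum.elim_inr, L2_d, hy w h3, and_self]
      simp only [L2_M, Matrix.add_apply, gm, Matrix.of_apply, Matrix.diagonal_apply, (h3 i h).1,
        (h3 j h2).1, (h3 i h).2]

theorem L2_sum (f : (J → Fin s ⊕ ZMod p) → ℤ) (v : J)
    (hf : ∀ y y' : J → Fin s ⊕ ZMod p, (∀ w, w ≠ v → y w = y' w) → f y = f y') :
    (p : ℤ) ∣ ∑ y : J → Fin s ⊕ ZMod p, (if (y v).isRight then 2 else 0) * f y := by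
  haveI : NeZero p := ⟨(Fact.out : p.Prime).ne_zero⟩
  have h1 : ∑ y : J → Fin s ⊕ ZMod p, (if (y v).isRight then 2 else 0) * f y =
      ∑ q : (Fin s ⊕ ZMod p) × ({w // w ≠ v} → Fin s ⊕ ZMod p),
        (if q.1.isRight then 2 else 0) * f ((Equiv.funSplitAt v _).symm q) := by
    refine Fintype.sum_equiv (Equiv.funSplitAt v _) _ _ fun y => ?_
    rw [Equiv.symm_apply_apply]
    rfl
  rw [h1, Fintype.sum_prod_type_right]
  refine dvd_sum fun y _ => ?_
  rw [Fintype.sum_sum_type]
  have h2 : ∀ a : Fin s, (if (Sum.inl a : Fin s ⊕ ZMod p).isRight then 2 else 0) *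
      f ((Equiv.funSplitAt v _).symm (Sum.inl a, y)) = 0 := by
    intro a
    simp
  have h3 : ∀ a : ZMod p, (if (Sum.inr a : Fin s ⊕ ZMod p).isRight then 2 else 0) *
      f ((Equiv.funSplitAt v _).symm (Sum.inr a, y)) =
      2 * f ((Equiv.funSplitAt v _).symm (Sum.inr 0, y)) := by
    intro a
    simp only [Sum.isRight_inr, if_true]
    congr 1
    refine hf _ _ fun w hw => ?_
    simp [Equiv.funSplitAt, Equiv.piSplitAt, hw]
  simp only at h2 h3 ⊢
  rw [sum_congr rfl fun a _ => h2 a, sum_congr rfl fun a _ => h3 a, sum_const_zero, zero_add,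
    sum_const, card_univ, ZMod.card, nsmul_eq_mul]
  exact dvd_mul_right _ _

end

theorem thm_L2 : St_L2 := by
  intro p s _ ι J _ _ _ _ b
  haveI : NeZero p := ⟨(Fact.out : p.Prime).ne_zero⟩
  have key : ∀ R : Finset J, (p : ℤ) ∣ ∑ y : J → Fin s ⊕ ZMod p,
      ((L2_M R b y).det - gd (Sum.elim b fun v => Pi.single (y v) 1)) := by
    intro R
    induction R using Finset.induction_on with
    | empty =>
      refine dvd_sum fun y _ => ?_
      rw [L2_empty, gd_eq, sub_self]
      exact dvd_zero _
    | insert v R hv ih =>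
      have h1 : ∑ y : J → Fin s ⊕ ZMod p,
          ((L2_M (insert v R) b y).det - gd (Sum.elim b fun v => Pi.single (y v) 1)) =
          ∑ y : J → Fin s ⊕ ZMod p,
          ((L2_M R b y).det - gd (Sum.elim b fun v => Pi.single (y v) 1)) +
          ∑ y : J → Fin s ⊕ ZMod p, (if (y v).isRight then 2 else 0) * L2_D R b v y := by
        rw [← sum_add_distrib]
        refine sum_congr rfl fun y _ => ?_
        rw [L2_step R b v hv y]
        ring
      rw [h1]
      exact dvd_add ih (L2_sum _ v fun y y' h => L2_indep R b v y y' h)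
  have h1 := key univ
  have h2 : ∀ y : J → Fin s ⊕ ZMod p, gd (leafFam b y) = (L2_M univ b y).det := by
    intro y
    rw [gd_eq, L2_gm]
  rw [sum_congr rfl fun y _ => by rw [h2 y]]
  exact h1

end Pool.Agent.GNC
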