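import Pool.Agent.GNC.St
import Pool.Agent.GNC.L1
import Pool.Agent.GNC.L2
import Pool.Agent.GNC.Dep

/-!
# GNC, module L3: the weights of the fixed colourings
-/

set_option autoImplicit false

open Finset

namespace Pool.Agent.GNC

/-- an orthonormal family which is orthogonal to the rest -/
theorem L3_orth {V ι κ : Type} [Fintype V] [Fintype ι] [DecidableEq ι] [Fintype κ]
    [DecidableEq κ] (b : ι → V → ℤ) (c : κ → V → ℤ) (h1 : ∀ i k, ∑ v, b i v * c k v = 0)
    (h2 : ∀ k k', ∑ v, c k v * c k' v = if k = k' then 1 else 0) :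
    gd (Sum.elim b c) = 2 ^ Fintype.card κ * gd b := by
  have h : gm (Sum.elim b c) = Matrix.fromBlocks (gm b) 0 0 ((2 : ℤ) • (1 : Matrix κ κ ℤ)) := by
    ext i j
    rcases i with i | i <;> rcases j with j | j
    · simp [gm]
    · simp only [gm, Matrix.of_apply, Sum.elim_inl, Sum.elim_inr, Matrix.fromBlocks_apply₁₂, h1,
        mul_zero, Matrix.zero_apply]
    · have h3 : ∑ v, c i v * b j v = 0 := by
        rw [← h1 j i]
        exact sum_congr rfl fun v _ => mul_comm _ _
      simp only [gm, Matrix.of_apply, Sum.elim_inl, Sum.elim_inr, Matrix.fromBlocks_apply₂₁, h3,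
        mul_zero, Matrix.zero_apply]
    · simp only [gm, Matrix.of_apply, Sum.elim_inr, Matrix.fromBlocks_apply₂₂, h2,
        Matrix.smul_apply, Matrix.one_apply, smul_eq_mul]
  rw [gd_eq, h, Matrix.det_fromBlocks_zero₂₁, Matrix.det_smul, Matrix.det_one, mul_one, mul_comm,
    gd_eq]

/-- the star lemma -/
theorem L3_star {p : ℕ} [Fact p.Prime] {J O' L : Type} [Fintype J] [DecidableEq J] [Fintype O']
    [DecidableEq O'] [Fintype L] [DecidableEq L] [Subsingleton L] (lo : O' → J → ℤ) (g : L → J) :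
    ((gd (Sum.elim (fun o : O' => (Sum.elim 0 (lo o) : ZMod p ⊕ J → ℤ))
      fun x : L × ZMod p => Pi.single (.inl x.2) 1 - Pi.single (.inr (g x.1)) 1) : ℤ) : ZMod p) =
      2 ^ Fintype.card L * ((gd lo : ℤ) : ZMod p) := by
  set D : Matrix (L × ZMod p) (L × ZMod p) (ZMod p) := (2 : ZMod p) • Matrix.of fun i j =>
    (1 : Matrix (L × ZMod p) (L × ZMod p) (ZMod p)) i j + (1 : L × ZMod p → ZMod p) i *
      (1 : L × ZMod p → ZMod p) j with hD
  set U : Matrix O' (L × ZMod p) (ZMod p) := Matrix.of fun o x => ((lo o (g x.1) : ℤ) : ZMod p)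
    with hU
  have h1 : (gm (Sum.elim (fun o : O' => (Sum.elim 0 (lo o) : ZMod p ⊕ J → ℤ))
      fun x : L × ZMod p => Pi.single (.inl x.2) 1 - Pi.single (.inr (g x.1)) 1)).map
      (fun x => (x : ZMod p)) = Matrix.fromBlocks ((gm lo).map fun x => (x : ZMod p))
        ((-2 : ZMod p) • U) ((-2 : ZMod p) • U.transpose) D := by
    have hs : ∀ (f : ZMod p ⊕ J → ℤ) (x : L × ZMod p), ∑ v, f v *
        (Pi.single (.inl x.2) 1 - Pi.single (.inr (g x.1)) 1 : ZMod p ⊕ J → ℤ) v =
        f (.inl x.2) - f (.inr (g x.1)) := by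
      intro f x
      have h2 : ∀ v, f v * (Pi.single (.inl x.2) 1 - Pi.single (.inr (g x.1)) 1 :
          ZMod p ⊕ J → ℤ) v = f v * (Pi.single (.inl x.2) 1 : ZMod p ⊕ J → ℤ) v -
          f v * (Pi.single (.inr (g x.1)) 1 : ZMod p ⊕ J → ℤ) v := by
        intro v
        rw [Pi.sub_apply, mul_sub]
      rw [sum_congr rfl fun v _ => h2 v, sum_sub_distrib, L2_ss, L2_ss]
    ext i j
    rcases i with i | i <;> rcases j with j | j
    · simp only [Matrix.map_apply, Matrix.fromBlocks_apply₁₁, gm, Matrix.of_apply, Sum.elim_inl]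
      rw [Fintype.sum_sum_type]
      simp
    · simp only [Matrix.map_apply, Matrix.fromBlocks_apply₁₂, gm, Matrix.of_apply, Sum.elim_inl,
        Sum.elim_inr, hs, hU, Matrix.smul_apply, smul_eq_mul, Pi.zero_apply]
      push_cast
      ring
    · have h3 : ∑ v, (Pi.single (.inl i.2) 1 - Pi.single (.inr (g i.1)) 1 : ZMod p ⊕ J → ℤ) v *
          (Sum.elim 0 (lo j) : ZMod p ⊕ J → ℤ) v = - lo j (g i.1) := by
        rw [sum_congr rfl fun v _ => mul_comm _ _, hs]
        simp
      simp only [Matrix.map_apply, Matrix.fromBlocks_apply₂₁, gm, Matrix.of_apply, Sum.elim_inl,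
        Sum.elim_inr, h3, hU, Matrix.smul_apply, smul_eq_mul, Matrix.transpose_apply]
      push_cast
      ring
    · have h4 : g i.1 = g j.1 := by rw [Subsingleton.elim i.1 j.1]
      simp only [Matrix.map_apply, Matrix.fromBlocks_apply₂₂, gm, Matrix.of_apply, Sum.elim_inr,
        hs]
      simp only [hD, Matrix.smul_apply, Matrix.of_apply, smul_eq_mul, Pi.sub_apply, Pi.one_apply,
        mul_one, h4]
      rw [Pi.single_eq_of_ne (show (Sum.inl j.2 : ZMod p ⊕ J) ≠ .inr (g j.1) by simp),
        Pi.single_eq_of_ne (show (Sum.inr (g j.1) : ZMod p ⊕ J) ≠ .inl i.2 by simp),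
        Pi.single_eq_same, Pi.single_apply, Matrix.one_apply]
      by_cases h5 : i = j
      · subst h5
        simp only [if_true, sub_zero, zero_sub, sub_neg_eq_add]
        push_cast
        ring
      · have h6 : ¬ j.2 = i.2 := fun h6 => h5 (Prod.ext (Subsingleton.elim _ _) h6.symm)
        simp [h5, h6]
  have hp : (p : ZMod p) = 0 := ZMod.natCast_self p
  have h2 : ∀ x : ZMod p, ∑ _c : ZMod p, x = 0 := by
    intro x
    rw [sum_const, card_univ, ZMod.card, nsmul_eq_mul, hp, zero_mul]
  have h3 : U * ((-2 : ZMod p) • U.transpose) = 0 := by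
    ext o o'
    rw [Matrix.mul_apply, Matrix.zero_apply, Fintype.sum_prod_type]
    refine sum_eq_zero fun l _ => ?_
    simp only [hU, Matrix.of_apply, Matrix.smul_apply, Matrix.transpose_apply]
    exact h2 _
  have h4 : (-2 : ZMod p) • U + U * D = 0 := by
    ext o x
    rw [Matrix.add_apply, Matrix.mul_apply, Matrix.zero_apply, Fintype.sum_prod_type]
    have h5 : ∀ l : L, ∑ c : ZMod p, U o (l, c) * D (l, c) x = 2 * U o x := by
      intro l
      have h6 : ∀ c : ZMod p, U o (l, c) * D (l, c) x = (if c = x.2 then 2 * U o x else 0) +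
          2 * U o x := by
        intro c
        have h7 : U o (l, c) = U o x := by
          simp only [hU, Matrix.of_apply]
          rw [Subsingleton.elim l x.1]
        rw [h7, hD]
        simp only [Matrix.smul_apply, Matrix.of_apply, Matrix.one_apply, Pi.one_apply, mul_one,
          smul_eq_mul]
        by_cases h8 : c = x.2
        · have h9 : (l, c) = x := Prod.ext (Subsingleton.elim _ _) h8
          rw [if_pos h8, if_pos h9]
          ring
        · have h9 : ¬ (l, c) = x := fun h9 => h8 (by rw [← h9])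
          rw [if_neg h8, if_neg h9]
          ring
      rw [sum_congr rfl fun c _ => h6 c, sum_add_distrib, h2, sum_ite_eq' univ x.2,
        if_pos (mem_univ _), add_zero]
    rw [sum_congr rfl fun l _ => h5 l, Fintype.sum_subsingleton _ x.1, Matrix.smul_apply,
      smul_eq_mul]
    ring
  have h5 : (Matrix.fromBlocks ((gm lo).map fun x => (x : ZMod p)) ((-2 : ZMod p) • U)
      ((-2 : ZMod p) • U.transpose) D).det =
      (Matrix.fromBlocks (1 : Matrix O' O' (ZMod p)) U 0 1 *
        Matrix.fromBlocks ((gm lo).map fun x => (x : ZMod p)) ((-2 : ZMod p) • U)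
      ((-2 : ZMod p) • U.transpose) D).det := by
    rw [Matrix.det_mul, Matrix.det_fromBlocks_zero₂₁, Matrix.det_one, Matrix.det_one, one_mul,
      one_mul]
  rw [gd_eq, Int.cast_det, h1, h5, Matrix.fromBlocks_multiply, Matrix.one_mul, h3, add_zero,
    Matrix.one_mul, h4, Matrix.zero_mul, Matrix.one_mul, zero_add, Matrix.zero_mul,
    Matrix.one_mul, zero_add, Matrix.det_fromBlocks_zero₁₂]
  have h6 : D.det = 2 ^ Fintype.card L := by
    rw [hD, Matrix.det_smul, L1_rank1, Matrix.adjugate_one, Matrix.det_one]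
    have h7 : ∑ i : L × ZMod p, ∑ j : L × ZMod p, (1 : L × ZMod p → ZMod p) i *
        ((1 : Matrix (L × ZMod p) (L × ZMod p) (ZMod p)) j i * (1 : L × ZMod p → ZMod p) j) =
        0 := by
      rw [Fintype.sum_prod_type]
      refine sum_eq_zero fun l _ => ?_
      have h8 : ∀ c : ZMod p, ∑ j : L × ZMod p, (1 : L × ZMod p → ZMod p) (l, c) *
        ((1 : Matrix (L × ZMod p) (L × ZMod p) (ZMod p)) j (l, c) *
          (1 : L × ZMod p → ZMod p) j) = 1 := by
        intro c
        simp [Matrix.one_apply]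
      rw [sum_congr rfl fun c _ => h8 c]
      exact h2 1
    rw [h7, add_zero, mul_one, Fintype.card_prod, ZMod.card, mul_comm, pow_mul, ZMod.pow_card]
  rw [h6, mul_comm]
  congr 1
  rw [gd_eq, Int.cast_det]

section

variable {p q s : ℕ} [Fact p.Prime] {J O : Type} [Fintype J] [DecidableEq J] [Fintype O]
  [DecidableEq O]

theorem L3_memII (a : Fin (q + 1) → ZMod p) (y' : J → Fin s ⊕ ZMod p) (z : O → Fin s)
    (k : Fin s) (e : ((Fin (q + 1) ⊕ J) × ZMod p) ⊕ O) :
    e ∈ II (Sum.elim (fun d => Sum.inr (a d)) y') z k ↔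
      (∃ v c, e = .inl (.inr v, c) ∧ y' v = .inl k) ∨ ∃ o, e = .inr o ∧ z o = k := by
  simp only [II, mem_filter, mem_univ, true_and]
  constructor
  · rintro (⟨⟨x, c⟩, rfl, hx⟩ | h)
    · rcases x with d | v
      · simp at hx
      · exact Or.inl ⟨v, c, rfl, hx⟩
    · exact Or.inr h
  · rintro (⟨v, c, rfl, h⟩ | h)
    · exact Or.inl ⟨(.inr v, c), rfl, h⟩
    · exact Or.inr h

theorem L3_II (lo : O → J → ℤ) (a : Fin (q + 1) → ZMod p) (y' : J → Fin s ⊕ ZMod p)
    (z : O → Fin s) (k : Fin s) : gw (gl p q lo) (II (Sum.elim (fun d => Sum.inr (a d)) y') z k) =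
      gd (Sum.elim (fun o : {o // z o = k} => (Sum.elim 0 (lo o) : ZMod p ⊕ J → ℤ))
        fun x : {v // y' v = .inl k} × ZMod p =>
          Pi.single (.inl x.2) 1 - Pi.single (.inr (x.1 : J)) 1) := by
  let f : {o // z o = k} ⊕ ({v // y' v = .inl k} × ZMod p) →
      {e // e ∈ II (Sum.elim (fun d => Sum.inr (a d)) y') z k} := fun x => match x with
    | .inl o => ⟨.inr o, (L3_memII a y' z k _).2 (Or.inr ⟨o, rfl, o.2⟩)⟩
    | .inr x => ⟨.inl (.inr x.1, x.2), (L3_memII a y' z k _).2 (Or.inl ⟨x.1, x.2, rfl, x.1.2⟩)⟩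
  have hf : Function.Bijective f := by
    constructor
    · rintro (o | ⟨v, c⟩) (o' | ⟨v', c'⟩) h
      · have h1 := congrArg Subtype.val h
        simp only [f, Sum.inr.injEq] at h1
        rw [Subtype.ext h1]
      · have h1 := congrArg Subtype.val h
        simp [f] at h1
      · have h1 := congrArg Subtype.val h
        simp [f] at h1
      · have h1 := congrArg Subtype.val h
        simp only [f, Sum.inl.injEq, Prod.mk.injEq, Sum.inr.injEq] at h1
        rw [Subtype.ext h1.1, h1.2]
    · rintro ⟨e, he⟩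
      rcases (L3_memII a y' z k e).1 he with ⟨v, c, rfl, h⟩ | ⟨o, rfl, h⟩
      · exact ⟨.inr (⟨v, h⟩, c), rfl⟩
      · exact ⟨.inl ⟨o, h⟩, rfl⟩
  rw [gw, ← gd_equiv (Equiv.ofBijective f hf)]
  congr 1
  funext x
  rcases x with o | ⟨v, c⟩
  · rfl
  · rfl

/-- the family of the second step -/
def L3_fam (a : Fin (q + 1) → ZMod p) (y' : J → Fin s ⊕ ZMod p) :
    Fin (q + 1) ⊕ J → (ZMod p ⊕ J) → ℤ
  | .inl d => Pi.single (.inl (a d)) 1 -
      Pi.single (.inl (a d + ((d.val + 1 : ℕ) : ZMod p))) 1
  | .inr v => match y' v with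
    | .inl _ => Pi.single (.inr v) 1
    | .inr c => Pi.single (.inl c) 1 - Pi.single (.inr v) 1

omit [Fintype J] in
theorem L3_fam_l (a : Fin (q + 1) → ZMod p) {y' : J → Fin s ⊕ ZMod p} {v : J} {k : Fin s}
    (h : y' v = .inl k) : L3_fam a y' (.inr v) = Pi.single (.inr v) 1 := by
  simp only [L3_fam]
  rw [h]

omit [Fintype J] in
theorem L3_fam_r (a : Fin (q + 1) → ZMod p) {y' : J → Fin s ⊕ ZMod p} {v : J} {c : ZMod p}
    (h : y' v = .inr c) :
    L3_fam a y' (.inr v) = Pi.single (.inl c) 1 - Pi.single (.inr v) 1 := by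
  simp only [L3_fam]
  rw [h]

theorem L3_FF (lo : O → J → ℤ) (a : Fin (q + 1) → ZMod p) (y' : J → Fin s ⊕ ZMod p) :
    gd (L3_fam a y') = 2 ^ (∑ k : Fin s, Fintype.card {v // y' v = .inl k}) *
      gw (gl p q lo) (FF (s := s) (Sum.elim (fun d => Sum.inr (a d)) y')) := by
  set y : Fin (q + 1) ⊕ J → Fin s ⊕ ZMod p := Sum.elim (fun d => Sum.inr (a d)) y' with hy
  let f : {o // (y o).isRight = true} →
      {e : ((Fin (q + 1) ⊕ J) × ZMod p) ⊕ O // e ∈ FF (s := s) y} := fun o =>
    ⟨.inl (o.1, (y o.1).getRight o.2), by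
      simp only [FF, mem_filter, mem_univ, true_and]
      exact ⟨_, rfl, (Sum.inr_getRight _ _).symm⟩⟩
  have hf : Function.Bijective f := by
    constructor
    · intro o o' h
      have h1 := congrArg Subtype.val h
      simp only [f, Sum.inl.injEq, Prod.mk.injEq] at h1
      exact Subtype.ext h1.1
    · rintro ⟨e, he⟩
      have h1 := he
      simp only [FF, mem_filter, mem_univ, true_and] at h1
      obtain ⟨⟨o, c⟩, rfl, h2⟩ := h1
      refine ⟨⟨o, by simp only at h2; rw [h2]; rfl⟩, Subtype.ext ?_⟩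
      simp only [f, Sum.inl.injEq, Prod.mk.injEq, true_and]
      exact (Sum.getRight_eq_iff _).2 h2
  have h1 : gw (gl p q lo) (FF (s := s) y) =
      gd fun o : {o // (y o).isRight = true} => L3_fam a y' o := by
    rw [gw, ← gd_equiv (Equiv.ofBijective f hf)]
    congr 1
    funext o
    obtain ⟨o, ho⟩ := o
    rcases o with d | v
    · rfl
    · have h2 : y (.inr v) = y' v := rfl
      have h3 : y' v = .inr ((y (.inr v)).getRight ho) := by
        rw [Sum.inr_getRight]
        exact h2.symm
      have h4 : L3_fam a y' (.inr v) = Pi.single (.inl ((y (.inr v)).getRight ho)) 1 -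
          Pi.single (.inr v) 1 := by
        simp only [L3_fam]
        rw [h3]
      simp only
      rw [h4]
      rfl
  have h2 : Fintype.card {o // ¬ (y o).isRight = true} =
      ∑ k : Fin s, Fintype.card {v // y' v = .inl k} := by
    rw [← Fintype.card_sigma]
    symm
    let g : (Σ k : Fin s, {v // y' v = .inl k}) → {o // ¬ (y o).isRight = true} := fun x =>
      ⟨.inr x.2.1, by
        have h3 : y (.inr x.2.1) = .inl x.1 := x.2.2
        rw [h3]
        simp⟩
    refine Fintype.card_of_bijective (f := g) ⟨?_, ?_⟩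
    · rintro ⟨k, v, hv⟩ ⟨k', v', hv'⟩ h
      have h3 := congrArg Subtype.val h
      simp only [g, Sum.inr.injEq] at h3
      subst h3
      have h4 : k = k' := by
        rw [hv, Sum.inl.injEq] at hv'
        exact hv'
      subst h4
      rfl
    · rintro ⟨o, ho⟩
      rcases o with d | v
      · simp [hy] at ho
      · rcases h3 : y' v with k | c
        · exact ⟨⟨k, v, h3⟩, rfl⟩
        · have h4 : y (.inr v) = y' v := rfl
          rw [h4, h3] at ho
          simp at ho
  rw [← h2, h1, ← L3_orth (fun o : {o // (y o).isRight = true} => L3_fam a y' o)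
    (fun o : {o // ¬ (y o).isRight = true} => L3_fam a y' o),
    ← gd_equiv (Equiv.sumCompl fun o => (y o).isRight = true)]
  · congr 1
    funext x
    rcases x with x | x
    · rfl
    · rfl
  · rintro ⟨i, hi⟩ ⟨k, hk⟩
    rcases k with d | w
    · simp [hy] at hk
    · have h3 : L3_fam a y' (.inr w) = Pi.single (.inr w) 1 := by
        rcases h3 : y' w with k | c
        · simp only [L3_fam]
          rw [h3]
        · have h4 : y (.inr w) = y' w := rfl
          rw [h4, h3] at hk
          simp at hk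
      simp only
      rw [h3, L2_ss]
      rcases i with d | v
      · simp [L3_fam]
      · have h5 : v ≠ w := by
          rintro rfl
          exact hk hi
        rcases h4 : y' v with k | c
        · have h6 : y (.inr v) = y' v := rfl
          rw [h6, h4] at hi
          simp at hi
        · simp only [L3_fam]
          rw [h4]
          simp [h5.symm]
  · rintro ⟨i, hi⟩ ⟨k, hk⟩
    have h3 : ∀ w, ¬ (y (.inr w)).isRight = true → L3_fam a y' (.inr w) = Pi.single (.inr w) 1 := by
      intro w hw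
      rcases h3 : y' w with k | c
      · simp only [L3_fam]
        rw [h3]
      · have h4 : y (.inr w) = y' w := rfl
        rw [h4, h3] at hw
        simp at hw
    rcases k with d | w
    · simp [hy] at hk
    · rcases i with d | v
      · simp [hy] at hi
      · simp only
        rw [h3 v hi, h3 w hk, L2_ss, Pi.single_apply]
        simp only [Subtype.mk.injEq, Sum.inr.injEq, eq_comm]

theorem L3_leaf (a : Fin (q + 1) → ZMod p) (y' : J → Fin s ⊕ ZMod p)
    (hy : ∀ v w, y' v = y' w → (y' v).isLeft = true → v = w) :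
    gd (leafFam (inn (Fin s) a) y') = gd (L3_fam a y') := by
  let φ : ZMod p ⊕ J → (Fin s ⊕ ZMod p) ⊕ J := fun x => match x with
    | .inl c => .inl (.inr c)
    | .inr v => if (y' v).isLeft then .inl (y' v) else .inr v
  have hφ : Function.Injective φ := by
    rintro (c | v) (c' | v') h
    · simp only [φ, Sum.inl.injEq, Sum.inr.injEq] at h
      rw [h]
    · simp only [φ] at h
      split_ifs at h with h1
      rw [Sum.inl.injEq] at h
      rw [← h] at h1
      simp at h1
    · simp only [φ] at h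
      split_ifs at h with h1
      rw [Sum.inl.injEq] at h
      rw [h] at h1
      simp at h1
    · simp only [φ] at h
      split_ifs at h with h1 h2 h2
      · rw [Sum.inl.injEq] at h
        rw [hy v v' h h1]
      · rw [Sum.inr.injEq] at h
        rw [h]
  have key : ∀ i : Fin (q + 1) ⊕ J, ∃ (c1 c2 : ℤ) (u1 u2 : ZMod p ⊕ J),
      L3_fam a y' i = c1 • Pi.single u1 1 + c2 • Pi.single u2 1 ∧
        leafFam (inn (Fin s) a) y' i = c1 • Pi.single (φ u1) 1 + c2 • Pi.single (φ u2) 1 := by
    rintro (d | v)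
    · refine ⟨1, -1, .inl (a d), .inl (a d + ((d.val + 1 : ℕ) : ZMod p)), ?_, ?_⟩
      · simp only [L3_fam]
        rw [one_smul, neg_smul, one_smul, sub_eq_add_neg]
      · simp only [leafFam, inn, φ]
        ext x
        rcases x with x | x
        · simp only [Sum.elim_inl, Pi.sub_apply, Pi.add_apply, Pi.smul_apply, one_smul, neg_smul,
            Pi.neg_apply, Pi.single_apply, Sum.inl.injEq]
          ring
        · simp
    · rcases h : y' v with k | c
      · refine ⟨1, 0, .inr v, .inr v, ?_, ?_⟩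
        · rw [L3_fam_l a h, one_smul, zero_smul, add_zero]
        · simp only [leafFam, φ]
          rw [h, one_smul, zero_smul, add_zero]
          simp
      · refine ⟨1, -1, .inl c, .inr v, ?_, ?_⟩
        · rw [L3_fam_r a h, one_smul, neg_smul, one_smul, sub_eq_add_neg]
        · simp only [leafFam, φ]
          rw [h, one_smul, neg_smul, one_smul, sub_eq_add_neg]
          simp
  have h1 : ∀ i x, L3_fam a y' i x = leafFam (inn (Fin s) a) y' i (φ x) := by
    intro i x
    obtain ⟨c1, c2, u1, u2, e1, e2⟩ := key i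
    rw [e1, e2]
    simp only [Pi.add_apply, Pi.smul_apply, Pi.single_apply, hφ.eq_iff]
  have h2 : ∀ i, ∀ x ∉ Set.range φ, leafFam (inn (Fin s) a) y' i x = 0 := by
    intro i x hx
    obtain ⟨c1, c2, u1, u2, e1, e2⟩ := key i
    rw [e2]
    simp only [Pi.add_apply, Pi.smul_apply]
    rw [Pi.single_eq_of_ne (fun h => hx ⟨u1, h.symm⟩),
      Pi.single_eq_of_ne (fun h => hx ⟨u2, h.symm⟩)]
    simp
  have h3 : gm (leafFam (inn (Fin s) a) y') = gm (L3_fam a y') := by
    ext i j
    simp only [gm, Matrix.of_apply]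
    congr 1
    symm
    refine Fintype.sum_of_injective φ hφ _ _ (fun x hx => ?_) fun x => ?_
    · rw [h2 i x hx, zero_mul]
    · rw [h1, h1]
  rw [gd_eq, h3, gd_eq]

end

theorem thm_L3 : St_L3 := by
  intro p q s _ J O _ _ _ _ lo a y' z hpq
  by_cases hy : ∀ v w, y' v = y' w → (y' v).isLeft = true → v = w
  · rw [← ZMod.intCast_zmod_eq_zero_iff_dvd, Int.cast_sub, sub_eq_zero]
    have h1 : ∀ k : Fin s, ((gw (gl p q lo) (II (Sum.elim (fun d => Sum.inr (a d)) y') z k) : ℤ) :
        ZMod p) = 2 ^ Fintype.card {v // y' v = .inl k} *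
          ((gw lo (univ.filter fun o => z o = k) : ℤ) : ZMod p) := by
      intro k
      haveI : Subsingleton {v // y' v = .inl k} := ⟨fun v w => Subtype.ext (hy v w
        (v.2.trans w.2.symm) (by rw [v.2]; rfl))⟩
      rw [L3_II, L3_star (fun o : {o // z o = k} => lo o) (fun v : {v // y' v = .inl k} => (v : J))]
      congr 2
      exact (gd_equiv (Equiv.subtypeEquivRight (by simp) : {o // z o = k} ≃
        {o // o ∈ univ.filter fun o => z o = k}) fun o => lo o)
    rw [L3_leaf a y' hy, L3_FF lo a y', Int.cast_mul, Int.cast_mul, Int.cast_mul, Int.cast_prod,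
      prod_congr rfl fun k _ => h1 k, prod_mul_distrib, prod_pow_eq_pow_sum, Int.cast_prod]
    push_cast
    ring
  · push Not at hy
    obtain ⟨v, w, hvw, hl, hne⟩ := hy
    obtain ⟨k, hk⟩ := Sum.isLeft_iff.1 hl
    have hk' : y' w = .inl k := hvw ▸ hk
    have hp1 : (1 : ZMod p) ≠ 0 := one_ne_zero
    have h1 : gd (leafFam (inn (Fin s) a) y') = 0 := by
      rw [gd_eq]
      refine Matrix.det_zero_of_row_eq (i := .inr v) (j := .inr w) (by simpa using hne) ?_
      have h2 : leafFam (inn (Fin s) a) y' (.inr v) = leafFam (inn (Fin s) a) y' (.inr w) := by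
        simp only [leafFam]
        rw [hk, hk']
        simp
      funext i
      simp only [gm, Matrix.of_apply, h2]
    have h2 : gw (gl p q lo) (II (Sum.elim (fun d => Sum.inr (a d)) y') z k) = 0 := by
      have hm : ∀ u c, y' u = .inl k → (.inl (.inr u, c) : ((Fin (q + 1) ⊕ J) × ZMod p) ⊕ O) ∈
          II (Sum.elim (fun d => Sum.inr (a d)) y') z k := fun u c hu =>
        (L3_memII a y' z k _).2 (Or.inl ⟨u, c, rfl, hu⟩)
      set i1 : {e // e ∈ II (Sum.elim (fun d => Sum.inr (a d)) y') z k} :=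
        ⟨.inl (.inr v, 0), hm v 0 hk⟩ with hi1
      set i2 : {e // e ∈ II (Sum.elim (fun d => Sum.inr (a d)) y') z k} :=
        ⟨.inl (.inr v, 1), hm v 1 hk⟩ with hi2
      set i3 : {e // e ∈ II (Sum.elim (fun d => Sum.inr (a d)) y') z k} :=
        ⟨.inl (.inr w, 0), hm w 0 hk'⟩ with hi3
      set i4 : {e // e ∈ II (Sum.elim (fun d => Sum.inr (a d)) y') z k} :=
        ⟨.inl (.inr w, 1), hm w 1 hk'⟩ with hi4
      refine thm_Dep _ _ _ (Pi.single i1 1 - Pi.single i2 1 - Pi.single i3 1 + Pi.single i4 1)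
        ?_ fun x => ?_
      · intro h0
        have h3 := congrFun h0 i1
        have e2 : i1 ≠ i2 := by simp [hi1, hi2, hp1]
        have e3 : i1 ≠ i3 := by simp [hi1, hi3, hne]
        have e4 : i1 ≠ i4 := by simp [hi1, hi4, hne]
        simp only [Pi.add_apply, Pi.sub_apply, Pi.single_eq_same, Pi.single_eq_of_ne e2,
          Pi.single_eq_of_ne e3, Pi.single_eq_of_ne e4, Pi.zero_apply] at h3
        norm_num at h3
      · have h3 : ∀ i, (Pi.single i1 1 - Pi.single i2 1 - Pi.single i3 1 + Pi.single i4 1 :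
            {e // e ∈ II (Sum.elim (fun d => Sum.inr (a d)) y') z k} → ℤ) i *
            gl p q lo i x = (Pi.single i1 1 : _ → ℤ) i * gl p q lo i x -
            (Pi.single i2 1 : _ → ℤ) i * gl p q lo i x -
            (Pi.single i3 1 : _ → ℤ) i * gl p q lo i x +
            (Pi.single i4 1 : _ → ℤ) i * gl p q lo i x := by
          intro i
          simp only [Pi.add_apply, Pi.sub_apply]
          ring
        rw [sum_congr rfl fun i _ => h3 i, sum_add_distrib, sum_sub_distrib, sum_sub_distrib,
          L2_ss' (fun i : {e // e ∈ II (Sum.elim (fun d => Sum.inr (a d)) y') z k} =>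
            gl p q lo i x), L2_ss' (fun i : {e // e ∈ II (Sum.elim (fun d => Sum.inr (a d)) y') z k}
            => gl p q lo i x), L2_ss' (fun i : {e // e ∈ II (Sum.elim (fun d => Sum.inr (a d)) y') z
            k} => gl p q lo i x), L2_ss' (fun i : {e // e ∈ II (Sum.elim (fun d => Sum.inr (a d)) y')
            z k} => gl p q lo i x)]
        simp only [hi1, hi2, hi3, hi4, gl, Pi.sub_apply]
        ring
    rw [h1, prod_eq_zero (mem_univ k) h2]
    simp

end Pool.Agent.GNC
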