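import Pool.Agent.GNC.St
import Pool.Agent.GNC.L1
import Pool.Agent.GNC.L2
import Pool.Agent.GNC.L3
import Pool.Agent.GNC.Dep

/-!
# GNC, module Eval: the value of `Phi`
-/

set_option autoImplicit false

open Finset

namespace Pool.Agent.GNC

/-- the orbit of an inner edge is dependent -/
theorem Ev_orbit {p q : ℕ} [Fact p.Prime] {J O : Type} [Fintype J] [DecidableEq J]
    [DecidableEq O] (lo : O → J → ℤ) (d : Fin (q + 1))
    (A : Finset (((Fin (q + 1) ⊕ J) × ZMod p) ⊕ O))
    (hA : ∀ a, Sum.inl (Sum.inl d, a) ∈ A) : gw (gl p q lo) A = 0 := by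
  classical
  let i : ZMod p → A := fun a => ⟨Sum.inl (Sum.inl d, a), hA a⟩
  have hi : Function.Injective i := by
    intro a b h
    have h1 := congrArg Subtype.val h
    simp only [i, Sum.inl.injEq, Prod.mk.injEq, true_and] at h1
    exact h1
  refine thm_Dep _ _ _ (fun e : A => if e ∈ Set.range i then 1 else 0) ?_ fun x => ?_
  · intro h0
    have h1 := congrFun h0 (i 0)
    simp at h1
  · have h1 : ∑ a : ZMod p, gl p q lo (i a) x =
        ∑ e : A, (if e ∈ Set.range i then 1 else 0) * gl p q lo e x := by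
      refine Fintype.sum_of_injective i hi _ _ (fun e he => ?_) fun a => ?_
      · rw [if_neg he, zero_mul]
      · rw [if_pos (Set.mem_range_self a), one_mul]
    rw [← h1]
    have h2 : ∀ a : ZMod p, gl p q lo (i a) x = (Pi.single (.inl a) 1 : ZMod p ⊕ J → ℤ) x -
        (Pi.single (.inl (a + ((d.val + 1 : ℕ) : ZMod p))) 1 : ZMod p ⊕ J → ℤ) x := by
      intro a
      simp only [i, gl, Pi.sub_apply]
    rw [sum_congr rfl fun a _ => h2 a, sum_sub_distrib, sub_eq_zero]
    exact (Equiv.sum_comp (Equiv.addRight ((d.val + 1 : ℕ) : ZMod p))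
      fun a => (Pi.single (.inl a) 1 : ZMod p ⊕ J → ℤ) x).symm

theorem Ev_inn {p q s : ℕ} [Fact p.Prime] (a : Fin (q + 1) → ZMod p) :
    gd (inn (Fin s) a) = gd (inn (Fin 0) a) := by
  have h : gm (inn (Fin s) a) = gm (inn (Fin 0) a) := by
    ext i j
    simp only [gm, Matrix.of_apply]
    congr 1
    rw [Fintype.sum_sum_type, Fintype.sum_sum_type]
    simp only [inn, Pi.sub_apply, Pi.single_apply, reduceCtorEq, if_false, sub_zero, mul_zero,
      sum_const_zero, zero_add, Sum.inr.injEq]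
  rw [gd_eq, gd_eq, h]

theorem thm_Eval : St_Eval := by
  intro p q s _ J O _ _ _ _ lo hpq
  classical
  rw [← ZMod.intCast_zmod_eq_zero_iff_dvd, Int.cast_sub, sub_eq_zero]
  set w := gw (gl p q lo) with hw
  -- the terms
  set F : (Fin (q + 1) → Fin s ⊕ ZMod p) → (J → Fin s ⊕ ZMod p) → (O → Fin s) → ZMod p :=
    fun y1 y2 z => ((w (FF (s := s) (Sum.elim y1 y2)) * ∏ k, w (II (Sum.elim y1 y2) z k) : ℤ) :
      ZMod p) with hF
  have h0 : ∀ y1 y2 z, y1 ∉ Set.range (fun (a : Fin (q + 1) → ZMod p) d =>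
      (Sum.inr (a d) : Fin s ⊕ ZMod p)) → F y1 y2 z = 0 := by
    intro y1 y2 z hy
    have h1 : ∃ d k, y1 d = .inl k := by
      by_contra hc
      push Not at hc
      apply hy
      have h2 : ∀ d, ∃ a : ZMod p, y1 d = .inr a := by
        intro d
        rcases h3 : y1 d with k | a
        · exact absurd h3 (hc d k)
        · exact ⟨a, rfl⟩
      choose a ha using h2
      exact ⟨a, funext fun d => (ha d).symm⟩
    obtain ⟨d, k, hk⟩ := h1
    have h2 : w (II (Sum.elim y1 y2) z k) = 0 := by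
      refine Ev_orbit lo d _ fun a => ?_
      simp only [II, mem_filter, mem_univ, true_and]
      exact Or.inl ⟨(.inl d, a), rfl, hk⟩
    simp only [hF]
    rw [prod_eq_zero (mem_univ k) h2, mul_zero, Int.cast_zero]
  have h3 : ∀ (a : Fin (q + 1) → ZMod p) y' z, F (fun d => Sum.inr (a d)) y' z =
      ((gd (leafFam (inn (Fin s) a) y') : ℤ) : ZMod p) *
        ((∏ k, gw lo (univ.filter fun o => z o = k) : ℤ) : ZMod p) := by
    intro a y' z
    have h4 := thm_L3 p q s J O lo a y' z hpq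
    rw [← ZMod.intCast_zmod_eq_zero_iff_dvd, Int.cast_sub, sub_eq_zero] at h4
    simp only [hF]
    rw [hw, h4, Int.cast_mul]
  -- the sum over the leaves
  have h5 : ∀ a : Fin (q + 1) → ZMod p, ∑ y' : J → Fin s ⊕ ZMod p,
      ((gd (leafFam (inn (Fin s) a) y') : ℤ) : ZMod p) =
      ((2 ^ Fintype.card J * (∏ i ∈ range (Fintype.card J), ((s : ℤ) + p - (q + 1) - i)) *
        gd (inn (Fin 0) a) : ℤ) : ZMod p) := by
    intro a
    have h6 := thm_L2 p s (Fin (q + 1)) J (inn (Fin s) a)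
    rw [← ZMod.intCast_zmod_eq_zero_iff_dvd, sum_sub_distrib, Int.cast_sub, sub_eq_zero] at h6
    rw [← Int.cast_sum, h6, thm_L1, Ev_inn]
    simp only [Fintype.card_sum, Fintype.card_fin, ZMod.card]
    push_cast
    rfl
  have h7 : ((Phi s w (Sum.inl 0) : ℤ) : ZMod p) =
      ∑ y : Fin (q + 1) ⊕ J → Fin s ⊕ ZMod p, ∑ z : O → Fin s,
        if y (.inl 0) = .inr 0 then F (fun d => y (.inl d)) (fun v => y (.inr v)) z else 0 := by
    rw [Phi, Int.cast_sum, sum_filter]
    refine sum_congr rfl fun y _ => ?_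
    by_cases h8 : y (.inl 0) = .inr 0
    · rw [if_pos h8, Int.cast_sum]
      refine sum_congr rfl fun z _ => ?_
      rw [if_pos h8, hF]
      have h9 : Sum.elim (fun d => y (.inl d)) (fun v => y (.inr v)) = y := by
        funext x
        rcases x with x | x <;> rfl
      simp only [h9]
      rw [Int.cast_mul, Int.cast_pow, ZMod.pow_card, ← Int.cast_mul]
    · rw [if_neg h8]
      symm
      refine sum_eq_zero fun z _ => ?_
      rw [if_neg h8]
  have h8 : ∑ y : Fin (q + 1) ⊕ J → Fin s ⊕ ZMod p, ∑ z : O → Fin s,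
        (if y (.inl 0) = .inr 0 then F (fun d => y (.inl d)) (fun v => y (.inr v)) z else 0) =
      ∑ y1 : Fin (q + 1) → Fin s ⊕ ZMod p, ∑ y2 : J → Fin s ⊕ ZMod p, ∑ z : O → Fin s,
        (if y1 0 = .inr 0 then F y1 y2 z else 0) := by
    rw [← Fintype.sum_prod_type' (fun (y1 : Fin (q + 1) → Fin s ⊕ ZMod p)
      (y2 : J → Fin s ⊕ ZMod p) => ∑ z : O → Fin s,
        (if y1 0 = .inr 0 then F y1 y2 z else 0))]
    exact Fintype.sum_equiv (Equiv.sumArrowEquivProdArrow _ _ _) _ _ fun y => rfl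
  have h9 : ∑ y1 : Fin (q + 1) → Fin s ⊕ ZMod p, ∑ y2 : J → Fin s ⊕ ZMod p, ∑ z : O → Fin s,
        (if y1 0 = .inr 0 then F y1 y2 z else 0) =
      ∑ a : Fin (q + 1) → ZMod p, ∑ y2 : J → Fin s ⊕ ZMod p, ∑ z : O → Fin s,
        (if a 0 = 0 then F (fun d => Sum.inr (a d)) y2 z else 0) := by
    symm
    refine Fintype.sum_of_injective (fun (a : Fin (q + 1) → ZMod p) d =>
      (Sum.inr (a d) : Fin s ⊕ ZMod p)) (fun a b h => ?_) _ _ (fun y1 hy1 => ?_) fun a => ?_
    · funext d
      have h10 := congrFun h d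
      simpa using h10
    · refine sum_eq_zero fun y2 _ => sum_eq_zero fun z _ => ?_
      rw [h0 y1 y2 z hy1, ite_self]
    · simp only [Sum.inr.injEq]
  have h10 : ∀ a : Fin (q + 1) → ZMod p, ∑ y2 : J → Fin s ⊕ ZMod p, ∑ z : O → Fin s,
        (if a 0 = 0 then F (fun d => Sum.inr (a d)) y2 z else 0) =
      (if a 0 = 0 then ((gd (inn (Fin 0) a) : ℤ) : ZMod p) else 0) *
        ((2 ^ Fintype.card J * (∏ i ∈ range (Fintype.card J), ((s : ℤ) + p - (q + 1) - i)) *
          cs (Fin s) (gw lo) : ℤ) : ZMod p) := by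
    intro a
    by_cases h11 : a 0 = 0
    · simp only [if_pos h11, h3]
      rw [sum_congr rfl fun y2 _ => (mul_sum _ _ _).symm, ← sum_mul, h5, ← Int.cast_sum]
      simp only [cs]
      push_cast
      ring
    · simp only [if_neg h11, sum_const_zero, zero_mul]
  rw [h7, h8, h9, sum_congr rfl fun a _ => h10 a, ← sum_mul, Phi0,
    Int.cast_mul (∑ a ∈ (univ : Finset (Fin (q + 1) → ZMod p)).filter (fun a => a 0 = 0),
      gd (inn (Fin 0) a)), Int.cast_sum, sum_filter]

end Pool.Agent.GNC
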