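import Pool.Agent.GNC.GA2

/-!
# GNC, module Fix: the sum over the colourings mod `p ^ 2`
-/

set_option autoImplicit false

open Finset

namespace Pool.Agent.GNC

section

variable {p s : ℕ} {P O : Type}

/-- the rotation by `m` -/
private def Fix_sh (m : ZMod p) (e : (P × ZMod p) ⊕ O) : (P × ZMod p) ⊕ O :=
  Sum.map (Prod.map id (· + m)) id e

private theorem Fix_sh_zero (e : (P × ZMod p) ⊕ O) : Fix_sh 0 e = e := by
  rcases e with ⟨o, a⟩ | o
  · change Sum.inl (o, a + 0) = _
    rw [add_zero]
  · rfl

private theorem Fix_sh_add (m m' : ZMod p) (e : (P × ZMod p) ⊕ O) :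
    Fix_sh m (Fix_sh m' e) = Fix_sh (m' + m) e := by
  rcases e with ⟨o, a⟩ | o
  · change Sum.inl (o, a + m' + m) = Sum.inl (o, a + (m' + m))
    rw [add_assoc]
  · rfl

/-- the rotation by `m` of the colours -/
private def Fix_ta (m : ZMod p) (k : Fin s ⊕ ZMod p) : Fin s ⊕ ZMod p := Sum.map id (· + m) k

private theorem Fix_ta_zero (k : Fin s ⊕ ZMod p) : Fix_ta 0 k = k := by
  rcases k with k | a
  · rfl
  · change Sum.inr (a + 0) = _
    rw [add_zero]

private theorem Fix_ta_add (m m' : ZMod p) (k : Fin s ⊕ ZMod p) :
    Fix_ta m (Fix_ta m' k) = Fix_ta (m' + m) k := by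
  rcases k with k | a
  · rfl
  · change Sum.inr (a + m' + m) = Sum.inr (a + (m' + m))
    rw [add_assoc]

private def Fix_S (p s : ℕ) (P O : Type) :
    Equiv.Perm (((P × ZMod p) ⊕ O) → Fin s ⊕ ZMod p) where
  toFun c := fun e => c (Fix_sh (-1) e)
  invFun c := fun e => c (Fix_sh 1 e)
  left_inv c := by
    funext e
    change c (Fix_sh (-1) (Fix_sh 1 e)) = c e
    rw [Fix_sh_add, add_neg_cancel, Fix_sh_zero]
  right_inv c := by
    funext e
    change c (Fix_sh 1 (Fix_sh (-1) e)) = c e
    rw [Fix_sh_add, neg_add_cancel, Fix_sh_zero]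

private def Fix_T (p s : ℕ) (P O : Type) :
    Equiv.Perm (((P × ZMod p) ⊕ O) → Fin s ⊕ ZMod p) where
  toFun c := fun e => Fix_ta 1 (c e)
  invFun c := fun e => Fix_ta (-1) (c e)
  left_inv c := by
    funext e
    change Fix_ta (-1) (Fix_ta 1 (c e)) = c e
    rw [Fix_ta_add, add_neg_cancel, Fix_ta_zero]
  right_inv c := by
    funext e
    change Fix_ta 1 (Fix_ta (-1) (c e)) = c e
    rw [Fix_ta_add, neg_add_cancel, Fix_ta_zero]

private theorem Fix_S_pow (b : ℕ) (c : ((P × ZMod p) ⊕ O) → Fin s ⊕ ZMod p)
    (e : (P × ZMod p) ⊕ O) : ((Fix_S p s P O ^ b) c) e = c (Fix_sh (-(b : ZMod p)) e) := by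
  induction b generalizing c with
  | zero => rw [Nat.cast_zero, neg_zero, Fix_sh_zero]; rfl
  | succ b ih =>
    rw [pow_succ, Equiv.Perm.mul_apply, ih]
    change c (Fix_sh (-1) (Fix_sh (-(b : ZMod p)) e)) = _
    rw [Fix_sh_add]
    congr 2
    push_cast
    ring

private theorem Fix_T_pow (b : ℕ) (c : ((P × ZMod p) ⊕ O) → Fin s ⊕ ZMod p)
    (e : (P × ZMod p) ⊕ O) : ((Fix_T p s P O ^ b) c) e = Fix_ta (b : ZMod p) (c e) := by
  induction b generalizing c with
  | zero => rw [Nat.cast_zero, Fix_ta_zero]; rfl
  | succ b ih =>
    rw [pow_succ, Equiv.Perm.mul_apply, ih]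
    change Fix_ta (b : ZMod p) (Fix_ta 1 (c e)) = _
    rw [Fix_ta_add]
    congr 1
    push_cast
    ring

/-- the colouring which belongs to `(y, z)` and the slope `b` -/
private def Fix_c (b : ZMod p) (y : P → Fin s ⊕ ZMod p) (z : O → Fin s) :
    ((P × ZMod p) ⊕ O) → Fin s ⊕ ZMod p
  | .inl (o, a) => Sum.map id (fun x => b * (x - a)) (y o)
  | .inr o => .inl (z o)

end

theorem thm_Fix : St_Fix := by
  intro p s hpf P O _ _ _ _ w o1 hw1 hw2 hw3
  have hp := hpf.out
  classical
  -- invariance of the weight
  have hinv : ∀ (m : ZMod p) (A : Finset ((P × ZMod p) ⊕ O)), w (A.image (Fix_sh m)) = w A := by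
    have h1 : ∀ (n : ℕ) (A : Finset ((P × ZMod p) ⊕ O)),
        w (A.image (Fix_sh (n : ZMod p))) = w A := by
      intro n
      induction n with
      | zero =>
        intro A
        rw [Nat.cast_zero]
        congr 1
        have h2 : (Fix_sh 0 : ((P × ZMod p) ⊕ O) → _) = id := funext Fix_sh_zero
        rw [h2, image_id]
      | succ n ih =>
        intro A
        rw [← ih A, ← hw1 (A.image (Fix_sh (n : ZMod p))), image_image]
        congr 2
        funext e
        change Fix_sh ((n + 1 : ℕ) : ZMod p) e = Fix_sh 1 (Fix_sh (n : ZMod p) e)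
        rw [Fix_sh_add]
        push_cast
        rfl
    intro m A
    rw [← ZMod.natCast_zmod_val m]
    exact h1 _ A
  have hT1 : ∀ (m : ZMod p) (k : Fin s ⊕ ZMod p), Fix_ta m k = k → m ≠ 0 →
      ∃ j : Fin s, k = .inl j := by
    intro m k h hm
    rcases k with k | a
    · exact ⟨k, rfl⟩
    · have h1 : a + m = a := Sum.inr.inj h
      exact absurd (add_eq_left.1 h1) hm
  obtain ⟨wt, hwt⟩ : ∃ wt : (((P × ZMod p) ⊕ O) → Fin s ⊕ ZMod p) → ℤ,
      wt = fun c => ∏ k, w (univ.filter fun e => c e = k) := ⟨_, rfl⟩
  have hmain := thm_GA2 p (((P × ZMod p) ⊕ O) → Fin s ⊕ ZMod p) (Fix_S p s P O) (Fix_T p s P O) wt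
    (by
      ext1 c
      funext e
      rw [Fix_S_pow, ZMod.natCast_self, neg_zero, Fix_sh_zero]
      rfl)
    (by
      ext1 c
      funext e
      rw [Fix_T_pow, ZMod.natCast_self, Fix_ta_zero]
      rfl)
    (by
      ext1 c
      rfl)
    (by
      intro c
      rw [hwt]
      refine prod_congr rfl fun k _ => ?_
      rw [← hinv 1 (univ.filter fun e => c e = k)]
      congr 1
      ext e
      rw [mem_filter, mem_image]
      constructor
      · rintro ⟨-, h⟩
        refine ⟨Fix_sh (-1) e, mem_filter.2 ⟨mem_univ _, h⟩, ?_⟩
        rw [Fix_sh_add, neg_add_cancel, Fix_sh_zero]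
      · rintro ⟨e', h, rfl⟩
        refine ⟨mem_univ _, ?_⟩
        change c (Fix_sh (-1) (Fix_sh 1 e')) = k
        rw [Fix_sh_add, add_neg_cancel, Fix_sh_zero]
        exact (mem_filter.1 h).2)
    (by
      intro c
      rw [hwt]
      refine Fintype.prod_equiv (⟨Fix_ta (-1), Fix_ta 1, fun k => ?_, fun k => ?_⟩ :
        (Fin s ⊕ ZMod p) ≃ (Fin s ⊕ ZMod p)) _ _ fun k => ?_
      · rw [Fix_ta_add, neg_add_cancel, Fix_ta_zero]
      · rw [Fix_ta_add, add_neg_cancel, Fix_ta_zero]
      · congr 1
        ext e
        rw [mem_filter, mem_filter]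
        refine and_congr_right fun _ => ?_
        change Fix_ta 1 (c e) = k ↔ c e = Fix_ta (-1) k
        constructor
        · rintro rfl
          rw [Fix_ta_add, add_neg_cancel, Fix_ta_zero]
        · intro h
          rw [h, Fix_ta_add, neg_add_cancel, Fix_ta_zero])
    (by
      intro c hc
      have h1 : ∀ n : ℕ, c (.inl (o1, (n : ZMod p))) = c (.inl (o1, 0)) := by
        intro n
        induction n with
        | zero => rw [Nat.cast_zero]
        | succ n ih =>
          rw [← ih]
          have h2 := congrFun hc (.inl (o1, ((n + 1 : ℕ) : ZMod p)))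
          have h3 : (Fix_S p s P O c) (.inl (o1, ((n + 1 : ℕ) : ZMod p))) =
              c (.inl (o1, (n : ZMod p))) := by
            change c (.inl (o1, ((n + 1 : ℕ) : ZMod p) + -1)) = _
            congr 3
            push_cast
            ring
          rw [← h2, h3]
      rw [hwt]
      refine prod_eq_zero (mem_univ (c (.inl (o1, 0)))) (hw2 _ fun a => ?_)
      rw [mem_filter]
      refine ⟨mem_univ _, ?_⟩
      rw [← ZMod.natCast_zmod_val a]
      exact h1 _)
    (by
      intro c hc
      have h1 : ∀ e, ∃ j : Fin s, c e = .inl j := fun e =>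
        hT1 1 (c e) (congrFun hc e) one_ne_zero
      choose c' hc' using h1
      rw [hwt]
      change ∏ k, w (univ.filter fun e => c e = k) = 0
      rw [Fintype.prod_sum_type]
      have h2 : ∏ k, w (univ.filter fun e => c e = Sum.inl k) = 0 := by
        rw [← hw3 c']
        refine prod_congr rfl fun k _ => ?_
        congr 1
        ext e
        rw [mem_filter, mem_filter, hc' e]
        exact and_congr_right fun _ => Sum.inl_injective.eq_iff
      rw [h2, zero_mul])
  -- the fixed colourings
  obtain ⟨f, hf⟩ : ∃ f : (P → Fin s ⊕ ZMod p) → (O → Fin s) → ℤ,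
      f = fun y z => w (FF y) ^ p * ∏ k, w (II y z k) := ⟨_, rfl⟩
  have hfix : ∀ b ∈ Ico 1 p, ∑ c ∈ univ.filter (fun c => Fix_S p s P O c =
      (Fix_T p s P O ^ b) c), wt c = ∑ y, ∑ z, f y z := by
    intro b hb
    rw [mem_Ico] at hb
    have hb0 : (b : ZMod p) ≠ 0 := by
      intro h
      rw [ZMod.natCast_eq_zero_iff] at h
      have := Nat.le_of_dvd (by omega) h
      omega
    rw [← sum_product']
    symm
    refine sum_bij (fun (q : (P → Fin s ⊕ ZMod p) × (O → Fin s)) _ =>
      Fix_c (b : ZMod p) q.1 q.2) ?_ ?_ ?_ ?_
    · rintro ⟨y, z⟩ _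
      rw [mem_filter]
      refine ⟨mem_univ _, ?_⟩
      funext e
      rw [Fix_T_pow]
      rcases e with ⟨o, a⟩ | o
      · change Sum.map id (fun x => (b : ZMod p) * (x - (a + -1))) (y o) =
          Fix_ta (b : ZMod p) (Sum.map id (fun x => (b : ZMod p) * (x - a)) (y o))
        rcases y o with k | x
        · rfl
        · change Sum.inr ((b : ZMod p) * (x - (a + -1))) = Sum.inr ((b : ZMod p) * (x - a) + b)
          congr 1
          ring
      · rfl
    · rintro ⟨y, z⟩ _ ⟨y', z'⟩ _ h
      refine Prod.ext (funext fun o => ?_) (funext fun o => ?_)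
      · have h1 : Sum.map id (fun x => (b : ZMod p) * (x - 0)) (y o) =
            Sum.map id (fun x => (b : ZMod p) * (x - 0)) (y' o) := congrFun h (.inl (o, 0))
        change y o = y' o
        rcases hy : y o with k | x <;> rcases hy' : y' o with k' | x' <;> rw [hy, hy'] at h1
        · exact h1
        · exact absurd h1 (by intro h2; cases h2)
        · exact absurd h1 (by intro h2; cases h2)
        · have h2 : (b : ZMod p) * (x - 0) = (b : ZMod p) * (x' - 0) := Sum.inr.inj h1
          rw [sub_zero, sub_zero] at h2
          rw [mul_left_cancel₀ hb0 h2]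
      · exact Sum.inl.inj (congrFun h (.inr o))
    · intro c hc
      rw [mem_filter] at hc
      have hc2 : ∀ e, c (Fix_sh (-1) e) = Fix_ta (b : ZMod p) (c e) := by
        intro e
        have h1 := congrFun hc.2 e
        rw [Fix_T_pow] at h1
        exact h1
      have hz : ∀ o, ∃ j : Fin s, c (.inr o) = .inl j := fun o =>
        hT1 _ _ (hc2 (.inr o)).symm hb0
      choose z hz using hz
      refine ⟨(fun o => Sum.map id (fun v => v / (b : ZMod p)) (c (.inl (o, 0))), z),
        mem_univ _, ?_⟩
      funext e
      rcases e with ⟨o, a⟩ | o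
      · change Sum.map id (fun x => (b : ZMod p) * (x - a))
          (Sum.map id (fun v => v / (b : ZMod p)) (c (.inl (o, 0)))) = c (.inl (o, a))
        have h1 : ∀ n : ℕ, c (.inl (o, (n : ZMod p))) =
            Sum.map id (fun x => (b : ZMod p) * (x - (n : ZMod p)))
              (Sum.map id (fun v => v / (b : ZMod p)) (c (.inl (o, 0)))) := by
          intro n
          induction n with
          | zero =>
            rw [Nat.cast_zero]
            rcases c (.inl (o, 0)) with k | v
            · rfl
            · change Sum.inr v = Sum.inr ((b : ZMod p) * (v / b - 0))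
              rw [sub_zero, mul_div_cancel₀ v hb0]
          | succ n ih =>
            have h2 := hc2 (.inl (o, ((n + 1 : ℕ) : ZMod p)))
            have h3 : (Fix_sh (-1) (.inl (o, ((n + 1 : ℕ) : ZMod p))) : (P × ZMod p) ⊕ O) =
                .inl (o, (n : ZMod p)) := by
              change Sum.inl (o, ((n + 1 : ℕ) : ZMod p) + -1) = _
              congr 2
              push_cast
              ring
            rw [h3, ih] at h2
            have h4 := congrArg (Fix_ta (-(b : ZMod p))) h2
            rw [Fix_ta_add, add_neg_cancel, Fix_ta_zero] at h4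
            rw [← h4]
            rcases c (.inl (o, 0)) with k | v
            · rfl
            · change Sum.inr ((b : ZMod p) * (v / b - (n : ZMod p)) + -(b : ZMod p)) =
                Sum.inr ((b : ZMod p) * (v / b - ((n + 1 : ℕ) : ZMod p)))
              congr 1
              push_cast
              ring
        rw [← ZMod.natCast_zmod_val a]
        exact (h1 _).symm
      · exact (hz o).symm
    · rintro ⟨y, z⟩ _
      rw [hwt, hf]
      change w (FF y) ^ p * ∏ k, w (II y z k) =
        ∏ k, w (univ.filter fun e => Fix_c (b : ZMod p) y z e = k)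
      rw [Fintype.prod_sum_type, mul_comm]
      congr 1
      · refine prod_congr rfl fun k _ => ?_
        congr 1
        ext e
        unfold II
        rw [mem_filter, mem_filter]
        refine and_congr_right fun _ => ?_
        rcases e with ⟨o, a⟩ | o
        · constructor
          · rintro (⟨⟨o', a'⟩, h1, h2⟩ | ⟨o', h1, h2⟩)
            · have h3 : (o, a) = (o', a') := Sum.inl.inj h1
              obtain ⟨rfl, rfl⟩ := Prod.mk.inj h3
              change Sum.map id (fun x => (b : ZMod p) * (x - a)) (y o) = Sum.inl k
              rw [show y o = Sum.inl k from h2]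
              rfl
            · cases h1
          · intro h1
            have h2 : Sum.map id (fun x => (b : ZMod p) * (x - a)) (y o) = Sum.inl k := h1
            refine Or.inl ⟨(o, a), rfl, ?_⟩
            rcases hy : y o with k' | x
            · rw [hy] at h2
              exact h2
            · rw [hy] at h2
              cases h2
        · constructor
          · rintro (⟨⟨o', a'⟩, h1, h2⟩ | ⟨o', h1, h2⟩)
            · cases h1
            · obtain rfl := Sum.inr.inj h1
              change Sum.inl (z o) = Sum.inl k
              rw [h2]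
          · intro h1
            exact Or.inr ⟨o, rfl, Sum.inl.inj h1⟩
      · have h1 : ∀ d : ZMod p, w (univ.filter fun e => Fix_c (b : ZMod p) y z e = Sum.inr d) =
            w (FF y) := by
          intro d
          rw [← hinv (-(d / b)) (FF y)]
          congr 1
          ext e
          rw [mem_filter, mem_image]
          constructor
          · rintro ⟨-, h2⟩
            rcases e with ⟨o, a⟩ | o
            · have h3 : Sum.map id (fun x => (b : ZMod p) * (x - a)) (y o) = Sum.inr d := h2
              rcases hy : y o with k' | x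
              · rw [hy] at h3
                cases h3
              · rw [hy] at h3
                have h4 : (b : ZMod p) * (x - a) = d := Sum.inr.inj h3
                refine ⟨.inl (o, x), ?_, ?_⟩
                · unfold FF
                  rw [mem_filter]
                  exact ⟨mem_univ _, (o, x), rfl, hy⟩
                · change Sum.inl (o, x + -(d / b)) = Sum.inl (o, a)
                  rw [← h4, mul_div_cancel_left₀ _ hb0]
                  congr 2
                  ring
            · cases h2
          · rintro ⟨e', h2, rfl⟩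
            refine ⟨mem_univ _, ?_⟩
            unfold FF at h2
            rw [mem_filter] at h2
            obtain ⟨-, ⟨o, x⟩, rfl, h3⟩ := h2
            change Sum.map id (fun x' => (b : ZMod p) * (x' - (x + -(d / b)))) (y o) = Sum.inr d
            rw [show y o = Sum.inr x from h3]
            change Sum.inr ((b : ZMod p) * (x - (x + -(d / b)))) = Sum.inr d
            congr 1
            field_simp
            ring
        rw [prod_congr rfl fun d _ => h1 d, prod_const, card_univ, ZMod.card]
  rw [sum_congr rfl hfix, sum_const, Nat.card_Ico, nsmul_eq_mul] at hmain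
  -- the sum over all `y`
  have hPhi : ∑ y, ∑ z, f y z = p * Phi s w o1 := by
    have h1 : ∀ y, ∑ z, f y z = ∑ m : ZMod p, if y o1 = .inr m then ∑ z, f y z else 0 := by
      intro y
      rcases hy : y o1 with k | x
      · rw [sum_eq_zero, sum_eq_zero]
        · intro m _
          rw [if_neg]
          intro h
          cases h
        · intro z _
          rw [hf]
          change w (FF y) ^ p * ∏ k, w (II y z k) = 0
          rw [prod_eq_zero (mem_univ k), mul_zero]
          refine hw2 _ fun a => ?_
          unfold II
          rw [mem_filter]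
          exact ⟨mem_univ _, Or.inl ⟨(o1, a), rfl, hy⟩⟩
      · rw [sum_eq_single x, if_pos rfl]
        · intro m _ hm
          rw [if_neg]
          intro h
          exact hm (Sum.inr.inj h).symm
        · intro h
          exact absurd (mem_univ _) h
    have h2 : ∀ m : ZMod p, (∑ y, if y o1 = .inr m then ∑ z, f y z else 0) = Phi s w o1 := by
      intro m
      unfold Phi
      rw [sum_filter]
      refine Fintype.sum_equiv (⟨fun y o => Fix_ta (-m) (y o), fun y o => Fix_ta m (y o),
        fun y => funext fun o => ?_, fun y => funext fun o => ?_⟩ :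
        (P → Fin s ⊕ ZMod p) ≃ (P → Fin s ⊕ ZMod p)) _ _ fun y => ?_
      · change Fix_ta m (Fix_ta (-m) (y o)) = y o
        rw [Fix_ta_add, neg_add_cancel, Fix_ta_zero]
      · change Fix_ta (-m) (Fix_ta m (y o)) = y o
        rw [Fix_ta_add, add_neg_cancel, Fix_ta_zero]
      · change (if y o1 = Sum.inr m then ∑ z, f y z else 0) =
          if Fix_ta (-m) (y o1) = Sum.inr 0 then ∑ z : O → Fin s,
            w (FF fun o => Fix_ta (-m) (y o)) ^ p * ∏ k, w (II (fun o => Fix_ta (-m) (y o)) z k)
          else 0
        have h3 : y o1 = Sum.inr m ↔ Fix_ta (-m) (y o1) = Sum.inr 0 := by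
          constructor
          · intro h
            rw [h]
            change Sum.inr (m + -m) = _
            rw [add_neg_cancel]
          · intro h
            have h4 := congrArg (Fix_ta m) h
            rw [Fix_ta_add, neg_add_cancel, Fix_ta_zero] at h4
            rw [h4]
            change Sum.inr (0 + m) = _
            rw [zero_add]
        simp only [← h3]
        split_ifs with h4
        · refine sum_congr rfl fun z _ => ?_
          rw [hf]
          change w (FF y) ^ p * ∏ k, w (II y z k) = _
          congr 1
          · congr 1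
            rw [← hinv (-m) (FF y)]
            congr 1
            ext e
            unfold FF
            rw [mem_image, mem_filter]
            constructor
            · rintro ⟨e', h5, rfl⟩
              rw [mem_filter] at h5
              obtain ⟨-, ⟨o, x⟩, rfl, h6⟩ := h5
              refine ⟨mem_univ _, (o, x + -m), rfl, ?_⟩
              change Fix_ta (-m) (y o) = Sum.inr (x + -m)
              rw [show y o = Sum.inr x from h6]
              rfl
            · rintro ⟨-, ⟨o, x⟩, rfl, h6⟩
              refine ⟨.inl (o, x + m), ?_, ?_⟩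
              · rw [mem_filter]
                refine ⟨mem_univ _, (o, x + m), rfl, ?_⟩
                have h7 := congrArg (Fix_ta m) (show Fix_ta (-m) (y o) = Sum.inr x from h6)
                rw [Fix_ta_add, neg_add_cancel, Fix_ta_zero] at h7
                exact h7
              · change Sum.inl (o, x + m + -m) = _
                rw [add_neg_cancel_right]
          · refine prod_congr rfl fun k _ => ?_
            congr 1
            unfold II
            have h5 : ∀ o, y o = Sum.inl k ↔ Fix_ta (-m) (y o) = Sum.inl k := by
              intro o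
              rcases y o with k' | x
              · exact Iff.rfl
              · constructor <;> intro h <;> cases h
            simp only [h5]
        · rfl
    rw [sum_congr rfl fun y _ => h1 y, sum_comm, sum_congr rfl fun m _ => h2 m, sum_const,
      card_univ, ZMod.card, nsmul_eq_mul]
  rw [hPhi] at hmain
  have hcs : ∑ c, wt c = cs (Fin s ⊕ ZMod p) w := by rw [hwt]; rfl
  rw [hcs] at hmain
  obtain ⟨u, hu⟩ := hmain
  refine ⟨u + Phi s w o1, ?_⟩
  have h3 : ((p - 1 : ℕ) : ℤ) = p - 1 := by
    have := hp.one_lt
    push_cast [Nat.cast_sub (show 1 ≤ p by omega)]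
    ring
  rw [h3] at hu
  linear_combination hu

end Pool.Agent.GNC
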