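import Pool.Agent.GNC.St
import Pool.Agent.GNC.Gau

/-!
# GNC, module Her: the integral of the squared Vandermonde product
-/

set_option autoImplicit false

open Finset

namespace Pool.Agent.GNC

open Polynomial in
/-- the Gaussian functional in one variable -/
noncomputable def g1 : ℤ[X] →ₗ[ℤ] ℤ :=
  (Polynomial.basisMonomials ℤ).constr ℤ fun m => (mu m : ℤ)

theorem g1_monomial (m : ℕ) (c : ℤ) : g1 (Polynomial.monomial m c) = c * mu m := by
  have h1 : Polynomial.monomial m c = c • Polynomial.monomial m (1 : ℤ) := by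
    rw [Polynomial.smul_monomial, smul_eq_mul, mul_one]
  have h2 : (Polynomial.basisMonomials ℤ) m = Polynomial.monomial m (1 : ℤ) := by
    rw [Polynomial.coe_basisMonomials]
  unfold g1
  rw [h1, map_smul, ← h2, Module.Basis.constr_basis, smul_eq_mul]

theorem g1_stein (P : Polynomial ℤ) : g1 (Polynomial.X * P) = g1 (Polynomial.derivative P) := by
  induction P using Polynomial.induction_on' with
  | add P Q hP hQ => rw [mul_add, map_add, map_add, map_add, hP, hQ]
  | monomial m c =>
    rw [Polynomial.X_mul_monomial, g1_monomial, Polynomial.derivative_monomial, g1_monomial,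
      mu_rec]
    push_cast
    ring

theorem g1_he (n : ℕ) : ∀ Q : Polynomial ℤ,
    g1 (Polynomial.hermite n * Q) = g1 (Polynomial.derivative^[n] Q) := by
  induction n with
  | zero =>
    intro Q
    rw [Polynomial.hermite_zero, Polynomial.C_1, one_mul]
    rfl
  | succ n ih =>
    intro Q
    rw [Function.iterate_succ_apply, ← ih, Polynomial.hermite_succ, sub_mul, mul_assoc, map_sub,
      g1_stein, Polynomial.derivative_mul, map_add]
    ring

theorem g1_he_lt {m n : ℕ} (h : m < n) :
    g1 (Polynomial.hermite n * Polynomial.hermite m) = 0 := by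
  rw [g1_he, Polynomial.iterate_derivative_eq_zero (by rwa [Polynomial.natDegree_hermite]),
    map_zero]

theorem g1_he_self (n : ℕ) :
    g1 (Polynomial.hermite n * Polynomial.hermite n) = (n.factorial : ℤ) := by
  have h1 : (Polynomial.derivative^[n] (Polynomial.hermite n)) =
      Polynomial.monomial 0 (n.factorial : ℤ) := by
    ext k
    rw [Polynomial.coeff_iterate_derivative, Polynomial.coeff_monomial]
    by_cases hk : k = 0
    · subst hk
      rw [zero_add, Nat.descFactorial_self, Polynomial.coeff_hermite_self, if_pos rfl,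
        nsmul_eq_mul, mul_one]
    · rw [if_neg (fun h => hk h.symm), Polynomial.coeff_hermite_of_lt (by omega), smul_zero]
  rw [g1_he, h1, g1_monomial]
  simp [mu]

theorem g1_he_he (m n : ℕ) : g1 (Polynomial.hermite m * Polynomial.hermite n) =
    if m = n then (m.factorial : ℤ) else 0 := by
  rcases lt_trichotomy m n with h | h | h
  · rw [mul_comm, g1_he_lt h, if_neg h.ne]
  · subst h
    rw [g1_he_self, if_pos rfl]
  · rw [g1_he_lt h, if_neg h.ne']

theorem gau_prod {V : Type} [Fintype V] [DecidableEq V] (P : V → Polynomial ℤ) :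
    gau V ℤ (∏ v, Polynomial.aeval (MvPolynomial.X v : MvPolynomial V ℤ) (P v)) =
      ∏ v, g1 (P v) := by
  obtain ⟨N, hN⟩ : ∃ N, ∀ v, (P v).natDegree < N := by
    refine ⟨∑ v, (P v).natDegree + 1, fun v => ?_⟩
    have := single_le_sum (f := fun v => (P v).natDegree) (fun _ _ => Nat.zero_le _) (mem_univ v)
    omega
  have h1 : ∀ v, g1 (P v) = ∑ m ∈ range N, (P v).coeff m * mu m := by
    intro v
    conv_lhs => rw [(P v).as_sum_range' N (hN v)]
    rw [map_sum]
    exact sum_congr rfl fun m _ => g1_monomial _ _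
  have h2 : ∀ v, Polynomial.aeval (MvPolynomial.X v : MvPolynomial V ℤ) (P v) =
      ∑ m ∈ range N, (P v).coeff m • (MvPolynomial.X v : MvPolynomial V ℤ) ^ m :=
    fun v => Polynomial.aeval_eq_sum_range' (hN v) _
  rw [prod_congr rfl fun v _ => h2 v, prod_congr rfl fun v _ => h1 v, prod_univ_sum,
    prod_univ_sum, map_sum]
  refine sum_congr rfl fun a _ => ?_
  have h3 : ∏ v, (P v).coeff (a v) • (MvPolynomial.X v : MvPolynomial V ℤ) ^ a v =
      MvPolynomial.monomial (Finsupp.equivFunOnFinite.symm a) (∏ v, (P v).coeff (a v)) := by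
    rw [MvPolynomial.monomial_eq, Finsupp.prod_fintype _ _ (fun _ => pow_zero _), map_prod,
      ← prod_mul_distrib]
    refine prod_congr rfl fun v _ => ?_
    rw [MvPolynomial.smul_eq_C_mul]
    rfl
  rw [h3, gau_monomial, prod_mul_distrib]
  push_cast
  rfl

theorem lf_lfin (n : ℕ) (e : {x : Fin n × Fin n // x.1 < x.2}) :
    lf ℤ (lfin n e) = MvPolynomial.X e.1.1 - MvPolynomial.X e.1.2 := by
  have h1 : ∀ v, MvPolynomial.C ((lfin n e v : ℤ) : ℤ) * (MvPolynomial.X v : MvPolynomial _ ℤ) =
      (if v = e.1.1 then MvPolynomial.X v else 0) - (if v = e.1.2 then MvPolynomial.X v else 0) := by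
    intro v
    simp only [lfin, Pi.sub_apply, Pi.single_apply, map_sub, sub_mul]
    congr 1
    · split_ifs <;> simp
    · split_ifs <;> simp
  have h2 : lf ℤ (lfin n e) = ∑ v, MvPolynomial.C ((lfin n e v : ℤ) : ℤ) *
      (MvPolynomial.X v : MvPolynomial _ ℤ) := rfl
  rw [h2, sum_congr rfl fun v _ => h1 v, sum_sub_distrib, sum_ite_eq', sum_ite_eq',
    if_pos (mem_univ _), if_pos (mem_univ _)]

theorem prod_pairs {n : ℕ} {M : Type} [CommMonoid M] (f : Fin n × Fin n → M) :
    ∏ e : {x : Fin n × Fin n // x.1 < x.2}, f e = ∏ i, ∏ j ∈ Ioi i, f (i, j) := by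
  have h1 : ∏ e : {x : Fin n × Fin n // x.1 < x.2}, f e =
      ∏ x ∈ univ.filter (fun x : Fin n × Fin n => x.1 < x.2), f x :=
    (prod_subtype _ (by simp) f).symm
  rw [h1, prod_filter, Fintype.prod_prod_type]
  refine prod_congr rfl fun i _ => ?_
  rw [← prod_filter]
  refine prod_congr ?_ fun _ _ => rfl
  ext j
  simp

theorem thm_Her : St_Her := by
  intro n
  set M : Matrix (Fin n) (Fin n) (MvPolynomial (Fin n) ℤ) := Matrix.of fun i j =>
    Polynomial.aeval (MvPolynomial.X i : MvPolynomial (Fin n) ℤ) (Polynomial.hermite j) with hM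
  have h1 : (Matrix.vandermonde fun i => (MvPolynomial.X i : MvPolynomial (Fin n) ℤ)).det =
      M.det := by
    rw [Matrix.det_eval_matrixOfPolynomials_eq_det_vandermonde _
      (fun j : Fin n => (Polynomial.hermite j).map (Int.castRingHom (MvPolynomial (Fin n) ℤ)))
      (fun j => by rw [(Polynomial.hermite_monic j).natDegree_map, Polynomial.natDegree_hermite])
      (fun j => (Polynomial.hermite_monic j).map _)]
    congr 1
    ext i j
    simp only [hM, Matrix.of_apply, Polynomial.eval_map]
    rw [Polynomial.aeval_def]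
    rfl
  have h2 : ∏ e : {x : Fin n × Fin n // x.1 < x.2}, lf ℤ (lfin n e) ^ 2 = M.det ^ 2 := by
    rw [← h1, Matrix.det_vandermonde, prod_congr rfl fun e _ => by rw [lf_lfin],
      prod_pairs (fun x : Fin n × Fin n => ((MvPolynomial.X x.1 : MvPolynomial (Fin n) ℤ) -
        MvPolynomial.X x.2) ^ 2), ← prod_pow]
    refine prod_congr rfl fun i _ => ?_
    rw [← prod_pow]
    refine prod_congr rfl fun j _ => ?_
    ring
  have h3 : M.det ^ 2 = ∑ σ : Equiv.Perm (Fin n), ∑ τ : Equiv.Perm (Fin n),
      (((Equiv.Perm.sign σ : ℤ) * (Equiv.Perm.sign τ : ℤ) : ℤ) : MvPolynomial (Fin n) ℤ) *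
        ∏ i, Polynomial.aeval (MvPolynomial.X i : MvPolynomial (Fin n) ℤ)
          (Polynomial.hermite (σ i) * Polynomial.hermite (τ i)) := by
    have h4 : M.det = ∑ σ : Equiv.Perm (Fin n), ((Equiv.Perm.sign σ : ℤ) : MvPolynomial (Fin n) ℤ) *
        ∏ i, Polynomial.aeval (MvPolynomial.X i : MvPolynomial (Fin n) ℤ)
          (Polynomial.hermite (σ i)) := by
      rw [← Matrix.det_transpose, Matrix.det_apply']
      rfl
    rw [pow_two, h4, sum_mul_sum]
    refine sum_congr rfl fun σ _ => sum_congr rfl fun τ _ => ?_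
    simp only [map_mul, prod_mul_distrib, Int.cast_mul]
    ring
  have h5 : mom (lfin n) univ = ∑ σ : Equiv.Perm (Fin n), ∑ τ : Equiv.Perm (Fin n),
      ((Equiv.Perm.sign σ : ℤ) * (Equiv.Perm.sign τ : ℤ)) *
        ∏ i, (if σ i = τ i then (((σ i : Fin n) : ℕ).factorial : ℤ) else 0) := by
    unfold mom
    rw [h2, h3, map_sum]
    refine sum_congr rfl fun σ _ => ?_
    rw [map_sum]
    refine sum_congr rfl fun τ _ => ?_
    have h6 : ∀ (c : ℤ) (Q : MvPolynomial (Fin n) ℤ), gau (Fin n) ℤ ((c : MvPolynomial (Fin n) ℤ) * Q) =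
        c * gau (Fin n) ℤ Q := by
      intro c Q
      rw [← gau_C_mul]
      rfl
    rw [h6, gau_prod]
    congr 1
    refine prod_congr rfl fun i _ => ?_
    rw [g1_he_he]
    simp only [Fin.val_inj]
  have h7 : ∀ σ : Equiv.Perm (Fin n), ∑ τ : Equiv.Perm (Fin n),
      ((Equiv.Perm.sign σ : ℤ) * (Equiv.Perm.sign τ : ℤ)) *
        ∏ i, (if σ i = τ i then (((σ i : Fin n) : ℕ).factorial : ℤ) else 0) =
      ∏ k ∈ range n, (k.factorial : ℤ) := by
    intro σ
    rw [sum_eq_single σ]
    · have h8 : ((Equiv.Perm.sign σ : ℤ) * (Equiv.Perm.sign σ : ℤ)) = 1 := by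
        rcases Int.units_eq_one_or (Equiv.Perm.sign σ) with h | h <;> rw [h] <;> simp
      rw [h8, one_mul, prod_congr rfl fun i _ => if_pos rfl,
        Equiv.prod_comp σ (fun i : Fin n => ((i : ℕ).factorial : ℤ)),
        ← Fin.prod_univ_eq_prod_range (fun k => (k.factorial : ℤ)) n]
    · intro τ _ hτ
      have h8 : ∃ i, σ i ≠ τ i := by
        by_contra hc
        push Not at hc
        exact hτ (Equiv.ext fun i => (hc i).symm)
      obtain ⟨i, hi⟩ := h8
      rw [prod_eq_zero (mem_univ i) (if_neg hi), mul_zero]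
    · intro h
      exact absurd (mem_univ σ) h
  rw [h5, sum_congr rfl fun σ _ => h7 σ, sum_const, card_univ, Fintype.card_perm,
    Fintype.card_fin, nsmul_eq_mul, prod_range_succ, mul_comm]

end Pool.Agent.GNC
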