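import Pool.Agent.GNC.St
import Pool.Agent.GNC.Gau
import Pool.Agent.GNC.Her

/-!
# GNC, module Link: the integral and the integers `bb`
-/

set_option autoImplicit false

open MeasureTheory Set Real
open Pool.Agent.Helper44.Ball3 (E3)

namespace Pool.Agent.GNC

/-- the one-dimensional weight -/
private noncomputable def w1 (k : ℕ) (x : ℝ) : ℝ := x ^ k * exp (-x ^ 2)

private theorem w1_int (k : ℕ) : Integrable (w1 k) := by
  have h := integrable_rpow_mul_exp_neg_mul_sq (b := 1) one_pos (s := (k : ℝ))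
    (by have := Nat.cast_nonneg (α := ℝ) k; linarith)
  refine h.congr (Filter.Eventually.of_forall fun x => ?_)
  show x ^ (k : ℝ) * exp (-1 * x ^ 2) = x ^ k * exp (-x ^ 2)
  rw [rpow_natCast, neg_one_mul]

/-- the scaling factor -/
private noncomputable def cc : ℝ := (√2)⁻¹

private theorem cc_sq : cc ^ 2 = 1 / 2 := by
  unfold cc
  rw [inv_pow, sq_sqrt (by norm_num), one_div]

private theorem mu_odd : ∀ k : ℕ, Odd k → mu k = 0 := by
  intro k
  induction k using Nat.strong_induction_on with
  | _ k ih =>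
    intro hk
    match k, hk with
    | 0, hk => exact absurd hk (by decide)
    | 1, _ => rfl
    | m + 2, hk =>
      show (m + 1) * mu m = 0
      rw [ih m (by omega) (by rcases hk with ⟨r, hr⟩; exact ⟨r - 1, by omega⟩), mul_zero]

private theorem mu_even : ∀ m : ℕ, mu (m + m) = (2 * m - 1).doubleFactorial := by
  intro m
  induction m with
  | zero => rfl
  | succ m ih =>
    have h1 : m + 1 + (m + 1) = (m + m) + 2 := by ring
    have h2 : mu ((m + m) + 2) = (m + m + 1) * mu (m + m) := rfl
    rw [h1, h2, ih]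
    cases m with
    | zero => rfl
    | succ m =>
      have h3 : 2 * (m + 1 + 1) - 1 = (2 * (m + 1) - 1) + 2 := by omega
      rw [h3, Nat.doubleFactorial_add_two]
      congr 1
      omega

private theorem w1_val (k : ℕ) : ∫ x, w1 k x = mu k * cc ^ k * √π := by
  rcases Nat.even_or_odd k with hk | hk
  · obtain ⟨m, rfl⟩ := hk
    have h1 : (∫ x, w1 (m + m) x) = ∫ x, w1 (m + m) |x| := by
      congr 1
      funext x
      unfold w1
      rw [(Even.add_self m).pow_abs, sq_abs]
    have h2 : (∫ x in Ioi (0 : ℝ), w1 (m + m) x) = 1 / 2 * Gamma (m + 1 / 2) := by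
      have h3 := integral_rpow_mul_exp_neg_rpow (p := 2) (q := ((m + m : ℕ) : ℝ)) two_pos
        (by have := Nat.cast_nonneg (α := ℝ) (m + m); linarith)
      have h4 : (((m + m : ℕ) : ℝ) + 1) / 2 = m + 1 / 2 := by
        push_cast
        ring
      rw [h4] at h3
      rw [← h3]
      refine setIntegral_congr_fun measurableSet_Ioi fun x hx => ?_
      show x ^ (m + m) * exp (-x ^ 2) = x ^ ((m + m : ℕ) : ℝ) * exp (-x ^ (2 : ℝ))
      rw [rpow_natCast, rpow_two]
    have h5 : cc ^ (m + m) = 1 / 2 ^ m := by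
      rw [← two_mul, pow_mul, cc_sq, one_div, one_div, inv_pow]
    rw [h1, integral_comp_abs, h2, Gamma_nat_add_half, mu_even, h5]
    ring
  · have h1 : (∫ x, w1 k (-x)) = ∫ x, w1 k x := integral_neg_eq_self _ _
    have h2 : (∫ x, w1 k (-x)) = -∫ x, w1 k x := by
      rw [← integral_neg]
      congr 1
      funext x
      unfold w1
      rw [hk.neg_pow, neg_sq]
      ring
    have h3 : (∫ x, w1 k x) = 0 := by linarith
    rw [h3, mu_odd k hk]
    simp

/-- the weight on the space -/
private noncomputable def w3 (k : Fin 3 → ℕ) (x : E3) : ℝ := ∏ j, w1 (k j) (x j)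

private theorem w3_eq (k : Fin 3 → ℕ) (x : E3) :
    w3 k x = (∏ j, x j ^ k j) * exp (-‖x‖ ^ 2) := by
  unfold w3 w1
  rw [Finset.prod_mul_distrib, EuclideanSpace.real_norm_sq_eq, ← exp_sum, Finset.sum_neg_distrib]

private theorem w3_int (k : Fin 3 → ℕ) : Integrable (w3 k) := by
  have h1 : Integrable (fun x : Fin 3 → ℝ => ∏ j, w1 (k j) (x j)) :=
    Integrable.fintype_prod fun j => w1_int (k j)
  exact (EuclideanSpace.volume_preserving_symm_measurableEquiv_toLp (Fin 3)).integrable_comp_of_integrable h1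

private theorem w3_val (k : Fin 3 → ℕ) :
    ∫ x, w3 k x = (∏ j, (mu (k j) * cc ^ k j : ℝ)) * √π ^ 3 := by
  have h1 : (∫ x, w3 k x) = ∫ x : Fin 3 → ℝ, ∏ j, w1 (k j) (x j) :=
    (EuclideanSpace.volume_preserving_symm_measurableEquiv_toLp (Fin 3)).integral_comp'
      (fun x : Fin 3 → ℝ => ∏ j, w1 (k j) (x j))
  rw [h1, integral_fintype_prod_volume_eq_prod (fun j => w1 (k j))]
  simp only [w1_val, Finset.prod_mul_distrib, Finset.prod_const, Finset.card_univ,
    Fintype.card_fin]

section

variable (n : ℕ)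

/-- the integrand of a polynomial -/
private noncomputable def pw (p : MvPolynomial (Fin n × Fin 3) ℝ) (r : Fin n → E3) : ℝ :=
  MvPolynomial.aeval (fun a : Fin n × Fin 3 => r a.1 a.2) p * ∏ i, exp (-‖r i‖ ^ 2)

/-- the scaling -/
private noncomputable def sc : MvPolynomial (Fin n × Fin 3) ℝ →ₐ[ℝ] MvPolynomial (Fin n × Fin 3) ℝ :=
  MvPolynomial.aeval fun a => MvPolynomial.C cc * MvPolynomial.X a

private theorem pw_monomial (s : (Fin n × Fin 3) →₀ ℕ) (a : ℝ) (r : Fin n → E3) :
    pw n (MvPolynomial.monomial s a) r = a * ∏ i, w3 (fun j => s (i, j)) (r i) := by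
  unfold pw
  rw [MvPolynomial.aeval_monomial]
  simp only [w3_eq, Finset.prod_mul_distrib]
  have h1 : (s.prod fun i k => (r i.1 i.2) ^ k) = ∏ i, ∏ j, r i j ^ s (i, j) := by
    rw [Finsupp.prod_fintype _ _ (fun _ => pow_zero _), Fintype.prod_prod_type]
  rw [h1]
  simp only [Algebra.algebraMap_self, RingHom.id_apply]
  ring

private theorem sc_monomial (s : (Fin n × Fin 3) →₀ ℕ) (a : ℝ) :
    sc n (MvPolynomial.monomial s a) = MvPolynomial.monomial s (a * ∏ x, cc ^ s x) := by
  unfold sc
  rw [MvPolynomial.aeval_monomial, MvPolynomial.monomial_eq, Finsupp.prod_fintype _ _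
    (fun _ => pow_zero _), Finsupp.prod_fintype _ _ (fun _ => pow_zero _), map_mul, map_prod]
  simp only [mul_pow, Finset.prod_mul_distrib, map_pow]
  rw [mul_assoc]
  rfl

private theorem pw_main (p : MvPolynomial (Fin n × Fin 3) ℝ) :
    Integrable (pw n p) ∧ ∫ r, pw n p r = √π ^ (3 * n) * gau (Fin n × Fin 3) ℝ (sc n p) := by
  induction p using MvPolynomial.induction_on' with
  | monomial s a =>
    have h1 : pw n (MvPolynomial.monomial s a) =
        fun r => (a : ℝ) * ∏ i, w3 (fun j => s (i, j)) (r i) := by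
      funext r
      exact pw_monomial n s a r
    have h2 : Integrable (fun r : Fin n → E3 => ∏ i, w3 (fun j => s (i, j)) (r i)) :=
      Integrable.fintype_prod fun i => w3_int fun j => s (i, j)
    rw [h1]
    refine ⟨h2.const_mul _, ?_⟩
    rw [integral_const_mul, integral_fintype_prod_volume_eq_prod (fun i => w3 (fun j => s (i, j))),
      sc_monomial, gau_monomial]
    simp only [w3_val, Finset.prod_mul_distrib, Finset.prod_const, Finset.card_univ,
      Fintype.card_fin, Fintype.prod_prod_type]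
    push_cast
    rw [pow_mul]
    ring
  | add p p' hp hp' =>
    obtain ⟨h1, hq⟩ := hp
    obtain ⟨h1', hq'⟩ := hp'
    have h2 : pw n (p + p') = fun r => pw n p r + pw n p' r := by
      funext r
      unfold pw
      rw [map_add, add_mul]
    rw [h2]
    refine ⟨h1.add h1', ?_⟩
    rw [integral_add h1 h1', hq, hq', map_add, map_add]
    ring

/-- the product of the squared distances as a polynomial -/
noncomputable def pQ (R : Type) [CommRing R] : MvPolynomial (Fin n × Fin 3) R :=
  ∏ e : {x : Fin n × Fin n // x.1 < x.2}, ∑ i : Fin 3,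
    (MvPolynomial.X (e.1.1, i) - MvPolynomial.X (e.1.2, i)) ^ 2

private theorem pQ_eval (r : Fin n → E3) :
    MvPolynomial.aeval (fun a : Fin n × Fin 3 => r a.1 a.2) (pQ n ℝ) = F1.QQ r := by
  unfold pQ F1.QQ
  rw [map_prod, prod_pairs (fun x : Fin n × Fin n =>
    MvPolynomial.aeval (fun a : Fin n × Fin 3 => r a.1 a.2) (∑ i : Fin 3,
      (MvPolynomial.X (x.1, i) - MvPolynomial.X (x.2, i) : MvPolynomial (Fin n × Fin 3) ℝ) ^ 2))]
  refine Finset.prod_congr rfl fun k _ => Finset.prod_congr rfl fun j _ => ?_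
  simp only [map_sum, map_pow, map_sub, MvPolynomial.aeval_X,
    EuclideanSpace.real_norm_sq_eq, PiLp.sub_apply]
  refine Finset.sum_congr rfl fun i _ => ?_
  ring

theorem card_pairs : Fintype.card {x : Fin n × Fin n // x.1 < x.2} = n * (n - 1) / 2 := by
  have h1 := prod_pairs (n := n) (M := Multiplicative ℕ) fun _ => Multiplicative.ofAdd 1
  rw [Finset.prod_const, Finset.card_univ] at h1
  simp only [Finset.prod_const, Fin.card_Ioi] at h1
  have h2 := congrArg Multiplicative.toAdd h1
  simp only [toAdd_pow, toAdd_ofAdd, toAdd_prod, smul_eq_mul, mul_one] at h2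
  rw [h2, Fin.sum_univ_eq_sum_range (fun i => n - 1 - i) n, Finset.sum_range_reflect (fun i => i) n,
    Finset.sum_range_id]

private theorem pQ_sc : sc n (pQ n ℝ) = MvPolynomial.C ((1 / 2) ^ (n * (n - 1) / 2)) * pQ n ℝ := by
  unfold pQ
  have h1 : ∀ e : {x : Fin n × Fin n // x.1 < x.2}, sc n (∑ i : Fin 3,
      (MvPolynomial.X (e.1.1, i) - MvPolynomial.X (e.1.2, i)) ^ 2) = MvPolynomial.C (1 / 2) *
      ∑ i : Fin 3, (MvPolynomial.X (e.1.1, i) - MvPolynomial.X (e.1.2, i)) ^ 2 := by
    intro e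
    rw [map_sum, Finset.mul_sum]
    refine Finset.sum_congr rfl fun i _ => ?_
    unfold sc
    rw [map_pow, map_sub, MvPolynomial.aeval_X, MvPolynomial.aeval_X, ← mul_sub, mul_pow,
      ← map_pow, cc_sq]
  rw [map_prod, Finset.prod_congr rfl fun e _ => h1 e, Finset.prod_mul_distrib, Finset.prod_const,
    Finset.card_univ, card_pairs, ← map_pow]

end

open Finset MvPolynomial in
/-- products of polynomials in disjoint sets of variables -/
theorem gau_rename_prod {V K : Type} [Fintype V] [Fintype K] [DecidableEq K]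
    (P : K → MvPolynomial V ℤ) :
    gau (V × K) ℤ (∏ k, rename (fun v => (v, k)) (P k)) = ∏ k, gau V ℤ (P k) := by
  classical
  have h1 : ∀ k, P k = ∑ a ∈ (P k).support, monomial a ((P k).coeff a) := fun k =>
    (P k).support_sum_monomial_coeff.symm
  have h2 : ∀ k, gau V ℤ (P k) = ∑ a ∈ (P k).support, (P k).coeff a *
      ((∏ v, mu (a v) : ℕ) : ℤ) := by
    intro k
    conv_lhs => rw [h1 k]
    rw [map_sum]
    exact sum_congr rfl fun a _ => gau_monomial _ _
  have h3 : ∀ k, rename (fun v => (v, k)) (P k) = ∑ a ∈ (P k).support,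
      rename (fun v => (v, k)) (monomial a ((P k).coeff a)) := by
    intro k
    conv_lhs => rw [h1 k]
    rw [map_sum]
  rw [prod_congr rfl fun k _ => h3 k, prod_congr rfl fun k _ => h2 k, prod_univ_sum,
    prod_univ_sum, map_sum]
  refine sum_congr rfl fun a _ => ?_
  have h4 : ∏ k, rename (fun v => (v, k)) (monomial (a k) ((P k).coeff (a k))) =
      monomial (Finsupp.equivFunOnFinite.symm fun x : V × K => a x.2 x.1)
        (∏ k, (P k).coeff (a k)) := by
    rw [monomial_eq, Finsupp.prod_fintype _ _ (fun _ => pow_zero _), map_prod,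
      Fintype.prod_prod_type_right, ← prod_mul_distrib]
    refine prod_congr rfl fun k _ => ?_
    rw [monomial_eq, Finsupp.prod_fintype _ _ (fun _ => pow_zero _), map_mul, rename_C, map_prod]
    congr 1
    refine prod_congr rfl fun v _ => ?_
    rw [map_pow, rename_X]
    rfl
  rw [h4, gau_monomial, prod_mul_distrib, Fintype.prod_prod_type_right]
  push_cast
  rfl

open Finset MvPolynomial in
theorem gau_pQ (n : ℕ) : gau (Fin n × Fin 3) ℤ (pQ n ℤ) = bb n := by
  classical
  have h1 : pQ n ℤ = ∑ c : {x : Fin n × Fin n // x.1 < x.2} → Fin 3,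
      ∏ k, rename (fun v => (v, k)) (∏ e ∈ univ.filter fun e => c e = k, lf ℤ (lfin n e) ^ 2) := by
    unfold pQ
    rw [prod_univ_sum, Fintype.piFinset_univ]
    refine sum_congr rfl fun c _ => ?_
    have h2 : ∀ k, rename (fun v => (v, k)) (∏ e ∈ univ.filter fun e => c e = k,
        lf ℤ (lfin n e) ^ 2) = ∏ e ∈ univ.filter (fun e => c e = k),
          (X (e.1.1, c e) - X (e.1.2, c e) : MvPolynomial (Fin n × Fin 3) ℤ) ^ 2 := by
      intro k
      rw [map_prod]
      refine prod_congr rfl fun e he => ?_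
      rw [map_pow, lf_lfin, map_sub, rename_X, rename_X, (mem_filter.1 he).2]
    rw [prod_congr rfl fun k _ => h2 k]
    exact (prod_fiberwise univ c _).symm
  rw [h1, map_sum]
  unfold bb cs
  refine sum_congr rfl fun c _ => ?_
  rw [gau_rename_prod]
  rfl

theorem thm_Link : St_Link := by
  intro n
  obtain ⟨-, h1⟩ := pw_main n (pQ n ℝ)
  have h2 : F1.Fone n = ∫ r, pw n (pQ n ℝ) r := by
    unfold F1.Fone pw
    simp only [pQ_eval]
  have h3 : pQ n ℝ = MvPolynomial.map (Int.castRingHom ℝ) (pQ n ℤ) := by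
    unfold pQ
    rw [map_prod]
    refine Finset.prod_congr rfl fun e _ => ?_
    rw [map_sum]
    refine Finset.sum_congr rfl fun i _ => ?_
    rw [map_pow, map_sub, MvPolynomial.map_X, MvPolynomial.map_X]
  rw [h2, h1, pQ_sc, gau_C_mul, h3, gau_map, gau_pQ]
  have h4 : (1 / 2 : ℝ) ^ (n * (n - 1) / 2) * 2 ^ (n * (n - 1) / 2) = 1 := by
    rw [← mul_pow]
    norm_num
  linear_combination √π ^ (3 * n) * (bb n : ℝ) * h4

end Pool.Agent.GNC
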