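import Pool.Agent.GNC.T
import Pool.Agent.GNC.Fix
import Pool.Agent.GNC.Eval
import Pool.Agent.GNC.Her
import Pool.Agent.GNC.Bij
import Pool.Agent.GNC.Big
import Pool.Agent.GNC.Link
import Pool.Agent.F1.All

/-!
# GNC, module C: the congruence
-/

set_option autoImplicit false

open Finset Filter

namespace Pool.Agent.GNC

theorem bb_pos (j : ℕ) : 0 < bb j := by
  have h2 : 0 < F1.Fone j := by
    rcases Nat.eq_zero_or_pos j with hj | hj
    · subst hj
      unfold F1.Fone F1.QQ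
      simp
    · obtain ⟨C, hC⟩ := F1.full
      exact (hC j hj).1
  have h1 := thm_Link j
  have h3 : 0 < F1.Fone j * 2 ^ (j * (j - 1) / 2) := mul_pos h2 (by positivity)
  rw [h1] at h3
  have h4 : (0 : ℝ) < Real.sqrt Real.pi ^ (3 * j) :=
    pow_pos (Real.sqrt_pos.2 Real.pi_pos) _
  have h5 : (0 : ℝ) < (bb j : ℝ) := (mul_pos_iff_of_pos_left h4).1 h3
  exact_mod_cast h5

section

variable {p q : ℕ} [Fact p.Prime] {J O : Type} [Fintype J] [DecidableEq J] [DecidableEq O]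

/-- the rotation of the edges -/
def C_rot (p q : ℕ) (J O : Type) :
    ((Fin (q + 1) ⊕ J) × ZMod p) ⊕ O → ((Fin (q + 1) ⊕ J) × ZMod p) ⊕ O :=
  Sum.map (Prod.map id (· + 1)) id

omit [Fact p.Prime] [Fintype J] [DecidableEq J] [DecidableEq O] in
theorem C_rot_inj : Function.Injective (C_rot p q J O) := by
  rintro (⟨x, a⟩ | o) (⟨y, b⟩ | o') h
  · simp only [C_rot, Sum.map_inl, Prod.map_apply, id_eq, Sum.inl.injEq, Prod.mk.injEq,
      add_left_inj] at h
    rw [h.1, h.2]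
  · simp [C_rot] at h
  · simp [C_rot] at h
  · simp only [C_rot, Sum.map_inr, id_eq, Sum.inr.injEq] at h
    rw [h]

omit [Fintype J] [DecidableEq O] in
theorem C_gl_rot (lo : O → J → ℤ) (e : ((Fin (q + 1) ⊕ J) × ZMod p) ⊕ O) (x : ZMod p ⊕ J) :
    gl p q lo (C_rot p q J O e) (Sum.map (· + 1) id x) = gl p q lo e x := by
  rcases e with ⟨d | v, a⟩ | o <;> rcases x with c | w
  · simp only [C_rot, Sum.map_inl, Prod.map_apply, id_eq, gl, Pi.sub_apply, Pi.single_apply,
      Sum.inl.injEq, add_left_inj, add_right_comm a 1]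
  · simp [C_rot, gl]
  · simp only [C_rot, Sum.map_inl, Prod.map_apply, id_eq, gl, Pi.sub_apply, Pi.single_apply,
      Sum.inl.injEq, add_left_inj, reduceCtorEq, if_false]
  · simp only [C_rot, Sum.map_inl, Sum.map_inr, Prod.map_apply, id_eq, gl, Pi.sub_apply,
      Pi.single_apply, Sum.inr.injEq, reduceCtorEq, if_false]
  · rfl
  · rfl

theorem C_inv (lo : O → J → ℤ) (A : Finset (((Fin (q + 1) ⊕ J) × ZMod p) ⊕ O)) :
    gw (gl p q lo) (A.image (C_rot p q J O)) = gw (gl p q lo) A := by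
  let f : {e // e ∈ A} → {e // e ∈ A.image (C_rot p q J O)} := fun e =>
    ⟨C_rot p q J O e, mem_image_of_mem _ e.2⟩
  have hf : Function.Bijective f := by
    constructor
    · intro e e' h
      exact Subtype.ext (C_rot_inj (congrArg Subtype.val h))
    · rintro ⟨e, he⟩
      obtain ⟨e', he', rfl⟩ := mem_image.1 he
      exact ⟨⟨e', he'⟩, rfl⟩
  rw [gw, ← gd_equiv (Equiv.ofBijective f hf), gw, gd_eq, gd_eq]
  congr 1
  ext i k
  simp only [gm, Matrix.of_apply]
  congr 1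
  rw [← Equiv.sum_comp (Equiv.sumCongr (Equiv.addRight (1 : ZMod p)) (Equiv.refl J))]
  refine sum_congr rfl fun x _ => ?_
  have h1 := C_gl_rot lo (i : ((Fin (q + 1) ⊕ J) × ZMod p) ⊕ O) x
  have h2 := C_gl_rot lo (k : ((Fin (q + 1) ⊕ J) × ZMod p) ⊕ O) x
  rw [← h1, ← h2]
  rcases x with x | x
  · rfl
  · rfl

theorem C_sum (lo : O → J → ℤ) (hlo : ∀ o, ∑ v, lo o v = 0)
    (e : ((Fin (q + 1) ⊕ J) × ZMod p) ⊕ O) : ∑ v, gl p q lo e v = 0 := by
  rcases e with ⟨d | v, a⟩ | o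
  · simp [gl, Pi.single_apply]
  · simp [gl, Pi.single_apply]
  · simp only [gl]
    rw [Fintype.sum_sum_type]
    simp [hlo]

end

theorem C_main (p q s d j : ℕ) [Fact p.Prime] (hp : p = 2 * q + 3) (hs : s ≤ q + 1)
    (hd : 2 * s + d = p) : ∃ ε : ℤ, (ε = 1 ∨ ε = -1) ∧
    (p : ℤ) ^ 2 ∣ 2 * ε * cs (Fin d) (mom (lfin (p + j))) -
      p * Phi s (gw (gl p q (lfin j))) (Sum.inl 0) := by
  have hlo : ∀ o, ∑ v, lfin j o v = 0 := by
    intro o
    simp [lfin, Pi.single_apply]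
  have hcard : s * (Fintype.card (ZMod p ⊕ Fin j) - 1) < Fintype.card
      (((Fin (q + 1) ⊕ Fin j) × ZMod p) ⊕ {x : Fin j × Fin j // x.1 < x.2}) := by
    rw [Fintype.card_sum, Fintype.card_sum, Fintype.card_prod, Fintype.card_sum, ZMod.card,
      Fintype.card_fin, Fintype.card_fin]
    have h1 : s * (p + j - 1) ≤ (q + 1) * (p + j - 1) := Nat.mul_le_mul_right _ hs
    have h2 : (q + 1) * (p + j - 1) < (q + 1 + j) * p := by
      rw [hp]
      have h3 : 2 * q + 3 + j - 1 = 2 * q + 2 + j := by omega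
      rw [h3]
      nlinarith
    omega
  have h1 := thm_T1 p s d _ _ (gl p q (lfin j)) hd (C_sum _ hlo) hcard
  have h2 := thm_Fix p s (Fin (q + 1) ⊕ Fin j) {x : Fin j × Fin j // x.1 < x.2}
    (gw (gl p q (lfin j))) (Sum.inl 0) (C_inv _) (Ev_orbit _ 0) (fun c => by
      obtain ⟨k, -, hk⟩ := exists_lt_card_fiber_of_mul_lt_card_of_maps_to
        (s := (univ : Finset (((Fin (q + 1) ⊕ Fin j) × ZMod p) ⊕ {x : Fin j × Fin j // x.1 < x.2})))
        (t := (univ : Finset (Fin s))) (f := c) (n := Fintype.card (ZMod p ⊕ Fin j) - 1)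
        (fun _ _ => mem_univ _) (by rwa [card_univ, card_univ, Fintype.card_fin])
      exact prod_eq_zero (mem_univ k) (thm_Big thm_Dep _ _ (gl p q (lfin j)) (C_sum _ hlo) _
        (by omega)))
  rw [thm_Bij p q j hp] at h1
  refine ⟨(-1) ^ Fintype.card
      (((Fin (q + 1) ⊕ Fin j) × ZMod p) ⊕ {x : Fin j × Fin j // x.1 < x.2}),
    neg_one_pow_eq_or _ _, ?_⟩
  have h3 := dvd_sub h1 h2
  have e : ∀ a b c : ℤ, a + b - (b + c) = a - c := fun a b c => by ring
  rw [e] at h3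
  exact h3

theorem C_one {Ω : Type} [Fintype Ω] [DecidableEq Ω] (g : Finset Ω → ℤ) :
    cs (Fin 1) g = g univ := by
  unfold cs
  rw [Fintype.sum_unique, univ_unique, prod_singleton]
  congr 1
  ext e
  simp only [mem_filter, mem_univ, true_and, iff_true]
  exact Subsingleton.elim _ _

theorem C_Phi0 (p q : ℕ) [hF : Fact p.Prime] (hp : p = 2 * q + 3) : ¬ (p : ℤ) ∣ Phi0 p q := by
  intro h
  have hP : Prime (p : ℤ) := Nat.prime_iff_prime_int.1 hF.out
  obtain ⟨ε, hε, h1⟩ := C_main p q (q + 1) 1 0 hp le_rfl (by omega)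
  have h2 := thm_Eval p q (q + 1) (Fin 0) {x : Fin 0 × Fin 0 // x.1 < x.2} (lfin 0) hp
  have h3 : (p : ℤ) ∣ Phi (q + 1) (gw (gl p q (lfin 0))) (Sum.inl 0) := by
    have h4 := dvd_add h2 (dvd_mul_of_dvd_left h (2 ^ Fintype.card (Fin 0) *
      (∏ i ∈ range (Fintype.card (Fin 0)), (((q + 1 : ℕ) : ℤ) + p - (q + 1) - i)) *
      cs (Fin (q + 1)) (gw (lfin 0))))
    rwa [sub_add_cancel] at h4
  have h4 : (p : ℤ) ^ 2 ∣ 2 * ε * cs (Fin 1) (mom (lfin (p + 0))) := by
    have h5 : (p : ℤ) ^ 2 ∣ p * Phi (q + 1) (gw (gl p q (lfin 0))) (Sum.inl 0) := by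
      rw [pow_two]
      exact mul_dvd_mul_left _ h3
    have h6 := dvd_add h1 h5
    rwa [sub_add_cancel] at h6
  have h5 : (p : ℤ) ^ 2 ∣ 2 * ∏ k ∈ range (p + 1), ((k.factorial : ℕ) : ℤ) := by
    rw [C_one, add_zero, thm_Her] at h4
    rcases hε with rfl | rfl
    · rwa [mul_one] at h4
    · rw [mul_neg_one, neg_mul, dvd_neg] at h4
      exact h4
  obtain ⟨r, hr⟩ : ∃ r, p = r + 1 := ⟨p - 1, by omega⟩
  have h6 : 2 * ∏ k ∈ range (p + 1), ((k.factorial : ℕ) : ℤ) =
      p * (2 * ((∏ k ∈ range p, ((k.factorial : ℕ) : ℤ)) * ((p - 1).factorial : ℤ))) := by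
    rw [prod_range_succ]
    have h7 : (p.factorial : ℤ) = p * (p - 1).factorial := by
      rw [← Nat.mul_factorial_pred (by omega)]
      push_cast
      rfl
    rw [h7]
    ring
  have hp0 : (p : ℤ) ≠ 0 := hP.ne_zero
  rw [h6, pow_two] at h5
  have h7 := (mul_dvd_mul_iff_left hp0).1 h5
  have hfac : ∀ k, k < p → ¬ (p : ℤ) ∣ ((k.factorial : ℕ) : ℤ) := by
    intro k hk h8
    rw [Int.natCast_dvd_natCast, hF.out.dvd_factorial] at h8
    omega
  rcases hP.dvd_or_dvd h7 with h8 | h8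
  · have h9 : p ∣ 2 := by exact_mod_cast h8
    have := Nat.le_of_dvd (by norm_num) h9
    omega
  · rcases hP.dvd_or_dvd h8 with h9 | h9
    · obtain ⟨k, hk, hk'⟩ := (Prime.dvd_finsetProd_iff hP _).1 h9
      exact hfac k (mem_range.1 hk) hk'
    · exact hfac (p - 1) (by omega) h9

theorem thm_C : St_C := by
  intro j
  filter_upwards [eventually_gt_atTop (j + (bb j).toNat + 5)] with p hpj hpp
  haveI hF : Fact p.Prime := ⟨hpp⟩
  have hP : Prime (p : ℤ) := Nat.prime_iff_prime_int.1 hpp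
  obtain ⟨q, hp⟩ : ∃ q, p = 2 * q + 3 := by
    rcases hpp.eq_two_or_odd' with h | h
    · omega
    · obtain ⟨r, hr⟩ := h
      exact ⟨r - 1, by omega⟩
  have hbj := bb_pos j
  have hp2 : ¬ (p : ℤ) ∣ 2 := by
    intro h
    have h9 : p ∣ 2 := by exact_mod_cast h
    have := Nat.le_of_dvd (by norm_num) h9
    omega
  obtain ⟨ε, hε, h1⟩ := C_main p q q 3 j hp (by omega) (by omega)
  have hbb : cs (Fin 3) (mom (lfin (p + j))) = bb (p + j) := rfl
  rw [hbb] at h1
  have hun : ∀ m : ℕ, (p : ℤ) ^ m ∣ 2 * ε * bb (p + j) ↔ (p : ℤ) ^ m ∣ bb (p + j) := by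
    intro m
    have hco : IsCoprime ((p : ℤ) ^ m) (2 * ε) := by
      have h2 : IsCoprime (p : ℤ) 2 := (Prime.coprime_iff_not_dvd hP).2 hp2
      rcases hε with rfl | rfl
      · rw [mul_one]
        exact h2.pow_left
      · rw [mul_neg_one]
        exact h2.pow_left.neg_right
    exact ⟨fun h => hco.dvd_of_dvd_mul_left h, fun h => dvd_mul_of_dvd_right h _⟩
  have hdiv : (p : ℤ) ^ 1 ∣ bb (p + j) := by
    rw [← hun, pow_one]
    have h2 : (p : ℤ) ∣ 2 * ε * bb (p + j) - p * Phi q (gw (gl p q (lfin j))) (Sum.inl 0) :=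
      (dvd_pow_self _ two_ne_zero).trans h1
    have h3 := dvd_add h2 (dvd_mul_right (p : ℤ) (Phi q (gw (gl p q (lfin j))) (Sum.inl 0)))
    rwa [sub_add_cancel] at h3
  have hnd : ¬ (p : ℤ) ^ 2 ∣ bb (p + j) := by
    rw [← hun]
    intro h
    have h2 : (p : ℤ) ^ 2 ∣ p * Phi q (gw (gl p q (lfin j))) (Sum.inl 0) := by
      have h3 := dvd_sub h h1
      rwa [sub_sub_cancel] at h3
    rw [pow_two] at h2
    have h3 := (mul_dvd_mul_iff_left hP.ne_zero).1 h2
    have h4 := thm_Eval p q q (Fin j) {x : Fin j × Fin j // x.1 < x.2} (lfin j) hp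
    have h5 := dvd_sub h3 h4
    rw [sub_sub_cancel] at h5
    rcases hP.dvd_or_dvd h5 with h6 | h6
    · exact C_Phi0 p q hp h6
    · rcases hP.dvd_or_dvd h6 with h7 | h7
      · rcases hP.dvd_or_dvd h7 with h8 | h8
        · exact hp2 (hP.dvd_of_dvd_pow h8)
        · obtain ⟨i, hi, hi'⟩ := (Prime.dvd_finsetProd_iff hP _).1 h8
          rw [Fintype.card_fin, mem_range] at hi
          have h9 : (q : ℤ) + p - (q + 1) - i = p - ((i + 1 : ℕ) : ℤ) := by
            push_cast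
            ring
          rw [h9, dvd_sub_self_left, Int.natCast_dvd_natCast] at hi'
          have := Nat.le_of_dvd (by omega) hi'
          omega
      · have h8 := thm_T0 p q 3 (Fin j) {x : Fin j × Fin j // x.1 < x.2} (lfin j) (by omega)
        have h9 := dvd_sub h7 h8
        rw [sub_sub_cancel] at h9
        have h10 : (p : ℤ) ∣ bb j := by
          rcases neg_one_pow_eq_or ℤ (Fintype.card {x : Fin j × Fin j // x.1 < x.2}) with h11 | h11
          · rw [h11, one_mul] at h9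
            exact h9
          · rw [h11, neg_one_mul, dvd_neg] at h9
            exact h9
        have := Int.le_of_dvd hbj h10
        omega
  have h2 := (padicValInt_dvd_iff 1 (bb (p + j))).1 hdiv
  rw [padicValInt_dvd_iff, not_or] at hnd
  rcases h2 with h2 | h2
  · exact absurd h2 hnd.1
  · omega

end Pool.Agent.GNC
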