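import Pool.Agent.GNC.St
import Pool.Agent.GNC.C

/-!
# GNC, module Main: the theorem from the other modules
-/

set_option autoImplicit false

open Finset Filter Asymptotics

namespace Pool.Agent.GNC

/-- the logarithm of `bb n` -/
theorem Main_log (n : ℕ) (hn : 0 < F1.Fone n) :
    Real.log (bb n) = Real.log (F1.Fone n) + ((n : ℝ) * (n - 1) / 2 * Real.log 2 -
      3 * (n : ℝ) / 2 * Real.log Real.pi) := by
  have h1 := thm_Link n
  have h2 : (0 : ℝ) < (bb n : ℝ) := by exact_mod_cast bb_pos n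
  have h3 : (0 : ℝ) < Real.sqrt Real.pi := Real.sqrt_pos.2 Real.pi_pos
  have h4 := congrArg Real.log h1
  rw [Real.log_mul hn.ne' (by positivity), Real.log_mul (by positivity) h2.ne', Real.log_pow,
    Real.log_pow, Real.log_sqrt Real.pi_pos.le] at h4
  have h5 : ((n * (n - 1) / 2 : ℕ) : ℝ) = (n : ℝ) * (n - 1) / 2 := by
    rw [Nat.cast_div (Nat.even_mul_pred_self n).two_dvd (by norm_num)]
    rcases Nat.eq_zero_or_pos n with h | h
    · subst h
      simp
    · rw [Nat.cast_mul, Nat.cast_sub h]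
      simp
  rw [h5] at h4
  push_cast at h4
  linarith

/-- the asymptotics of `log (bb n)` -/
theorem Main_asym : ∃ K : ℝ, 0 ≤ K ∧ ∀ n : ℕ, 3 ≤ n →
    |Real.log (bb n) - ((n : ℝ) ^ 2 * Real.log n / 2 -
      (Real.log 3 / 2 - 1 / 4) * (n : ℝ) ^ 2)| ≤ K * ((n : ℝ) * Real.log n) := by
  obtain ⟨C, hC⟩ := F1.full
  have hlp : 0 ≤ Real.log Real.pi := Real.log_nonneg (by linarith [Real.pi_gt_three])
  have hl2 : 0 ≤ Real.log 2 := Real.log_nonneg (by norm_num)
  refine ⟨|C| + 4 / 3 + Real.log 2 / 2 + 3 / 2 * Real.log Real.pi, by positivity,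
    fun n hn => ?_⟩
  obtain ⟨h1, h2⟩ := hC n (by omega)
  have hn' : (3 : ℝ) ≤ n := by exact_mod_cast hn
  have hlog : 1 ≤ Real.log n := by
    rw [Real.le_log_iff_exp_le (by linarith)]
    linarith [Real.exp_one_lt_d9]
  have h6 : Real.log 6 = Real.log 2 + Real.log 3 := by
    rw [← Real.log_mul (by norm_num) (by norm_num)]
    norm_num
  have hn1 : (n : ℝ) ≤ n * Real.log n := by nlinarith
  have e : Real.log (bb n) - ((n : ℝ) ^ 2 * Real.log n / 2 -
      (Real.log 3 / 2 - 1 / 4) * (n : ℝ) ^ 2) =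
      (Real.log (F1.Fone n) - ((n : ℝ) ^ 2 * Real.log n / 2 -
        (Real.log 6 / 2 - 1 / 4) * n ^ 2 + 4 / 3 * n * Real.log n)) +
      (4 / 3 * (n * Real.log n) - n * (Real.log 2 / 2) - n * (3 / 2 * Real.log Real.pi)) := by
    rw [Main_log n h1, h6]
    ring
  rw [e, abs_le]
  rw [abs_le] at h2
  have h7 : C * n ≤ |C| * (n * Real.log n) :=
    (mul_le_mul_of_nonneg_right (le_abs_self C) (by positivity)).trans
      (mul_le_mul_of_nonneg_left hn1 (abs_nonneg C))
  have h8 : 0 ≤ n * (Real.log 2 / 2) := by positivity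
  have h9 : n * (Real.log 2 / 2) ≤ (n * Real.log n) * (Real.log 2 / 2) :=
    mul_le_mul_of_nonneg_right hn1 (by positivity)
  have h10 : 0 ≤ n * (3 / 2 * Real.log Real.pi) := by positivity
  have h11 : n * (3 / 2 * Real.log Real.pi) ≤ (n * Real.log n) * (3 / 2 * Real.log Real.pi) :=
    mul_le_mul_of_nonneg_right hn1 (by positivity)
  have h12 : 0 ≤ (n : ℝ) * Real.log n := by positivity
  constructor
  · nlinarith [h2.1, h2.2]
  · nlinarith [h2.1, h2.2]

/-- **Main** -/
theorem thm_Main (hNc : St_Nc) (hNf : St_Nf) (h1 : St_V1) (h3 : St_V3) (hA : St_A)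
    (hA' : St_A') (hB : St_B) (hF : St_F) : St_Main := by
  intro f hf hcon
  have hcon' : ∀ᶠ n : ℕ in atTop, F1.Fone n = f n := by
    filter_upwards [hcon] with n hn
    exact not_not.1 hn
  obtain ⟨hpos, hNN⟩ := hNc (fun n => F1.Fone n) (hf.congr hcon')
  have hbpos : ∀ᶠ n : ℕ in atTop, 0 < bb n := Eventually.of_forall bb_pos
  have hb : (fun n : ℕ => Real.log (bb n)) ∈ NN := by
    let Q : Polynomial ℝ := Polynomial.C (Real.log 2 / 2) * (Polynomial.X ^ 2 - Polynomial.X) -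
      Polynomial.C (3 / 2 * Real.log Real.pi) * Polynomial.X
    have hQ : (fun n : ℕ => Q.eval (n : ℝ)) ∈ NN :=
      Submodule.subset_span (Or.inl (Or.inl (Or.inr ⟨Q, rfl⟩)))
    have hz : (fun n : ℕ => Real.log (bb n) - (Real.log (F1.Fone n) + Q.eval (n : ℝ))) ∈ NN := by
      refine Submodule.subset_span (Or.inl (Or.inl (Or.inl ?_)))
      filter_upwards [hpos] with n hn
      rw [Main_log n hn]
      simp only [Q, Polynomial.eval_sub, Polynomial.eval_mul, Polynomial.eval_C,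
        Polynomial.eval_pow, Polynomial.eval_X]
      ring
    have := NN.add_mem hz (NN.add_mem hNN hQ)
    refine (congrArg (· ∈ NN) (funext fun n => ?_)).mp this
    simp
  obtain ⟨d, Q, hQ⟩ := hNf _ hb
  obtain ⟨K, hK0, hK⟩ := Main_asym
  have hVF : VF bb d := h3 bb d Q hbpos hQ
  have hbound : ∃ C : ℝ, ∀ᶠ n : ℕ in atTop, Real.log (bb n) ≤ C * ((n : ℝ) ^ 2 * Real.log n) := by
    refine ⟨1 / 2 + K, ?_⟩
    filter_upwards [eventually_ge_atTop 3] with n hn
    have h := (abs_le.1 (hK n hn)).2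
    have hn' : (3 : ℝ) ≤ n := by exact_mod_cast hn
    have hlog : 1 ≤ Real.log n := by
      rw [Real.le_log_iff_exp_le (by linarith)]
      linarith [Real.exp_one_lt_d9]
    have hl3 : 1 ≤ Real.log 3 := by
      rw [Real.le_log_iff_exp_le (by norm_num)]
      linarith [Real.exp_one_lt_d9]
    have e1 : (n : ℝ) * Real.log n ≤ (n : ℝ) ^ 2 * Real.log n :=
      mul_le_mul_of_nonneg_right (by nlinarith) (by linarith)
    have e2 : K * ((n : ℝ) * Real.log n) ≤ K * ((n : ℝ) ^ 2 * Real.log n) :=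
      mul_le_mul_of_nonneg_left e1 hK0
    have e3 : 0 ≤ (Real.log 3 / 2 - 1 / 4) * (n : ℝ) ^ 2 := by
      have : 0 ≤ Real.log 3 / 2 - 1 / 4 := by linarith
      positivity
    linarith
  have hT := hA bb d hVF hbpos hbound
  have hU := hA' bb d hVF hbpos hbound hT
  obtain ⟨hsA, hsB⟩ := hB bb d hVF hT thm_C
  have hasym : (fun n : ℕ => Real.log (bb n) - ((n : ℝ) ^ 2 * Real.log n / 2 -
      (Real.log 3 / 2 - 1 / 4) * (n : ℝ) ^ 2)) =O[atTop] fun n : ℕ => (n : ℝ) * Real.log n := by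
    refine IsBigO.of_bound K ?_
    filter_upwards [eventually_ge_atTop 3] with n hn
    rw [Real.norm_eq_abs, Real.norm_eq_abs]
    refine (hK n hn).trans (mul_le_mul_of_nonneg_left (le_abs_self _) hK0)
  have h := hF bb d Q hbpos hQ (h1 bb d Q hbpos hQ).1 hasym hT hU
  have hD : (1 : ℤ) ≤ d.D := by exact_mod_cast d.hD
  rw [hsA] at h
  omega

end Pool.Agent.GNC
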