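import Pool.Agent.GNC.St

/-!
# GNC, module P: many primes `= 1` mod `M` in short intervals
-/

set_option autoImplicit false

open Finset Filter

namespace Pool.Agent.GNC

section P

/-- the summand -/
private noncomputable def P_f (M n : ℕ) : ℝ :=
  (if n.Prime then ArithmeticFunction.vonMangoldt.residueClass (1 : ZMod M) n else 0) / n

private theorem P_f_nonneg (M n : ℕ) : 0 ≤ P_f M n := by
  unfold P_f
  refine div_nonneg ?_ (Nat.cast_nonneg n)
  split_ifs
  · exact ArithmeticFunction.vonMangoldt.residueClass_nonneg (1 : ZMod M) n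
  · exact le_rfl

private theorem P_f_zero (M n : ℕ) (h : ¬ (n.Prime ∧ n % M = 1 % M)) : P_f M n = 0 := by
  unfold P_f
  by_cases hp : n.Prime
  · have h1 : (n : ZMod M) ≠ 1 := by
      intro h2
      refine h ⟨hp, ?_⟩
      have h3 : ((n : ℕ) : ZMod M) = ((1 : ℕ) : ZMod M) := by rw [h2, Nat.cast_one]
      exact (ZMod.natCast_eq_natCast_iff' n 1 M).1 h3
    rw [if_pos hp, ArithmeticFunction.vonMangoldt.residueClass, Set.indicator_of_notMem, zero_div]
    exact h1
  · rw [if_neg hp, zero_div]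

private theorem P_f_le (M n : ℕ) (hn : 1 ≤ n) : P_f M n ≤ 2 / √(n : ℝ) := by
  have hn0 : (0 : ℝ) < n := by exact_mod_cast hn
  have hs : 0 < √(n : ℝ) := Real.sqrt_pos.2 hn0
  have h0 : 0 ≤ 2 / √(n : ℝ) := by positivity
  unfold P_f
  by_cases hp : n.Prime
  · rw [if_pos hp]
    have h1 : ArithmeticFunction.vonMangoldt.residueClass (1 : ZMod M) n ≤ Real.log n :=
      (ArithmeticFunction.vonMangoldt.residueClass_le (1 : ZMod M) n).trans
        (by rw [ArithmeticFunction.vonMangoldt_apply_prime hp])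
    have h2 : Real.log n ≤ 2 * √(n : ℝ) := by
      have h3 : Real.log (√(n : ℝ)) ≤ √(n : ℝ) - 1 := Real.log_le_sub_one_of_pos hs
      have h4 : Real.log (n : ℝ) = 2 * Real.log (√(n : ℝ)) := by
        rw [Real.log_sqrt hn0.le]
        ring
      rw [h4]
      linarith
    rw [div_le_div_iff₀ hn0 hs]
    have h5 : √(n : ℝ) * √(n : ℝ) = n := Real.mul_self_sqrt hn0.le
    calc ArithmeticFunction.vonMangoldt.residueClass (1 : ZMod M) n * √(n : ℝ)
        ≤ (2 * √(n : ℝ)) * √(n : ℝ) := mul_le_mul_of_nonneg_right (h1.trans h2) hs.le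
      _ = 2 * n := by rw [mul_assoc, h5]
  · rw [if_neg hp, zero_div]
    exact h0

theorem thm_P : St_P := by
  intro M hM lam hlam K X0
  by_contra hcon
  have hne : NeZero M := ⟨by omega⟩
  have hcount : ∀ X : ℕ, X0 ≤ X →
      #((Ioc X ⌊lam * X⌋₊).filter fun p => p.Prime ∧ p % M = 1 % M) ≤ K := by
    intro X hX
    by_contra h
    push Not at h
    refine hcon ⟨X, hX, _, h.le, fun p hp => ?_⟩
    rw [mem_filter, mem_Ioc] at hp
    refine ⟨hp.2.1, hp.2.2, hp.1.1, ?_⟩
    have h1 : (0 : ℝ) ≤ lam * X := by positivity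
    exact (Nat.le_floor_iff h1).1 hp.1.2
  -- the sequence
  obtain ⟨N0, hN0⟩ : ∃ N0 : ℕ, X0 ≤ N0 ∧ 1 ≤ N0 ∧ 1 ≤ (lam - 1) / 2 * N0 := by
    obtain ⟨a, ha⟩ := exists_nat_gt (1 / ((lam - 1) / 2))
    have hpos : 0 < (lam - 1) / 2 := by linarith
    refine ⟨max X0 (max 1 a), le_max_left _ _, (le_max_left _ _).trans (le_max_right _ _), ?_⟩
    have h1 : (a : ℝ) ≤ ((max X0 (max 1 a) : ℕ) : ℝ) := by
      exact_mod_cast (le_max_right _ _).trans (le_max_right X0 (max 1 a))
    have h2 : 1 / ((lam - 1) / 2) < ((max X0 (max 1 a) : ℕ) : ℝ) := ha.trans_le h1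
    rw [div_lt_iff₀ hpos] at h2
    linarith
  obtain ⟨hN1, hN2, hN3⟩ := hN0
  let μ : ℝ := (1 + lam) / 2
  have hμ : 1 < μ := by
    change 1 < (1 + lam) / 2
    linarith
  obtain ⟨X, hX0, hXs⟩ : ∃ X : ℕ → ℕ, X 0 = N0 ∧ ∀ m, X (m + 1) = ⌊lam * X m⌋₊ :=
    ⟨fun m => Nat.rec (motive := fun _ => ℕ) N0 (fun _ (x : ℕ) => ⌊lam * (x : ℝ)⌋₊) m, rfl,
      fun _ => rfl⟩
  have hX : ∀ m, N0 ≤ X m ∧ μ ^ m ≤ X m ∧ μ * X m ≤ X (m + 1) := by
    have hstep : ∀ m, N0 ≤ X m → μ * X m ≤ X (m + 1) := by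
      intro m h
      have h1 : lam * X m < X (m + 1) + 1 := by
        rw [hXs]
        exact Nat.lt_floor_add_one _
      have h2 : (N0 : ℝ) ≤ X m := by exact_mod_cast h
      have h3 : (lam - 1) / 2 * N0 ≤ (lam - 1) / 2 * X m :=
        mul_le_mul_of_nonneg_left h2 (by linarith)
      have h4 : μ * (X m : ℝ) = lam * X m - (lam - 1) / 2 * X m := by
        change (1 + lam) / 2 * (X m : ℝ) = _
        ring
      linarith
    intro m
    induction m with
    | zero =>
      refine ⟨hX0.ge, ?_, hstep 0 hX0.ge⟩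
      rw [pow_zero, hX0]
      exact_mod_cast hN2
    | succ m ih =>
      obtain ⟨i1, i2, i3⟩ := ih
      have h1 : N0 ≤ X (m + 1) := by
        have h2 : (X m : ℝ) ≤ X (m + 1) := by
          have h3 : (0 : ℝ) ≤ X m := Nat.cast_nonneg _
          nlinarith
        exact i1.trans (by exact_mod_cast h2)
      refine ⟨h1, ?_, hstep (m + 1) h1⟩
      rw [pow_succ']
      exact (mul_le_mul_of_nonneg_left i2 (by linarith)).trans i3
  let r : ℝ := (√μ)⁻¹
  have hμs : 1 < √μ := by
    rw [Real.lt_sqrt (by norm_num)]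
    simpa using hμ
  have hr0 : 0 ≤ r := by positivity
  have hr1 : r < 1 := inv_lt_one_of_one_lt₀ hμs
  -- one interval
  have hint : ∀ m, ∑ i ∈ Ioc (X m) (X (m + 1)), P_f M i ≤ K * (2 * r ^ m) := by
    intro m
    obtain ⟨i1, i2, i3⟩ := hX m
    have hb : ∀ i, X m < i → P_f M i ≤ 2 * r ^ m := by
      intro i hi
      refine (P_f_le M i (by omega)).trans ?_
      have h1 : μ ^ m ≤ (i : ℝ) := i2.trans (by exact_mod_cast hi.le)
      have h2 : √(μ ^ m) ≤ √(i : ℝ) := Real.sqrt_le_sqrt h1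
      have h3 : √(μ ^ m) = (√μ) ^ m := by
        rw [Real.sqrt_eq_iff_mul_self_eq (by positivity) (by positivity), ← mul_pow,
          Real.mul_self_sqrt (by positivity)]
      rw [h3] at h2
      change 2 / √(i : ℝ) ≤ 2 * ((√μ)⁻¹) ^ m
      rw [inv_pow, ← div_eq_mul_inv]
      exact div_le_div_of_nonneg_left (by norm_num) (by positivity) h2
    have h1 : ∑ i ∈ Ioc (X m) (X (m + 1)), P_f M i =
        ∑ i ∈ (Ioc (X m) (X (m + 1))).filter (fun p => p.Prime ∧ p % M = 1 % M), P_f M i := by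
      symm
      apply sum_filter_of_ne
      intro i _ h2
      by_contra h3
      exact h2 (P_f_zero M i h3)
    rw [h1]
    have h2 : #((Ioc (X m) (X (m + 1))).filter fun p => p.Prime ∧ p % M = 1 % M) ≤ K := by
      rw [hXs]
      exact hcount (X m) (hN1.trans i1)
    calc ∑ i ∈ (Ioc (X m) (X (m + 1))).filter (fun p => p.Prime ∧ p % M = 1 % M), P_f M i
        ≤ ∑ i ∈ (Ioc (X m) (X (m + 1))).filter (fun p => p.Prime ∧ p % M = 1 % M), 2 * r ^ m := by
          refine sum_le_sum fun i hi => ?_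
          rw [mem_filter, mem_Ioc] at hi
          exact hb i hi.1.1
      _ = (#((Ioc (X m) (X (m + 1))).filter fun p => p.Prime ∧ p % M = 1 % M) : ℝ) *
          (2 * r ^ m) := by rw [sum_const, nsmul_eq_mul]
      _ ≤ K * (2 * r ^ m) := by
          refine mul_le_mul_of_nonneg_right ?_ (by positivity)
          exact_mod_cast h2
  -- all intervals
  have hgeo : ∀ m, ∑ j ∈ range m, r ^ j ≤ (1 - r)⁻¹ := fun m =>
    (Summable.sum_le_tsum (range m) (fun j _ => by positivity)
      (summable_geometric_of_lt_one hr0 hr1)).trans (tsum_geometric_of_lt_one hr0 hr1).le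
  have hall : ∀ m, ∑ i ∈ range (X m + 1), P_f M i ≤
      ∑ i ∈ range (N0 + 1), P_f M i + K * (2 * ∑ j ∈ range m, r ^ j) := by
    intro m
    induction m with
    | zero =>
      rw [range_zero, sum_empty, mul_zero, mul_zero, add_zero, hX0]
    | succ m ih =>
      have hle : X m ≤ X (m + 1) := by
        have h3 : (0 : ℝ) ≤ X m := Nat.cast_nonneg _
        have h2 : (X m : ℝ) ≤ X (m + 1) := by nlinarith [(hX m).2.2]
        exact_mod_cast h2
      have h1 : ∑ i ∈ range (X (m + 1) + 1), P_f M i =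
          ∑ i ∈ range (X m + 1), P_f M i + ∑ i ∈ Ioc (X m) (X (m + 1)), P_f M i := by
        rw [← sum_range_add_sum_Ico _ (show X m + 1 ≤ X (m + 1) + 1 by omega)]
        congr 1
        refine sum_congr ?_ fun _ _ => rfl
        ext i
        rw [mem_Ico, mem_Ioc]
        omega
      rw [h1, sum_range_succ (fun j => r ^ j) m]
      have h2 := hint m
      have h3 : (K : ℝ) * (2 * (∑ j ∈ range m, r ^ j + r ^ m)) =
          K * (2 * ∑ j ∈ range m, r ^ j) + K * (2 * r ^ m) := by ring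
      rw [h3]
      linarith
  refine ArithmeticFunction.vonMangoldt.not_summable_residueClass_prime_div
    (q := M) (a := (1 : ZMod M)) isUnit_one ?_
  refine summable_of_sum_range_le (f := P_f M)
    (c := ∑ i ∈ range (N0 + 1), P_f M i + K * (2 * (1 - r)⁻¹)) (P_f_nonneg M) fun n => ?_
  obtain ⟨m, hm⟩ := pow_unbounded_of_one_lt (n : ℝ) hμ
  have h1 : n ≤ X m + 1 := by
    have h2 : (n : ℝ) ≤ X m := hm.le.trans (hX m).2.1
    have h3 : n ≤ X m := by exact_mod_cast h2
    omega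
  refine (sum_le_sum_of_subset_of_nonneg (range_mono h1) fun i _ _ => P_f_nonneg M i).trans ?_
  refine (hall m).trans ?_
  have h2 := hgeo m
  have h3 : (K : ℝ) * (2 * ∑ j ∈ range m, r ^ j) ≤ K * (2 * (1 - r)⁻¹) := by
    refine mul_le_mul_of_nonneg_left ?_ (Nat.cast_nonneg K)
    linarith
  linarith

end P

end Pool.Agent.GNC
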