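import Pool.Agent.GNC.St

/-!
# GNC, module V1: the valuations of `b n` from the normal form
-/

set_option autoImplicit false

open Finset Filter

namespace Pool.Agent.GNC

theorem V1_prod {ι : Type} (p : ℕ) [Fact p.Prime] (s : Finset ι) (f : ι → ℚ)
    (h : ∀ i ∈ s, f i ≠ 0) :
    padicValRat p (∏ i ∈ s, f i) = ∑ i ∈ s, padicValRat p (f i) := by
  classical
  induction s using Finset.induction_on with
  | empty => simp
  | insert a s ha ih =>
    rw [prod_insert ha, sum_insert ha, padicValRat.mul (h a (mem_insert_self a s))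
      (prod_ne_zero_iff.2 fun i hi => h i (mem_insert_of_mem hi)),
      ih fun i hi => h i (mem_insert_of_mem hi)]

/-- the rational number whose logarithm is the transcendental part -/
noncomputable def V1_W (d : NFD) (n : ℕ) : ℚ :=
  (∏ t ∈ d.T, ∏ k ∈ range n, ((k : ℚ) + t.1) ^ (d.c t * ((n : ℤ) ^ t.2.1 * (k : ℤ) ^ t.2.2))) *
    ∏ u ∈ d.U, ((n : ℚ) + u.1) ^ (d.e u * (n : ℤ) ^ u.2)

theorem V1_T (d : NFD) : ∀ t ∈ d.T, ∀ k : ℕ, (0 : ℚ) < (k : ℚ) + t.1 := fun t ht k => by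
  have h1 := (d.hT t ht).1
  have h2 : (0 : ℚ) ≤ (k : ℚ) := Nat.cast_nonneg k
  linarith

theorem V1_pos (d : NFD) (n : ℕ) (hn : ∀ u ∈ d.U, (0 : ℚ) < (n : ℚ) + u.1) : 0 < V1_W d n :=
  mul_pos (prod_pos fun t ht => prod_pos fun k _ => zpow_pos (V1_T d t ht k) _)
    (prod_pos fun u hu => zpow_pos (hn u hu) _)

theorem V1_log (d : NFD) (n : ℕ) (hn : ∀ u ∈ d.U, (0 : ℚ) < (n : ℚ) + u.1) :
    Real.log ((V1_W d n : ℚ) : ℝ) = d.tr n := by
  have hT : ∀ t ∈ d.T, ∀ k : ℕ, ((k : ℝ) + (t.1 : ℝ)) ≠ 0 := fun t ht k => by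
    have h1 := V1_T d t ht k
    have h2 : (0 : ℝ) < (((k : ℚ) + t.1 : ℚ) : ℝ) := by exact_mod_cast h1
    push_cast at h2
    exact h2.ne'
  have hU : ∀ u ∈ d.U, ((n : ℝ) + (u.1 : ℝ)) ≠ 0 := fun u hu => by
    have h2 : (0 : ℝ) < (((n : ℚ) + u.1 : ℚ) : ℝ) := by exact_mod_cast hn u hu
    push_cast at h2
    exact h2.ne'
  have hc : ((V1_W d n : ℚ) : ℝ) =
      (∏ t ∈ d.T, ∏ k ∈ range n, ((k : ℝ) + (t.1 : ℝ)) ^
        (d.c t * ((n : ℤ) ^ t.2.1 * (k : ℤ) ^ t.2.2))) *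
      ∏ u ∈ d.U, ((n : ℝ) + (u.1 : ℝ)) ^ (d.e u * (n : ℤ) ^ u.2) := by
    rw [V1_W]
    push_cast
    rfl
  rw [hc, Real.log_mul
    (prod_ne_zero_iff.2 fun t ht => prod_ne_zero_iff.2 fun k _ => zpow_ne_zero _ (hT t ht k))
    (prod_ne_zero_iff.2 fun u hu => zpow_ne_zero _ (hU u hu)),
    Real.log_prod (fun t ht => prod_ne_zero_iff.2 fun k _ => zpow_ne_zero _ (hT t ht k)),
    Real.log_prod (fun u hu => zpow_ne_zero _ (hU u hu)), NFD.tr]
  congr 1
  · refine sum_congr rfl fun t ht => ?_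
    rw [Real.log_prod (fun k _ => zpow_ne_zero _ (hT t ht k)), gS, mul_sum, mul_sum]
    refine sum_congr rfl fun k _ => ?_
    rw [Real.log_zpow]
    push_cast
    ring
  · refine sum_congr rfl fun u hu => ?_
    rw [Real.log_zpow, gL]
    push_cast
    ring

theorem V1_val (d : NFD) (p : ℕ) [Fact p.Prime] (n : ℕ)
    (hn : ∀ u ∈ d.U, (0 : ℚ) < (n : ℚ) + u.1) :
    padicValRat p (V1_W d n) =
      ∑ t ∈ d.T, d.c t * ((n : ℤ) ^ t.2.1 * ∑ k ∈ range n,
        (k : ℤ) ^ t.2.2 * padicValRat p ((k : ℚ) + t.1)) +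
      ∑ u ∈ d.U, d.e u * ((n : ℤ) ^ u.2 * padicValRat p ((n : ℚ) + u.1)) := by
  rw [V1_W, padicValRat.mul
    (prod_ne_zero_iff.2 fun t ht => prod_ne_zero_iff.2 fun k _ =>
      zpow_ne_zero _ (V1_T d t ht k).ne')
    (prod_ne_zero_iff.2 fun u hu => zpow_ne_zero _ (hn u hu).ne'),
    V1_prod _ _ _ (fun t ht => prod_ne_zero_iff.2 fun k _ =>
      zpow_ne_zero _ (V1_T d t ht k).ne'),
    V1_prod _ _ _ (fun u hu => zpow_ne_zero _ (hn u hu).ne')]
  congr 1
  · refine sum_congr rfl fun t ht => ?_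
    rw [V1_prod _ _ _ (fun k _ => zpow_ne_zero _ (V1_T d t ht k).ne'), mul_sum, mul_sum]
    refine sum_congr rfl fun k _ => ?_
    rw [padicValRat.zpow]
    ring
  · refine sum_congr rfl fun u hu => ?_
    rw [padicValRat.zpow]
    ring

theorem V1_lin (p : ℕ) [Fact p.Prime] {m : ℕ} (a : ℕ → ℤ) (q : ℕ → ℝ) (r : ℕ → ℚ)
    (hr : ∀ i ∈ range m, 0 < r i) (hq : ∀ i ∈ range m, Real.exp (q i) = r i)
    (h0 : ∑ i ∈ range m, (a i : ℝ) * q i = 0) :
    ∑ i ∈ range m, a i * padicValRat p (r i) = 0 := by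
  have h1 : ∏ i ∈ range m, (r i) ^ (a i) = 1 := by
    have h2 : ((∏ i ∈ range m, (r i) ^ (a i) : ℚ) : ℝ) = 1 := by
      push_cast
      rw [← Real.exp_zero, ← h0, Real.exp_sum]
      refine prod_congr rfl fun i hi => ?_
      rw [← hq i hi, mul_comm, Real.exp_mul, Real.rpow_intCast]
    exact_mod_cast h2
  have h2 := congrArg (padicValRat p) h1
  rw [V1_prod _ _ _ (fun i hi => zpow_ne_zero _ (hr i hi).ne'), padicValRat.one] at h2
  rw [← h2]
  exact sum_congr rfl fun i hi => (padicValRat.zpow _).symm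

theorem V1_seq (v : ℕ → ℤ) (a : ℕ → ℤ) (m : ℕ) (h0 : ∀ i ≤ m, v i = 0)
    (h1 : ∀ y, ∑ i ∈ range (m + 2), a i * v (y + i) = 0) (ha : a (m + 1) = 1) :
    ∀ n, v n = 0 := by
  intro n
  induction n using Nat.strong_induction_on with
  | _ n ih =>
    by_cases hn : n ≤ m
    · exact h0 n hn
    · obtain ⟨y, rfl⟩ := Nat.exists_eq_add_of_le (show m + 1 ≤ n by omega)
      have h2 := h1 y
      rw [sum_range_succ, ha, one_mul, sum_eq_zero, zero_add] at h2
      · rw [add_comm]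
        exact h2
      · intro i hi
        rw [ih (y + i) (by have := mem_range.1 hi; omega), mul_zero]

theorem V1_big (r : ℚ) (hr : 0 < r) (p : ℕ) (h1 : r.num.natAbs < p) (h2 : r.den < p) :
    padicValRat p r = 0 := by
  rw [padicValRat_def, padicValInt.eq_zero_of_not_dvd, padicValNat.eq_zero_of_not_dvd]
  · simp
  · intro h
    exact absurd (Nat.le_of_dvd r.den_pos h) (by omega)
  · intro h
    have h3 : r.num ≠ 0 := (Rat.num_pos.2 hr).ne'
    have h4 : p ∣ r.num.natAbs := Int.natCast_dvd.1 h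
    exact absurd (Nat.le_of_dvd (Int.natAbs_pos.2 h3) h4) (by omega)

theorem thm_V1 : St_V1 := by
  intro b d Q hb hQ
  -- all `n + β` are positive for large `n`
  have hU : ∀ᶠ n : ℕ in atTop, ∀ u ∈ d.U, (0 : ℚ) < (n : ℚ) + u.1 := by
    rw [Filter.eventually_all_finset]
    intro u _
    filter_upwards [eventually_gt_atTop (⌈|u.1|⌉₊)] with n hn
    have h1 : |u.1| ≤ (⌈|u.1|⌉₊ : ℚ) := Nat.le_ceil _
    have h2 : ((⌈|u.1|⌉₊ : ℕ) : ℚ) < (n : ℚ) := by exact_mod_cast hn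
    have h3 := neg_abs_le u.1
    linarith
  obtain ⟨N, hN⟩ := eventually_atTop.1 (hb.and (hQ.and hU))
  let R : ℕ → ℚ := fun n => ((b n : ℤ) : ℚ) ^ d.D / V1_W d n
  have hRpos : ∀ n, N ≤ n → 0 < R n := fun n hn => by
    obtain ⟨h1, -, h3⟩ := hN n hn
    have h4 : (0 : ℚ) < ((b n : ℤ) : ℚ) := by exact_mod_cast h1
    exact div_pos (pow_pos h4 _) (V1_pos d n h3)
  have hRexp : ∀ n, N ≤ n → Real.exp (Q.eval (n : ℝ)) = ((R n : ℚ) : ℝ) := fun n hn => by
    obtain ⟨h1, h2, h3⟩ := hN n hn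
    have h4 : (0 : ℝ) < ((b n : ℤ) : ℝ) := by exact_mod_cast h1
    have h5 : (0 : ℝ) < ((V1_W d n : ℚ) : ℝ) := by exact_mod_cast V1_pos d n h3
    have h6 : Q.eval (n : ℝ) = (d.D : ℝ) * Real.log (b n) - d.tr n := by rw [h2]; ring
    rw [h6, Real.exp_sub, ← V1_log d n h3, Real.exp_log h5, Real.exp_nat_mul, Real.exp_log h4]
    change _ = ((((b n : ℤ) : ℚ) ^ d.D / V1_W d n : ℚ) : ℝ)
    push_cast
    rfl
  refine ⟨eventually_atTop.2 ⟨N, fun n hn => ⟨R n, hRexp n hn⟩⟩, N, ?_⟩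
  refine ⟨∑ i ∈ range (Q.natDegree + 1), ((R (N + i)).num.natAbs + (R (N + i)).den), ?_⟩
  intro p hp hpN n hn
  have : Fact p.Prime := ⟨hp⟩
  obtain ⟨h1, -, h3⟩ := hN n hn
  have h4 : ((b n : ℤ) : ℚ) ≠ 0 := by
    have : b n ≠ 0 := h1.ne'
    exact_mod_cast this
  -- the valuation of `R n`
  have hv : ∀ n, padicValRat p (R (N + n)) = 0 := by
    refine V1_seq (fun n => padicValRat p (R (N + n)))
      (fun k => (-1 : ℤ) ^ (Q.natDegree + 1 - k) * (Q.natDegree + 1).choose k) Q.natDegree ?_ ?_ ?_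
    · intro i hi
      have h5 : (R (N + i)).num.natAbs + (R (N + i)).den ≤
          ∑ i ∈ range (Q.natDegree + 1), ((R (N + i)).num.natAbs + (R (N + i)).den) :=
        single_le_sum (f := fun i => (R (N + i)).num.natAbs + (R (N + i)).den)
          (fun _ _ => Nat.zero_le _) (mem_range.2 (by omega))
      exact V1_big _ (hRpos _ (by omega)) p (by have := (R (N + i)).den_pos; omega)
        (by have := Int.natAbs_pos.2 (Rat.num_pos.2 (hRpos (N + i) (by omega))).ne'; omega)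
    · intro y
      refine V1_lin p (m := Q.natDegree + 2)
        (fun k => (-1 : ℤ) ^ (Q.natDegree + 1 - k) * (Q.natDegree + 1).choose k)
        (fun k => Q.eval (((N + (y + k) : ℕ) : ℝ))) (fun k => R (N + (y + k)))
        (fun i _ => hRpos _ (by omega)) (fun i _ => hRexp _ (by omega)) ?_
      have h5 := congrFun Q.fwdDiff_iter_degree_add_one_eq_zero (((N + y : ℕ) : ℝ))
      rw [fwdDiff_iter_eq_sum_shift] at h5
      rw [Pi.zero_apply] at h5
      rw [← h5]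
      refine sum_congr rfl fun k _ => ?_
      rw [zsmul_eq_mul]
      congr 2
      push_cast
      rw [nsmul_eq_mul, mul_one]
      ring
    · simp
  have h6 : padicValRat p (R n) = 0 := by
    obtain ⟨i, rfl⟩ := Nat.exists_eq_add_of_le hn
    exact hv i
  have h7 : padicValRat p (R n) =
      (d.D : ℤ) * (padicValInt p (b n) : ℤ) - padicValRat p (V1_W d n) := by
    change padicValRat p (((b n : ℤ) : ℚ) ^ d.D / V1_W d n) = _
    rw [padicValRat.div (pow_ne_zero _ h4) (V1_pos d n h3).ne', padicValRat.pow,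
      padicValRat.of_int]
  rw [← V1_val d p n h3]
  linarith [h6, h7]

end Pool.Agent.GNC
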