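import Pool.Agent.GNC.St

/-!
# GNC, module V2: the `p`-adic valuations of `k + α`
-/

set_option autoImplicit false

open Finset Filter

namespace Pool.Agent.GNC

theorem V2_val (p : ℕ) (hpp : p.Prime) (u v m : ℕ) (hp : p = v * m + 1) (hu : 1 ≤ u) (huv : u ≤ v)
    (h3 : 3 * v < p) (k : ℕ) (hk : k < 3 * p) :
    padicValRat p ((k : ℚ) + (u : ℚ) / v) =
      ∑ i ∈ range 3, if k = u * m + i * p then 1 else 0 := by
  have : Fact p.Prime := ⟨hpp⟩
  have hv : 0 < v := by omega
  have hpos : 0 < p := hpp.pos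
  have h1 : (k : ℚ) + (u : ℚ) / v = ((v * k + u : ℕ) : ℚ) / ((v : ℕ) : ℚ) := by
    have hv' : (v : ℚ) ≠ 0 := by exact_mod_cast hv.ne'
    push_cast
    field_simp
  have h2 : padicValNat p v = 0 := by
    apply padicValNat.eq_zero_of_not_dvd
    intro h
    have := Nat.le_of_dvd hv h
    omega
  have hne : ((v * k + u : ℕ) : ℚ) ≠ 0 := by
    have : v * k + u ≠ 0 := by omega
    exact_mod_cast this
  rw [h1, padicValRat.div hne (by exact_mod_cast hv.ne'), padicValRat.of_nat, padicValRat.of_nat,
    h2, Nat.cast_zero, sub_zero]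
  have hA : u * m < p := by
    have : u * m ≤ v * m := Nat.mul_le_mul_right m huv
    omega
  by_cases h : ∃ i, i < 3 ∧ k = u * m + i * p
  · obtain ⟨i, hi, hki⟩ := h
    have h4 : v * k + u = p * (u + v * i) := by
      rw [hki, hp]
      ring
    have h5 : padicValNat p (u + v * i) = 0 := by
      apply padicValNat.eq_zero_of_not_dvd
      intro h
      have h6 := Nat.le_of_dvd (by omega) h
      have h7 : v * i ≤ v * 2 := Nat.mul_le_mul_left v (by omega)
      omega
    rw [h4, padicValNat.mul hpos.ne' (by omega), padicValNat_self, h5,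
      Finset.sum_eq_single i]
    · rw [if_pos hki]
      norm_num
    · intro i' _ hne'
      rw [if_neg]
      intro h8
      apply hne'
      have h9 : i' * p = i * p := by omega
      exact Nat.eq_of_mul_eq_mul_right hpos h9
    · intro h
      exact absurd (mem_range.2 hi) h
  · have h4 : padicValNat p (v * k + u) = 0 := by
      apply padicValNat.eq_zero_of_not_dvd
      intro hd
      apply h
      have h5 : (p : ℤ) ∣ (v : ℤ) * ((k : ℤ) - (u * m : ℕ)) := by
        have h6 : (p : ℤ) ∣ ((v * k + u : ℕ) : ℤ) := by exact_mod_cast hd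
        have h7 : (v : ℤ) * ((k : ℤ) - (u * m : ℕ)) = ((v * k + u : ℕ) : ℤ) - (p : ℤ) * u := by
          rw [hp]
          push_cast
          ring
        rw [h7]
        exact dvd_sub h6 (dvd_mul_right _ _)
      have h6 : (p : ℤ) ∣ (k : ℤ) - (u * m : ℕ) := by
        rcases (Nat.prime_iff_prime_int.1 hpp).dvd_or_dvd h5 with h7 | h7
        · exfalso
          have h8 : p ∣ v := by exact_mod_cast h7
          have := Nat.le_of_dvd hv h8
          omega
        · exact h7
      obtain ⟨c, hc⟩ := h6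
      have hc0 : 0 ≤ c := by
        by_contra hneg
        push Not at hneg
        have h7 : c ≤ -1 := by omega
        have h8 : (p : ℤ) * c ≤ (p : ℤ) * (-1) :=
          mul_le_mul_of_nonneg_left h7 (by exact_mod_cast hpos.le)
        have h9 : ((u * m : ℕ) : ℤ) < (p : ℤ) := by exact_mod_cast hA
        omega
      have hc3 : c < 3 := by
        by_contra hneg
        push Not at hneg
        have h8 : (p : ℤ) * 3 ≤ (p : ℤ) * c :=
          mul_le_mul_of_nonneg_left hneg (by exact_mod_cast hpos.le)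
        have h9 : (k : ℤ) < 3 * (p : ℤ) := by exact_mod_cast hk
        have h10 : (0 : ℤ) ≤ ((u * m : ℕ) : ℤ) := by positivity
        omega
      refine ⟨c.toNat, by omega, ?_⟩
      have h7 : ((k : ℕ) : ℤ) = ((u * m + c.toNat * p : ℕ) : ℤ) := by
        push_cast
        rw [Int.toNat_of_nonneg hc0]
        push_cast at hc
        linarith
      exact_mod_cast h7
    rw [h4]
    symm
    rw [Nat.cast_zero]
    apply Finset.sum_eq_zero
    intro i hi
    rw [if_neg]
    intro h5
    exact h ⟨i, mem_range.1 hi, h5⟩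

/-- V2. -/
theorem thm_V2 : St_V2 := by
  intro α h0 h1
  refine ⟨3 * α.den, fun p hpp hp hmod j n hn => ?_⟩
  obtain ⟨u, hu⟩ : ∃ u : ℕ, α.num = u := Int.eq_ofNat_of_zero_le (Rat.num_pos.2 h0).le
  have hden : 0 < α.den := α.den_pos
  have hαu : α = (u : ℚ) / α.den := by
    conv_lhs => rw [← Rat.num_div_den α, hu]
    norm_num
  have hu1 : 1 ≤ u := by
    have := Rat.num_pos.2 h0
    rw [hu] at this
    exact_mod_cast this
  have huv : u ≤ α.den := by
    have h2 : (u : ℚ) ≤ α.den := by
      have h3 : (u : ℚ) / α.den ≤ 1 := hαu ▸ h1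
      rwa [div_le_one (by exact_mod_cast hden)] at h3
    exact_mod_cast h2
  obtain ⟨m, hm⟩ : ∃ m, p = α.den * m + 1 := by
    have h2 : α.den ∣ p - 1 := by
      have h3 : 1 ≡ p [MOD α.den] := hmod.symm
      exact (Nat.modEq_iff_dvd' hpp.one_lt.le).1 h3
    obtain ⟨m, hm⟩ := h2
    exact ⟨m, by have := hpp.one_lt; omega⟩
  have hA : (α : ℝ) * ((p : ℝ) - 1) = ((u * m : ℕ) : ℝ) := by
    have h2 : (α : ℝ) = (u : ℝ) / α.den := by
      have h3 : ((α : ℚ) : ℝ) = (((u : ℚ) / α.den : ℚ) : ℝ) := congrArg _ hαu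
      rw [h3]
      push_cast
      rfl
    have h4 : (α.den : ℝ) ≠ 0 := by exact_mod_cast hden.ne'
    have h5 : (p : ℝ) = α.den * m + 1 := by exact_mod_cast hm
    rw [h2, h5]
    push_cast
    field_simp
    ring
  have key : ∀ k ∈ range n, (k : ℝ) ^ j * (padicValRat p ((k : ℚ) + α) : ℝ) =
      ∑ i ∈ range 3, if k = u * m + i * p then (k : ℝ) ^ j else 0 := by
    intro k hk
    have hk' := mem_range.1 hk
    have h2 := V2_val p hpp u α.den m hm hu1 huv hp k (by omega)
    rw [← hαu] at h2
    rw [h2]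
    push_cast
    rw [mul_sum]
    refine sum_congr rfl fun i _ => ?_
    split_ifs <;> simp
  rw [sum_congr rfl key, sum_comm]
  refine sum_congr rfl fun i _ => ?_
  have h6 : (α : ℝ) * ((p : ℝ) - 1) + i * p = ((u * m + i * p : ℕ) : ℝ) := by
    rw [hA]
    push_cast
    ring
  rw [h6, Finset.sum_ite_eq' (range n) (u * m + i * p) (fun k => (k : ℝ) ^ j)]
  by_cases h7 : u * m + i * p < n
  · rw [if_pos (mem_range.2 h7), if_pos (by exact_mod_cast h7)]
  · rw [if_neg (fun h => h7 (mem_range.1 h)), if_neg (fun h => h7 (by exact_mod_cast h))]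

end Pool.Agent.GNC
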