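import Pool.Agent.GNC.St

/-!
# GNC [V3]: the valuations of `b n` are described by the normal form
-/

set_option autoImplicit false

open Finset Filter

namespace Pool.Agent.GNC

theorem thm_V3 (h1 : St_V1) (h2 : St_V2) : St_V3 := by
  intro b d Q hb hQ
  obtain ⟨-, N, p0, hN⟩ := h1 b d Q hb hQ
  have hex : ∀ t : ℚ × ℕ × ℕ, ∃ q0 : ℕ, t ∈ d.T → ∀ p : ℕ, p.Prime → q0 < p →
      p % t.1.den = 1 % t.1.den → ∀ (j n : ℕ), n ≤ 3 * p →
        ∑ k ∈ range n, (k : ℝ) ^ j * (padicValRat p ((k : ℚ) + t.1) : ℝ) =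
          ∑ i ∈ range 3, (if (t.1 : ℝ) * (p - 1) + i * p < n then
            ((t.1 : ℝ) * (p - 1) + i * p) ^ j else 0) := by
    intro t
    by_cases ht : t ∈ d.T
    · obtain ⟨q0, hq0⟩ := h2 t.1 (d.hT t ht).1 (d.hT t ht).2
      exact ⟨q0, fun _ => hq0⟩
    · exact ⟨0, fun h => absurd h ht⟩
  choose q hq using hex
  refine ⟨∏ t ∈ d.T, t.1.den, N, max p0 (d.T.sup q), ?_, ?_⟩
  · exact Nat.one_le_iff_ne_zero.mpr (Finset.prod_ne_zero_iff.mpr fun t _ => t.1.den_nz)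
  · intro p hp hlt hmod n hNn hn
    have hp0 : p0 < p := lt_of_le_of_lt (le_max_left _ _) hlt
    have hqp : ∀ t ∈ d.T, q t < p := fun t ht =>
      lt_of_le_of_lt (le_trans (Finset.le_sup (f := q) ht) (le_max_right _ _)) hlt
    have hden : ∀ t ∈ d.T, p % t.1.den = 1 % t.1.den := fun t ht =>
      Nat.ModEq.of_dvd (Finset.dvd_prod_of_mem (fun t : ℚ × ℕ × ℕ => t.1.den) ht) hmod
    have key := congrArg (Int.cast : ℤ → ℝ) (hN p hp hp0 n hNn)
    push_cast at key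
    rw [NFD.vp, key]
    congr 1
    refine Finset.sum_congr rfl fun t ht => ?_
    rw [hq t ht p hp (hqp t ht) (hden t ht) t.2.2 n hn]

end Pool.Agent.GNC
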