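import Pool.Agent.GNC.N3
import Pool.Agent.GNC.V1
import Pool.Agent.GNC.V2
import Pool.Agent.GNC.V3
import Pool.Agent.GNC.P
import Pool.Agent.GNC.A1
import Pool.Agent.GNC.A
import Pool.Agent.GNC.Ap
import Pool.Agent.GNC.B
import Pool.Agent.GNC.E
import Pool.Agent.GNC.F
import Pool.Agent.GNC.Main

/-!
# GNC: the theorem without hypotheses
-/

set_option autoImplicit false

namespace Pool.Agent.GNC

theorem all_F : St_F := thm_F thm_E

theorem all_A : St_A := thm_A thm_A1 thm_P

theorem all_V3 : St_V3 := thm_V3 thm_V1 thm_V2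

/-- `F_1(n, 3)` is not in the class of closed forms. -/
theorem all_Main : St_Main := thm_Main thm_Nc thm_Nf thm_V1 all_V3 all_A thm_A' thm_B all_F

end Pool.Agent.GNC
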