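import Pool.Agent.GNC.St

/-!
# GNC, module DX: the expansion of `D`
-/

set_option autoImplicit false

open Finset

namespace Pool.Agent.GNC

/-- the expansion of `det (M + 1)` into principal minors -/
private theorem DX_minors {Ω S : Type} [Fintype Ω] [DecidableEq Ω] [CommRing S]
    (M : Matrix Ω Ω S) : (M + 1).det =
      ∑ A : Finset Ω, (M.submatrix (fun e : A => (e : Ω)) (fun e : A => (e : Ω))).det := by
  have h1 : (M + 1).det = ∑ A : Finset Ω,
      Matrix.det (Matrix.of (A.piecewise M.row (1 : Matrix Ω Ω S).row)) :=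
    (Matrix.detRowAlternating : (Ω → S) [⋀^Ω]→ₗ[S] S).toMultilinearMap.map_add_univ M.row
      (1 : Matrix Ω Ω S).row
  rw [h1]
  exact sum_congr rfl fun A _ => Matrix.det_piecewise_one_eq_submatrix_det M A

theorem thm_DX : St_DX := by
  intro V Ω S _ _ _ _ _ l t
  have h1 : DD l t univ = (1 + (Matrix.of fun (v : V) (e : Ω) => 2 * ((l e v : ℤ) : S)) *
      (Matrix.of fun (e : Ω) (w : V) => t e * ((l e w : ℤ) : S))).det := by
    unfold DD
    congr 2
    ext v w
    rw [Matrix.of_apply, Matrix.mul_apply]
    refine sum_congr rfl fun e _ => ?_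
    rw [Matrix.of_apply, Matrix.of_apply]
    ring
  rw [h1, Matrix.det_one_add_mul_comm, add_comm, DX_minors]
  refine sum_congr rfl fun A _ => ?_
  have h2 : (((Matrix.of fun (e : Ω) (w : V) => t e * ((l e w : ℤ) : S)) *
      (Matrix.of fun (v : V) (e : Ω) => 2 * ((l e v : ℤ) : S))).submatrix (fun e : A => (e : Ω))
      (fun e : A => (e : Ω))) = Matrix.of fun (e f : A) => t e *
        ((Matrix.of fun i k : A => 2 * ∑ v, l i v * l k v).map (Int.castRingHom S)) e f := by
    ext e f
    rw [Matrix.submatrix_apply, Matrix.mul_apply, Matrix.of_apply, Matrix.map_apply,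
      Matrix.of_apply]
    simp only [Matrix.of_apply, Int.coe_castRingHom]
    push_cast
    rw [mul_sum, mul_sum]
    refine sum_congr rfl fun v _ => ?_
    ring
  have h3 : ((Matrix.of fun i k : A => 2 * ∑ v, l i v * l k v).map (Int.castRingHom S)).det =
      ((gw l A : ℤ) : S) := (RingHom.map_det (Int.castRingHom S) _).symm
  rw [h2, Matrix.det_mul_column, h3, mul_comm]
  congr 1
  exact prod_coe_sort A t

end Pool.Agent.GNC
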