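import Mathlib
import Pool.Agent.F1.Stmts

/-!
# GNC: `F_1(n, 3)` has no closed form of product type with rational parameters (MP_9736d0_an)

Definitions. Paper: /team-store/GNC_MP9736d0_helper96.md
-/

set_option autoImplicit false

open Finset

namespace Pool.Agent.GNC

/-! ## Part 2 (congruence) -/

/-- The moments of the standard normal distribution: `(m - 1)!!` for even `m`, and `0` for odd `m`. -/
def mu : ℕ → ℕ
  | 0 => 1
  | 1 => 0
  | m + 2 => (m + 1) * mu m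

/-- The Gaussian functional on polynomials: the monomial with the exponents `a v` has the value
`∏ v, mu (a v)`. -/
noncomputable def gau (V S : Type) [Fintype V] [CommRing S] : MvPolynomial V S →ₗ[S] S :=
  (MvPolynomial.basisMonomials V S).constr S fun a => ((∏ v, mu (a v) : ℕ) : S)

/-- The linear form with the integer coefficients `b v`. -/
noncomputable def lf {V : Type} [Fintype V] (S : Type) [CommRing S] (b : V → ℤ) :
    MvPolynomial V S :=
  ∑ v, MvPolynomial.C ((b v : ℤ) : S) * MvPolynomial.X v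

/-- The Gaussian moment of the product of the squares of the linear forms `l e`, `e ∈ A`. -/
noncomputable def mom {V Ω : Type} [Fintype V] (l : Ω → V → ℤ) (A : Finset Ω) : ℤ :=
  gau V ℤ (∏ e ∈ A, lf ℤ (l e) ^ 2)

/-- `phi (∏ (1 - t_e l_e ^ 2))` -/
noncomputable def MM {V Ω S : Type} [Fintype V] [CommRing S] (l : Ω → V → ℤ) (t : Ω → S)
    (A : Finset Ω) : S :=
  gau V S (∏ e ∈ A, (1 - MvPolynomial.C (t e) * lf S (l e) ^ 2))

/-- `det (1 + 2 ∑ t_e l_e l_e^T)` -/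
noncomputable def DD {V Ω S : Type} [Fintype V] [DecidableEq V] [CommRing S] (l : Ω → V → ℤ)
    (t : Ω → S) (A : Finset Ω) : S :=
  (1 + Matrix.of fun v w : V => ∑ e ∈ A, 2 * t e * ((l e v : ℤ) : S) * ((l e w : ℤ) : S)).det

/-- The determinant of the doubled Gram matrix of a family of integer vectors. -/
def gd {V ι : Type} [Fintype V] [Fintype ι] [DecidableEq ι] (b : ι → V → ℤ) : ℤ :=
  (Matrix.of fun i k : ι => 2 * ∑ v, b i v * b k v).det

/-- The determinant of the doubled Gram matrix of the vectors `l e`, `e ∈ A`. -/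
def gw {V Ω : Type} [Fintype V] [DecidableEq Ω] (l : Ω → V → ℤ) (A : Finset Ω) : ℤ :=
  gd fun e : A => l e

/-- The sum of `∏ k, g (c ⁻¹ k)` over all colourings `c` of `Ω` with the colours `K`. -/
def cs {Ω : Type} (K : Type) [Fintype Ω] [DecidableEq Ω] [Fintype K] [DecidableEq K]
    (g : Finset Ω → ℤ) : ℤ :=
  ∑ c : Ω → K, ∏ k, g (univ.filter fun e => c e = k)

/-- The vectors of the edges of the complete graph on `Fin n`. -/
def lfin (n : ℕ) : {x : Fin n × Fin n // x.1 < x.2} → Fin n → ℤ :=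
  fun x => Pi.single x.1.1 1 - Pi.single x.1.2 1

/-- The integers `b n = E ∏ |r_i - r_j| ^ 2` (standard normal vectors in dimension three). -/
noncomputable def bb (n : ℕ) : ℤ := cs (Fin 3) (mom (lfin n))

/-- The vectors of the edges of the complete graph on `ZMod p ⊕ J`, where `p = 2 q + 3` and the
edges in `J` are given by `lo`: `inl (inl d, a)` is the edge from `a` to `a + d + 1`,
`inl (inr v, a)` the edge from `a` to `v`. -/
def gl (p q : ℕ) {J O : Type} [DecidableEq J] (lo : O → J → ℤ) :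
    ((Fin (q + 1) ⊕ J) × ZMod p) ⊕ O → (ZMod p ⊕ J) → ℤ
  | .inl (.inl d, a) => Pi.single (.inl a) 1 - Pi.single (.inl (a + ((d.val + 1 : ℕ) : ZMod p))) 1
  | .inl (.inr v, a) => Pi.single (.inl a) 1 - Pi.single (.inr v) 1
  | .inr o => Sum.elim 0 (lo o)

/-- The set `F` which belongs to `y`. -/
def FF {p s : ℕ} {P O : Type} [NeZero p] [Fintype P] [DecidableEq P] [Fintype O] [DecidableEq O]
    (y : P → Fin s ⊕ ZMod p) : Finset ((P × ZMod p) ⊕ O) :=
  univ.filter fun e => ∃ x : P × ZMod p, e = .inl x ∧ y x.1 = .inr x.2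

/-- The sets `I_k` which belong to `y`, `z`. -/
def II {p s : ℕ} {P O : Type} [NeZero p] [Fintype P] [DecidableEq P] [Fintype O] [DecidableEq O]
    (y : P → Fin s ⊕ ZMod p) (z : O → Fin s) (k : Fin s) : Finset ((P × ZMod p) ⊕ O) :=
  univ.filter fun e => (∃ x : P × ZMod p, e = .inl x ∧ y x.1 = .inl k) ∨ ∃ o, e = .inr o ∧ z o = k

/-- The sum `Phi` over the fixed colourings with `y o1 = 0`. -/
def Phi {p : ℕ} (s : ℕ) {P O : Type} [NeZero p] [Fintype P] [DecidableEq P] [Fintype O]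
    [DecidableEq O] (w : Finset ((P × ZMod p) ⊕ O) → ℤ) (o1 : P) : ℤ :=
  ∑ y ∈ (univ : Finset (P → Fin s ⊕ ZMod p)).filter (fun y => y o1 = .inr 0), ∑ z : O → Fin s,
    w (FF y) ^ p * ∏ k, w (II y z k)

/-- The inner edges `a d → a d + d + 1`, as vectors on `N ⊕ ZMod p`. -/
def inn {p q : ℕ} (N : Type) [DecidableEq N] (a : Fin (q + 1) → ZMod p) :
    Fin (q + 1) → (N ⊕ ZMod p) → ℤ :=
  fun d => Pi.single (.inr (a d)) 1 - Pi.single (.inr (a d + ((d.val + 1 : ℕ) : ZMod p))) 1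

/-- The sum of `gd` over the choices of one inner edge of each kind, with `a 0 = 0`. -/
def Phi0 (p q : ℕ) [NeZero p] : ℤ :=
  ∑ a ∈ (univ : Finset (Fin (q + 1) → ZMod p)).filter (fun a => a 0 = 0), gd (inn (Fin 0) a)

/-- The family: `b`, and for each `v` the vector `x_(y v) - x_v` if `y v` is on the right, and
`x_(y v)` if `y v` is on the left. -/
def leafFam {ι J : Type} [DecidableEq J] {s p : ℕ} (b : ι → (Fin s ⊕ ZMod p) → ℤ)
    (y : J → Fin s ⊕ ZMod p) : ι ⊕ J → ((Fin s ⊕ ZMod p) ⊕ J) → ℤ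
  | .inl i => Sum.elim (b i) 0
  | .inr v => Pi.single (.inl (y v)) 1 - (if (y v).isRight then Pi.single (.inr v) 1 else 0)

/-! ## Part 1 (normal form) -/

/-- The sequences `n ^ i * ∑_(k < n) k ^ j log |k + α|`. -/
noncomputable def gS (α : ℚ) (i j : ℕ) (n : ℕ) : ℝ :=
  (n : ℝ) ^ i * ∑ k ∈ range n, (k : ℝ) ^ j * Real.log ((k : ℝ) + α)

/-- The sequences `n ^ i * log |n + β|`. -/
noncomputable def gL (β : ℚ) (i : ℕ) (n : ℕ) : ℝ := (n : ℝ) ^ i * Real.log ((n : ℝ) + β)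

/-- The rational span of the real polynomials, the `gS α i j` with `0 < α ≤ 1`, the `gL β i` and the
sequences which vanish for large `n`. -/
noncomputable def NN : Submodule ℚ (ℕ → ℝ) :=
  Submodule.span ℚ
    ({g | ∀ᶠ n in Filter.atTop, g n = 0} ∪ {g | ∃ Q : Polynomial ℝ, g = fun n : ℕ => Q.eval (n : ℝ)} ∪
      {g | ∃ (α : ℚ) (i j : ℕ), 0 < α ∧ α ≤ 1 ∧ g = gS α i j} ∪
      {g | ∃ (β : ℚ) (i : ℕ), g = gL β i})

/-- The data of a normal form: `D ≥ 1` and finitely many integer coefficients `c t`, `e u`. -/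
structure NFD where
  /-- the denominator -/
  D : ℕ
  hD : 1 ≤ D
  /-- the indices `(α, i, j)` -/
  T : Finset (ℚ × ℕ × ℕ)
  /-- the coefficients -/
  c : ℚ × ℕ × ℕ → ℤ
  hc : ∀ t ∈ T, c t ≠ 0
  hT : ∀ t ∈ T, 0 < t.1 ∧ t.1 ≤ 1
  /-- the indices `(β, i)` -/
  U : Finset (ℚ × ℕ)
  /-- the coefficients -/
  e : ℚ × ℕ → ℤ
  he : ∀ u ∈ U, e u ≠ 0

/-- The transcendental part of the normal form. -/
noncomputable def NFD.tr (d : NFD) (n : ℕ) : ℝ :=
  ∑ t ∈ d.T, (d.c t : ℝ) * gS t.1 t.2.1 t.2.2 n + ∑ u ∈ d.U, (d.e u : ℝ) * gL u.1 u.2 n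

/-- The `p`-adic valuation of `exp` of the transcendental part, for `p = 1` modulo the denominators,
`p` large and `n ≤ 3 p`. -/
noncomputable def NFD.vp (d : NFD) (p n : ℕ) : ℝ :=
  ∑ t ∈ d.T, (d.c t : ℝ) * ((n : ℝ) ^ t.2.1 * ∑ i ∈ range 3,
      (if (t.1 : ℝ) * (p - 1) + i * p < n then ((t.1 : ℝ) * (p - 1) + i * p) ^ t.2.2 else 0)) +
    ∑ u ∈ d.U, (d.e u : ℝ) * ((n : ℝ) ^ u.2 * (padicValRat p ((n : ℚ) + u.1) : ℝ))

/-- The normal form describes the valuations of the integers `b n`. -/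
def VF (b : ℕ → ℤ) (d : NFD) : Prop :=
  ∃ M N p0 : ℕ, 1 ≤ M ∧ ∀ p : ℕ, p.Prime → p0 < p → p % M = 1 % M → ∀ n : ℕ, N ≤ n → n ≤ 3 * p →
    ((d.D : ℝ) * (padicValInt p (b n) : ℝ)) = d.vp p n

/-- The class of closed forms. -/
inductive CF : (ℕ → ℝ) → Prop
  | const (c : ℝ) (hc : 0 < c) : CF fun _ => c
  | shift (α : ℚ) : CF fun n => (n : ℝ) + α
  | mul {f g : ℕ → ℝ} (hf : CF f) (hg : CF g) : CF fun n => f n * g n
  | pow {f : ℕ → ℝ} (p : Polynomial ℚ) (hf : CF f) : CF fun n => f n ^ ((p.eval (n : ℚ) : ℚ) : ℝ)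
  | prod {f : ℕ → ℝ} (h : ∀ k, 0 < f k) (hf : CF f) : CF fun n => ∏ k ∈ range n, f k
  | subst {f : ℕ → ℝ} (a b : ℕ) (h : 0 < a) (hf : CF f) : CF fun n => f (a * n + b)
  | congr {f g : ℕ → ℝ} (hf : CF f) (h : ∀ᶠ n in Filter.atTop, g n = f n) : CF g

end Pool.Agent.GNC
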