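import Pool.Agent.GNC.St

/-!
# GNC, module GA2: two commuting permutations of order `p`
-/

set_option autoImplicit false

open Finset

namespace Pool.Agent.GNC

section

variable {X : Type} {p : ℕ}

private theorem GA2_iter (U W : Equiv.Perm X) (h : U * W = W * U) (x : X) (hx : U x = W x)
    (c : ℕ) : (U ^ c) x = (W ^ c) x := by
  induction c with
  | zero => rfl
  | succ c ih =>
    have h1 : U ^ c * W = W * U ^ c := (Commute.pow_left h c).eq
    calc (U ^ (c + 1)) x = (U ^ c) (U x) := by rw [pow_succ]; rfl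
      _ = (U ^ c * W) x := by rw [hx]; rfl
      _ = W ((U ^ c) x) := by rw [h1]; rfl
      _ = (W ^ (c + 1)) x := by rw [ih, pow_succ']; rfl

private theorem GA2_inv (hp : p.Prime) {a : ℕ} (ha : ¬ p ∣ a) : ∃ c, a * c % p = 1 :=
  (Nat.exists_mul_mod_eq_one_of_coprime (((Nat.Prime.coprime_iff_not_dvd hp).2 ha).symm)
    hp.one_lt).imp fun _ hc => hc.2

private theorem GA2_fix (hp : p.Prime) (T : Equiv.Perm X) (hT : T ^ p = 1) (x : X) (b : ℕ)
    (hb : ¬ p ∣ b) (h : (T ^ b) x = x) : T x = x := by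
  obtain ⟨c, hc⟩ := GA2_inv hp hb
  have h1 := GA2_iter (T ^ b) 1 (by rw [mul_one, one_mul]) x h c
  rw [← pow_mul, pow_eq_pow_mod (b * c) hT, hc, pow_one, one_pow] at h1
  exact h1

private theorem GA2_dvd {i i' : ℕ} (hi : i < p) (hi' : i' < p) (h : i ≠ i') :
    ¬ p ∣ i' + p - i := by
  rintro ⟨m, hm⟩
  have h1 : i' + p = p * m + i := by omega
  rcases lt_trichotomy m 1 with h2 | h2 | h2
  · have h3 : m = 0 := by omega
    rw [h3, mul_zero, zero_add] at h1
    omega
  · rw [h2, mul_one] at h1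
    omega
  · have h3 : p * 2 ≤ p * m := Nat.mul_le_mul_left p h2
    omega

private theorem GA2_inj (hp : p.Prime) (S T : Equiv.Perm X) (hS : S ^ p = 1) (hT : T ^ p = 1)
    (hST : S * T = T * S) (x : X) (h1 : T x ≠ x) (h2 : ∀ b < p, S x ≠ (T ^ b) x)
    {i k i' k' : ℕ} (hi : i < p) (hk : k < p) (hi' : i' < p) (hk' : k' < p)
    (h : (S ^ i) ((T ^ k) x) = (S ^ i') ((T ^ k') x)) : i = i' ∧ k = k' := by
  have hc : ∀ a b : ℕ, S ^ a * T ^ b = T ^ b * S ^ a := fun a b =>
    (Commute.pow_pow hST a b).eq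
  have hii : i = i' := by
    by_contra hne
    have h3 : (S ^ (i' + p - i)) x = (T ^ (k + p - k')) x := by
      have h4 := congrArg (fun y => (S ^ (p - i)) ((T ^ (p - k')) y)) h
      have h5 : (S ^ (p - i)) ((T ^ (p - k')) ((S ^ i) ((T ^ k) x))) =
          (T ^ (k + p - k')) x := by
        have h6 : S ^ (p - i) * (T ^ (p - k') * (S ^ i * T ^ k)) = T ^ (k + p - k') := by
          calc S ^ (p - i) * (T ^ (p - k') * (S ^ i * T ^ k))
              = S ^ (p - i) * ((T ^ (p - k') * S ^ i) * T ^ k) := by group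
            _ = S ^ (p - i) * ((S ^ i * T ^ (p - k')) * T ^ k) := by rw [hc]
            _ = (S ^ (p - i) * S ^ i) * (T ^ (p - k') * T ^ k) := by group
            _ = S ^ p * T ^ (k + p - k') := by
                rw [← pow_add, ← pow_add]
                congr 2 <;> omega
            _ = T ^ (k + p - k') := by rw [hS, one_mul]
        rw [← h6]
        rfl
      have h7 : (S ^ (p - i)) ((T ^ (p - k')) ((S ^ i') ((T ^ k') x))) =
          (S ^ (i' + p - i)) x := by
        have h6 : S ^ (p - i) * (T ^ (p - k') * (S ^ i' * T ^ k')) = S ^ (i' + p - i) := by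
          calc S ^ (p - i) * (T ^ (p - k') * (S ^ i' * T ^ k'))
              = S ^ (p - i) * ((T ^ (p - k') * S ^ i') * T ^ k') := by group
            _ = S ^ (p - i) * ((S ^ i' * T ^ (p - k')) * T ^ k') := by rw [hc]
            _ = (S ^ (p - i) * S ^ i') * (T ^ (p - k') * T ^ k') := by group
            _ = S ^ (i' + p - i) * T ^ p := by
                rw [← pow_add, ← pow_add]
                congr 2 <;> omega
            _ = S ^ (i' + p - i) := by rw [hT, mul_one]
        rw [← h6]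
        rfl
      rw [← h7, ← h5]
      exact h4.symm
    obtain ⟨c, hcc⟩ := GA2_inv hp (GA2_dvd hi hi' hne)
    have h4 := GA2_iter (S ^ (i' + p - i)) (T ^ (k + p - k')) (hc _ _) x h3 c
    rw [← pow_mul, ← pow_mul, pow_eq_pow_mod ((i' + p - i) * c) hS, hcc, pow_one,
      pow_eq_pow_mod ((k + p - k') * c) hT] at h4
    exact h2 _ (Nat.mod_lt _ hp.pos) h4
  refine ⟨hii, ?_⟩
  by_contra hne
  rw [hii] at h
  have h3 := (S ^ i').injective h
  have h4 : (T ^ (k' + p - k)) x = x := by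
    have h5 := congrArg (fun y => (T ^ (p - k)) y) h3
    have h6 : (T ^ (p - k)) ((T ^ k) x) = x := by
      have h7 : T ^ (p - k) * T ^ k = 1 := by
        rw [← pow_add, Nat.sub_add_cancel hk.le, hT]
      exact DFunLike.congr_fun h7 x
    have h8 : (T ^ (p - k)) ((T ^ k') x) = (T ^ (k' + p - k)) x := by
      have h7 : T ^ (p - k) * T ^ k' = T ^ (k' + p - k) := by
        rw [← pow_add]
        congr 1
        omega
      exact DFunLike.congr_fun h7 x
    rw [← h8]
    exact h5.symm.trans h6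
  exact h1 (GA2_fix hp T hT x _ (GA2_dvd hk hk' hne) h4)

/-- the orbit of `x` -/
private def GA2_orb [DecidableEq X] (p : ℕ) (S T : Equiv.Perm X) (x : X) : Finset X :=
  (range p ×ˢ range p).image fun q => (S ^ q.1) ((T ^ q.2) x)

private theorem GA2_mem [DecidableEq X] (hp : p.Prime) (S T : Equiv.Perm X) (hS : S ^ p = 1)
    (hT : T ^ p = 1) (x y : X) :
    y ∈ GA2_orb p S T x ↔ ∃ i k : ℕ, y = (S ^ i) ((T ^ k) x) := by
  unfold GA2_orb
  rw [mem_image]
  constructor
  · rintro ⟨⟨i, k⟩, -, rfl⟩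
    exact ⟨i, k, rfl⟩
  · rintro ⟨i, k, rfl⟩
    refine ⟨(i % p, k % p), ?_, ?_⟩
    · rw [mem_product, mem_range, mem_range]
      exact ⟨Nat.mod_lt _ hp.pos, Nat.mod_lt _ hp.pos⟩
    · rw [pow_eq_pow_mod i hS, pow_eq_pow_mod k hT]

private theorem GA2_symm (S T : Equiv.Perm X) (hS : S ^ p = 1)
    (hT : T ^ p = 1) (hST : S * T = T * S) (x : X) (i k : ℕ) :
    (S ^ ((p - 1) * i)) ((T ^ ((p - 1) * k)) ((S ^ i) ((T ^ k) x))) = x ∨ p = 0 := by
  rcases Nat.eq_zero_or_pos p with hp | hp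
  · exact Or.inr hp
  left
  have hc : T ^ ((p - 1) * k) * S ^ i = S ^ i * T ^ ((p - 1) * k) :=
    (Commute.pow_pow hST.symm _ _).eq
  have h1 : ∀ (U : Equiv.Perm X) (i : ℕ), U ^ p = 1 → U ^ ((p - 1) * i) * U ^ i = 1 := by
    intro U i hU
    rw [← pow_add]
    have h2 : (p - 1) * i + i = p * i := by
      obtain ⟨q, rfl⟩ : ∃ q, p = q + 1 := ⟨p - 1, by omega⟩
      rw [Nat.add_sub_cancel]
      ring
    rw [h2, pow_mul, hU, one_pow]
  have h3 : S ^ ((p - 1) * i) * (T ^ ((p - 1) * k) * (S ^ i * T ^ k)) = 1 := by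
    calc S ^ ((p - 1) * i) * (T ^ ((p - 1) * k) * (S ^ i * T ^ k))
        = S ^ ((p - 1) * i) * ((T ^ ((p - 1) * k) * S ^ i) * T ^ k) := by group
      _ = (S ^ ((p - 1) * i) * S ^ i) * (T ^ ((p - 1) * k) * T ^ k) := by rw [hc]; group
      _ = 1 := by rw [h1 S i hS, h1 T k hT, mul_one]
  exact DFunLike.congr_fun h3 x

end

theorem thm_GA2 : St_GA2 := by
  intro p hpf X _ _ S T wt hS hT hST hwS hwT hfS hfT
  have hp := hpf.out
  obtain ⟨R, hR⟩ : ∃ R : Finset X, R = univ.filter fun x => wt x ≠ 0 ∧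
      ∀ b < p, S x ≠ (T ^ b) x := ⟨_, rfl⟩
  have hwSi : ∀ (i : ℕ) x, wt ((S ^ i) x) = wt x := by
    intro i
    induction i with
    | zero => exact fun _ => rfl
    | succ i ih =>
      intro x
      rw [pow_succ, Equiv.Perm.mul_apply, ih, hwS]
  have hwTi : ∀ (i : ℕ) x, wt ((T ^ i) x) = wt x := by
    intro i
    induction i with
    | zero => exact fun _ => rfl
    | succ i ih =>
      intro x
      rw [pow_succ, Equiv.Perm.mul_apply, ih, hwT]
  have hcS : ∀ a b : ℕ, S ^ a * T ^ b = T ^ b * S ^ a := fun a b =>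
    (Commute.pow_pow hST a b).eq
  -- the difference is the sum over `R`
  have h1 : ∑ b ∈ Ico 1 p, ∑ x ∈ univ.filter (fun x => S x = (T ^ b) x), wt x =
      ∑ x, if wt x ≠ 0 ∧ ∀ b < p, S x ≠ (T ^ b) x then 0 else wt x := by
    have h2 : ∀ b ∈ Ico 1 p, ∑ x ∈ univ.filter (fun x => S x = (T ^ b) x), wt x =
        ∑ x, if S x = (T ^ b) x then wt x else 0 := fun b _ => sum_filter _ _
    rw [sum_congr rfl h2, sum_comm]
    refine sum_congr rfl fun x _ => ?_
    by_cases h3 : wt x = 0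
    · rw [h3]
      simp
    · split_ifs with h4
      · refine sum_eq_zero fun b hb => ?_
        rw [if_neg (h4.2 b (mem_Ico.1 hb).2)]
      · have h5 : ∃ b, b < p ∧ S x = (T ^ b) x := by
          by_contra hcon
          push Not at hcon
          exact h4 ⟨h3, hcon⟩
        obtain ⟨b, hb, hbx⟩ := h5
        have hb0 : b ≠ 0 := by
          rintro rfl
          exact h3 (hfS x hbx)
        rw [sum_eq_single b]
        · rw [if_pos hbx]
        · intro b' hb' hne
          rw [if_neg]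
          intro hb'x
          have h6 : (S ^ 0) ((T ^ b) x) = (S ^ 0) ((T ^ b') x) := by
            rw [pow_zero]
            exact hbx.symm.trans hb'x
          have h7 : (T ^ b) x = (T ^ b') x := h6
          have h8 : (T ^ (b' + p - b)) x = x := by
            have h9 : (T ^ (p - b)) ((T ^ b) x) = x := by
              have h10 : T ^ (p - b) * T ^ b = 1 := by
                rw [← pow_add, Nat.sub_add_cancel hb.le, hT]
              exact DFunLike.congr_fun h10 x
            have h11 : (T ^ (p - b)) ((T ^ b') x) = (T ^ (b' + p - b)) x := by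
              have h10 : T ^ (p - b) * T ^ b' = T ^ (b' + p - b) := by
                rw [← pow_add]
                congr 1
                omega
              exact DFunLike.congr_fun h10 x
            rw [← h11, ← h7, h9]
          exact h3 (hfT x (GA2_fix hp T hT x _
            (GA2_dvd hb (mem_Ico.1 hb').2 (fun h => hne h.symm)) h8))
        · intro h6
          exact absurd (mem_Ico.2 ⟨by omega, hb⟩) h6
  have h2 : ∑ x, wt x - ∑ b ∈ Ico 1 p, ∑ x ∈ univ.filter (fun x => S x = (T ^ b) x), wt x =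
      ∑ x ∈ R, wt x := by
    rw [h1, hR, sum_filter, ← sum_sub_distrib]
    refine sum_congr rfl fun x _ => ?_
    split_ifs <;> ring
  rw [h2]
  -- orbits
  have horbR : ∀ x ∈ R, ∀ y ∈ GA2_orb p S T x, y ∈ R := by
    intro x hx y hy
    rw [hR, mem_filter] at hx ⊢
    obtain ⟨-, hx1, hx2⟩ := hx
    obtain ⟨i, k, rfl⟩ := (GA2_mem hp S T hS hT x y).1 hy
    refine ⟨mem_univ _, ?_, fun b hb h3 => ?_⟩
    · rw [hwSi, hwTi]
      exact hx1
    · have h4 : (S ^ i * T ^ k) (S x) = (S ^ i * T ^ k) ((T ^ b) x) := by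
        have h5 : S * (S ^ i * T ^ k) = (S ^ i * T ^ k) * S := by
          have h6 := hcS 1 k
          rw [pow_one] at h6
          rw [mul_assoc, ← h6, ← mul_assoc, ← mul_assoc, ← pow_succ', pow_succ]
        have h6 : T ^ b * (S ^ i * T ^ k) = (S ^ i * T ^ k) * T ^ b := by
          rw [← mul_assoc, ← hcS, mul_assoc, mul_assoc, ← pow_add, ← pow_add, add_comm b k]
        have h7 : (S * (S ^ i * T ^ k)) x = (T ^ b * (S ^ i * T ^ k)) x := h3
        rw [h5, h6] at h7
        exact h7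
      exact hx2 b hb ((S ^ i * T ^ k).injective h4)
  have horbself : ∀ x, x ∈ GA2_orb p S T x := fun x =>
    (GA2_mem hp S T hS hT x x).2 ⟨0, 0, rfl⟩
  have horbsub : ∀ x y, y ∈ GA2_orb p S T x → GA2_orb p S T y ⊆ GA2_orb p S T x := by
    intro x y hy z hz
    obtain ⟨i, k, rfl⟩ := (GA2_mem hp S T hS hT x y).1 hy
    obtain ⟨i', k', rfl⟩ := (GA2_mem hp S T hS hT _ z).1 hz
    refine (GA2_mem hp S T hS hT x _).2 ⟨i' + i, k' + k, ?_⟩
    have h3 : S ^ i' * (T ^ k' * (S ^ i * T ^ k)) = S ^ (i' + i) * T ^ (k' + k) := by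
      calc S ^ i' * (T ^ k' * (S ^ i * T ^ k)) = S ^ i' * ((T ^ k' * S ^ i) * T ^ k) := by group
        _ = (S ^ i' * S ^ i) * (T ^ k' * T ^ k) := by rw [← hcS]; group
        _ = S ^ (i' + i) * T ^ (k' + k) := by rw [pow_add, pow_add]
    exact DFunLike.congr_fun h3 x
  have horbsymm : ∀ x y, y ∈ GA2_orb p S T x → x ∈ GA2_orb p S T y := by
    intro x y hy
    obtain ⟨i, k, rfl⟩ := (GA2_mem hp S T hS hT x y).1 hy
    rcases GA2_symm S T hS hT hST x i k with h3 | h3
    · exact (GA2_mem hp S T hS hT _ x).2 ⟨_, _, h3.symm⟩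
    · exact absurd h3 hp.ne_zero
  have horbeq : ∀ x y, y ∈ GA2_orb p S T x → GA2_orb p S T y = GA2_orb p S T x := fun x y hy =>
    Subset.antisymm (horbsub x y hy) (horbsub y x (horbsymm x y hy))
  have hcard : ∀ x ∈ R, #(GA2_orb p S T x) = p ^ 2 := by
    intro x hx
    rw [hR, mem_filter] at hx
    unfold GA2_orb
    rw [card_image_of_injOn, card_product, card_range, sq]
    rintro ⟨i, k⟩ hik ⟨i', k'⟩ hik' h3
    rw [mem_coe, mem_product, mem_range, mem_range] at hik hik'
    obtain ⟨h4, h5⟩ := GA2_inj hp S T hS hT hST x (fun h => hx.2.1 (hfT x h)) hx.2.2 hik.1 hik.2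
      hik'.1 hik'.2 h3
    exact Prod.ext h4 h5
  rw [← sum_fiberwise_of_maps_to (g := GA2_orb p S T) (t := R.image (GA2_orb p S T))
    fun x hx => mem_image_of_mem _ hx]
  refine dvd_sum fun o ho => ?_
  obtain ⟨x, hx, rfl⟩ := mem_image.1 ho
  have h3 : (R.filter fun y => GA2_orb p S T y = GA2_orb p S T x) = GA2_orb p S T x := by
    ext y
    rw [mem_filter]
    constructor
    · rintro ⟨-, h4⟩
      rw [← h4]
      exact horbself y
    · intro h4
      exact ⟨horbR x hx y h4, horbeq x y h4⟩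
  rw [h3]
  have h4 : ∀ y ∈ GA2_orb p S T x, wt y = wt x := by
    intro y hy
    obtain ⟨i, k, rfl⟩ := (GA2_mem hp S T hS hT x y).1 hy
    rw [hwSi, hwTi]
  rw [sum_congr rfl h4, sum_const, hcard x hx, nsmul_eq_mul]
  push_cast
  exact dvd_mul_right _ _

end Pool.Agent.GNC
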