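import Pool.Agent.GNC.Gau

/-!
# GNC, module MD: `M ^ 2 D = 1`
-/

set_option autoImplicit false

open Finset MvPolynomial

namespace Pool.Agent.GNC

section

variable {V Ω S : Type} [Fintype V] [CommRing S]

private noncomputable def MDth (l : Ω → V → ℤ) (t : Ω → S) (A : Finset Ω) : MvPolynomial V S :=
  ∏ e ∈ A, (1 - C (t e) * lf S (l e) ^ 2)

private theorem MD_pderiv [DecidableEq Ω] (l : Ω → V → ℤ) (t : Ω → S) (ht : ∀ e, t e ^ 2 = 0)
    (v : V) (A : Finset Ω) : pderiv v (MDth l t A) =
      - ∑ f ∈ A, C (2 * t f * ((l f v : ℤ) : S)) * (lf S (l f) * MDth l t A) := by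
  induction A using Finset.induction_on with
  | empty =>
    unfold MDth
    rw [prod_empty, sum_empty, neg_zero, pderiv_one]
  | insert e A he ih =>
    have h1 : MDth l t (insert e A) = (1 - C (t e) * lf S (l e) ^ 2) * MDth l t A := by
      unfold MDth
      rw [prod_insert he]
    have h2 : pderiv v (1 - C (t e) * lf S (l e) ^ 2) =
        - (C (2 * t e * ((l e v : ℤ) : S)) * lf S (l e)) := by
      rw [map_sub, pderiv_one, pderiv_C_mul, pderiv_pow, pderiv_lf, C_mul, C_mul]
      have h3 : (C (2 : S) : MvPolynomial V S) = 2 := map_ofNat C 2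
      rw [h3]
      push_cast
      ring
    have h4 : C (2 * t e * ((l e v : ℤ) : S)) * (lf S (l e) * (C (t e) * lf S (l e) ^ 2 *
        MDth l t A)) = 0 := by
      have h5 : (C (2 * t e * ((l e v : ℤ) : S)) : MvPolynomial V S) * C (t e) = 0 := by
        rw [← C_mul]
        have h6 : 2 * t e * ((l e v : ℤ) : S) * t e = 2 * ((l e v : ℤ) : S) * t e ^ 2 := by ring
        rw [h6, ht, mul_zero, C_0]
      calc C (2 * t e * ((l e v : ℤ) : S)) * (lf S (l e) * (C (t e) * lf S (l e) ^ 2 *
            MDth l t A))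
          = (C (2 * t e * ((l e v : ℤ) : S)) * C (t e)) * (lf S (l e) * lf S (l e) ^ 2 *
            MDth l t A) := by ring
        _ = 0 := by rw [h5, zero_mul]
    have h7 : ∑ f ∈ A, C (2 * t f * ((l f v : ℤ) : S)) * (lf S (l f) * MDth l t (insert e A)) =
        (1 - C (t e) * lf S (l e) ^ 2) *
          ∑ f ∈ A, C (2 * t f * ((l f v : ℤ) : S)) * (lf S (l f) * MDth l t A) := by
      rw [mul_sum]
      refine sum_congr rfl fun f _ => ?_
      rw [h1]
      ring
    rw [sum_insert he, h7, h1, pderiv_mul, h2, ih]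
    linear_combination (-1 : MvPolynomial V S) * h4

/-- Stein's formula for `X v * X w * Th` -/
private theorem MD_mat [DecidableEq V] [DecidableEq Ω] (l : Ω → V → ℤ) (t : Ω → S)
    (ht : ∀ e, t e ^ 2 = 0) (A : Finset Ω) (v w : V) :
    gau V S (X v * (X w * MDth l t A)) = (if v = w then gau V S (MDth l t A) else 0) -
      ∑ u, (∑ f ∈ A, 2 * t f * ((l f v : ℤ) : S) * ((l f u : ℤ) : S)) *
        gau V S (X u * (X w * MDth l t A)) := by
  have h0 : pderiv v (X w * MDth l t A : MvPolynomial V S) =
      (if v = w then MDth l t A else 0) - ∑ f ∈ A, C (2 * t f * ((l f v : ℤ) : S)) *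
        (lf S (l f) * (X w * MDth l t A)) := by
    rw [pderiv_mul, MD_pderiv l t ht]
    have h1 : pderiv v (X w : MvPolynomial V S) * MDth l t A =
        if v = w then MDth l t A else 0 := by
      split_ifs with h
      · rw [h, pderiv_X_self, one_mul]
      · rw [pderiv_X_of_ne (Ne.symm h), zero_mul]
    rw [h1, mul_neg, mul_sum, ← sub_eq_add_neg]
    congr 1
    refine sum_congr rfl fun f _ => ?_
    ring
  rw [gau_stein, h0, map_sub, map_sum]
  congr 1
  · split_ifs
    · rfl
    · rw [map_zero]
  · have h2 : ∀ f ∈ A, gau V S (C (2 * t f * ((l f v : ℤ) : S)) *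
        (lf S (l f) * (X w * MDth l t A))) = ∑ u, 2 * t f * ((l f v : ℤ) : S) *
          ((l f u : ℤ) : S) * gau V S (X u * (X w * MDth l t A)) := by
      intro f _
      rw [gau_C_mul, gau_lf_mul, mul_sum]
      refine sum_congr rfl fun u _ => ?_
      ring
    rw [sum_congr rfl h2, sum_comm]
    refine sum_congr rfl fun u _ => ?_
    rw [sum_mul]

end

theorem thm_MD : St_MD := by
  intro V Ω S _ _ _ _ l t ht A
  induction A using Finset.induction_on with
  | empty =>
    have h1 : MM l t (∅ : Finset Ω) = 1 := by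
      unfold MM
      rw [prod_empty]
      exact gau_one
    have h2 : DD l t (∅ : Finset Ω) = 1 := by
      unfold DD
      have h3 : (Matrix.of fun v w : V => ∑ e ∈ (∅ : Finset Ω),
          2 * t e * ((l e v : ℤ) : S) * ((l e w : ℤ) : S)) = 0 := by
        ext v w
        rw [Matrix.of_apply, sum_empty]
        rfl
      rw [h3, add_zero, Matrix.det_one]
    rw [h1, h2, one_pow, one_mul]
  | insert e A he ih =>
    obtain ⟨L, hL⟩ : ∃ L : Matrix V V S, L = 1 + Matrix.of fun v w : V =>
      ∑ e ∈ A, 2 * t e * ((l e v : ℤ) : S) * ((l e w : ℤ) : S) := ⟨_, rfl⟩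
    have hD : DD l t A = L.det := by rw [hL]; rfl
    rw [hD] at ih
    have hu : IsUnit L.det := IsUnit.of_mul_eq_one (MM l t A ^ 2) (by rw [mul_comm]; exact ih)
    obtain ⟨M, hM⟩ : ∃ M : S, M = MM l t A := ⟨_, rfl⟩
    rw [← hM] at ih
    have hM' : M = gau V S (MDth l t A) := hM
    obtain ⟨K, hK⟩ : ∃ K : Matrix V V S, K = Matrix.of fun v w : V =>
      gau V S (X v * (X w * MDth l t A)) := ⟨_, rfl⟩
    have hLK : L * K = M • (1 : Matrix V V S) := by
      ext v w
      rw [hL, add_mul, one_mul, Matrix.add_apply, Matrix.mul_apply, Matrix.smul_apply,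
        Matrix.one_apply]
      have h1 : K v w = gau V S (X v * (X w * MDth l t A)) := by rw [hK]; rfl
      rw [h1, MD_mat l t ht]
      have h2 : ∑ j, (Matrix.of fun v w : V => ∑ e ∈ A, 2 * t e * ((l e v : ℤ) : S) *
          ((l e w : ℤ) : S)) v j * K j w = ∑ u, (∑ f ∈ A, 2 * t f * ((l f v : ℤ) : S) *
            ((l f u : ℤ) : S)) * gau V S (X u * (X w * MDth l t A)) := by
        refine sum_congr rfl fun u _ => ?_
        rw [Matrix.of_apply, hK, Matrix.of_apply]
      rw [h2, sub_add_cancel, ← hM', smul_eq_mul, mul_ite, mul_one, mul_zero]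
    have hKi : K = M • L⁻¹ := by
      calc K = L⁻¹ * (L * K) := by rw [← mul_assoc, Matrix.nonsing_inv_mul L hu, one_mul]
        _ = M • L⁻¹ := by rw [hLK, mul_smul_comm, mul_one]
    obtain ⟨κ, hκ⟩ : ∃ κ : S, κ = ∑ v, ∑ w, ((l e v : ℤ) : S) * ((l e w : ℤ) : S) * L⁻¹ w v :=
      ⟨_, rfl⟩
    have hM2 : MM l t (insert e A) = M * (1 - t e * κ) := by
      have h1 : MM l t (insert e A) = gau V S (MDth l t A -
          C (t e) * (lf S (l e) * (lf S (l e) * MDth l t A))) := by
        unfold MM MDth
        rw [prod_insert he]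
        congr 1
        ring
      rw [h1, map_sub, ← hM', gau_C_mul, gau_lf_mul]
      have h2 : ∀ v, gau V S (X v * (lf S (l e) * MDth l t A)) =
          ∑ w, ((l e w : ℤ) : S) * (M * L⁻¹ w v) := by
        intro v
        have h3 : (X v * (lf S (l e) * MDth l t A) : MvPolynomial V S) =
            lf S (l e) * (X v * MDth l t A) := by ring
        rw [h3, gau_lf_mul]
        refine sum_congr rfl fun w _ => ?_
        congr 1
        have h4 : K w v = M * L⁻¹ w v := by rw [hKi, Matrix.smul_apply, smul_eq_mul]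
        rw [← h4, hK]
        rfl
      have h5 : ∑ v, ((l e v : ℤ) : S) * gau V S (X v * (lf S (l e) * MDth l t A)) = M * κ := by
        rw [hκ, mul_sum]
        refine sum_congr rfl fun v _ => ?_
        rw [h2, mul_sum, mul_sum]
        refine sum_congr rfl fun w _ => ?_
        ring
      rw [h5]
      ring
    have hD2 : DD l t (insert e A) = L.det * (1 + 2 * t e * κ) := by
      have h1 : DD l t (insert e A) = (L + Matrix.replicateCol Unit (fun v => 2 * t e *
          ((l e v : ℤ) : S)) * Matrix.replicateRow Unit (fun w => ((l e w : ℤ) : S))).det := by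
        unfold DD
        rw [hL]
        congr 1
        ext v w
        simp only [Matrix.add_apply, Matrix.of_apply, Matrix.mul_apply, Matrix.replicateCol_apply,
          Matrix.replicateRow_apply, sum_insert he, univ_unique, sum_singleton]
        ring
      rw [h1, Matrix.det_add_replicateCol_mul_replicateRow hu, Matrix.det_unique (n := Unit)]
      congr 1
      rw [Matrix.add_apply, Matrix.one_apply_eq, Matrix.mul_apply]
      congr 1
      rw [hκ, mul_sum]
      refine sum_congr rfl fun v _ => ?_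
      rw [Matrix.mul_apply, sum_mul, mul_sum]
      refine sum_congr rfl fun w _ => ?_
      rw [Matrix.replicateRow_apply, Matrix.replicateCol_apply]
      ring
    rw [hM2, hD2]
    have h3 : (M * (1 - t e * κ)) ^ 2 * (L.det * (1 + 2 * t e * κ)) =
        (M ^ 2 * L.det) * (1 - t e ^ 2 * κ ^ 2 * (3 - 2 * t e * κ)) := by ring
    rw [h3, ih, ht, zero_mul, zero_mul, sub_zero, one_mul]

end Pool.Agent.GNC
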