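import Pool.Agent.GNC.Gau

/-!
# GNC, module MX: the expansion of `M`
-/

set_option autoImplicit false

open Finset MvPolynomial

namespace Pool.Agent.GNC

theorem thm_MX : St_MX := by
  intro V Ω S _ _ _ _ l t
  have h1 : ∀ A : Finset Ω, gau V S (∏ e ∈ A, -(C (t e) * lf S (l e) ^ 2)) =
      (-1) ^ #A * ((mom l A : ℤ) : S) * ∏ e ∈ A, t e := by
    intro A
    have h2 : (∏ e ∈ A, -(C (t e) * lf S (l e) ^ 2) : MvPolynomial V S) =
        C ((-1) ^ #A * ∏ e ∈ A, t e) * map (Int.castRingHom S) (∏ e ∈ A, lf ℤ (l e) ^ 2) := by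
      rw [prod_neg, prod_mul_distrib, map_prod, C_mul, C_pow, C_neg, C_1, map_prod]
      have h3 : ∀ e ∈ A, map (Int.castRingHom S) (lf ℤ (l e) ^ 2) = lf S (l e) ^ 2 := by
        intro e _
        rw [map_pow, lf_map]
      rw [prod_congr rfl h3, mul_assoc]
    rw [h2, gau_C_mul, gau_map]
    unfold mom
    ring
  have h4 : MM l t univ = gau V S (∏ e, (1 + -(C (t e) * lf S (l e) ^ 2))) := by
    unfold MM
    simp only [sub_eq_add_neg]
  rw [h4, prod_one_add, map_sum, powerset_univ]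
  exact sum_congr rfl fun A _ => h1 A

end Pool.Agent.GNC
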