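import Pool.Agent.GNC.St

/-!
# GNC, modules Na, Nm: the rational space `NN`
-/

set_option autoImplicit false

open Finset Filter

namespace Pool.Agent.GNC

theorem NN_zero {g : ℕ → ℝ} (h : ∀ᶠ n in atTop, g n = 0) : g ∈ NN :=
  Submodule.subset_span (Or.inl (Or.inl (Or.inl h)))

theorem NN_poly (Q : Polynomial ℝ) : (fun n : ℕ => Q.eval (n : ℝ)) ∈ NN :=
  Submodule.subset_span (Or.inl (Or.inl (Or.inr ⟨Q, rfl⟩)))

theorem NN_gL (β : ℚ) (i : ℕ) : gL β i ∈ NN :=
  Submodule.subset_span (Or.inr ⟨β, i, rfl⟩)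

theorem NN_gS0 {α : ℚ} (i j : ℕ) (h0 : 0 < α) (h1 : α ≤ 1) : gS α i j ∈ NN :=
  Submodule.subset_span (Or.inl (Or.inr ⟨α, i, j, h0, h1, rfl⟩))

/-- sequences which agree for large `n` -/
theorem NN_congr {g h : ℕ → ℝ} (hg : g ∈ NN) (e : ∀ᶠ n in atTop, h n = g n) : h ∈ NN := by
  have h1 : h = g + (h - g) := by
    funext n
    simp
  rw [h1]
  refine NN.add_mem hg (NN_zero ?_)
  filter_upwards [e] with n hn
  rw [Pi.sub_apply, hn, sub_self]

theorem NN_smul (c : ℚ) {g : ℕ → ℝ} (hg : g ∈ NN) : (fun n => (c : ℝ) * g n) ∈ NN := by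
  have h1 : (fun n => (c : ℝ) * g n) = c • g := by
    funext n
    rw [Pi.smul_apply, Rat.smul_def]
  rw [h1]
  exact NN.smul_mem c hg

theorem NN_sum {ι : Type} (s : Finset ι) (g : ι → ℕ → ℝ) (h : ∀ i ∈ s, g i ∈ NN) :
    (fun n => ∑ i ∈ s, g i n) ∈ NN := by
  have h1 : (fun n => ∑ i ∈ s, g i n) = ∑ i ∈ s, g i := by
    funext n
    rw [Finset.sum_apply]
  rw [h1]
  exact NN.sum_mem h

/-- rational polynomials at natural numbers -/
theorem NN_eval (P : Polynomial ℚ) (n : ℕ) : ((P.eval (n : ℚ) : ℚ) : ℝ) =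
    ∑ i ∈ range (P.natDegree + 1), (P.coeff i : ℝ) * (n : ℝ) ^ i := by
  rw [Polynomial.eval_eq_sum_range]
  push_cast
  rfl

/-- general `α`: one step up -/
theorem NN_up (α : ℚ) (h : ∀ i j, gS α i j ∈ NN) (i j : ℕ) : gS (α + 1) i j ∈ NN := by
  have key : ∀ n : ℕ, ∑ k ∈ range n, (k : ℝ) ^ j * Real.log ((k : ℝ) + (α + 1 : ℚ)) =
      ∑ r ∈ range (j + 1), ((-1) ^ (j - r) * (j.choose r) : ℚ) * ∑ k ∈ range n, (k : ℝ) ^ r *
        Real.log ((k : ℝ) + α) + (-(-1) ^ j * Real.log α) +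
      ∑ r ∈ range (j + 1), ((-1) ^ (j - r) * (j.choose r) : ℚ) * ((n : ℝ) ^ r *
        Real.log ((n : ℝ) + α)) := by
    have hb : ∀ x : ℝ, ∑ r ∈ range (j + 1), (((-1) ^ (j - r) * (j.choose r) : ℚ) : ℝ) * x ^ r =
        (x - 1) ^ j := by
      intro x
      rw [sub_eq_add_neg, add_pow]
      refine sum_congr rfl fun r _ => ?_
      push_cast
      ring
    have hb' : ∀ (x y : ℝ), ∑ r ∈ range (j + 1), (((-1) ^ (j - r) * (j.choose r) : ℚ) : ℝ) *
        (x ^ r * y) = (x - 1) ^ j * y := by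
      intro x y
      rw [← hb, sum_mul]
      exact sum_congr rfl fun r _ => by ring
    intro n
    induction n with
    | zero =>
      rw [hb']
      simp
    | succ n ih =>
      have e1 : ∀ r : ℕ, ((((-1) ^ (j - r) * (j.choose r) : ℚ) : ℝ)) *
          ∑ k ∈ range (n + 1), (k : ℝ) ^ r * Real.log ((k : ℝ) + α) =
          ((((-1) ^ (j - r) * (j.choose r) : ℚ) : ℝ)) *
          ∑ k ∈ range n, (k : ℝ) ^ r * Real.log ((k : ℝ) + α) +
          ((((-1) ^ (j - r) * (j.choose r) : ℚ) : ℝ)) * ((n : ℝ) ^ r * Real.log ((n : ℝ) + α)) := by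
        intro r
        rw [sum_range_succ, mul_add]
      rw [sum_range_succ, ih, sum_congr rfl fun r _ => e1 r, sum_add_distrib, hb', hb']
      push_cast
      have e2 : (n : ℝ) + (α + 1) = n + 1 + α := by ring
      rw [e2]
      ring
  have h1 : gS (α + 1) i j = fun n => ∑ r ∈ range (j + 1), ((-1) ^ (j - r) * (j.choose r) : ℚ) *
      gS α i r n + (((Polynomial.C (-(-1) ^ j * Real.log α) * Polynomial.X ^ i :
        Polynomial ℝ)).eval (n : ℝ)) +
      ∑ r ∈ range (j + 1), ((-1) ^ (j - r) * (j.choose r) : ℚ) * gL α (i + r) n := by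
    funext n
    unfold gS gL
    rw [key]
    simp only [Polynomial.eval_mul, Polynomial.eval_C, Polynomial.eval_pow, Polynomial.eval_X]
    rw [mul_add, mul_add, mul_sum, mul_sum]
    congr 1
    · congr 1
      · exact sum_congr rfl fun r _ => by ring
      · ring
    · exact sum_congr rfl fun r _ => by ring
  rw [h1]
  exact NN.add_mem (NN.add_mem (NN_sum _ _ fun r _ => NN_smul _ (h i r)) (NN_poly _))
    (NN_sum _ _ fun r _ => NN_smul _ (NN_gL α (i + r)))

/-- general `α`: one step down -/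
theorem NN_down (α : ℚ) (h : ∀ i j, gS (α + 1) i j ∈ NN) (i j : ℕ) : gS α i j ∈ NN := by
  have key : ∀ n : ℕ, ∑ k ∈ range n, (k : ℝ) ^ j * Real.log ((k : ℝ) + α) =
      ∑ r ∈ range (j + 1), ((j.choose r : ℕ) : ℚ) * ∑ k ∈ range n, (k : ℝ) ^ r *
        Real.log ((k : ℝ) + (α + 1 : ℚ)) + (0 ^ j * Real.log α) -
      (n : ℝ) ^ j * Real.log ((n : ℝ) + α) := by
    have hb' : ∀ (x y : ℝ), ∑ r ∈ range (j + 1), (((j.choose r : ℕ) : ℚ) : ℝ) *
        (x ^ r * y) = (x + 1) ^ j * y := by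
      intro x y
      rw [add_pow, sum_mul]
      refine sum_congr rfl fun r _ => ?_
      push_cast
      ring
    intro n
    induction n with
    | zero => simp
    | succ n ih =>
      have e1 : ∀ r : ℕ, (((j.choose r : ℕ) : ℚ) : ℝ) *
          ∑ k ∈ range (n + 1), (k : ℝ) ^ r * Real.log ((k : ℝ) + (α + 1 : ℚ)) =
          (((j.choose r : ℕ) : ℚ) : ℝ) *
          ∑ k ∈ range n, (k : ℝ) ^ r * Real.log ((k : ℝ) + (α + 1 : ℚ)) +
          (((j.choose r : ℕ) : ℚ) : ℝ) * ((n : ℝ) ^ r * Real.log ((n : ℝ) + (α + 1 : ℚ))) := by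
        intro r
        rw [sum_range_succ, mul_add]
      rw [sum_range_succ, ih, sum_congr rfl fun r _ => e1 r, sum_add_distrib, hb']
      push_cast
      have e2 : (n : ℝ) + (α + 1) = n + 1 + α := by ring
      rw [e2]
      ring
  have h1 : gS α i j = fun n => ∑ r ∈ range (j + 1), ((j.choose r : ℕ) : ℚ) *
      gS (α + 1) i r n + (((Polynomial.C (0 ^ j * Real.log α) * Polynomial.X ^ i :
        Polynomial ℝ)).eval (n : ℝ)) - gL α (i + j) n := by
    funext n
    unfold gS gL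
    rw [key]
    simp only [Polynomial.eval_mul, Polynomial.eval_C, Polynomial.eval_pow, Polynomial.eval_X]
    rw [mul_sub, mul_add, mul_sum]
    congr 1
    · congr 1
      · exact sum_congr rfl fun r _ => by ring
      · ring
    · ring
  rw [h1]
  exact NN.sub_mem (NN.add_mem (NN_sum _ _ fun r _ => NN_smul _ (h i r)) (NN_poly _))
    (NN_gL α (i + j))

theorem thm_Na : St_Na := by
  intro α
  have h0 : ∀ (m : ℕ) (β : ℚ), 0 < β → β ≤ 1 → ∀ i j, gS (β + m) i j ∈ NN := by
    intro m β hb0 hb1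
    induction m with
    | zero =>
      intro i j
      rw [Nat.cast_zero, add_zero]
      exact NN_gS0 i j hb0 hb1
    | succ m ih =>
      intro i j
      have h1 := NN_up (β + m) ih i j
      rwa [add_assoc, ← Nat.cast_succ] at h1
  have h1 : ∀ (m : ℕ) (β : ℚ), 0 < β → β ≤ 1 → ∀ i j, gS (β - m) i j ∈ NN := by
    intro m β hb0 hb1
    induction m with
    | zero =>
      intro i j
      rw [Nat.cast_zero, sub_zero]
      exact NN_gS0 i j hb0 hb1
    | succ m ih =>
      intro i j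
      refine NN_down _ (fun i j => ?_) i j
      have e : β - ((m + 1 : ℕ) : ℚ) + 1 = β - m := by
        push_cast
        ring
      rw [e]
      exact ih i j
  -- the decomposition
  set m : ℤ := ⌈α⌉ - 1 with hm
  have hb0 : 0 < α - m := by
    have := Int.ceil_lt_add_one α
    rw [hm]
    push_cast
    linarith
  have hb1 : α - m ≤ 1 := by
    have := Int.le_ceil α
    rw [hm]
    push_cast
    linarith
  rcases Int.eq_nat_or_neg m with ⟨k, hk | hk⟩
  · intro i j
    have h2 := h0 k _ hb0 hb1 i j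
    rw [hk] at h2
    have e : α - ((k : ℤ) : ℚ) + (k : ℚ) = α := by
      push_cast
      ring
    rwa [e] at h2
  · intro i j
    have h2 := h1 k _ hb0 hb1 i j
    rw [hk] at h2
    have e : α - ((-(k : ℤ) : ℤ) : ℚ) - (k : ℚ) = α := by
      push_cast
      ring
    rwa [e] at h2

theorem thm_Nm : St_Nm := by
  intro g hg
  induction hg using Submodule.span_induction with
  | mem g hg =>
    rcases hg with ((hg | ⟨Q, rfl⟩) | ⟨α, i, j, h0, h1, rfl⟩) | ⟨β, i, rfl⟩
    · refine NN_zero ?_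
      filter_upwards [hg] with n hn
      rw [hn, mul_zero]
    · have h1 : (fun n : ℕ => (n : ℝ) * Q.eval (n : ℝ)) =
          fun n : ℕ => (Polynomial.X * Q).eval (n : ℝ) := by
        funext n
        rw [Polynomial.eval_mul, Polynomial.eval_X]
      rw [h1]
      exact NN_poly _
    · have h2 : (fun n : ℕ => (n : ℝ) * gS α i j n) = gS α (i + 1) j := by
        funext n
        unfold gS
        ring
      rw [h2]
      exact NN_gS0 _ _ h0 h1
    · have h2 : (fun n : ℕ => (n : ℝ) * gL β i n) = gL β (i + 1) := by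
        funext n
        unfold gL
        ring
      rw [h2]
      exact NN_gL _ _
  | zero =>
    have h1 : (fun n : ℕ => (n : ℝ) * (0 : ℕ → ℝ) n) = 0 := by
      funext n
      simp
    rw [h1]
    exact NN.zero_mem
  | add g h _ _ ih1 ih2 =>
    have h1 : (fun n : ℕ => (n : ℝ) * (g + h) n) =
        (fun n : ℕ => (n : ℝ) * g n) + fun n : ℕ => (n : ℝ) * h n := by
      funext n
      simp only [Pi.add_apply]
      ring
    rw [h1]
    exact NN.add_mem ih1 ih2
  | smul c g _ ih =>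
    have h1 : (fun n : ℕ => (n : ℝ) * (c • g) n) = c • fun n : ℕ => (n : ℝ) * g n := by
      funext n
      simp only [Pi.smul_apply, Rat.smul_def]
      ring
    rw [h1]
    exact NN.smul_mem c ih

theorem NN_pow (i : ℕ) {g : ℕ → ℝ} (hg : g ∈ NN) : (fun n : ℕ => (n : ℝ) ^ i * g n) ∈ NN := by
  induction i with
  | zero => simpa using hg
  | succ i ih =>
    have h1 := thm_Nm _ ih
    have h2 : (fun n : ℕ => (n : ℝ) ^ (i + 1) * g n) = fun n : ℕ => (n : ℝ) * ((n : ℝ) ^ i * g n) := by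
      funext n
      ring
    rw [h2]
    exact h1

/-- multiplication with a rational polynomial -/
theorem NN_mul (P : Polynomial ℚ) {g : ℕ → ℝ} (hg : g ∈ NN) :
    (fun n : ℕ => ((P.eval (n : ℚ) : ℚ) : ℝ) * g n) ∈ NN := by
  have h1 : (fun n : ℕ => ((P.eval (n : ℚ) : ℚ) : ℝ) * g n) = fun n : ℕ =>
      ∑ i ∈ range (P.natDegree + 1), (P.coeff i : ℝ) * ((n : ℝ) ^ i * g n) := by
    funext n
    rw [NN_eval, sum_mul]
    exact sum_congr rfl fun i _ => by ring
  rw [h1]
  exact NN_sum _ _ fun i _ => NN_smul _ (NN_pow i hg)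

/-- sums with rational polynomials -/
theorem NN_S (α : ℚ) (R : Polynomial ℚ) :
    (fun n : ℕ => ∑ k ∈ range n, ((R.eval (k : ℚ) : ℚ) : ℝ) * Real.log ((k : ℝ) + α)) ∈ NN := by
  have h1 : (fun n : ℕ => ∑ k ∈ range n, ((R.eval (k : ℚ) : ℚ) : ℝ) * Real.log ((k : ℝ) + α)) =
      fun n : ℕ => ∑ j ∈ range (R.natDegree + 1), (R.coeff j : ℝ) * gS α 0 j n := by
    funext n
    unfold gS
    rw [sum_congr rfl fun k _ => by rw [NN_eval, sum_mul], sum_comm]
    refine sum_congr rfl fun j _ => ?_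
    rw [pow_zero, one_mul, mul_sum]
    exact sum_congr rfl fun k _ => by ring
  rw [h1]
  exact NN_sum _ _ fun j _ => NN_smul _ (thm_Na α 0 j)

end Pool.Agent.GNC
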