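import Pool.Agent.GNC.St
import Pool.Agent.GNC.N1

/-!
# GNC, modules Ns, Nb: summation and substitution
-/

set_option autoImplicit false

open Finset Filter

namespace Pool.Agent.GNC

theorem NN_ind (Φ : (ℕ → ℝ) → (ℕ → ℝ)) (hadd : ∀ g h, Φ (g + h) = Φ g + Φ h)
    (hsmul : ∀ (c : ℚ) (g : ℕ → ℝ), Φ (c • g) = c • Φ g)
    (h0 : ∀ g : ℕ → ℝ, (∀ᶠ n in atTop, g n = 0) → Φ g ∈ NN)
    (h1 : ∀ Q : Polynomial ℝ, Φ (fun n : ℕ => Q.eval (n : ℝ)) ∈ NN)
    (h2 : ∀ (α : ℚ) (i j : ℕ), 0 < α → α ≤ 1 → Φ (gS α i j) ∈ NN)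
    (h3 : ∀ (β : ℚ) (i : ℕ), Φ (gL β i) ∈ NN) : ∀ g ∈ NN, Φ g ∈ NN := by
  intro g hg
  induction hg using Submodule.span_induction with
  | mem g hg =>
    rcases hg with ((hg | ⟨Q, rfl⟩) | ⟨α, i, j, a0, a1, rfl⟩) | ⟨β, i, rfl⟩
    · exact h0 g hg
    · exact h1 Q
    · exact h2 α i j a0 a1
    · exact h3 β i
  | zero => exact h0 0 (Eventually.of_forall fun _ => rfl)
  | add g h _ _ ih1 ih2 => rw [hadd]; exact NN.add_mem ih1 ih2
  | smul c g _ ih => rw [hsmul]; exact NN.smul_mem c ih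

/-- sums of powers -/
theorem N2_faul (j : ℕ) : ∃ S : Polynomial ℚ, ∀ n : ℕ, S.eval (n : ℚ) = ∑ k ∈ range n, (k : ℚ) ^ j := by
  refine ⟨∑ i ∈ range (j + 1), Polynomial.C (bernoulli i * ((j + 1).choose i) / (j + 1)) *
    Polynomial.X ^ (j + 1 - i), fun n => ?_⟩
  rw [sum_range_pow, Polynomial.eval_finsetSum]
  refine sum_congr rfl fun i _ => ?_
  simp only [Polynomial.eval_mul, Polynomial.eval_C, Polynomial.eval_pow, Polynomial.eval_X]
  ring

theorem N2_faulR (Q : Polynomial ℝ) :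
    (fun n : ℕ => ∑ k ∈ range n, Q.eval (k : ℝ)) ∈ NN := by
  choose S hS using N2_faul
  have h1 : (fun n : ℕ => ∑ k ∈ range n, Q.eval (k : ℝ)) = fun n : ℕ =>
      (∑ i ∈ range (Q.natDegree + 1), Polynomial.C (Q.coeff i) *
        (S i).map (algebraMap ℚ ℝ)).eval (n : ℝ) := by
    funext n
    rw [Polynomial.eval_finsetSum, sum_congr rfl fun k _ => Polynomial.eval_eq_sum_range _, sum_comm]
    refine sum_congr rfl fun i _ => ?_
    rw [Polynomial.eval_mul, Polynomial.eval_C, ← mul_sum]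
    congr 1
    have h2 : ((S i).map (algebraMap ℚ ℝ)).eval (n : ℝ) = (((S i).eval (n : ℚ) : ℚ) : ℝ) :=
      Polynomial.eval_natCast_map _ _ _
    rw [h2, hS]
    push_cast
    rfl
  rw [h1]
  exact NN_poly _

theorem thm_Ns : St_Ns := by
  refine NN_ind (fun g n => ∑ k ∈ range n, g k) (fun g h => ?_) (fun c g => ?_) (fun g hg => ?_)
    N2_faulR (fun α i j h0 h1 => ?_) (fun β i => ?_)
  · funext n
    simp only [Pi.add_apply, sum_add_distrib]
  · funext n
    simp only [Pi.smul_apply, Rat.smul_def, mul_sum]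
  · obtain ⟨N, hN⟩ := eventually_atTop.1 hg
    refine NN_congr (NN_poly (Polynomial.C (∑ k ∈ range N, g k))) ?_
    filter_upwards [eventually_ge_atTop N] with n hn
    rw [Polynomial.eval_C]
    symm
    refine sum_subset (range_mono hn) fun k _ hk => ?_
    rw [mem_range, not_lt] at hk
    exact hN k hk
  · obtain ⟨S, hS⟩ := N2_faul i
    have hS1 : ∀ n : ℕ, ((S.eval ((n + 1 : ℕ) : ℚ) : ℚ) : ℝ) =
        ((S.eval (n : ℚ) : ℚ) : ℝ) + (n : ℝ) ^ i := by
      intro n
      rw [hS, hS, sum_range_succ]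
      push_cast
      rfl
    have h2 : (fun n : ℕ => ∑ m ∈ range n, gS α i j m) = fun n : ℕ =>
        ((S.eval (n : ℚ) : ℚ) : ℝ) * gS α 0 j n -
        ∑ k ∈ range n, (((Polynomial.X ^ j * S.comp (Polynomial.X + 1) : Polynomial ℚ).eval
          (k : ℚ) : ℚ) : ℝ) * Real.log ((k : ℝ) + α) := by
      funext n
      induction n with
      | zero => simp [gS]
      | succ n ih =>
        rw [sum_range_succ, ih, hS1]
        simp only [gS, pow_zero, one_mul, sum_range_succ _ n, Polynomial.eval_mul,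
          Polynomial.eval_pow, Polynomial.eval_X, Polynomial.eval_comp, Polynomial.eval_add,
          Polynomial.eval_one]
        have h3 := hS1 n
        push_cast at h3 ⊢
        rw [h3]
        ring
    rw [h2]
    exact NN.sub_mem (NN_mul S (NN_gS0 0 j h0 h1)) (NN_S α _)
  · have h2 : (fun n : ℕ => ∑ m ∈ range n, gL β i m) = gS β 0 i := by
      funext n
      simp only [gL, gS, pow_zero, one_mul]
    rw [h2]
    exact thm_Na β 0 i

/-- logarithms along arithmetic progressions -/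
theorem N2_log (a b : ℕ) (ha : 0 < a) (β : ℚ) :
    (fun n : ℕ => Real.log (((a * n + b : ℕ) : ℝ) + β)) ∈ NN := by
  have ha' : (0 : ℝ) < a := by exact_mod_cast ha
  refine NN_congr (NN.add_mem (NN_poly (Polynomial.C (Real.log a))) (NN_gL ((b + β) / a) 0)) ?_
  filter_upwards [eventually_gt_atTop ⌈|β|⌉₊] with n hn
  have h1 : |(β : ℝ)| < n := by
    have h2 : (|β| : ℚ) ≤ ⌈|β|⌉₊ := Nat.le_ceil _
    have h3 : (⌈|β|⌉₊ : ℚ) < n := by exact_mod_cast hn
    have h4 : |β| < (n : ℚ) := lt_of_le_of_lt h2 h3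
    exact_mod_cast h4
  have h2 := (abs_lt.1 h1).1
  have h3 : (n : ℝ) ≤ a * n := by
    have h4 : (1 : ℝ) ≤ a := by exact_mod_cast ha
    nlinarith [Nat.cast_nonneg (α := ℝ) n]
  have h4 : (0 : ℝ) ≤ b := Nat.cast_nonneg _
  have h5 : ((a * n + b : ℕ) : ℝ) + β = a * ((n : ℝ) + (((b + β) / a : ℚ) : ℝ)) := by
    push_cast
    field_simp
    ring
  have h6 : 0 < (n : ℝ) + (((b + β) / a : ℚ) : ℝ) := by
    have h7 : 0 < ((a * n + b : ℕ) : ℝ) + β := by
      push_cast
      linarith
    rw [h5] at h7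
    exact (mul_pos_iff_of_pos_left ha').1 h7
  rw [h5, Real.log_mul ha'.ne' h6.ne', Pi.add_apply, Polynomial.eval_C]
  simp only [gL, pow_zero, one_mul]

theorem N2_sum (α : ℚ) (h0 : 0 < α) (a : ℕ) (ha : 0 < a) (j b : ℕ) :
    (fun n : ℕ => ∑ k ∈ range (a * n + b), (k : ℝ) ^ j * Real.log ((k : ℝ) + α)) ∈ NN := by
  have ha' : (0 : ℝ) < a := by exact_mod_cast ha
  induction b with
  | zero =>
    have h1 : (fun n : ℕ => ∑ k ∈ range (a * n + 0), (k : ℝ) ^ j * Real.log ((k : ℝ) + α)) =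
        fun n : ℕ => ∑ r ∈ range a, (∑ k ∈ range n, (Polynomial.C (Real.log a) *
          (Polynomial.C (a : ℝ) * Polynomial.X + Polynomial.C (r : ℝ)) ^ j).eval (k : ℝ) +
          ∑ k ∈ range n, ((((Polynomial.C (a : ℚ) * Polynomial.X + Polynomial.C (r : ℚ)) ^ j :
            Polynomial ℚ).eval (k : ℚ) : ℚ) : ℝ) * Real.log ((k : ℝ) + ((r + α) / a : ℚ))) := by
      funext n
      induction n with
      | zero => simp
      | succ n ih =>
        have h2 : a * (n + 1) + 0 = a * n + 0 + a := by ring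
        rw [h2, sum_range_add, ih, ← sum_add_distrib]
        refine sum_congr rfl fun r _ => ?_
        rw [sum_range_succ, sum_range_succ]
        have h3 : (0 : ℝ) < (n : ℝ) + (((r + α) / a : ℚ) : ℝ) := by
          have h4 : (0 : ℚ) < (r + α) / a := div_pos (by positivity) (by exact_mod_cast ha)
          have h5 : (0 : ℝ) < (((r + α) / a : ℚ) : ℝ) := by exact_mod_cast h4
          positivity
        have h4 : ((a * n + 0 + r : ℕ) : ℝ) + α = a * ((n : ℝ) + (((r + α) / a : ℚ) : ℝ)) := by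
          push_cast
          field_simp
          ring
        rw [h4, Real.log_mul ha'.ne' h3.ne']
        simp only [Polynomial.eval_mul, Polynomial.eval_pow, Polynomial.eval_add,
          Polynomial.eval_C, Polynomial.eval_X]
        push_cast
        ring
    rw [h1]
    exact NN_sum _ _ fun r _ => NN.add_mem (N2_faulR _) (NN_S _ _)
  | succ b ih =>
    have h1 : (fun n : ℕ => ∑ k ∈ range (a * n + (b + 1)), (k : ℝ) ^ j * Real.log ((k : ℝ) + α)) =
        (fun n : ℕ => ∑ k ∈ range (a * n + b), (k : ℝ) ^ j * Real.log ((k : ℝ) + α)) +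
        fun n : ℕ => ((((Polynomial.C (a : ℚ) * Polynomial.X + Polynomial.C (b : ℚ)) ^ j :
            Polynomial ℚ).eval (n : ℚ) : ℚ) : ℝ) * Real.log (((a * n + b : ℕ) : ℝ) + α) := by
      funext n
      rw [Pi.add_apply, ← add_assoc, sum_range_succ]
      simp only [Polynomial.eval_mul, Polynomial.eval_pow, Polynomial.eval_add,
        Polynomial.eval_C, Polynomial.eval_X]
      push_cast
      rfl
    rw [h1]
    exact NN.add_mem ih (NN_mul _ (N2_log a b ha α))

theorem thm_Nb : St_Nb := by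
  intro g hg a b ha
  refine NN_ind (fun g n => g (a * n + b)) (fun g h => rfl) (fun c g => rfl) (fun g hg => ?_)
    (fun Q => ?_) (fun α i j h0 h1 => ?_) (fun β i => ?_) g hg
  · refine NN_zero ?_
    have h1 : Tendsto (fun n : ℕ => a * n + b) atTop atTop :=
      tendsto_atTop_mono (fun n => by
        have h2 : 1 * n ≤ a * n := Nat.mul_le_mul_right _ ha
        simp only [id_eq]
        omega) tendsto_id
    exact h1.eventually hg
  · have h1 : (fun n : ℕ => Q.eval (((a * n + b : ℕ)) : ℝ)) = fun n : ℕ =>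
        (Q.comp (Polynomial.C (a : ℝ) * Polynomial.X + Polynomial.C (b : ℝ))).eval (n : ℝ) := by
      funext n
      simp only [Polynomial.eval_comp, Polynomial.eval_add, Polynomial.eval_mul,
        Polynomial.eval_C, Polynomial.eval_X]
      push_cast
      rfl
    rw [h1]
    exact NN_poly _
  · have h2 : (fun n : ℕ => gS α i j (a * n + b)) = fun n : ℕ =>
        ((((Polynomial.C (a : ℚ) * Polynomial.X + Polynomial.C (b : ℚ)) ^ i :
            Polynomial ℚ).eval (n : ℚ) : ℚ) : ℝ) *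
          ∑ k ∈ range (a * n + b), (k : ℝ) ^ j * Real.log ((k : ℝ) + α) := by
      funext n
      simp only [gS, Polynomial.eval_mul, Polynomial.eval_pow, Polynomial.eval_add,
        Polynomial.eval_C, Polynomial.eval_X]
      push_cast
      rfl
    rw [h2]
    exact NN_mul _ (N2_sum α h0 a ha j b)
  · have h2 : (fun n : ℕ => gL β i (a * n + b)) = fun n : ℕ =>
        ((((Polynomial.C (a : ℚ) * Polynomial.X + Polynomial.C (b : ℚ)) ^ i :
            Polynomial ℚ).eval (n : ℚ) : ℚ) : ℝ) * Real.log (((a * n + b : ℕ) : ℝ) + β) := by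
      funext n
      simp only [gL, Polynomial.eval_mul, Polynomial.eval_pow, Polynomial.eval_add,
        Polynomial.eval_C, Polynomial.eval_X]
      push_cast
      rfl
    rw [h2]
    exact NN_mul _ (N2_log a b ha β)

end Pool.Agent.GNC
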