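import Pool.Agent.GNC.N2

/-!
# GNC: module N3: the class of closed forms, the explicit normal form
-/

set_option autoImplicit false

open Finset Filter

namespace Pool.Agent.GNC

theorem thm_Nc : St_Nc := by
  intro f hf
  induction hf with
  | const c hc =>
    refine ⟨Eventually.of_forall fun _ => hc, ?_⟩
    have h := NN_poly (Polynomial.C (Real.log c))
    simpa using h
  | shift α =>
    constructor
    · have h1 : Tendsto (fun n : ℕ => (n : ℝ) + α) atTop atTop :=
        tendsto_atTop_add_const_right _ _ tendsto_natCast_atTop_atTop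
      exact h1.eventually_gt_atTop 0
    · have h := NN_gL α 0
      have e : gL α 0 = fun n : ℕ => Real.log ((n : ℝ) + α) := by
        funext n
        simp [gL]
      rwa [e] at h
  | @mul f g hf hg ihf ihg =>
    obtain ⟨hf0, hf1⟩ := ihf
    obtain ⟨hg0, hg1⟩ := ihg
    refine ⟨?_, ?_⟩
    · filter_upwards [hf0, hg0] with n h1 h2
      exact mul_pos h1 h2
    · refine NN_congr (NN.add_mem hf1 hg1) ?_
      filter_upwards [hf0, hg0] with n h1 h2
      exact Real.log_mul h1.ne' h2.ne'
  | @pow f p hf ihf =>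
    obtain ⟨hf0, hf1⟩ := ihf
    refine ⟨?_, ?_⟩
    · filter_upwards [hf0] with n h1
      exact Real.rpow_pos_of_pos h1 _
    · refine NN_congr (NN_mul p hf1) ?_
      filter_upwards [hf0] with n h1
      exact Real.log_rpow h1 _
  | @prod f h hf ihf =>
    refine ⟨Eventually.of_forall fun n => Finset.prod_pos fun k _ => h k, ?_⟩
    refine NN_congr (thm_Ns _ ihf.2) (Eventually.of_forall fun n => ?_)
    exact Real.log_prod fun k _ => (h k).ne'
  | @subst f a b h hf ihf =>
    obtain ⟨hf0, hf1⟩ := ihf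
    refine ⟨?_, thm_Nb _ hf1 a b h⟩
    have h1 : Tendsto (fun n : ℕ => a * n + b) atTop atTop := by
      refine tendsto_atTop_mono (fun n => ?_) tendsto_id
      show n ≤ a * n + b
      nlinarith
    exact h1.eventually hf0
  | @congr f g hf h ihf =>
    obtain ⟨hf0, hf1⟩ := ihf
    refine ⟨?_, ?_⟩
    · filter_upwards [hf0, h] with n h1 h2
      rw [h2]
      exact h1
    · refine NN_congr hf1 ?_
      filter_upwards [h] with n h1
      rw [h1]

/-- the value of a combination with integer coefficients -/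
noncomputable def N3_W {ι : Type} (w : ι → ℝ) (c : ι →₀ ℤ) : ℝ := c.sum fun t r => (r : ℝ) * w t

theorem N3_zero {ι : Type} (w : ι → ℝ) : N3_W w 0 = 0 := Finsupp.sum_zero_index

theorem N3_add {ι : Type} (w : ι → ℝ) (c c' : ι →₀ ℤ) :
    N3_W w (c + c') = N3_W w c + N3_W w c' := by
  unfold N3_W
  refine Finsupp.sum_add_index' (fun t => by simp) fun t r r' => ?_
  push_cast
  ring

theorem N3_smul {ι : Type} (w : ι → ℝ) (k : ℤ) (c : ι →₀ ℤ) :
    N3_W w (k • c) = (k : ℝ) * N3_W w c := by
  unfold N3_W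
  rw [Finsupp.sum_smul_index' (fun t => by simp), Finsupp.mul_sum]
  refine Finsupp.sum_congr fun t _ => ?_
  rw [smul_eq_mul]
  push_cast
  ring

theorem N3_single {ι : Type} (w : ι → ℝ) (t : ι) : N3_W w (Finsupp.single t 1) = w t := by
  unfold N3_W
  rw [Finsupp.sum_single_index (by simp)]
  simp

/-- the normal form with integer coefficients -/
def N3_F (g : ℕ → ℝ) : Prop := ∃ (D : ℕ) (Q : Polynomial ℝ) (c : (ℚ × ℕ × ℕ) →₀ ℤ)
  (e : (ℚ × ℕ) →₀ ℤ), 1 ≤ D ∧ (∀ t, c t ≠ 0 → 0 < t.1 ∧ t.1 ≤ 1) ∧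
    ∀ᶠ n : ℕ in atTop, (D : ℝ) * g n = Q.eval (n : ℝ) +
      (N3_W (fun t => gS t.1 t.2.1 t.2.2 n) c + N3_W (fun u => gL u.1 u.2 n) e)

theorem N3_main (g : ℕ → ℝ) (hg : g ∈ NN) : N3_F g := by
  induction hg using Submodule.span_induction with
  | mem g hg =>
    rcases hg with ((hg | ⟨Q, rfl⟩) | ⟨α, i, j, h0, h1, rfl⟩) | ⟨β, i, rfl⟩
    · refine ⟨1, 0, 0, 0, le_rfl, fun t h => absurd rfl h, ?_⟩
      filter_upwards [hg] with n hn
      rw [hn, N3_zero, N3_zero]
      simp
    · refine ⟨1, Q, 0, 0, le_rfl, fun t h => absurd rfl h, Eventually.of_forall fun n => ?_⟩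
      rw [N3_zero, N3_zero]
      simp
    · refine ⟨1, 0, Finsupp.single (α, i, j) 1, 0, le_rfl, fun t h => ?_,
        Eventually.of_forall fun n => ?_⟩
      · have ht : (α, i, j) = t := by
          by_contra hne
          exact h (Finsupp.single_eq_of_ne' hne)
        rw [← ht]
        exact ⟨h0, h1⟩
      · rw [N3_zero, N3_single]
        simp
    · refine ⟨1, 0, 0, Finsupp.single (β, i) 1, le_rfl, fun t h => absurd rfl h,
        Eventually.of_forall fun n => ?_⟩
      rw [N3_zero, N3_single]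
      simp
  | zero =>
    refine ⟨1, 0, 0, 0, le_rfl, fun t h => absurd rfl h, Eventually.of_forall fun n => ?_⟩
    rw [N3_zero, N3_zero]
    simp
  | add g g' _ _ h h' =>
    obtain ⟨D, Q, c, e, hD, hc, h⟩ := h
    obtain ⟨D', Q', c', e', hD', hc', h'⟩ := h'
    refine ⟨D * D', Polynomial.C (D' : ℝ) * Q + Polynomial.C (D : ℝ) * Q',
      (D' : ℤ) • c + (D : ℤ) • c', (D' : ℤ) • e + (D : ℤ) • e', one_le_mul hD hD',
      fun t ht => ?_, ?_⟩
    · by_cases h1 : c t = 0
      · refine hc' t fun h2 => ht ?_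
        rw [Finsupp.add_apply, Finsupp.smul_apply, Finsupp.smul_apply, h1, h2]
        simp
      · exact hc t h1
    · filter_upwards [h, h'] with n hn hn'
      rw [N3_add, N3_add, N3_smul, N3_smul, N3_smul, N3_smul, Pi.add_apply, Polynomial.eval_add,
        Polynomial.eval_mul, Polynomial.eval_mul, Polynomial.eval_C, Polynomial.eval_C]
      push_cast
      linear_combination (D' : ℝ) * hn + (D : ℝ) * hn'
  | smul r g _ h =>
    obtain ⟨D, Q, c, e, hD, hc, h⟩ := h
    refine ⟨r.den * D, Polynomial.C (r.num : ℝ) * Q, r.num • c, r.num • e,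
      one_le_mul r.den_pos hD, fun t ht => hc t fun h2 => ht ?_, ?_⟩
    · rw [Finsupp.smul_apply, h2]
      simp
    · filter_upwards [h] with n hn
      have hr : (r : ℝ) * (r.den : ℝ) = (r.num : ℝ) := by exact_mod_cast Rat.mul_den_eq_num r
      rw [N3_smul, N3_smul, Pi.smul_apply, Polynomial.eval_mul, Polynomial.eval_C, Rat.smul_def]
      push_cast
      linear_combination (r.num : ℝ) * hn + ((D : ℝ) * g n) * hr

theorem thm_Nf : St_Nf := by
  intro g hg
  obtain ⟨D, Q, c, e, hD, hc, h⟩ := N3_main g hg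
  refine ⟨⟨D, hD, c.support, c, fun t ht => Finsupp.mem_support_iff.1 ht,
    fun t ht => hc t (Finsupp.mem_support_iff.1 ht), e.support, e,
    fun u hu => Finsupp.mem_support_iff.1 hu⟩, Q, ?_⟩
  filter_upwards [h] with n hn
  exact hn

end Pool.Agent.GNC
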