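import Pool.Agent.GNC.St

/-!
# GNC, module Sqf: the square-free algebra
-/

set_option autoImplicit false

open Finset MvPolynomial

namespace Pool.Agent.GNC

section

variable {Ω : Type} [Fintype Ω]

private noncomputable def Sqf_m : Ω →₀ ℕ := Finsupp.equivFunOnFinite.symm fun _ => 1

private theorem Sqf_m_apply (e : Ω) : (Sqf_m : Ω →₀ ℕ) e = 1 := rfl

private theorem Sqf_coeff {f : MvPolynomial Ω ℤ}
    (hf : f ∈ Ideal.span (Set.range fun e : Ω => (X e ^ 2 : MvPolynomial Ω ℤ))) :
    coeff Sqf_m f = 0 := by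
  classical
  induction hf using Submodule.span_induction with
  | mem x hx =>
    obtain ⟨e, rfl⟩ := hx
    change coeff Sqf_m (X e ^ 2 : MvPolynomial Ω ℤ) = 0
    rw [X_pow_eq_monomial, coeff_monomial, if_neg]
    intro h
    have h1 := DFunLike.congr_fun h e
    rw [Finsupp.single_eq_same, Sqf_m_apply] at h1
    omega
  | zero => exact coeff_zero _
  | add x y _ _ hx hy => rw [coeff_add, hx, hy, add_zero]
  | smul a x hx ih =>
    -- the ideal is generated by monomials
    rw [smul_eq_mul]
    clear ih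
    have h0 : a * x ∈ Ideal.span (Set.range fun e : Ω => (X e ^ 2 : MvPolynomial Ω ℤ)) :=
      Ideal.mul_mem_left _ a hx
    have h1 : (Set.range fun e : Ω => (X e ^ 2 : MvPolynomial Ω ℤ)) =
        (fun s => monomial s (1 : ℤ)) '' (Set.range fun e : Ω => Finsupp.single e 2) := by
      rw [← Set.range_comp]
      congr 1
      funext e
      rw [Function.comp_apply, X_pow_eq_monomial]
    rw [h1, mem_ideal_span_monomial_image] at h0
    by_contra hcon
    obtain ⟨s, ⟨e, rfl⟩, hs⟩ := h0 Sqf_m (mem_support_iff.2 hcon)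
    have h2 := hs e
    rw [Finsupp.single_eq_same, Sqf_m_apply] at h2
    omega

end

theorem thm_Sqf : St_Sqf := by
  intro Ω _ _
  obtain ⟨I, hI⟩ : ∃ I : Ideal (MvPolynomial Ω ℤ),
      I = Ideal.span (Set.range fun e : Ω => (X e ^ 2 : MvPolynomial Ω ℤ)) := ⟨_, rfl⟩
  have hc : ∀ f ∈ I, coeff Sqf_m f = 0 := fun f hf => Sqf_coeff (hI ▸ hf)
  have hout : ∀ (x : MvPolynomial Ω ℤ ⧸ I) (f : MvPolynomial Ω ℤ), Ideal.Quotient.mk I f = x →
      coeff Sqf_m (Quotient.out x) = coeff Sqf_m f := by
    intro x f hf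
    have h1 : Quotient.out x - f ∈ I := by
      rw [← Ideal.Quotient.eq, hf]
      exact Quotient.out_eq x
    have h2 := hc _ h1
    rw [coeff_sub] at h2
    linarith
  refine ⟨MvPolynomial Ω ℤ ⧸ I, inferInstance, fun e => Ideal.Quotient.mk I (X e),
    AddMonoidHom.mk' (fun x => coeff Sqf_m (Quotient.out x)) ?_, ?_, ?_⟩
  · intro x y
    have h1 : Ideal.Quotient.mk I (Quotient.out x + Quotient.out y) = x + y := by
      rw [map_add]
      congr 1
      · exact Quotient.out_eq x
      · exact Quotient.out_eq y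
    rw [hout _ _ h1, coeff_add]
  · intro e
    rw [← map_pow, Ideal.Quotient.eq_zero_iff_mem, hI]
    exact Ideal.subset_span ⟨e, rfl⟩
  · intro A
    refine (hout (∏ e ∈ A, Ideal.Quotient.mk I (X e)) (∏ e ∈ A, X e) (map_prod _ _ _)).trans ?_
    have h1 : (∏ e ∈ A, X e : MvPolynomial Ω ℤ) = monomial (∑ e ∈ A, Finsupp.single e 1) 1 := by
      rw [monomial_sum_one]
      rfl
    rw [h1, coeff_monomial]
    have h2 : (∑ e ∈ A, Finsupp.single e 1 = (Sqf_m : Ω →₀ ℕ)) ↔ A = univ := by
      constructor
      · intro h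
        rw [eq_univ_iff_forall]
        intro e
        by_contra he
        have h3 := DFunLike.congr_fun h e
        rw [Sqf_m_apply, Finsupp.finsetSum_apply, sum_eq_zero] at h3
        · omega
        · intro f hf
          rw [Finsupp.single_apply, if_neg]
          intro h4
          exact he (h4 ▸ hf)
      · intro h
        ext e
        rw [h, Sqf_m_apply, Finsupp.finsetSum_apply]
        simp [Finsupp.single_apply]
    simp only [h2]

end Pool.Agent.GNC
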