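import Pool.Agent.GNC.Defs

/-!
# GNC: the statements

Paper: /team-store/GNC_MP9736d0_helper96.md. All statements of Part 2 were checked by computer for
small values (p = 3, 5, 7; at most three vertices outside `ZMod p`).
Rules for the modules: import `Pool.Agent.GNC.St` only (and, when the offer says so, other modules),
namespace `Pool.Agent.GNC`, all auxiliary lemmas private or with the module's name in front.
-/

set_option autoImplicit false

open Finset Filter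

namespace Pool.Agent.GNC

/-! ## Part 2 -/

/-- [MD] `M ^ 2 D = 1` for elements `t e` of square zero.
Proof. Stein: `gau (X v * P) = gau (pderiv v P)` (on monomials: `mu (m + 1) = m * mu (m - 1)`).
Induction on `A` (insert `e`). Let `Th = ∏_(f ∈ A) (1 - t_f l_f ^ 2)`, `M = gau Th`,
`C v w = gau (X v * X w * Th)`, `L = ∑_(f ∈ A) t_f l_f l_f^T`. As `t_f ^ 2 = 0`,
`pderiv v Th = - ∑_f 2 t_f l_f(v) l_f Th` (because `t_f * ∏_(g ≠ f) (..) = t_f * Th`). Stein for
`X v * (X w * Th)`: `C v w = δ_vw M - 2 ∑_u L_vu C_uw`, i.e. `(1 + 2 L) C = M • 1`. By induction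
`det (1 + 2 L)` is a unit, so `C = M (1 + 2 L)⁻¹` and `M' = M - t_e ∑ l_e(v) l_e(w) C v w
= M (1 - t_e κ)`, `κ = l_e^T (1 + 2 L)⁻¹ l_e`. `D' = det (1 + 2 L + 2 t_e l_e l_e^T) = D (1 + 2 t_e κ)`
(`Matrix.det_add_replicateCol_mul_replicateRow`). Hence `M' ^ 2 D' = (1 - 2 t_e κ) (1 + 2 t_e κ) = 1`. -/
def St_MD : Prop := ∀ (V Ω S : Type) [Fintype V] [DecidableEq V] [DecidableEq Ω] [CommRing S]
  (l : Ω → V → ℤ) (t : Ω → S), (∀ e, t e ^ 2 = 0) → ∀ A : Finset Ω, MM l t A ^ 2 * DD l t A = 1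

/-- [MX] Expansion of `M`: multiply out the product; `gau V S (map P) = gau V ℤ P`. -/
def St_MX : Prop := ∀ (V Ω S : Type) [Fintype V] [Fintype Ω] [DecidableEq Ω] [CommRing S]
  (l : Ω → V → ℤ) (t : Ω → S),
  MM l t univ = ∑ A : Finset Ω, (-1) ^ #A * ((mom l A : ℤ) : S) * ∏ e ∈ A, t e

/-- [DX] Expansion of `D`: with the `V × Ω` matrix `B = (2 l_e v)` and the `Ω × V` matrix
`C = (t_e l_e w)`: `det (1 + B C) = det (1 + C B)` (`Matrix.det_one_add_mul_comm`), and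
`det (1 + T G) = ∑_A (∏_(e ∈ A) t e) det (G_A)` by multilinearity in the rows
(`AlternatingMap.map_add_univ`, `Matrix.det_piecewise_one_eq_submatrix_det`; see the proof of
`Matrix.coeff_det_one_add_X_smul_eq_sum_minors` in Mathlib). -/
def St_DX : Prop := ∀ (V Ω S : Type) [Fintype V] [DecidableEq V] [Fintype Ω] [DecidableEq Ω]
  [CommRing S] (l : Ω → V → ℤ) (t : Ω → S),
  DD l t univ = ∑ A : Finset Ω, ((gw l A : ℤ) : S) * ∏ e ∈ A, t e

/-- [Dep] Dependent families have Gram determinant zero. -/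
def St_Dep : Prop := ∀ (V ι : Type) [Fintype V] [Fintype ι] [DecidableEq ι] (b : ι → V → ℤ)
  (c : ι → ℤ), c ≠ 0 → (∀ v, ∑ i, c i * b i v = 0) → gd b = 0

/-- [Big] If all `l e` have coordinate sum zero and `#A ≥ #V ≥ 1`, then `gw l A = 0` (more vectors
than the dimension `#V - 1`; drop one coordinate, solve the linear system, use [Dep]). -/
def St_Big : Prop := ∀ (V Ω : Type) [Fintype V] [DecidableEq V] [Nonempty V] [DecidableEq Ω]
  (l : Ω → V → ℤ), (∀ e, ∑ v, l e v = 0) → ∀ A : Finset Ω, Fintype.card V ≤ #A → gw l A = 0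

/-- [Sqf] The square-free algebra with its top coefficient: the quotient of `MvPolynomial Ω ℤ` by
the ideal of the `X e ^ 2`; `top` is induced by the coefficient of the monomial `∏ X e`
(`MvPolynomial.mem_ideal_span_monomial_image`). -/
def St_Sqf : Prop := ∀ (Ω : Type) [Fintype Ω] [DecidableEq Ω], ∃ (S : Type) (_ : CommRing S)
  (t : Ω → S) (top : S →+ ℤ), (∀ e, t e ^ 2 = 0) ∧
    ∀ A : Finset Ω, top (∏ e ∈ A, t e) = if A = univ then 1 else 0

/-- [Top] The top coefficient of a product of copies of `∑_A g(A) t^A`, one for each colour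
`k : K`: `∏_k ∑_A = ∑_(φ : K → Finset Ω) ∏_k g (φ k) t^(φ k)` (`Finset.prod_univ_sum`);
`∏_k t^(φ k) = 0` if two of the sets meet, and it is `t^(∪ φ k)` otherwise; the `φ` with disjoint
sets with union `univ` correspond to the colourings `c : Ω → K`. -/
def St_Top : Prop := ∀ (Ω : Type) [Fintype Ω] [DecidableEq Ω] (S : Type) [CommRing S]
  (t : Ω → S) (top : S →+ ℤ), (∀ e, t e ^ 2 = 0) →
    (∀ A : Finset Ω, top (∏ e ∈ A, t e) = if A = univ then 1 else 0) →
    ∀ (K : Type) [Fintype K] [DecidableEq K] (g : Finset Ω → ℤ),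
      top (∏ _k : K, ∑ A : Finset Ω, ((g A : ℤ) : S) * ∏ e ∈ A, t e) = cs K g

/-- [T0] Congruence mod `p`, from [MD], [MX], [DX], [Sqf], [Top]. Proof: in `S` (of [Sqf]) let
`M = MM l t univ`, `D = DD l t univ`. `M = ∑ m_A t^A`, `m_∅ = 1`, so `M ^ p = 1` mod `p S`
(Frobenius in `S / p S`, `(t^A) ^ p = 0` for `A ≠ ∅`, `mom l ∅ = 1`). `M ^ (2 s) D ^ s = 1`, hence
`M ^ d = M ^ p D ^ s = D ^ s` mod `p S`. Apply `top` (`top (p x) = p top x`); by [Top] with
`K = Fin d`, `Fin s`: `top (M ^ d) = (-1) ^ #Ω cs (Fin d) (mom l)` (the sign: for a colouring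
`∏_k (-1) ^ #(c ⁻¹ k) = (-1) ^ #Ω`), `top (D ^ s) = cs (Fin s) (gw l)`. -/
def St_T0 : Prop := ∀ (p s d : ℕ) [Fact p.Prime] (V Ω : Type) [Fintype V] [DecidableEq V]
  [Fintype Ω] [DecidableEq Ω] (l : Ω → V → ℤ), 2 * s + d = p →
  (p : ℤ) ∣ cs (Fin s) (gw l) - (-1) ^ Fintype.card Ω * cs (Fin d) (mom l)

/-- [T1] Congruence mod `p ^ 2`, from [MD], [MX], [DX], [Sqf], [Top], [Big]. Proof: as in [T0],
`M ^ p = 1 + p W` and `(1 + p W) ^ 2 D ^ p = 1`, so `D ^ p = 1 - 2 p W` mod `p ^ 2 S` and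
`2 M ^ p + D ^ p = 3` mod `p ^ 2 S`; times `D ^ s`: `2 M ^ d + D ^ (s + p) = 3 D ^ s` mod `p ^ 2 S`.
`top (D ^ s) = cs (Fin s) (gw l) = 0`: for every colouring with `s` colours some class has at least
`#V` elements ([Big]), because `s (#V - 1) < #Ω`. -/
def St_T1 : Prop := ∀ (p s d : ℕ) [Fact p.Prime] (V Ω : Type) [Fintype V] [DecidableEq V]
  [Nonempty V] [Fintype Ω] [DecidableEq Ω] (l : Ω → V → ℤ), 2 * s + d = p →
  (∀ e, ∑ v, l e v = 0) → s * (Fintype.card V - 1) < Fintype.card Ω →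
  (p : ℤ) ^ 2 ∣ 2 * (-1) ^ Fintype.card Ω * cs (Fin d) (mom l) + cs (Fin s ⊕ ZMod p) (gw l)

/-- [GA2] Two commuting permutations of order `p`. Proof: the `x` with `wt x ≠ 0` satisfy
`S x ≠ x`, `T x ≠ x`. If `S x = T ^ b x` for some `b` then `b ≠ 0` mod `p` and `b` is unique mod `p`.
The other `x` (no `b`) with a given weight `z ≠ 0` form a set which is stable under `S`, `T` and on
which the group `(Z/p)^2` acts freely (from `S ^ i T ^ k x = x`, `i ≠ 0` mod `p`, we get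
`S x = T ^ b x`), so its cardinality is divisible by `p ^ 2`. -/
def St_GA2 : Prop := ∀ (p : ℕ) [Fact p.Prime] (X : Type) [Fintype X] [DecidableEq X]
  (S T : Equiv.Perm X) (wt : X → ℤ), S ^ p = 1 → T ^ p = 1 → S * T = T * S →
  (∀ x, wt (S x) = wt x) → (∀ x, wt (T x) = wt x) → (∀ x, S x = x → wt x = 0) →
  (∀ x, T x = x → wt x = 0) →
  (p : ℤ) ^ 2 ∣ ∑ x, wt x - ∑ b ∈ Ico 1 p, ∑ x ∈ univ.filter (fun x => S x = (T ^ b) x), wt x

/-- [Fix] The sum over the colourings mod `p ^ 2`, from [GA2]. `X` = the colourings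
`c : (P × ZMod p) ⊕ O → Fin s ⊕ ZMod p`, `wt c = ∏_k w (c ⁻¹ k)`, `(S c) e = c (σ⁻¹ e)` with
`σ (o, a) = (o, a + 1)`, `σ = id` on `O`, and `T c = τ ∘ c` with `τ = id` on `Fin s`,
`τ a = a + 1` on `ZMod p`. `wt` is invariant. `S c = c`: the orbit `{(o1, a)}` has one colour, so
`wt c = 0`. `T c = c`: `c` has values in `Fin s`, so `wt c = 0` by the third hypothesis. [GA2] applies.
For `b ∈ Ico 1 p` the `c` with `S c = T ^ b c` correspond to `y : P → Fin s ⊕ ZMod p`, `z : O → Fin s`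
(`c (o, a) = inl k` for all `a` if `y o = inl k`; otherwise `c (o, a)` is an affine function of `a` with
slope `- b`; parametrize so that `c (o, a) = inr 0` iff `y o = inr a`), the class of the colour `inr 0` is `FF y`,
the classes of the colours `inr a` are its translates by powers of `σ`, the class of `inl k` is
`II y z k`; so the weight is `w (FF y) ^ p * ∏ k, w (II y z k)`, independent of `b`. Then
`(p - 1) ∑_(y, z) = - ∑_(y, z)` mod `p ^ 2`, because: the weight is zero if `y o1` is on the left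
(second hypothesis), and it is invariant under `y ↦ y + m` (`m : ZMod p`, on the right part;
`FF (y + m) = σ ^ m (FF y)`, `II` is unchanged), so `∑_(y, z) = p * Phi`. -/
def St_Fix : Prop := ∀ (p s : ℕ) [Fact p.Prime] (P O : Type) [Fintype P] [DecidableEq P]
  [Fintype O] [DecidableEq O] (w : Finset ((P × ZMod p) ⊕ O) → ℤ) (o1 : P),
  (∀ A, w (A.image (Sum.map (Prod.map id (· + 1)) id)) = w A) →
  (∀ A, (∀ a, Sum.inl (o1, a) ∈ A) → w A = 0) →
  (∀ c : ((P × ZMod p) ⊕ O) → Fin s, ∏ k, w (univ.filter fun e => c e = k) = 0) →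
  (p : ℤ) ^ 2 ∣ cs (Fin s ⊕ ZMod p) w + p * Phi s w o1

/-- [L1] Adding unit vectors. Proof: induction on `#J` (`Equiv.piOptionEquivProd`, or `J = Fin j`
and `Fin.snocEquiv`); one step: for a family `b : ι → N → ℤ` with `G = (<b i, b k>)`, `m = #ι`,
`gd (b, x_a) = 2 ^ (m + 1) det (G - u_a u_a^T)`, `u_a = (b i a)_i` (take the factor `2` out of the last
column, `Matrix.det_fromBlocks_one₂₂`), `det (G - u u^T) = det G - u^T adj(G) u` (all matrices: for
`G + X • 1` over the fraction field of `ℤ[X]` this is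
`Matrix.det_add_replicateCol_mul_replicateRow`; then `X = 0`; or by multilinearity), and
`∑_a u_a u_a^T = G`, so `∑_a gd (b, x_a) = 2 ^ (m + 1) (#N det G - tr (adj(G) G))
= 2 (#N - m) gd b`. -/
def St_L1 : Prop := ∀ (N ι J : Type) [Fintype N] [DecidableEq N] [Fintype ι] [DecidableEq ι]
  [Fintype J] [DecidableEq J] (b : ι → N → ℤ),
  ∑ y : J → N, gd (Sum.elim b fun v => Pi.single (y v) 1) =
    2 ^ Fintype.card J * (∏ i ∈ range (Fintype.card J),
      ((Fintype.card N : ℤ) - Fintype.card ι - i)) * gd b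

/-- [L2] Leaves may be replaced by unit vectors, mod `p`, in the sum over all `y`. Proof: for
`R ⊆ J` let `fam R` be the family in which `v ∈ R` has the vector `x_(y v)` (no `x_v`). Induction on
`R`: from `R` to `insert v R`; split off `y v` (`Equiv.funSplitAt`); only the vector of `v` has an
`x_v`-component, so for `y v = inr a`: `gd (.., x_a - x_v) = gd (.., x_a) + 2 gd (..)` (the Gram
matrix changes only in the diagonal entry of `v`, by `2`; `..` is the family without `v`, which does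
not depend on `a`), and the sum over `a : ZMod p` of the last term is `p * 2 gd (..)`. -/
def St_L2 : Prop := ∀ (p s : ℕ) [Fact p.Prime] (ι J : Type) [Fintype ι] [DecidableEq ι]
  [Fintype J] [DecidableEq J] (b : ι → (Fin s ⊕ ZMod p) → ℤ),
  (p : ℤ) ∣ ∑ y : J → Fin s ⊕ ZMod p,
    (gd (leafFam b y) - gd (Sum.elim b fun v => Pi.single (y v) 1))

/-- [L3] The weights of the fixed colourings mod `p` (`y = (a, y')`). Proof. (1) `FF` is the set of the inner
edges `(d, a d)` and the spokes `(v, y' v)`, `y' v` on the right. Adding for the `v` with `y' v` on the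
left the vector `x_v` (orthogonal to all others, norm 1): `2 ^ #left * gw (gl ..) (FF y) =
gd (inner, x_(y' v) - x_v or x_v)`. (2) If two `v ≠ w` have the same `y' = inl k`: `II y z k` contains
two full stars, `(x_a - x_v) - (x_a - x_w)` is the same for `a = 0, 1`: dependent, the left side is
zero; `leafFam` has two equal vectors: zero too. (3) Otherwise the vectors `x_(inl (y' v))`, `y' v` on the left, are
orthonormal and orthogonal to the rest, so `gd (leafFam ..) = 2 ^ #left * gw (gl ..) (FF y)`, and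
each `II y z k` is `z ⁻¹ k` together with at most one star. Star lemma: for `A ⊆ O`, `v ∈ J`:
`gw (gl ..) (A ∪ star v) = 2 gw lo A` mod `p`: the Gram matrix is `(G, -c 1^T; -1 c^T, 1 + 11^T)`,
`c = (lo o v)_o`; multiplied from the left by `(1, c 1^T; 0, 1)` it is `(G, 0; -1 c^T, 1 + 11^T)` mod
`p`, `det (1 + 11^T) = 1 + p`, and `2 ^ p = 2`. So `∏_k = 2 ^ #left * ∏_k gw lo (z ⁻¹ k)` mod `p`. -/
def St_L3 : Prop := ∀ (p q s : ℕ) [Fact p.Prime] (J O : Type) [Fintype J] [DecidableEq J]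
  [Fintype O] [DecidableEq O] (lo : O → J → ℤ) (a : Fin (q + 1) → ZMod p)
  (y' : J → Fin s ⊕ ZMod p) (z : O → Fin s), p = 2 * q + 3 →
  (p : ℤ) ∣ gw (gl p q lo) (FF (s := s) (Sum.elim (fun d => Sum.inr (a d)) y')) *
      ∏ k, gw (gl p q lo) (II (Sum.elim (fun d => Sum.inr (a d)) y') z k) -
    gd (leafFam (inn (Fin s) a) y') * ∏ k, gw lo (univ.filter fun o => z o = k)

/-- [Eval] The value of `Phi` mod `p`, from [L1], [L2], [L3], [Dep]. Proof: `w ^ p = w` mod `p`. If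
`y (inl d)` is on the left, `= inl k`, then `II y z k` contains the orbit of the inner edge `d`
whose vectors have the sum zero: `gw = 0` ([Dep]). So `y = (a, y')` with `a 0 = 0`; use [L3] for each
`(a, y', z)`, then [L2] with `b = inn (Fin s) a` for the sum over `y'` (times
`∏_k gw lo (z ⁻¹ k)`), then [L1] with `N = Fin s ⊕ ZMod p`: `#N - #ι - i = s + p - (q + 1) - i`. The sum
over `z` is `cs (Fin s) (gw lo)`; `gd (inn (Fin s) a) = gd (inn (Fin 0) a)`. -/
def St_Eval : Prop := ∀ (p q s : ℕ) [Fact p.Prime] (J O : Type) [Fintype J] [DecidableEq J]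
  [Fintype O] [DecidableEq O] (lo : O → J → ℤ), p = 2 * q + 3 →
  (p : ℤ) ∣ Phi s (gw (gl p q lo)) (Sum.inl 0) -
    Phi0 p q * (2 ^ Fintype.card J * (∏ i ∈ range (Fintype.card J), ((s : ℤ) + p - (q + 1) - i)) *
      cs (Fin s) (gw lo))

/-- [Her] The integral of the squared Vandermonde product (Mehta, Gaussian weight, dimension one). Proof:
`∏_(i < k) (X i - X k) ^ 2 = det (He_k (X i)) ^ 2` (`Polynomial.hermite`,
`Matrix.det_eval_matrixOfPolynomials_eq_det_vandermonde`), expand both determinants, `gau` of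
`∏_i P_i (X i)` is the product of the one-dimensional values, and `He_m`, `He_n` are orthogonal with
norm `n!` (Stein in one variable: the functional of `He_(n+1) Q` is that of `He_n Q'`). -/
def St_Her : Prop := ∀ n : ℕ, mom (lfin n) univ = ∏ k ∈ range (n + 1), ((k.factorial : ℕ) : ℤ)

/-- [Bij] The edge system `gl` is the complete graph on `p + j` vertices. Proof: a bijection of the
vertices `ZMod p ⊕ Fin j ≃ Fin (p + j)`; for two distinct vertices exactly one edge of each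
of the two systems has these ends (for `a ≠ b` in `ZMod p`, `p = 2 q + 3`, exactly one of `b - a`, `a - b` is
in `{1, .., q + 1}`), so we have a bijection of the edges; under it the squares of the linear forms
agree (up to the sign the forms agree), so the `mom` agree, and `cs` agree. -/
def St_Bij : Prop := ∀ (p q j : ℕ) [Fact p.Prime], p = 2 * q + 3 → ∀ D : ℕ,
  cs (Fin D) (mom (gl p q (lfin j))) = cs (Fin D) (mom (lfin (p + j)))

/-- [Link] `F_1` and the integers `bb n` (adapt `Pool/Agent/MSF/Rat.lean`, where `w1_val` gives the moments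
`mu m / 2 ^ (m / 2) * √π` of `exp (-x ^ 2)`): the polynomial `∏_e ∑_(i : Fin 3) l_(e,i) ^ 2` is
homogeneous of degree `n (n - 1)` and equals `∑_(c : edges → Fin 3) ∏_i ∏_(e ∈ c ⁻¹ i) l_(e,i) ^ 2`. -/
def St_Link : Prop := ∀ n : ℕ,
  F1.Fone n * 2 ^ (n * (n - 1) / 2) = Real.sqrt Real.pi ^ (3 * n) * (bb n : ℝ)

/-- [C] The congruence. From [T0], [T1], [Fix], [Eval], [Her], [Bij], [Dep], [Link]. Proof: let
`p = 2 q + 3`, `w = gw (gl p q lo)`. (`lo = lfin j`, `O` the pairs.) The hypotheses of [Fix]: invariance of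
`gw` (the vectors are permuted by the rotation of the coordinates); the inner orbit is dependent;
the third one as in [T1]. `d = 1`, `j = 0`, `s = q + 1`: `2 (±1) mom univ = p Phi = p Phi0` mod `p ^ 2`,
`mom univ = ∏_(k ≤ p) k!` is not divisible by `p ^ 2`; so `Phi0` is not divisible by `p`. `d = 3`, `s = q`:
`2 (±1) bb (p + j) = p Phi` mod `p ^ 2` and
`Phi = Phi0 * 2 ^ j * (p - 1) .. (p - j) * (±1) bb j` mod `p` by [Eval], [T0]; this is not `0` mod `p` if
`p > j` and `p > bb j > 0`. -/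
def St_C : Prop := ∀ j : ℕ, ∀ᶠ p : ℕ in atTop, p.Prime → padicValInt p (bb (p + j)) = 1

/-! ## Part 1 -/

/-- [Na] General `α`. Proof: `α = α0 + m`, `0 < α0 ≤ 1`, `m` an integer. For `m ≥ 0`:
`∑_(k < n) k ^ j log |k + α| = ∑_(m ≤ k < n + m) (k - m) ^ j log (k + α0)`; expand `(k - m) ^ j`; the
terms with `k < m` give a constant, those with `n ≤ k < n + m` are sequences
`polynomial * log (n + i + α0)`. Similarly for `m < 0`. -/
def St_Na : Prop := ∀ (α : ℚ) (i j : ℕ), gS α i j ∈ NN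

/-- [Nm] Multiplication by `n`. -/
def St_Nm : Prop := ∀ g ∈ NN, (fun n : ℕ => (n : ℝ) * g n) ∈ NN

/-- [Ns] Summation, from [Na], [Nm]. On the generators: a sequence which vanishes for large `n` gives
an eventually constant one; polynomials (Faulhaber over `ℝ`); `∑_(m < n) m ^ i log |m + β| = gS β 0 i`;
`∑_(m < n) gS α i j m = ∑_(k < n) k ^ j log (k + α) (S_i n - S_i (k + 1))` with the rational
polynomial `S_i n = ∑_(m < n) m ^ i`. -/
def St_Ns : Prop := ∀ g ∈ NN, (fun n : ℕ => ∑ k ∈ range n, g k) ∈ NN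

/-- [Nb] Substitution, from [Na], [Nm]. On the generators: `log |a n + b + β| = log a +
log |n + (b + β) / a|` for large `n`; `∑_(k < a n + b) k ^ j log (k + α)` is the sum over `k < a n`, plus
`b` sequences `polynomial * log (a n + i + α)`; and `∑_(k < a n) = ∑_(i < a) ∑_(k' < n) (a k' + i) ^ j
(log a + log (k' + (i + α) / a))`, where `0 < (i + α) / a ≤ 1`. -/
def St_Nb : Prop := ∀ g ∈ NN, ∀ a b : ℕ, 0 < a → (fun n : ℕ => g (a * n + b)) ∈ NN

/-- [Nc] The class `CF`, from [Nm], [Ns], [Nb], by induction. -/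
def St_Nc : Prop := ∀ f : ℕ → ℝ, CF f → (∀ᶠ n in atTop, 0 < f n) ∧
  (fun n => Real.log (f n)) ∈ NN

/-- [Nf] The explicit form (common denominator; `Submodule.span_induction` or
`Submodule.mem_span_iff_exists_finset_subset`). -/
def St_Nf : Prop := ∀ g ∈ NN, ∃ (d : NFD) (Q : Polynomial ℝ), ∀ᶠ n : ℕ in atTop,
  (d.D : ℝ) * g n = Q.eval (n : ℝ) + d.tr n

/-- [V1] Valuations. Proof: for `n ≥ N` all `n + β > 0`, and
`exp (Q n) = (b n) ^ D / (∏_t ∏_(k < n) (k + α) ^ (c n ^ i k ^ j) ∏_u (n + β) ^ (e n ^ i)) =: R n` is a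
positive rational number. Let `m` be the degree of `Q`: the `(m + 1)`-st difference of `Q` is zero, so
`∏_i (R (n + i)) ^ ((-1) ^ i binom(m + 1, i)) = 1`, and if `v_p (R n) = 0` for
`n = N, .., N + m` then `v_p (R n) = 0` for all `n ≥ N`. This is so if `p` is larger than all prime divisors of
the numerators and denominators of `R N, .., R (N + m)`. -/
def St_V1 : Prop := ∀ (b : ℕ → ℤ) (d : NFD) (Q : Polynomial ℝ), (∀ᶠ n in atTop, 0 < b n) →
  (∀ᶠ n : ℕ in atTop, (d.D : ℝ) * Real.log (b n) = Q.eval (n : ℝ) + d.tr n) →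
  (∀ᶠ n : ℕ in atTop, ∃ r : ℚ, Real.exp (Q.eval (n : ℝ)) = r) ∧
  ∃ N p0 : ℕ, ∀ p : ℕ, p.Prime → p0 < p → ∀ n : ℕ, N ≤ n →
    (d.D : ℤ) * (padicValInt p (b n) : ℤ) =
      ∑ t ∈ d.T, d.c t * ((n : ℤ) ^ t.2.1 * ∑ k ∈ range n,
        (k : ℤ) ^ t.2.2 * padicValRat p ((k : ℚ) + t.1)) +
      ∑ u ∈ d.U, d.e u * ((n : ℤ) ^ u.2 * padicValRat p ((n : ℚ) + u.1))

/-- [V2] The valuations of `k + α`. Proof: `α = u / v`, `v ∣ p - 1`; for `p > v`, `v_p (k + α) = v_p (v k + u)`;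
`p ∣ v k + u` iff `k = α (p - 1)` mod `p`; `k = α (p - 1) + i p` gives `v k + u = p (u + v i)` and
`u + v i < p` for `i < 3`, `p > 3 v`. -/
def St_V2 : Prop := ∀ α : ℚ, 0 < α → α ≤ 1 → ∃ p0 : ℕ, ∀ p : ℕ, p.Prime → p0 < p →
  p % α.den = 1 % α.den → ∀ (j n : ℕ), n ≤ 3 * p →
    ∑ k ∈ range n, (k : ℝ) ^ j * (padicValRat p ((k : ℚ) + α) : ℝ) =
      ∑ i ∈ range 3, (if (α : ℝ) * (p - 1) + i * p < n then ((α : ℝ) * (p - 1) + i * p) ^ j else 0)

/-- [V3] From [V1], [V2] (`M` = the product of the denominators of the `α`). -/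
def St_V3 : Prop := ∀ (b : ℕ → ℤ) (d : NFD) (Q : Polynomial ℝ), (∀ᶠ n in atTop, 0 < b n) →
  (∀ᶠ n : ℕ in atTop, (d.D : ℝ) * Real.log (b n) = Q.eval (n : ℝ) + d.tr n) → VF b d

/-- [P] Many primes in short intervals. Proof: otherwise, for some `K`, `X0`, every interval
`(X, lam X]`, `X ≥ X0`, has fewer than `K` primes `p = 1` mod `M`, so the sum of `log p / p` over the
primes `p = 1` mod `M` is at most `C + ∑_m K (m + 1) log lam / lam ^ m` roughly, which is finite; but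
it diverges (`ArithmeticFunction.vonMangoldt.not_summable_residueClass_prime_div`). -/
def St_P : Prop := ∀ (M : ℕ), 1 ≤ M → ∀ lam : ℝ, 1 < lam → ∀ K X0 : ℕ, ∃ X : ℕ, X0 ≤ X ∧
  ∃ P : Finset ℕ, K ≤ #P ∧ ∀ p ∈ P, p.Prime ∧ p % M = 1 % M ∧ X < p ∧ (p : ℝ) ≤ lam * X

/-- [A1] The size of the main part of `vp` in a window. Let `m ≥ 1` be the maximal degree `i + j` of
`t ∈ T`, `α0` the smallest `α` of a `t ∈ T` of degree `m`, `ρ*` the minimum of `α0 + 1` and of the next larger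
`α` of this kind; `P(ρ) = ∑ c_t ρ ^ i α0 ^ j` over the `t ∈ T` of degree `m` with `α = α0`, a nonzero
polynomial (the `i` are distinct); choose `ρ1 < ρ2` in `(α0, ρ*)` with `|P| ≥ 2 δ` on
`[ρ1, ρ2]`. For `ρ1 p ≤ n ≤ ρ2 p`, `p` large, the terms of degree `m` give `p ^ m P(n / p) + O(p ^ (m-1))`,
the terms of smaller degree `O(n ^ (m-1))`. -/
def St_A1 : Prop := ∀ (d : NFD) (m : ℕ), 1 ≤ m → (∀ t ∈ d.T, t.2.1 + t.2.2 ≤ m) →
  (∃ t ∈ d.T, t.2.1 + t.2.2 = m) → ∃ (δ ρ1 ρ2 : ℝ) (p1 : ℕ), 0 < δ ∧ 0 < ρ1 ∧ ρ1 < ρ2 ∧ ρ2 ≤ 3 ∧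
    ∀ p n : ℕ, p1 ≤ p → ρ1 * p ≤ n → (n : ℝ) ≤ ρ2 * p →
      δ * (n : ℝ) ^ m ≤ |∑ t ∈ d.T, (d.c t : ℝ) * ((n : ℝ) ^ t.2.1 * ∑ i ∈ range 3,
        (if (t.1 : ℝ) * (p - 1) + i * p < n then ((t.1 : ℝ) * (p - 1) + i * p) ^ t.2.2 else 0))|

/-- [A] All `t ∈ T` have degree at most one; from [A1], [P]. Proof: let `m ≥ 2` be the maximal degree,
`δ, ρ1, ρ2` from [A1], `1 < lam < ρ2 / ρ1`, `K` large, `X` and `P` from [P] with arbitrarily large `X`,
`n = ⌊ρ2 X⌋`, so `ρ1 p ≤ n ≤ ρ2 p` for `p ∈ P`. For each `u ∈ U` at most one `p ∈ P` divides the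
numerator of `n + β` (it is at most `C X < X ^ 2`, and not zero) and none divides its denominator. For the other
`p ∈ P` (at least `K - #U`): `D v_p (b n) = vp ≥ δ n ^ m`. As `∏ p ^ (v_p (b n))` divides `b n`:
`(K - #U) δ n ^ m log X ≤ D log (b n) ≤ C' n ^ 2 log n`, a contradiction for
large `K` and then large `X`. -/
def St_A : Prop := ∀ (b : ℕ → ℤ) (d : NFD), VF b d → (∀ᶠ n in atTop, 0 < b n) →
  (∃ C : ℝ, ∀ᶠ n : ℕ in atTop, Real.log (b n) ≤ C * ((n : ℝ) ^ 2 * Real.log n)) →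
  ∀ t ∈ d.T, t.2.1 + t.2.2 ≤ 1

/-- [A'] All `u ∈ U` have degree at most two. Proof: let `u ∈ U` have the degree `m ≥ 3`, the maximal one
for `β = u.1`. Take primes `p = 1` mod `M * β.den` (Dirichlet, `Nat.infinite_setOf_prime_and_eq_mod`),
`n = β (p - 1) + i p` with the integer `i` such that `0 < β + i ≤ 1`. For large `p`: `n ≤ 3 p`,
`n + β = (β + i) p` has valuation one, and `n + β' = (β + i) p + (β' - β)` has valuation zero for the
`β' ≠ β` in `U`. So `vp = O(n) + ∑_(u.1 = β) e_u n ^ i`, a polynomial of degree `m ≥ 3` in `n`, but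
`vp = D v_p (b n) ≤ D log (b n) / log p = O(n ^ 2)`. -/
def St_A' : Prop := ∀ (b : ℕ → ℤ) (d : NFD), VF b d → (∀ᶠ n in atTop, 0 < b n) →
  (∃ C : ℝ, ∀ᶠ n : ℕ in atTop, Real.log (b n) ≤ C * ((n : ℝ) ^ 2 * Real.log n)) →
  (∀ t ∈ d.T, t.2.1 + t.2.2 ≤ 1) → ∀ u ∈ d.U, u.2 ≤ 2

/-- The sum of the coefficients of `(α, 1, 0)`. -/
def NFD.sA (d : NFD) : ℤ := ∑ t ∈ d.T.filter (fun t => t.2 = (1, 0)), d.c t

/-- The sum of the coefficients of `(α, 0, 1)`. -/
def NFD.sB (d : NFD) : ℤ := ∑ t ∈ d.T.filter (fun t => t.2 = (0, 1)), d.c t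

/-- [B] Proof: let `a = sA`, `b' = ∑ c α` over the `(α, 0, 1)`, `c0 = ∑ c` over the `(α, 0, 0)`.
For `j` larger than all `- β` and large primes `p = 1` mod `M`, `n = p + j`: all `n + β` have the
valuation zero, and only `i = 0` occurs (`α (p - 1) + p ≥ p + j`):
`D = a (p + j) + b' (p - 1) + c0`. Two values of `p`, `j` each: `a = 0`, `b' = 0`, `c0 = D`. For `n = 2 p + j`:
`i = 0, 1` occur, `0 ≤ vp = 2 a n + 2 b' (p - 1) + p sB + 2 c0 = p sB + 2 D`, so `sB ≥ 0`. -/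
def St_B : Prop := ∀ (b : ℕ → ℤ) (d : NFD), VF b d → (∀ t ∈ d.T, t.2.1 + t.2.2 ≤ 1) →
  (∀ j : ℕ, ∀ᶠ p : ℕ in atTop, p.Prime → padicValInt p (b (p + j)) = 1) → d.sA = 0 ∧ 0 ≤ d.sB

/-- [E] Asymptotics. Proof: `∑_(k < n) log (k + α) = n log n - n + O(log n)`,
`∑_(k < n) k log (k + α) = n ^ 2 log n / 2 - n ^ 2 / 4 + O(n log n)`, `log (n + β) = log n + O(1 / n)`. So with
`G` the sum of the `e u` with `u.2 = 2`: `tr n = (sA + sB / 2 + G) n ^ 2 log n - (sA + sB / 4) n ^ 2 + O(n log n)`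
(`α > 0` for all terms). -/
def St_E : Prop := ∀ d : NFD, (∀ t ∈ d.T, t.2.1 + t.2.2 ≤ 1) → (∀ u ∈ d.U, u.2 ≤ 2) → ∃ G : ℝ,
  (fun n : ℕ => d.tr n - (G * ((n : ℝ) ^ 2 * Real.log n) - ((d.sA : ℝ) + d.sB / 4) * (n : ℝ) ^ 2))
    =O[atTop] fun n : ℕ => (n : ℝ) * Real.log n

/-- [F] From [E]. Proof: `Q n = D (n ^ 2 log n / 2 - κ n ^ 2) - G n ^ 2 log n + (sA + sB / 4) n ^ 2 + O(n log n)`
is a polynomial, so it has degree at most two, `G = D / 2` and its coefficient of `n ^ 2` is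
`q2 = - κ D + sA + sB / 4`. The second difference `2 q2` of `Q` satisfies: `exp (2 q2)` is rational. Since
`4 q2 = - 2 D log 3 + D + 4 sA + sB`, `exp (D + 4 sA + sB)` is rational, so `D + 4 sA + sB = 0`
(`Pool.Agent.MSF.irr_exp` in `Pool/Agent/MSF/Irr.lean`). -/
def St_F : Prop := ∀ (b : ℕ → ℤ) (d : NFD) (Q : Polynomial ℝ), (∀ᶠ n in atTop, 0 < b n) →
  (∀ᶠ n : ℕ in atTop, (d.D : ℝ) * Real.log (b n) = Q.eval (n : ℝ) + d.tr n) →
  (∀ᶠ n : ℕ in atTop, ∃ r : ℚ, Real.exp (Q.eval (n : ℝ)) = r) →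
  ((fun n : ℕ => Real.log (b n) - ((n : ℝ) ^ 2 * Real.log n / 2 -
    (Real.log 3 / 2 - 1 / 4) * (n : ℝ) ^ 2)) =O[atTop] fun n : ℕ => (n : ℝ) * Real.log n) →
  (∀ t ∈ d.T, t.2.1 + t.2.2 ≤ 1) → (∀ u ∈ d.U, u.2 ≤ 2) →
  (d.D : ℤ) + 4 * d.sA + d.sB = 0

/-- [Main] From [Nc], [Nf], [V1], [V3], [A], [A'], [B], [F], [C], [Link] and `F1.full`. -/
def St_Main : Prop := ∀ f : ℕ → ℝ, CF f → ∃ᶠ n : ℕ in atTop, F1.Fone n ≠ f n

end Pool.Agent.GNC
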