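import Pool.Agent.GNC.St

/-!
# GNC, module Top: the top coefficient of a product
-/

set_option autoImplicit false

open Finset

namespace Pool.Agent.GNC

theorem thm_Top : St_Top := by
  intro Ω _ _ S _ t top ht htop K _ _ g
  have h1 : (∏ _k : K, ∑ A : Finset Ω, ((g A : ℤ) : S) * ∏ e ∈ A, t e) =
      ∑ φ : K → Finset Ω, ∏ k, (((g (φ k) : ℤ) : S) * ∏ e ∈ φ k, t e) := by
    rw [prod_univ_sum, Fintype.piFinset_univ]
  have h2 : ∀ φ : K → Finset Ω, top (∏ k, (((g (φ k) : ℤ) : S) * ∏ e ∈ φ k, t e)) =
      if ∀ e, #(univ.filter fun k => e ∈ φ k) = 1 then ∏ k, g (φ k) else 0 := by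
    intro φ
    have h3 : (∏ k, (((g (φ k) : ℤ) : S) * ∏ e ∈ φ k, t e)) =
        (∏ k, g (φ k)) • ∏ e, t e ^ #(univ.filter fun k => e ∈ φ k) := by
      rw [prod_mul_distrib, zsmul_eq_mul, Int.cast_prod]
      congr 1
      have h4 : ∀ k, ∏ e ∈ φ k, t e = ∏ e, if e ∈ φ k then t e else 1 := by
        intro k
        rw [prod_ite_mem, univ_inter]
      rw [prod_congr rfl fun k _ => h4 k, prod_comm]
      refine prod_congr rfl fun e _ => ?_
      rw [prod_ite, prod_const, prod_const_one, mul_one]
    rw [h3, map_zsmul, smul_eq_mul]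
    by_cases h5 : ∀ e, #(univ.filter fun k => e ∈ φ k) = 1
    · rw [if_pos h5]
      have h6 : ∏ e, t e ^ #(univ.filter fun k => e ∈ φ k) = ∏ e ∈ (univ : Finset Ω), t e :=
        prod_congr rfl fun e _ => by rw [h5 e, pow_one]
      rw [h6, htop, if_pos rfl, mul_one]
    · rw [if_neg h5]
      push Not at h5
      obtain ⟨e0, he0⟩ := h5
      by_cases h7 : ∃ e, 2 ≤ #(univ.filter fun k => e ∈ φ k)
      · obtain ⟨e, he⟩ := h7
        have h8 : t e ^ #(univ.filter fun k => e ∈ φ k) = 0 := by
          obtain ⟨j, hj⟩ := Nat.exists_eq_add_of_le he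
          rw [hj, pow_add, ht, zero_mul]
        rw [prod_eq_zero (mem_univ e) h8, map_zero, mul_zero]
      · push Not at h7
        have h9 : ∏ e, t e ^ #(univ.filter fun k => e ∈ φ k) =
            ∏ e ∈ univ.filter (fun e => #(univ.filter fun k => e ∈ φ k) = 1), t e := by
          rw [prod_filter]
          refine prod_congr rfl fun e _ => ?_
          split_ifs with h10
          · rw [h10, pow_one]
          · have h11 := h7 e
            have h12 : #(univ.filter fun k => e ∈ φ k) = 0 := by omega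
            rw [h12, pow_zero]
        rw [h9, htop, if_neg, mul_zero]
        intro h13
        have h14 : e0 ∈ univ.filter (fun e => #(univ.filter fun k => e ∈ φ k) = 1) := by
          rw [h13]
          exact mem_univ e0
        exact he0 (mem_filter.1 h14).2
  rw [h1, map_sum, sum_congr rfl fun φ _ => h2 φ, ← sum_filter]
  unfold cs
  symm
  refine sum_bij (fun (c : Ω → K) _ => fun k => univ.filter fun e => c e = k) ?_ ?_ ?_ ?_
  · intro c _
    rw [mem_filter]
    refine ⟨mem_univ _, fun e => ?_⟩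
    rw [card_eq_one]
    refine ⟨c e, ?_⟩
    ext k
    rw [mem_filter, mem_filter, mem_singleton]
    exact ⟨fun h => h.2.2.symm, fun h => ⟨mem_univ _, mem_univ _, h.symm⟩⟩
  · intro c _ c' _ h
    funext e
    have h1 : e ∈ univ.filter fun e' => c' e' = c e := by
      rw [← congrFun h (c e), mem_filter]
      exact ⟨mem_univ _, rfl⟩
    exact (mem_filter.1 h1).2.symm
  · intro φ hφ
    rw [mem_filter] at hφ
    have h3 : ∀ e, ∃ k, (univ.filter fun k => e ∈ φ k) = {k} := fun e => card_eq_one.1 (hφ.2 e)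
    choose c hc using h3
    refine ⟨c, mem_univ _, ?_⟩
    funext k
    ext e
    rw [mem_filter]
    have h4 : k ∈ (univ.filter fun k => e ∈ φ k) ↔ k = c e := by rw [hc e, mem_singleton]
    rw [mem_filter] at h4
    constructor
    · intro h
      exact (h4.2 h.2.symm).2
    · intro h
      exact ⟨mem_univ _, (h4.1 ⟨mem_univ _, h⟩).symm⟩
  · intro c _
    rfl

end Pool.Agent.GNC
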