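import Pool.Agent.GNC.MD
import Pool.Agent.GNC.MX
import Pool.Agent.GNC.DX
import Pool.Agent.GNC.Sqf
import Pool.Agent.GNC.Top
import Pool.Agent.GNC.Big
import Pool.Agent.GNC.Dep

/-!
# GNC, modules T0 and T1: the congruences
-/

set_option autoImplicit false

open Finset MvPolynomial

namespace Pool.Agent.GNC

private theorem T_sum_pow {S ι : Type} [CommRing S] [DecidableEq ι] (p : ℕ) (hp : p.Prime)
    (y : ι → S) (A : Finset ι) : ∃ r : S, (∑ i ∈ A, y i) ^ p = ∑ i ∈ A, y i ^ p + p * r := by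
  induction A using Finset.induction_on with
  | empty => exact ⟨0, by rw [sum_empty, sum_empty, zero_pow hp.ne_zero, mul_zero, add_zero]⟩
  | insert i A hi ih =>
    obtain ⟨r, hr⟩ := ih
    obtain ⟨r', hr'⟩ := exists_add_pow_prime_eq hp (y i) (∑ j ∈ A, y j)
    refine ⟨r + y i * (∑ j ∈ A, y j) * r', ?_⟩
    rw [sum_insert hi, sum_insert hi, hr', hr]
    ring

private theorem T_pow {Ω S : Type} [Fintype Ω] [DecidableEq Ω] [CommRing S] (t : Ω → S)
    (ht : ∀ e, t e ^ 2 = 0) (p : ℕ) (hp : p.Prime) (g : Finset Ω → ℤ) (hg : g ∅ = 1) :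
    ∃ W : S, (∑ A : Finset Ω, ((g A : ℤ) : S) * ∏ e ∈ A, t e) ^ p = 1 + p * W := by
  obtain ⟨r, hr⟩ := T_sum_pow p hp (fun A : Finset Ω => ((g A : ℤ) : S) * ∏ e ∈ A, t e) univ
  refine ⟨r, ?_⟩
  rw [hr]
  congr 1
  rw [sum_eq_single ∅]
  · rw [hg, prod_empty, Int.cast_one, one_mul, one_pow]
  · intro A _ hA
    obtain ⟨e, he⟩ := nonempty_iff_ne_empty.2 hA
    obtain ⟨j, hj⟩ := Nat.exists_eq_add_of_le hp.two_le
    have h1 : (∏ e ∈ A, t e) ^ 2 = 0 := by
      rw [← prod_pow]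
      exact prod_eq_zero he (ht e)
    rw [hj, pow_add, mul_pow, h1, mul_zero, zero_mul]
  · intro h
    exact absurd (mem_univ _) h

private theorem T_card {Ω K : Type} [Fintype Ω] [Fintype K] [DecidableEq K] (c : Ω → K) :
    ∑ k, #(univ.filter fun e => c e = k) = Fintype.card Ω := by
  rw [← card_univ]
  exact (card_eq_sum_card_fiberwise (f := c) (t := univ) fun _ _ => mem_univ _).symm

/-- the sign -/
private theorem T_sign {Ω K : Type} [Fintype Ω] [DecidableEq Ω] [Fintype K] [DecidableEq K]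
    (g : Finset Ω → ℤ) :
    cs K (fun A => (-1) ^ #A * g A) = (-1) ^ Fintype.card Ω * cs K g := by
  unfold cs
  rw [mul_sum]
  refine sum_congr rfl fun c _ => ?_
  rw [prod_mul_distrib, prod_pow_eq_pow_sum, T_card]

private theorem T_mom_empty {V Ω : Type} [Fintype V] (l : Ω → V → ℤ) : mom l ∅ = 1 := by
  unfold mom
  rw [prod_empty, gau_one]

/-- the common part: the elements of the square-free algebra -/
private theorem T_main {V Ω : Type} [Fintype V] [DecidableEq V] [Fintype Ω] [DecidableEq Ω]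
    (l : Ω → V → ℤ) (p : ℕ) (hp : p.Prime) : ∃ (S : Type) (_ : CommRing S) (M D : S)
      (top : S →+ ℤ), M ^ 2 * D = 1 ∧ (∃ W : S, M ^ p = 1 + p * W) ∧
      (∀ (K : Type) [Fintype K] [DecidableEq K],
        top (M ^ Fintype.card K) = (-1) ^ Fintype.card Ω * cs K (mom l)) ∧
      ∀ (K : Type) [Fintype K] [DecidableEq K], top (D ^ Fintype.card K) = cs K (gw l) := by
  obtain ⟨S, hS, t, top, ht, htop⟩ := thm_Sqf Ω
  have hM : MM l t univ = ∑ A : Finset Ω, (((-1) ^ #A * mom l A : ℤ) : S) * ∏ e ∈ A, t e := by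
    rw [thm_MX V Ω S l t]
    refine sum_congr rfl fun A _ => ?_
    push_cast
    ring
  refine ⟨S, hS, MM l t univ, DD l t univ, top, thm_MD V Ω S l t ht univ, ?_, ?_, ?_⟩
  · rw [hM]
    refine T_pow t ht p hp (fun A => (-1) ^ #A * mom l A) ?_
    rw [card_empty, pow_zero, one_mul, T_mom_empty]
  · intro K _ _
    rw [hM, ← card_univ, ← prod_const, thm_Top Ω S t top ht htop K (fun A => (-1) ^ #A * mom l A),
      T_sign]
  · intro K _ _
    rw [thm_DX V Ω S l t, ← card_univ, ← prod_const, thm_Top Ω S t top ht htop K (gw l)]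

theorem thm_T0 : St_T0 := by
  intro p s d hp V Ω _ _ _ _ l hsd
  obtain ⟨S, _, M, D, top, h1, ⟨W, hW⟩, h2, h3⟩ := T_main l p hp.out
  have h4 : M ^ d = D ^ s + (p : ℤ) • (W * D ^ s) := by
    have h5 : M ^ d = M ^ p * D ^ s := by
      rw [← hsd, pow_add, pow_mul]
      have h6 : (M ^ 2) ^ s * D ^ s = 1 := by rw [← mul_pow, h1, one_pow]
      linear_combination (- M ^ d) * h6
    rw [h5, hW, zsmul_eq_mul]
    push_cast
    ring
  have h5 := congrArg top h4
  have h6 := h2 (Fin d)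
  have h7 := h3 (Fin s)
  rw [Fintype.card_fin] at h6 h7
  rw [map_add, map_zsmul, h6, h7, smul_eq_mul] at h5
  rw [h5]
  exact ⟨- top (W * D ^ s), by ring⟩

theorem thm_T1 : St_T1 := by
  intro p s d hp V Ω _ _ _ _ _ l hsd hl hs
  obtain ⟨S, _, M, D, top, h1, ⟨W, hW⟩, h2, h3⟩ := T_main l p hp.out
  have h6 := h2 (Fin d)
  have h7 := h3 (Fin s)
  have h8 := h3 (Fin s ⊕ ZMod p)
  rw [Fintype.card_fin] at h6 h7
  rw [Fintype.card_sum, Fintype.card_fin, ZMod.card] at h8
  have h9 : cs (Fin s) (gw l) = 0 := by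
    unfold cs
    refine sum_eq_zero fun c _ => ?_
    obtain ⟨k, hk⟩ : ∃ k, Fintype.card V ≤ #(univ.filter fun e => c e = k) := by
      by_contra hcon
      push Not at hcon
      have h10 := T_card c
      have h11 : ∑ k, #(univ.filter fun e => c e = k) ≤ ∑ _k : Fin s, (Fintype.card V - 1) :=
        sum_le_sum fun k _ => by have := hcon k; omega
      rw [sum_const, card_univ, Fintype.card_fin, smul_eq_mul] at h11
      omega
    exact prod_eq_zero (mem_univ k) (thm_Big thm_Dep V Ω l hl _ hk)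
  have h4 : 2 • M ^ d + D ^ (s + p) = 3 • D ^ s + ((p : ℤ) ^ 2) •
      (D ^ s * D ^ p * (3 * W ^ 2 + 2 * p * W ^ 3)) := by
    have h5 : M ^ d = M ^ p * D ^ s := by
      rw [← hsd, pow_add, pow_mul]
      have h6 : (M ^ 2) ^ s * D ^ s = 1 := by rw [← mul_pow, h1, one_pow]
      linear_combination (- M ^ d) * h6
    have h10 : (1 + p * W) ^ 2 * D ^ p = 1 := by
      rw [← hW, ← pow_mul, mul_comm p 2, pow_mul, ← mul_pow, h1, one_pow]
    rw [h5, hW, pow_add, zsmul_eq_mul, nsmul_eq_mul, nsmul_eq_mul]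
    push_cast
    linear_combination (D ^ s * (1 - 2 * p * W)) * h10
  have h5 := congrArg top h4
  rw [map_add, map_add, map_nsmul, map_nsmul, map_zsmul, h6, h7, h8, h9, smul_zero, zero_add,
    smul_eq_mul, nsmul_eq_mul] at h5
  refine ⟨top (D ^ s * D ^ p * (3 * W ^ 2 + 2 * p * W ^ 3)), ?_⟩
  rw [← h5]
  push_cast
  ring

end Pool.Agent.GNC
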